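import Pool.Agent.Helper112.LS

set_option autoImplicit false

/-! The variance of a bounded function in the residue classes of the moduli up to `Q`, from a bound
for its exponential sums at the fractions with small denominators and the large sieve. -/

namespace Pool.Agent.U142.BDH

open Finset Pool.Agent.Helper112

/-- the sum of `f` over a residue class -/
noncomputable def Ac (f : ℕ → ℂ) (N q a : ℕ) : ℂ := ∑ n ∈ (Icc 1 N).filter (fun n => n % q = a), f n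

theorem sum_Ac (f : ℕ → ℂ) (N : ℕ) {q : ℕ} (hq : 1 ≤ q) (w : ℕ → ℂ) :
    ∑ a ∈ range q, Ac f N q a * w a = ∑ n ∈ Icc 1 N, f n * w (n % q) := by
  unfold Ac
  simp only [sum_mul]
  rw [← sum_fiberwise_of_maps_to (s := Icc 1 N) (t := range q) (g := fun n => n % q)
    (f := fun n => f n * w (n % q)) (fun n _ => mem_range.2 (Nat.mod_lt _ hq))]
  apply sum_congr rfl
  intro a _
  apply sum_congr rfl
  intro n hn
  rw [(mem_filter.1 hn).2]

theorem root {q : ℕ} (hq : 1 ≤ q) {a a' : ℕ} (ha : a < q) (ha' : a' < q) :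
    ∑ b ∈ range q, ee (b * (((a : ℝ) - a') / q)) = if a = a' then (q : ℂ) else 0 := by
  have hq0 : (0 : ℝ) < q := by exact_mod_cast hq
  by_cases h : a = a'
  · subst h
    simp [ls_ee_zero]
  · rw [if_neg h]
    simp only [ls_ee_nat_mul]
    have h1 : ee (((a : ℝ) - a') / q) ≠ 1 := by
      intro h2
      obtain ⟨n, hn⟩ := ls_ee_eq_one h2
      rw [div_eq_iff hq0.ne'] at hn
      have h3 : (a : ℤ) - a' = n * q := by exact_mod_cast hn
      have h4 : |(a : ℤ) - a'| < q := by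
        rw [abs_lt]
        constructor <;> omega
      have h5 : (a : ℤ) - a' = 0 := Int.eq_zero_of_abs_lt_dvd ⟨n, by rw [h3]; ring⟩ h4
      omega
    rw [geom_sum_eq h1]
    have h2 : ee (((a : ℝ) - a') / q) ^ q = 1 := by
      rw [← ls_ee_nat_mul]
      have : (q : ℝ) * (((a : ℝ) - a') / q) = (((a : ℤ) - a' : ℤ) : ℝ) := by
        field_simp
        push_cast
        ring
      rw [this, ls_ee_int]
    rw [h2]
    simp

theorem pars {q : ℕ} (hq : 1 ≤ q) (g : ℕ → ℂ) :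
    ∑ b ∈ range q, ‖∑ a ∈ range q, g a * ee (b * ((a : ℝ) / q))‖ ^ 2 = q * ∑ a ∈ range q, ‖g a‖ ^ 2 := by
  have key : ((∑ b ∈ range q, ‖∑ a ∈ range q, g a * ee (b * ((a : ℝ) / q))‖ ^ 2 : ℝ) : ℂ) =
      ((q * ∑ a ∈ range q, ‖g a‖ ^ 2 : ℝ) : ℂ) := by
    push_cast
    have e : ∀ b ∈ range q, ((‖∑ a ∈ range q, g a * ee (b * ((a : ℝ) / q))‖ : ℂ)) ^ 2 =
        ∑ a ∈ range q, ∑ a' ∈ range q, g a * (starRingEnd ℂ) (g a') * ee (b * (((a : ℝ) - a') / q)) := by
      intro b _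
      rw [← Complex.mul_conj', map_sum, sum_mul_sum]
      apply sum_congr rfl
      intro a _
      apply sum_congr rfl
      intro a' _
      rw [map_mul, ls_conj_ee]
      have : ee (b * (((a : ℝ) - a') / q)) = ee (b * ((a : ℝ) / q)) * ee (-(b * ((a' : ℝ) / q))) := by
        rw [← ls_ee_add]
        congr 1
        ring
      rw [this]
      ring
    rw [sum_congr rfl e, sum_comm, mul_sum]
    apply sum_congr rfl
    intro a ha
    rw [sum_comm]
    have e2 : ∀ a' ∈ range q, ∑ b ∈ range q, g a * (starRingEnd ℂ) (g a') * ee (b * (((a : ℝ) - a') / q)) =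
        if a = a' then (q : ℂ) * (‖g a‖ : ℂ) ^ 2 else 0 := by
      intro a' ha'
      rw [← mul_sum, root hq (mem_range.1 ha) (mem_range.1 ha')]
      by_cases h : a = a'
      · subst h
        rw [if_pos rfl, if_pos rfl, Complex.mul_conj']
        ring
      · rw [if_neg h, if_neg h, mul_zero]
    rw [sum_congr rfl e2, sum_ite_eq, if_pos ha]
  exact_mod_cast key

/-- the exponential sum -/
noncomputable def Fs (f : ℕ → ℂ) (N : ℕ) (x : ℝ) : ℂ := ∑ n ∈ Icc 1 N, f n * ee (n * x)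

/-- the deviation from the mean in a residue class -/
noncomputable def Dv (f : ℕ → ℂ) (N q a : ℕ) : ℂ := Ac f N q a - (∑ n ∈ Icc 1 N, f n) / q

theorem ee_mod {q : ℕ} (hq : 1 ≤ q) (b n : ℕ) : ee (b * (((n % q : ℕ) : ℝ) / q)) = ee (n * ((b : ℝ) / q)) := by
  have hq0 : (0 : ℝ) < q := by exact_mod_cast hq
  have h1 : (n : ℝ) = ((n % q : ℕ) : ℝ) + q * ((n / q : ℕ) : ℝ) := by
    exact_mod_cast (Nat.mod_add_div n q).symm
  have h2 : (n : ℝ) * ((b : ℝ) / q) = b * (((n % q : ℕ) : ℝ) / q) + ((b * (n / q) : ℕ) : ℝ) := by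
    conv_lhs => rw [h1]
    push_cast
    field_simp
  rw [h2, ls_ee_add, ls_ee_nat, mul_one]

theorem variance (f : ℕ → ℂ) (N : ℕ) {q : ℕ} (hq : 1 ≤ q) :
    q * ∑ a ∈ range q, ‖Dv f N q a‖ ^ 2 = ∑ b ∈ Ico 1 q, ‖Fs f N ((b : ℝ) / q)‖ ^ 2 := by
  have hq0 : (q : ℂ) ≠ 0 := by
    have : q ≠ 0 := by omega
    exact_mod_cast this
  rw [← pars hq, range_eq_Ico, sum_eq_sum_Ico_succ_bot (by omega)]
  have h0 : ∑ a ∈ Ico 0 q, Dv f N q a * ee (((0 : ℕ) : ℝ) * ((a : ℝ) / q)) = 0 := by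
    have h1 := sum_Ac f N hq (fun _ => 1)
    simp only [mul_one] at h1
    rw [range_eq_Ico] at h1
    unfold Dv
    simp only [Nat.cast_zero, zero_mul, ls_ee_zero, mul_one]
    rw [sum_sub_distrib, h1]
    simp only [sum_const, Nat.card_Ico, nsmul_eq_mul, Nat.sub_zero]
    field_simp
    ring
  rw [h0]
  simp only [norm_zero, ne_eq, OfNat.ofNat_ne_zero, not_false_eq_true, zero_pow, zero_add]
  apply sum_congr rfl
  intro b hb
  rw [mem_Ico] at hb
  congr 2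
  have h1 := sum_Ac f N hq (fun a => ee (b * ((a : ℝ) / q)))
  simp only [ee_mod hq] at h1
  unfold Fs
  rw [← h1, ← range_eq_Ico]
  unfold Dv
  simp only [sub_mul]
  rw [sum_sub_distrib, ← mul_sum]
  have h2 := root hq (a := b) (a' := 0) (by omega) (by omega)
  rw [if_neg (by omega)] at h2
  have h3 : ∑ a ∈ range q, ee (b * ((a : ℝ) / q)) = 0 := by
    rw [← h2]
    apply sum_congr rfl
    intro a _
    congr 1
    push_cast
    ring
  rw [h3, mul_zero, sub_zero]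

/-- the sum over the reduced fractions with denominator `d` -/
noncomputable def Sd (g : ℝ → ℝ) (d : ℕ) : ℝ := ∑ a ∈ (range d).filter (fun a => a.Coprime d), g ((a : ℝ) / d)

theorem Sd_nonneg {g : ℝ → ℝ} (hg : ∀ x, 0 ≤ g x) (d : ℕ) : 0 ≤ Sd g d := sum_nonneg fun _ _ => hg _

theorem group {g : ℝ → ℝ} (hg : ∀ x, 0 ≤ g x) (Q : ℕ) :
    ∑ q ∈ Icc 1 Q, ∑ b ∈ Ico 1 q, g ((b : ℝ) / q) ≤ Q * ∑ d ∈ Icc 2 Q, Sd g d / d := by
  have h1 : ∑ q ∈ Icc 1 Q, ∑ b ∈ Ico 1 q, g ((b : ℝ) / q) ≤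
      ∑ d ∈ Icc 2 Q, ∑ a ∈ (range d).filter (fun a => a.Coprime d), ∑ _t ∈ Icc 1 (Q / d), g ((a : ℝ) / d) := by
    rw [sum_sigma' (Icc 1 Q) (fun q => Ico 1 q) (fun q b => g ((b : ℝ) / q))]
    have e2 : ∑ d ∈ Icc 2 Q, ∑ a ∈ (range d).filter (fun a => a.Coprime d), ∑ _t ∈ Icc 1 (Q / d), g ((a : ℝ) / d)
        = ∑ x ∈ (Icc 2 Q).sigma (fun d => (range d).filter (fun a => a.Coprime d) ×ˢ Icc 1 (Q / d)),
          g ((x.2.1 : ℝ) / x.1) := by
      rw [sum_sigma]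
      apply sum_congr rfl
      intro d _
      rw [sum_product]
    rw [e2]
    set i : (Σ _ : ℕ, ℕ) → (Σ _ : ℕ, ℕ × ℕ) :=
      fun x => ⟨x.1 / Nat.gcd x.2 x.1, (x.2 / Nat.gcd x.2 x.1, Nat.gcd x.2 x.1)⟩ with hi
    have hinj : Set.InjOn i ((Icc 1 Q).sigma (fun q => Ico 1 q) : Finset (Σ _ : ℕ, ℕ)) := by
      rintro ⟨q, b⟩ _ ⟨q', b'⟩ _ h
      simp only [hi, Sigma.mk.injEq, heq_eq_eq, Prod.mk.injEq] at h
      obtain ⟨h1, h2, h3⟩ := h
      have hq : q = q' := by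
        rw [← Nat.div_mul_cancel (Nat.gcd_dvd_right b q), h1, h3, Nat.div_mul_cancel (Nat.gcd_dvd_right b' q')]
      have hb : b = b' := by
        rw [← Nat.div_mul_cancel (Nat.gcd_dvd_left b q), h2, h3, Nat.div_mul_cancel (Nat.gcd_dvd_left b' q')]
      subst hq
      subst hb
      rfl
    have e3 : ∑ x ∈ (Icc 1 Q).sigma (fun q => Ico 1 q), g ((x.2 : ℝ) / x.1) =
        ∑ y ∈ ((Icc 1 Q).sigma (fun q => Ico 1 q)).image i, g ((y.2.1 : ℝ) / y.1) := by
      rw [sum_image hinj]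
      apply sum_congr rfl
      rintro ⟨q, b⟩ hx
      simp only [mem_sigma, mem_Icc, mem_Ico] at hx
      simp only [hi]
      congr 1
      have hg0 : (0 : ℝ) < (Nat.gcd b q : ℕ) := by
        have : 0 < Nat.gcd b q := Nat.gcd_pos_of_pos_right _ (by omega)
        exact_mod_cast this
      have k1 : (b : ℝ) = ((b / Nat.gcd b q : ℕ) : ℝ) * (Nat.gcd b q : ℕ) := by
        exact_mod_cast (Nat.div_mul_cancel (Nat.gcd_dvd_left b q)).symm
      have k2 : (q : ℝ) = ((q / Nat.gcd b q : ℕ) : ℝ) * (Nat.gcd b q : ℕ) := by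
        exact_mod_cast (Nat.div_mul_cancel (Nat.gcd_dvd_right b q)).symm
      conv_lhs => rw [k1, k2]
      rw [mul_div_mul_right _ _ hg0.ne']
    rw [e3]
    apply sum_le_sum_of_subset_of_nonneg
    · intro y hy
      rw [mem_image] at hy
      obtain ⟨⟨q, b⟩, hx, rfl⟩ := hy
      simp only [mem_sigma, mem_Icc, mem_Ico] at hx
      have hgp : 0 < Nat.gcd b q := Nat.gcd_pos_of_pos_right _ (by omega)
      have hgq : Nat.gcd b q ≤ b := Nat.gcd_le_left _ (by omega)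
      have k2 : q / Nat.gcd b q * Nat.gcd b q = q := Nat.div_mul_cancel (Nat.gcd_dvd_right b q)
      have k1 : b / Nat.gcd b q * Nat.gcd b q = b := Nat.div_mul_cancel (Nat.gcd_dvd_left b q)
      simp only [hi, mem_sigma, mem_Icc, mem_product, mem_filter, mem_range]
      have hd1 : 2 ≤ q / Nat.gcd b q := by
        by_contra hcon
        have : q / Nat.gcd b q ≤ 1 := by omega
        have : q / Nat.gcd b q * Nat.gcd b q ≤ 1 * Nat.gcd b q := Nat.mul_le_mul_right _ this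
        omega
      refine ⟨⟨hd1, (Nat.div_le_self _ _).trans hx.1.2⟩, ⟨?_, ?_⟩, hgp, ?_⟩
      · apply (Nat.mul_lt_mul_right hgp).1
        rw [k1, k2]
        exact hx.2.2
      · exact Nat.coprime_div_gcd_div_gcd hgp
      · rw [Nat.le_div_iff_mul_le (by omega), mul_comm, k2]
        exact hx.1.2
    · intro _ _ _
      exact hg _
  refine h1.trans ?_
  rw [mul_sum]
  apply sum_le_sum
  intro d hd
  rw [mem_Icc] at hd
  have hd0 : (0 : ℝ) < d := by exact_mod_cast (by omega : 0 < d)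
  have e4 : ∑ a ∈ (range d).filter (fun a => a.Coprime d), ∑ _t ∈ Icc 1 (Q / d), g ((a : ℝ) / d) =
      ((Q / d : ℕ) : ℝ) * Sd g d := by
    unfold Sd
    rw [mul_sum]
    apply sum_congr rfl
    intro a _
    simp
  rw [e4]
  have h5 : ((Q / d : ℕ) : ℝ) ≤ (Q : ℝ) / d := Nat.cast_div_le
  calc ((Q / d : ℕ) : ℝ) * Sd g d ≤ (Q : ℝ) / d * Sd g d := mul_le_mul_of_nonneg_right h5 (Sd_nonneg hg d)
    _ = _ := by ring

/-- partial summation -/
theorem partial_sum {S : ℕ → ℝ} (hS : ∀ d, 0 ≤ S d) {R : ℕ} (hR : 1 ≤ R) {N : ℝ} (hN : 0 ≤ N)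
    (h : ∀ D : ℕ, ∑ d ∈ Icc 1 D, S d ≤ 6 * (N + (D : ℝ) ^ 2) * N) {Q : ℕ} (hQ : R ≤ Q) :
    ∑ d ∈ Ioc R Q, S d / d ≤ 6 * N ^ 2 / R + 12 * N * Q := by
  have hA : ∀ D : ℕ, ∑ d ∈ Ioc R D, S d ≤ 6 * (N + (D : ℝ) ^ 2) * N := by
    intro D
    refine le_trans (sum_le_sum_of_subset_of_nonneg ?_ fun _ _ _ => hS _) (h D)
    intro d hd
    rw [mem_Ioc] at hd
    rw [mem_Icc]
    omega
  have key : ∀ Q : ℕ, R ≤ Q → ∑ d ∈ Ioc R Q, S d / d ≤
      (∑ d ∈ Ioc R Q, S d) / Q + 6 * N ^ 2 * (1 / R - 1 / Q) + 6 * N * (Q - R) := by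
    intro Q hQ
    induction Q, hQ using Nat.le_induction with
    | base => simp
    | succ Q hQ ih =>
      have hQ0 : (0 : ℝ) < Q := by exact_mod_cast (by omega : 0 < Q)
      rw [sum_Ioc_succ_top (by omega), sum_Ioc_succ_top (by omega)]
      push_cast
      set A : ℝ := ∑ d ∈ Ioc R Q, S d with hAdef
      have hAQ : A ≤ 6 * (N + (Q : ℝ) ^ 2) * N := hA Q
      have e1 : A / Q - A / ((Q : ℝ) + 1) = A / (Q * (Q + 1)) := by
        field_simp
        ring
      have e2 : 6 * N ^ 2 * (1 / R - 1 / ((Q : ℝ) + 1)) = 6 * N ^ 2 * (1 / R - 1 / Q) + 6 * N ^ 2 / (Q * (Q + 1)) := by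
        field_simp
        ring
      have e3 : A / (Q * (Q + 1)) ≤ 6 * N ^ 2 / (Q * (Q + 1)) + 6 * N := by
        rw [← sub_nonneg]
        have : 6 * N ^ 2 / ((Q : ℝ) * (Q + 1)) + 6 * N - A / (Q * (Q + 1)) =
            (6 * N ^ 2 + 6 * N * (Q * (Q + 1)) - A) / (Q * (Q + 1)) := by
          field_simp
        rw [this]
        apply div_nonneg _ (by positivity)
        nlinarith [mul_nonneg hN hQ0.le]
      rw [e2, add_div]
      linarith
  refine (key Q hQ).trans ?_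
  have hR0 : (0 : ℝ) < R := by exact_mod_cast hR
  have hQ0 : (0 : ℝ) < Q := by exact_mod_cast (by omega : 0 < Q)
  have h1 : (∑ d ∈ Ioc R Q, S d) / Q ≤ 6 * N ^ 2 / Q + 6 * N * Q := by
    rw [div_le_iff₀ hQ0]
    have : (6 * N ^ 2 / Q + 6 * N * Q) * (Q : ℝ) = 6 * (N + (Q : ℝ) ^ 2) * N := by
      field_simp
    rw [this]
    exact hA Q
  have h2 : 6 * N ^ 2 * (1 / (R : ℝ) - 1 / Q) = 6 * N ^ 2 / R - 6 * N ^ 2 / Q := by ring
  have h3 : 0 ≤ 6 * N * (R : ℝ) := by positivity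
  rw [h2]
  linarith

theorem sum_small {g : ℝ → ℝ} {B : ℝ} {R : ℕ}
    (hB : ∀ d a : ℕ, 2 ≤ d → d ≤ R → a < d → a.Coprime d → g ((a : ℝ) / d) ≤ B) (hB0 : 0 ≤ B) :
    ∑ d ∈ Icc 2 R, Sd g d / d ≤ R * B := by
  have h1 : ∀ d ∈ Icc 2 R, Sd g d / d ≤ B := by
    intro d hd
    rw [mem_Icc] at hd
    have hd0 : (0 : ℝ) < d := by exact_mod_cast (by omega : 0 < d)
    rw [div_le_iff₀ hd0]
    unfold Sd
    calc ∑ a ∈ (range d).filter (fun a => a.Coprime d), g ((a : ℝ) / d)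
        ≤ ∑ a ∈ (range d).filter (fun a => a.Coprime d), B := by
          apply sum_le_sum
          intro a ha
          rw [mem_filter, mem_range] at ha
          exact hB d a hd.1 hd.2 ha.1 ha.2
      _ = ((range d).filter (fun a => a.Coprime d)).card * B := by rw [sum_const, nsmul_eq_mul]
      _ ≤ d * B := by
          apply mul_le_mul_of_nonneg_right _ hB0
          have := card_filter_le (range d) (fun a => a.Coprime d)
          rw [card_range] at this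
          exact_mod_cast this
      _ = B * d := by ring
  refine (sum_le_sum h1).trans ?_
  rw [sum_const, nsmul_eq_mul, Nat.card_Icc]
  apply mul_le_mul_of_nonneg_right _ hB0
  have : R + 1 - 2 ≤ R := by omega
  exact_mod_cast this

/-- the mean square of the deviations -/
theorem core {f : ℕ → ℂ} (hf : ∀ n, ‖f n‖ ≤ 1) (N : ℕ) {R : ℕ} (hR : 1 ≤ R) {B : ℝ} (hB0 : 0 ≤ B)
    (hB : ∀ d a : ℕ, 2 ≤ d → d ≤ R → a < d → a.Coprime d → ‖Fs f N ((a : ℝ) / d)‖ ^ 2 ≤ B) (Q : ℕ) :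
    ∑ q ∈ Icc 1 Q, (q : ℝ) * ∑ a ∈ range q, ‖Dv f N q a‖ ^ 2 ≤
      Q * (R * B + 6 * (N : ℝ) ^ 2 / R + 12 * N * Q) := by
  set g : ℝ → ℝ := fun x => ‖Fs f N x‖ ^ 2 with hg
  have hg0 : ∀ x, 0 ≤ g x := fun x => by positivity
  have h1 : ∑ q ∈ Icc 1 Q, (q : ℝ) * ∑ a ∈ range q, ‖Dv f N q a‖ ^ 2 =
      ∑ q ∈ Icc 1 Q, ∑ b ∈ Ico 1 q, g ((b : ℝ) / q) := by
    apply sum_congr rfl
    intro q hq
    rw [mem_Icc] at hq
    exact variance f N hq.1
  rw [h1]
  refine (group hg0 Q).trans ?_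
  apply mul_le_mul_of_nonneg_left _ (Nat.cast_nonneg _)
  have hls : ∀ D : ℕ, ∑ d ∈ Icc 1 D, Sd g d ≤ 6 * ((N : ℝ) + (D : ℝ) ^ 2) * N := by
    intro D
    have h2 := additive_large_sieve N D f
    have h3 : ∑ n ∈ Icc 1 N, ‖f n‖ ^ 2 ≤ (N : ℝ) := by
      calc ∑ n ∈ Icc 1 N, ‖f n‖ ^ 2 ≤ ∑ n ∈ Icc 1 N, (1 : ℝ) := by
            apply sum_le_sum
            intro n _
            have := pow_le_pow_left₀ (norm_nonneg _) (hf n) 2
            rwa [one_pow] at this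
        _ = N := by simp
    have h4 : ∑ d ∈ Icc 1 D, Sd g d = ∑ f_1 ∈ Icc 1 D, ∑ a ∈ (range f_1).filter (fun a => a.Coprime f_1),
        ‖∑ n ∈ Icc 1 N, f n * ee (n * a / f_1)‖ ^ 2 := by
      apply sum_congr rfl
      intro d _
      unfold Sd
      apply sum_congr rfl
      intro a _
      simp only [hg, Fs]
      congr 2
      apply sum_congr rfl
      intro n _
      rw [mul_div_assoc]
    rw [h4]
    refine h2.trans ?_
    exact mul_le_mul_of_nonneg_left h3 (by positivity)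
  have hS : ∀ d, 0 ≤ Sd g d := Sd_nonneg hg0
  rcases le_or_gt R Q with hQ | hQ
  · have h5 := partial_sum (S := Sd g) hS hR (Nat.cast_nonneg N) hls hQ
    have h6 := sum_small (g := g) (R := R) (B := B) hB hB0
    have h7 : ∑ d ∈ Icc 2 Q, Sd g d / d ≤ ∑ d ∈ Icc 2 R, Sd g d / d + ∑ d ∈ Ioc R Q, Sd g d / d := by
      rw [← sum_union]
      · apply sum_le_sum_of_subset_of_nonneg
        · intro d hd
          rw [mem_Icc] at hd
          rw [mem_union, mem_Icc, mem_Ioc]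
          omega
        · intro d _ _
          exact div_nonneg (hS d) (Nat.cast_nonneg _)
      · rw [disjoint_left]
        intro d h1 h2
        rw [mem_Icc] at h1
        rw [mem_Ioc] at h2
        omega
    linarith
  · have h6 := sum_small (g := g) (R := Q) (B := B) (fun d a h1 h2 => hB d a h1 (by omega)) hB0
    have hR0 : (0 : ℝ) < R := by exact_mod_cast hR
    have h7 : (Q : ℝ) * B ≤ R * B := by
      apply mul_le_mul_of_nonneg_right _ hB0
      exact_mod_cast hQ.le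
    have h8 : 0 ≤ 6 * (N : ℝ) ^ 2 / R := by positivity
    have h9 : 0 ≤ 12 * (N : ℝ) * Q := by positivity
    linarith

end Pool.Agent.U142.BDH
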