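import Pool.Agent.W41.FU12
import Pool.Agent.U142.BDH1

set_option autoImplicit false

/-! The mean square of the deviations of a function which is constant on the classes of integers
with the same trajectories at some time, over all residue classes of all moduli up to `κ N`. -/

namespace Pool.Agent.U142.BDH

open Finset Pool.Agent.H499R2.ND Pool.Agent.H499R2.CO Pool.Agent.W41 Pool.Agent.W41.FU

/-- the deviation from the mean in the residue class -/
noncomputable def Dr (f : ℤ → ℝ) (M q a : ℕ) : ℝ :=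
  ∑ n ∈ (Icc 1 M).filter (fun n => n % q = a), f (n : ℕ) - (∑ n ∈ Icc 1 M, f (n : ℕ)) / q

/-- truncation -/
noncomputable def tr (f : ℤ → ℝ) (M : ℕ) (n : ℕ) : ℂ := if n ≤ M then (f (n : ℕ) : ℂ) else 0

theorem tr_norm {f : ℤ → ℝ} (hf : ∀ x, |f x| ≤ 1) (M n : ℕ) : ‖tr f M n‖ ≤ 1 := by
  unfold tr
  split_ifs
  · rw [Complex.norm_real, Real.norm_eq_abs]
    exact hf _
  · simp

theorem ee_eq (x : ℝ) (n : ℕ) : Helper112.ee (n * x) = ee x (n : ℕ) := by
  unfold Helper112.ee ee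
  congr 1
  push_cast
  ring

theorem Fs_tr (f : ℤ → ℝ) {M N : ℕ} (h : M ≤ N) (x : ℝ) : Fs (tr f M) N x = EE f M x := by
  unfold Fs EE tr
  simp only [ite_mul, zero_mul]
  rw [← sum_filter]
  have e : (Icc 1 N).filter (fun n => n ≤ M) = Icc 1 M := by
    ext n
    simp only [mem_filter, mem_Icc]
    omega
  rw [e]
  apply sum_congr rfl
  intro n _
  rw [ee_eq]

theorem Dv_tr (f : ℤ → ℝ) {M N : ℕ} (h : M ≤ N) (q a : ℕ) : Dv (tr f M) N q a = (Dr f M q a : ℂ) := by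
  unfold Dv Ac tr Dr
  rw [← sum_filter, ← sum_filter]
  have e : (Icc 1 N).filter (fun n => n ≤ M) = Icc 1 M := by
    ext n
    simp only [mem_filter, mem_Icc]
    omega
  rw [e, filter_filter]
  have e2 : (Icc 1 N).filter (fun n => n % q = a ∧ n ≤ M) = (Icc 1 M).filter (fun n => n % q = a) := by
    ext n
    simp only [mem_filter, mem_Icc]
    omega
  rw [e2]
  push_cast
  rfl

/-- the exponential sums at the fractions with small denominators -/
theorem small_den {s : ℤ} (hs : s = 1 ∨ s = -1) {ε : ℝ} (hε : 0 < ε) (hε1 : ε ≤ 1) (R : ℕ) : ∃ N0 : ℕ, 1 ≤ N0 ∧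
    ∀ N : ℕ, N0 ≤ N → ∀ M : ℕ, M ≤ N → ∀ f ∈ SameT s, ∀ d a : ℕ, 2 ≤ d → d ≤ R → a < d → a.Coprime d →
      ‖EE f M ((a : ℝ) / d)‖ ≤ ε * N := by
  have hodd : Odd s := by rcases hs with rfl | rfl <;> decide
  have hco : IsCoprime s 3 := by
    rcases hs with rfl | rfl
    · exact isCoprime_one_left
    · exact (isCoprime_one_left).neg_left
  have hss : s * s = 1 := by rcases hs with rfl | rfl <;> norm_num
  obtain ⟨C, hC, N1, hN1, h1⟩ := fourier hodd hco hss hε hε1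
  refine ⟨⌈(N1 + C * (R + 1)) / ε⌉₊ + 1, by omega, fun N hN M hM f hf d a hd hdR had hco2 => ?_⟩
  have hNR : (N1 + C * (R + 1)) / ε ≤ N := by
    refine (Nat.le_ceil _).trans ?_
    exact_mod_cast (by omega : ⌈(N1 + C * (R + 1)) / ε⌉₊ ≤ N)
  rw [div_le_iff₀ hε] at hNR
  have hN0 : (0 : ℝ) ≤ N := Nat.cast_nonneg _
  rcases le_or_gt (M : ℝ) (ε * N) with hMs | hMs
  · exact (EE_triv hf.1 M _).trans hMs
  · have hCR : 0 ≤ C * ((R : ℝ) + 1) := by positivity
    have hM1 : N1 ≤ M := by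
      have : (N1 : ℝ) ≤ M := by linarith
      exact_mod_cast this
    have hd0 : (0 : ℝ) < d := by exact_mod_cast (by omega : 0 < d)
    have h2 : 1 / (d : ℝ) ≤ |(a : ℝ) / d - round ((a : ℝ) / d)| := by
      set k := round ((a : ℝ) / d) with hk
      have e1 : (a : ℝ) / d - k = (((a : ℤ) - k * d : ℤ) : ℝ) / d := by
        push_cast
        field_simp
      rw [e1, abs_div, abs_of_pos hd0]
      apply div_le_div_of_nonneg_right _ hd0.le
      have h3 : (a : ℤ) - k * d ≠ 0 := by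
        intro h
        have h4 : (d : ℤ) ∣ a := ⟨k, by linarith⟩
        have h5 : d ∣ a := by exact_mod_cast h4
        have h6 : d ∣ Nat.gcd a d := Nat.dvd_gcd h5 dvd_rfl
        rw [hco2] at h6
        have := Nat.le_of_dvd one_pos h6
        omega
      have h7 : 1 ≤ |(a : ℤ) - k * d| := Int.one_le_abs h3
      exact_mod_cast h7
    have h3 : C ≤ |(a : ℝ) / d - round ((a : ℝ) / d)| * M := by
      have hR1 : (d : ℝ) ≤ R := by exact_mod_cast hdR
      calc C = 1 / (d : ℝ) * (C * d) := by field_simp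
        _ ≤ 1 / (d : ℝ) * M := by
            apply mul_le_mul_of_nonneg_left _ (by positivity)
            have : C * d ≤ C * (R + 1) := mul_le_mul_of_nonneg_left (by linarith) (by linarith)
            have hN1' : (0 : ℝ) ≤ N1 := Nat.cast_nonneg _
            linarith
        _ ≤ _ := mul_le_mul_of_nonneg_right h2 (Nat.cast_nonneg _)
    refine (h1 M hM1 _ h3 f hf).trans ?_
    exact mul_le_mul_of_nonneg_left (by exact_mod_cast hM) hε.le

/-- the number of elements of an interval in a residue class -/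
theorem card_class {q : ℕ} (hq : 1 ≤ q) {M' M : ℕ} (h : M' ≤ M) (a : ℕ) :
    (((Ioc M' M).filter (fun n => n % q = a)).card : ℝ) ≤ ((M : ℝ) - M') / q + 1 := by
  have hq0 : (0 : ℝ) < q := by exact_mod_cast hq
  rcases lt_or_ge a q with ha | ha
  · have h1 := Nat.Ioc_filter_modEq_card M' M (r := q) (by omega) a
    have e : (Ioc M' M).filter (fun n => n % q = a) = (Ioc M' M).filter (fun n => n ≡ a [MOD q]) := by
      apply filter_congr
      intro n _
      unfold Nat.ModEq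
      rw [Nat.mod_eq_of_lt ha]
    rw [e]
    have hq0' : (0 : ℚ) < q := by exact_mod_cast hq
    have h2 : ((⌊((M : ℚ) - a) / (q : ℚ)⌋ - ⌊((M' : ℚ) - a) / (q : ℚ)⌋ : ℤ) : ℚ) ≤ ((M : ℚ) - M') / q + 1 := by
      have h3 := Int.floor_le (((M : ℚ) - a) / (q : ℚ))
      have h4 := Int.lt_floor_add_one (((M' : ℚ) - a) / (q : ℚ))
      push_cast
      have e2 : ((M : ℚ) - M') / q = (M - a) / q - (M' - a) / q := by ring
      rw [e2]
      linarith
    have h5 : (0 : ℚ) ≤ ((M : ℚ) - M') / q + 1 := by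
      have : (M' : ℚ) ≤ M := by exact_mod_cast h
      have : 0 ≤ ((M : ℚ) - M') / q := div_nonneg (by linarith) hq0'.le
      linarith
    have h6 : ((((Ioc M' M).filter (fun n => n ≡ a [MOD q])).card : ℤ) : ℚ) ≤ ((M : ℚ) - M') / q + 1 := by
      rw [h1]
      push_cast
      apply max_le _ h5
      push_cast at h2
      exact h2
    have h7 : ((((Ioc M' M).filter (fun n => n ≡ a [MOD q])).card : ℚ) : ℝ) ≤ ((((M : ℚ) - M') / q + 1 : ℚ) : ℝ) := by
      exact_mod_cast h6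
    push_cast at h7
    exact h7
  · have e : (Ioc M' M).filter (fun n => n % q = a) = ∅ := by
      apply filter_eq_empty_iff.2
      intro n _ h1
      have := Nat.mod_lt n hq
      omega
    rw [e]
    have h0 : (0 : ℝ) ≤ (M : ℝ) - M' := by
      have : (M' : ℝ) ≤ M := by exact_mod_cast h
      linarith
    have := div_nonneg h0 hq0.le
    simp only [card_empty, Nat.cast_zero]
    linarith

theorem Dr_step {f : ℤ → ℝ} (hf : ∀ x, |f x| ≤ 1) {q : ℕ} (hq : 1 ≤ q) {M' M : ℕ} (h : M' ≤ M) (a : ℕ) :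
    |Dr f M q a - Dr f M' q a| ≤ 2 * (((M : ℝ) - M') / q) + 1 := by
  have hq0 : (0 : ℝ) < q := by exact_mod_cast hq
  have hu : Icc 1 M = Icc 1 M' ∪ Ioc M' M := by
    ext n
    simp only [mem_union, mem_Icc, mem_Ioc]
    omega
  have hd : Disjoint (Icc 1 M') (Ioc M' M) := by
    rw [disjoint_left]
    intro n h1 h2
    rw [mem_Icc] at h1
    rw [mem_Ioc] at h2
    omega
  have e : Dr f M q a - Dr f M' q a = ∑ n ∈ (Ioc M' M).filter (fun n => n % q = a), f (n : ℕ) -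
      (∑ n ∈ Ioc M' M, f (n : ℕ)) / q := by
    unfold Dr
    rw [hu, filter_union, sum_union hd, sum_union (disjoint_filter_filter hd)]
    ring
  rw [e]
  have h1 : |∑ n ∈ (Ioc M' M).filter (fun n => n % q = a), f (n : ℕ)| ≤ ((M : ℝ) - M') / q + 1 := by
    refine le_trans (abs_sum_le_sum_abs _ _) ?_
    refine (sum_le_sum fun n _ => hf _).trans ?_
    rw [sum_const, nsmul_eq_mul, mul_one]
    exact card_class hq h a
  have h2 : |(∑ n ∈ Ioc M' M, f (n : ℕ)) / q| ≤ ((M : ℝ) - M') / q := by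
    rw [abs_div, abs_of_pos hq0]
    apply div_le_div_of_nonneg_right _ hq0.le
    refine le_trans (abs_sum_le_sum_abs _ _) ?_
    refine (sum_le_sum fun n _ => hf _).trans ?_
    rw [sum_const, nsmul_eq_mul, mul_one, Nat.card_Ioc, Nat.cast_sub h]
  calc _ ≤ |∑ n ∈ (Ioc M' M).filter (fun n => n % q = a), f (n : ℕ)| + |(∑ n ∈ Ioc M' M, f (n : ℕ)) / q| := abs_sub _ _
    _ ≤ _ := by linarith

/-- the theorem of Barban, Davenport and Halberstam -/
theorem bdh {s : ℤ} (hs : s = 1 ∨ s = -1) {ε : ℝ} (hε : 0 < ε) : ∃ κ : ℝ, 0 < κ ∧ ∃ N0 : ℕ, 1 ≤ N0 ∧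
    ∀ N : ℕ, N0 ≤ N → ∀ Q : ℕ, (Q : ℝ) ≤ κ * N → ∀ f ∈ SameT s, ∀ m : ℕ → ℕ → ℕ, (∀ q a, m q a ≤ N) →
      ∑ q ∈ Icc 1 Q, (q : ℝ) * ∑ a ∈ range q, Dr f (m q a) q a ^ 2 ≤ ε * Q * N ^ 2 := by
  wlog hε1 : ε ≤ 1 generalizing ε with H
  · obtain ⟨κ, hκ, N0, hN0, h⟩ := H one_pos le_rfl
    refine ⟨κ, hκ, N0, hN0, fun N hN Q hQ f hf m hm => (h N hN Q hQ f hf m hm).trans ?_⟩
    have : 0 ≤ (Q : ℝ) * N ^ 2 := by positivity
    nlinarith
  set J : ℕ := ⌈8 / ε⌉₊ with hJ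
  have hJε : 8 / ε ≤ J := Nat.le_ceil _
  have hJ0 : (0 : ℝ) < J := lt_of_lt_of_le (by positivity) hJε
  set R : ℕ := ⌈72 * ((J : ℝ) + 1) / ε⌉₊ with hR
  have hRε : 72 * ((J : ℝ) + 1) / ε ≤ R := Nat.le_ceil _
  have hR0 : (0 : ℝ) < R := lt_of_lt_of_le (by positivity) hRε
  have hR1 : 1 ≤ R := by exact_mod_cast hR0
  have hJ1 : 1 ≤ J := by exact_mod_cast hJ0
  set ε' : ℝ := ε / (12 * (J + 1) * R) with hε'
  have hε'0 : 0 < ε' := by positivity
  have hR1' : (1 : ℝ) ≤ R := by exact_mod_cast hR1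
  have hε'1 : ε' ≤ 1 := by
    rw [hε', div_le_one (by positivity)]
    have : 1 ≤ 12 * ((J : ℝ) + 1) * R := by nlinarith
    linarith
  set κ : ℝ := ε / (144 * (J + 1)) with hκ
  have hκ0 : 0 < κ := by positivity
  obtain ⟨N0, hN0, H⟩ := small_den hs hε'0 hε'1 R
  refine ⟨κ, hκ0, N0, hN0, fun N hN Q hQ f hf m hm => ?_⟩
  have hNp : 1 ≤ N := by omega
  have hN1 : (1 : ℝ) ≤ N := by exact_mod_cast hNp
  have hN0' : (0 : ℝ) < N := by linarith
  -- the grid
  have hgrid : ∀ M : ℕ, M ≤ N → ∃ j ∈ range (J + 1), j * N / J ≤ M ∧ (M : ℝ) - ((j * N / J : ℕ) : ℝ) ≤ N / J + 1 := by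
    intro M hM
    refine ⟨M * J / N, ?_, ?_, ?_⟩
    · rw [mem_range, Nat.lt_succ_iff]
      apply Nat.div_le_of_le_mul
      exact Nat.mul_le_mul_right _ hM
    · apply Nat.div_le_of_le_mul
      rw [mul_comm J M]
      exact Nat.div_mul_le_self _ _
    · set j := M * J / N with hj
      have h1 : M * J < N * (j + 1) := Nat.lt_mul_div_succ _ (by omega)
      have h2 : j * N < J * (j * N / J + 1) := Nat.lt_mul_div_succ _ (by omega)
      have h1' : (M : ℝ) * J < N * (j + 1) := by exact_mod_cast h1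
      have h2' : (j : ℝ) * N < J * (((j * N / J : ℕ) : ℝ) + 1) := by exact_mod_cast h2
      rw [← sub_nonneg]
      have : (N : ℝ) / J + 1 - (M - ((j * N / J : ℕ) : ℝ)) = (N + J * (((j * N / J : ℕ) : ℝ) + 1) - M * J) / J := by
        field_simp
        ring
      rw [this]
      apply div_nonneg _ hJ0.le
      nlinarith
  -- the mean square at the points of the grid
  have hcore : ∀ M : ℕ, M ≤ N → ∑ q ∈ Icc 1 Q, (q : ℝ) * ∑ a ∈ range q, Dr f M q a ^ 2 ≤
      Q * (R * (ε' * N) ^ 2 + 6 * (N : ℝ) ^ 2 / R + 12 * N * Q) := by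
    intro M hM
    have h1 := core (f := tr f M) (tr_norm hf.1 M) N hR1 (B := (ε' * N) ^ 2) (by positivity) (by
      intro d a hd hdR had hco
      rw [Fs_tr f hM]
      exact pow_le_pow_left₀ (norm_nonneg _) (H N hN M hM f hf d a hd hdR had hco) 2) Q
    refine le_trans (le_of_eq ?_) h1
    apply sum_congr rfl
    intro q _
    congr 1
    apply sum_congr rfl
    intro a _
    rw [Dv_tr f hM, Complex.norm_real, Real.norm_eq_abs, sq_abs]
  -- pointwise
  have hQN : (Q : ℝ) ≤ κ * N := hQ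
  set E : ℝ := 2 / J + 3 * κ with hE
  have hE0 : 0 < E := by positivity
  have hpt : ∀ q ∈ Icc 1 Q, ∀ a ∈ range q, Dr f (m q a) q a ^ 2 ≤
      2 * ∑ j ∈ range (J + 1), Dr f (j * N / J) q a ^ 2 + 2 * (E * N / q) ^ 2 := by
    intro q hq a _
    rw [mem_Icc] at hq
    have hq0 : (0 : ℝ) < q := by exact_mod_cast hq.1
    obtain ⟨j, hj, hjM, hjd⟩ := hgrid (m q a) (hm q a)
    have h1 := Dr_step hf.1 hq.1 hjM a
    have h2 : 2 * (((m q a : ℝ) - ((j * N / J : ℕ) : ℝ)) / q) + 1 ≤ E * N / q := by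
      have hqQ : (q : ℝ) ≤ κ * N := by
        refine le_trans ?_ hQN
        exact_mod_cast hq.2
      have h1q : (1 : ℝ) ≤ q := by exact_mod_cast hq.1
      rw [← sub_nonneg]
      have : E * N / q - (2 * (((m q a : ℝ) - ((j * N / J : ℕ) : ℝ)) / q) + 1) =
        (E * N - 2 * ((m q a : ℝ) - ((j * N / J : ℕ) : ℝ)) - q) / q := by
        field_simp
        ring
      rw [this]
      apply div_nonneg _ hq0.le
      have h3 : E * N = 2 * (N / J) + 3 * (κ * N) := by rw [hE]; ring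
      rw [h3]
      linarith
    have h3 : Dr f (m q a) q a ^ 2 ≤ 2 * Dr f (j * N / J) q a ^ 2 + 2 * (E * N / q) ^ 2 := by
      have h4 := h1.trans h2
      have h5 : (Dr f (m q a) q a - Dr f (j * N / J) q a) ^ 2 ≤ (E * N / q) ^ 2 := by
        rw [← sq_abs (Dr f (m q a) q a - Dr f (j * N / J) q a)]
        exact pow_le_pow_left₀ (abs_nonneg _) h4 2
      nlinarith [sq_nonneg (Dr f (m q a) q a - 2 * Dr f (j * N / J) q a)]
    have h6 : Dr f (j * N / J) q a ^ 2 ≤ ∑ j ∈ range (J + 1), Dr f (j * N / J) q a ^ 2 :=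
      single_le_sum (f := fun j => Dr f (j * N / J) q a ^ 2) (fun _ _ => by positivity) hj
    linarith
  have hsum : ∑ q ∈ Icc 1 Q, (q : ℝ) * ∑ a ∈ range q, Dr f (m q a) q a ^ 2 ≤
      2 * ∑ j ∈ range (J + 1), ∑ q ∈ Icc 1 Q, (q : ℝ) * ∑ a ∈ range q, Dr f (j * N / J) q a ^ 2 +
        Q * (2 * (E * N) ^ 2) := by
    have h1 : ∀ q ∈ Icc 1 Q, (q : ℝ) * ∑ a ∈ range q, Dr f (m q a) q a ^ 2 ≤
        2 * ∑ j ∈ range (J + 1), (q : ℝ) * ∑ a ∈ range q, Dr f (j * N / J) q a ^ 2 + 2 * (E * N) ^ 2 := by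
      intro q hq
      have hq' := mem_Icc.1 hq
      have hq0 : (0 : ℝ) < q := by exact_mod_cast hq'.1
      have h2 : ∑ a ∈ range q, Dr f (m q a) q a ^ 2 ≤
          2 * ∑ j ∈ range (J + 1), ∑ a ∈ range q, Dr f (j * N / J) q a ^ 2 + q * (2 * (E * N / q) ^ 2) := by
        refine (sum_le_sum (hpt q hq)).trans ?_
        rw [sum_add_distrib, ← mul_sum, sum_comm, sum_const, card_range, nsmul_eq_mul]
      calc (q : ℝ) * ∑ a ∈ range q, Dr f (m q a) q a ^ 2
          ≤ q * (2 * ∑ j ∈ range (J + 1), ∑ a ∈ range q, Dr f (j * N / J) q a ^ 2 + q * (2 * (E * N / q) ^ 2)) :=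
            mul_le_mul_of_nonneg_left h2 hq0.le
        _ = _ := by
            rw [← mul_sum (range (J + 1)) _ (q : ℝ)]
            field_simp
    refine (sum_le_sum h1).trans ?_
    rw [sum_add_distrib, ← mul_sum, sum_comm, sum_const, Nat.card_Icc, nsmul_eq_mul]
    simp
  have hj : ∀ j ∈ range (J + 1), ∑ q ∈ Icc 1 Q, (q : ℝ) * ∑ a ∈ range q, Dr f (j * N / J) q a ^ 2 ≤
      Q * (R * (ε' * N) ^ 2 + 6 * (N : ℝ) ^ 2 / R + 12 * N * Q) := by
    intro j hj
    rw [mem_range, Nat.lt_succ_iff] at hj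
    apply hcore
    apply Nat.div_le_of_le_mul
    exact Nat.mul_le_mul_right _ hj
  have h1 := sum_le_sum hj
  rw [sum_const, card_range, nsmul_eq_mul] at h1
  push_cast at h1
  -- constants
  have hQ0 : (0 : ℝ) ≤ Q := Nat.cast_nonneg _
  have c1 : 2 * ((J : ℝ) + 1) * (R * ε' ^ 2) ≤ ε / 6 := by
    have : ε' ^ 2 ≤ ε' := by nlinarith
    calc 2 * ((J : ℝ) + 1) * (R * ε' ^ 2) ≤ 2 * ((J : ℝ) + 1) * (R * ε') := by gcongr
      _ = ε / 6 := by
          rw [hε']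
          field_simp
          norm_num
  have c2 : 2 * ((J : ℝ) + 1) * (6 / R) ≤ ε / 6 := by
    rw [div_le_iff₀ hε] at hRε
    rw [← sub_nonneg]
    have : ε / 6 - 2 * ((J : ℝ) + 1) * (6 / R) = (R * ε - 72 * (J + 1)) / (6 * R) := by
      field_simp
      ring
    rw [this]
    apply div_nonneg _ (by positivity)
    linarith
  have c3 : 2 * ((J : ℝ) + 1) * (12 * κ) ≤ ε / 6 := by
    rw [hκ]
    apply le_of_eq
    field_simp
    norm_num
  have c4 : 2 * E ^ 2 ≤ ε / 2 := by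
    have h2 : 2 / (J : ℝ) ≤ ε / 4 := by
      rw [div_le_iff₀ hε] at hJε
      rw [div_le_iff₀ hJ0]
      linarith
    have h3 : 3 * κ ≤ ε / 4 := by
      rw [hκ]
      have : ε / (144 * ((J : ℝ) + 1)) ≤ ε / 144 := by
        apply div_le_div_of_nonneg_left hε.le (by norm_num)
        nlinarith
      linarith
    have h4 : E ≤ ε / 2 := by rw [hE]; linarith
    have h5 : E ^ 2 ≤ (ε / 2) ^ 2 := pow_le_pow_left₀ hE0.le h4 2
    have h6 : ε * ε ≤ ε * 1 := mul_le_mul_of_nonneg_left hε1 hε.le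
    have h7 : (ε / 2) ^ 2 = ε * ε / 4 := by ring
    linarith
  have hfin : 2 * (((J : ℝ) + 1) * (Q * (R * (ε' * N) ^ 2 + 6 * (N : ℝ) ^ 2 / R + 12 * N * Q))) +
      Q * (2 * (E * N) ^ 2) ≤ ε * Q * N ^ 2 := by
    have h2 : 12 * (N : ℝ) * Q ≤ 12 * κ * N ^ 2 := by nlinarith
    have h3 : 2 * (((J : ℝ) + 1) * (Q * (R * (ε' * N) ^ 2 + 6 * (N : ℝ) ^ 2 / R + 12 * N * Q))) ≤
        2 * (((J : ℝ) + 1) * (Q * (R * (ε' * N) ^ 2 + 6 * (N : ℝ) ^ 2 / R + 12 * κ * N ^ 2))) := by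
      gcongr
    have h4 : 2 * (((J : ℝ) + 1) * (Q * (R * (ε' * N) ^ 2 + 6 * (N : ℝ) ^ 2 / R + 12 * κ * N ^ 2))) +
        Q * (2 * (E * N) ^ 2) = (2 * ((J : ℝ) + 1) * (R * ε' ^ 2) + 2 * ((J : ℝ) + 1) * (6 / R) +
          2 * ((J : ℝ) + 1) * (12 * κ) + 2 * E ^ 2) * (Q * N ^ 2) := by ring
    have h5 : 0 ≤ (Q : ℝ) * N ^ 2 := by positivity
    have h6 : (2 * ((J : ℝ) + 1) * (R * ε' ^ 2) + 2 * ((J : ℝ) + 1) * (6 / R) +
          2 * ((J : ℝ) + 1) * (12 * κ) + 2 * E ^ 2) * (Q * N ^ 2) ≤ ε * (Q * N ^ 2) :=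
      mul_le_mul_of_nonneg_right (by linarith) h5
    linarith
  refine hsum.trans (le_trans ?_ hfin)
  linarith

end Pool.Agent.U142.BDH
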