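import Pool.Agent.U142.BDH2

set_option autoImplicit false

/-! Invariant sets in the residue classes of almost all moduli up to `κ N`. -/

namespace Pool.Agent.U142.BDH

open Finset Filter Topology Pool.Agent.H499R2.ND Pool.Agent.H499R2.CO Pool.Agent.W41 Pool.Agent.W41.FU

/-- the number of the elements of the set in a residue class -/
noncomputable def cnt (s : ℤ) (S : Set ℤ) (M q a : ℕ) : ℕ :=
  {n : ℕ | 1 ≤ n ∧ n ≤ M ∧ n % q = a ∧ s * (n : ℤ) ∈ S}.ncard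

theorem cnt_eq (s : ℤ) (S : Set ℤ) (M q a : ℕ) :
    (cnt s S M q a : ℝ) = ∑ n ∈ (Icc 1 M).filter (fun n => n % q = a), ind s S (n : ℕ) := by
  classical
  have e : {n : ℕ | 1 ≤ n ∧ n ≤ M ∧ n % q = a ∧ s * (n : ℤ) ∈ S} =
      ((((Icc 1 M).filter (fun n => n % q = a)).filter (fun n : ℕ => s * (n : ℤ) ∈ S) : Finset ℕ) : Set ℕ) := by
    ext n
    simp only [Set.mem_ofPred_eq, coe_filter, mem_filter, mem_Icc]
    tauto
  unfold cnt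
  rw [e, Set.ncard_coe_finset, card_filter]
  push_cast
  apply sum_congr rfl
  intro n _
  unfold ind
  rfl

theorem Dr_ind (s : ℤ) (S : Set ℤ) (M q a : ℕ) :
    Dr (bal s S 0) M q a = cnt s S M q a - (cF s S M : ℝ) / q := by
  unfold Dr
  have h1 := sum_bal s S 0 M
  rw [h1, cnt_eq]
  unfold bal
  simp only [sub_zero, zero_mul]

theorem unif_le {s : ℤ} (hs : s = 1 ∨ s = -1) {ε : ℝ} (hε : 0 < ε) : ∃ N0 : ℕ, 1 ≤ N0 ∧ ∀ N : ℕ, N0 ≤ N →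
    ∀ S : Set ℤ, Inv 1 S → ∀ δ : ℝ, HD s S δ → ∀ M : ℕ, M ≤ N → |(cF s S M : ℝ) - δ * M| ≤ ε * N := by
  obtain ⟨N0, h0⟩ := unif hs hε
  refine ⟨⌈(N0 : ℝ) / ε⌉₊ + 1, by omega, fun N hN S hS δ hδ M hM => ?_⟩
  rcases le_or_gt N0 M with h | h
  · refine (h0 S hS δ hδ M h).trans ?_
    exact mul_le_mul_of_nonneg_left (by exact_mod_cast hM) hε.le
  · obtain ⟨d0, d1⟩ := HD_mem hs hδ
    have h1 : (cF s S M : ℝ) ≤ M := by
      have := cF_compl s S M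
      exact_mod_cast (by omega : cF s S M ≤ M)
    have h2 : (0 : ℝ) ≤ cF s S M := Nat.cast_nonneg _
    have hM0 : (0 : ℝ) ≤ M := Nat.cast_nonneg _
    have h3 : |(cF s S M : ℝ) - δ * M| ≤ M := by
      rw [abs_le]
      constructor
      · nlinarith
      · nlinarith [mul_nonneg d0 hM0]
    have h4 : (M : ℝ) ≤ N0 := by exact_mod_cast h.le
    have h5 : (N0 : ℝ) / ε ≤ N := by
      refine (Nat.le_ceil _).trans ?_
      exact_mod_cast (by omega : ⌈(N0 : ℝ) / ε⌉₊ ≤ N)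
    rw [div_le_iff₀ hε] at h5
    linarith

/-- the theorem for invariant sets -/
theorem bdh_inv {s : ℤ} (hs : s = 1 ∨ s = -1) {ε : ℝ} (hε : 0 < ε) : ∃ κ : ℝ, 0 < κ ∧ ∃ N0 : ℕ, 1 ≤ N0 ∧
    ∀ N : ℕ, N0 ≤ N → ∀ Q : ℕ, (Q : ℝ) ≤ κ * N → ∀ S : Set ℤ, Inv 1 S → ∀ δ : ℝ, HD s S δ →
      ∀ m : ℕ → ℕ → ℕ, (∀ q a, m q a ≤ N) →
      ∑ q ∈ Icc 1 Q, (q : ℝ) * ∑ a ∈ range q, ((cnt s S (m q a) q a : ℝ) - δ * (m q a) / q) ^ 2 ≤ ε * Q * N ^ 2 := by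
  obtain ⟨κ, hκ, N1, hN1, H1⟩ := bdh hs (show 0 < ε / 4 by positivity)
  set η : ℝ := min 1 (ε / 4) with hη
  have hη0 : 0 < η := lt_min one_pos (by positivity)
  obtain ⟨N2, hN2, H2⟩ := unif_le hs hη0
  refine ⟨κ, hκ, N1 + N2, by omega, fun N hN Q hQ S hS δ hδ m hm => ?_⟩
  have h1 := H1 N (by omega) Q hQ (bal s S 0) (bal_same hs hS le_rfl zero_le_one) m hm
  have hN0 : (0 : ℝ) ≤ N := Nat.cast_nonneg _
  have hpt : ∀ q ∈ Icc 1 Q, (q : ℝ) * ∑ a ∈ range q, ((cnt s S (m q a) q a : ℝ) - δ * (m q a) / q) ^ 2 ≤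
      2 * ((q : ℝ) * ∑ a ∈ range q, Dr (bal s S 0) (m q a) q a ^ 2) + 2 * (η * N) ^ 2 := by
    intro q hq
    rw [mem_Icc] at hq
    have hq0 : (0 : ℝ) < q := by exact_mod_cast hq.1
    have h2 : ∀ a ∈ range q, ((cnt s S (m q a) q a : ℝ) - δ * (m q a) / q) ^ 2 ≤
        2 * Dr (bal s S 0) (m q a) q a ^ 2 + 2 * (η * N / q) ^ 2 := by
      intro a _
      rw [Dr_ind]
      have h3 := H2 N (by omega) S hS δ hδ (m q a) (hm q a)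
      have e : (cnt s S (m q a) q a : ℝ) - δ * (m q a) / q = (cnt s S (m q a) q a - (cF s S (m q a) : ℝ) / q) +
          ((cF s S (m q a) : ℝ) - δ * (m q a)) / q := by
        ring
      have h4 : (((cF s S (m q a) : ℝ) - δ * (m q a)) / q) ^ 2 ≤ (η * N / q) ^ 2 := by
        rw [← sq_abs, abs_div, abs_of_pos hq0]
        apply pow_le_pow_left₀ (by positivity)
        exact div_le_div_of_nonneg_right h3 hq0.le
      rw [e]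
      nlinarith [sq_nonneg ((cnt s S (m q a) q a - (cF s S (m q a) : ℝ) / q) -
          ((cF s S (m q a) : ℝ) - δ * (m q a)) / q)]
    calc (q : ℝ) * ∑ a ∈ range q, ((cnt s S (m q a) q a : ℝ) - δ * (m q a) / q) ^ 2
        ≤ q * ∑ a ∈ range q, (2 * Dr (bal s S 0) (m q a) q a ^ 2 + 2 * (η * N / q) ^ 2) :=
          mul_le_mul_of_nonneg_left (sum_le_sum h2) hq0.le
      _ = _ := by
          rw [sum_add_distrib, ← mul_sum, sum_const, card_range, nsmul_eq_mul]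
          field_simp
  refine (sum_le_sum hpt).trans ?_
  rw [sum_add_distrib, ← mul_sum, sum_const, Nat.card_Icc, nsmul_eq_mul, Nat.add_sub_cancel]
  have hη2 : η ^ 2 ≤ ε / 4 := by
    have h3 : η ≤ 1 := min_le_left _ _
    have h4 : η ≤ ε / 4 := min_le_right _ _
    nlinarith
  have h5 : (Q : ℝ) * (2 * (η * N) ^ 2) ≤ Q * (2 * (ε / 4 * N ^ 2)) := by
    apply mul_le_mul_of_nonneg_left _ (Nat.cast_nonneg _)
    rw [mul_pow]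
    have : 0 ≤ (N : ℝ) ^ 2 := by positivity
    nlinarith
  nlinarith

/-- from the mean square to almost all pairs -/
theorem cheb {Q : ℕ} {N : ℝ} (hN : 0 < N) {ε : ℝ} (hε : 0 < ε) (P : ℕ → ℕ → ℕ → ℝ) {X : ℕ}
    (h : ∀ m : ℕ → ℕ → ℕ, (∀ q a, m q a ≤ X) →
      ∑ q ∈ Icc 1 Q, (q : ℝ) * ∑ a ∈ range q, P (m q a) q a ^ 2 ≤ ε ^ 3 * Q * N ^ 2) :
    ({p : ℕ × ℕ | 1 ≤ p.1 ∧ p.1 ≤ Q ∧ p.2 < p.1 ∧ ∃ M : ℕ, M ≤ X ∧ ε * N / p.1 < |P M p.1 p.2|}.ncard : ℝ) ≤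
      ε * Q ^ 2 := by
  classical
  set m : ℕ → ℕ → ℕ := fun q a => if hh : ∃ M : ℕ, M ≤ X ∧ ε * N / q < |P M q a| then hh.choose else 0 with hm
  have hmX : ∀ q a, m q a ≤ X := by
    intro q a
    simp only [hm]
    split_ifs with hh
    · exact hh.choose_spec.1
    · exact Nat.zero_le _
  have h1 := h m hmX
  set B : Finset (Σ _ : ℕ, ℕ) := ((Icc 1 Q).sigma (fun q => range q)).filter
    (fun x => ε * N / x.1 < |P (m x.1 x.2) x.1 x.2|) with hB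
  have hcard : {p : ℕ × ℕ | 1 ≤ p.1 ∧ p.1 ≤ Q ∧ p.2 < p.1 ∧ ∃ M : ℕ, M ≤ X ∧ ε * N / p.1 < |P M p.1 p.2|}.ncard ≤ B.card := by
    rw [← Set.ncard_coe_finset]
    apply Set.ncard_le_ncard_of_injOn (fun p : ℕ × ℕ => (⟨p.1, p.2⟩ : Σ _ : ℕ, ℕ))
    · rintro ⟨q, a⟩ ⟨h2, h3, h4, h5⟩
      rw [mem_coe, hB, mem_filter, mem_sigma, mem_Icc, mem_range]
      refine ⟨⟨⟨h2, h3⟩, h4⟩, ?_⟩
      simp only [hm]
      rw [dif_pos h5]
      exact h5.choose_spec.2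
    · rintro ⟨q, a⟩ _ ⟨q', a'⟩ _ h
      simp only [Sigma.mk.injEq, heq_eq_eq] at h
      rw [h.1, h.2]
  rcases Nat.eq_zero_or_pos Q with hQ | hQ
  · subst hQ
    have hB0 : B = ∅ := by
      rw [hB]
      simp
    rw [hB0, card_empty] at hcard
    have : {p : ℕ × ℕ | 1 ≤ p.1 ∧ p.1 ≤ 0 ∧ p.2 < p.1 ∧ ∃ M : ℕ, M ≤ X ∧ ε * N / p.1 < |P M p.1 p.2|}.ncard = 0 := by
      omega
    rw [this]
    simp
  · have hQ0 : (0 : ℝ) < Q := by exact_mod_cast hQ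
    have h2 : (B.card : ℝ) * (ε ^ 2 * N ^ 2 / Q) ≤ ∑ q ∈ Icc 1 Q, (q : ℝ) * ∑ a ∈ range q, P (m q a) q a ^ 2 := by
      have e : ∑ q ∈ Icc 1 Q, (q : ℝ) * ∑ a ∈ range q, P (m q a) q a ^ 2 =
          ∑ x ∈ (Icc 1 Q).sigma (fun q => range q), (x.1 : ℝ) * P (m x.1 x.2) x.1 x.2 ^ 2 := by
        rw [sum_sigma]
        apply sum_congr rfl
        intro q _
        rw [mul_sum]
      rw [e]
      calc (B.card : ℝ) * (ε ^ 2 * N ^ 2 / Q) = ∑ _x ∈ B, ε ^ 2 * N ^ 2 / Q := by rw [sum_const, nsmul_eq_mul]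
        _ ≤ ∑ x ∈ B, (x.1 : ℝ) * P (m x.1 x.2) x.1 x.2 ^ 2 := by
            apply sum_le_sum
            rintro ⟨q, a⟩ hx
            rw [hB, mem_filter, mem_sigma, mem_Icc, mem_range] at hx
            obtain ⟨⟨⟨h3, h4⟩, h5⟩, h6⟩ := hx
            simp only at h3 h4 h5 h6 ⊢
            have hq0 : (0 : ℝ) < q := by exact_mod_cast h3
            have hqQ : (q : ℝ) ≤ Q := by exact_mod_cast h4
            have h7 : (ε * N / q) ^ 2 ≤ P (m q a) q a ^ 2 := by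
              rw [← sq_abs (P (m q a) q a)]
              exact pow_le_pow_left₀ (by positivity) h6.le 2
            calc ε ^ 2 * N ^ 2 / Q ≤ ε ^ 2 * N ^ 2 / q := by
                  apply div_le_div_of_nonneg_left (by positivity) hq0 hqQ
              _ = q * (ε * N / q) ^ 2 := by
                  field_simp
              _ ≤ _ := mul_le_mul_of_nonneg_left h7 hq0.le
        _ ≤ _ := by
            apply sum_le_sum_of_subset_of_nonneg (filter_subset _ _)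
            intro _ _ _
            positivity
    have h3 := h2.trans h1
    have h4 : (B.card : ℝ) ≤ ε * Q ^ 2 := by
      have h5 : 0 < ε ^ 2 * N ^ 2 / (Q : ℝ) := by positivity
      have h6 : (ε * (Q : ℝ) ^ 2) * (ε ^ 2 * N ^ 2 / Q) = ε ^ 3 * Q * N ^ 2 := by
        field_simp
      rw [← h6] at h3
      exact le_of_mul_le_mul_right h3 h5
    exact le_trans (by exact_mod_cast hcard) h4

/-- almost all pairs of a modulus and a class -/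
theorem pairs_inv {s : ℤ} (hs : s = 1 ∨ s = -1) {ε : ℝ} (hε : 0 < ε) : ∃ κ : ℝ, 0 < κ ∧ ∃ N0 : ℕ, 1 ≤ N0 ∧
    ∀ N : ℕ, N0 ≤ N → ∀ Q : ℕ, (Q : ℝ) ≤ κ * N → ∀ S : Set ℤ, Inv 1 S → ∀ δ : ℝ, HD s S δ →
      ({p : ℕ × ℕ | 1 ≤ p.1 ∧ p.1 ≤ Q ∧ p.2 < p.1 ∧ ∃ M : ℕ, M ≤ N ∧
        ε * N / p.1 < |(cnt s S M p.1 p.2 : ℝ) - δ * M / p.1|}.ncard : ℝ) ≤ ε * Q ^ 2 := by
  obtain ⟨κ, hκ, N0, hN0, H⟩ := bdh_inv hs (show 0 < ε ^ 3 by positivity)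
  refine ⟨κ, hκ, N0, hN0, fun N hN Q hQ S hS δ hδ => ?_⟩
  have hNp : (0 : ℝ) < N := by exact_mod_cast (by omega : 0 < N)
  exact cheb hNp hε (fun M q a => (cnt s S M q a : ℝ) - δ * M / q) (X := N) (H N hN Q hQ S hS δ hδ)

theorem pairs_same {s : ℤ} (hs : s = 1 ∨ s = -1) {ε : ℝ} (hε : 0 < ε) : ∃ κ : ℝ, 0 < κ ∧ ∃ N0 : ℕ, 1 ≤ N0 ∧
    ∀ N : ℕ, N0 ≤ N → ∀ Q : ℕ, (Q : ℝ) ≤ κ * N → ∀ f ∈ SameT s,
      ({p : ℕ × ℕ | 1 ≤ p.1 ∧ p.1 ≤ Q ∧ p.2 < p.1 ∧ ∃ M : ℕ, M ≤ N ∧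
        ε * N / p.1 < |Dr f M p.1 p.2|}.ncard : ℝ) ≤ ε * Q ^ 2 := by
  obtain ⟨κ, hκ, N0, hN0, H⟩ := bdh hs (show 0 < ε ^ 3 by positivity)
  refine ⟨κ, hκ, N0, hN0, fun N hN Q hQ f hf => ?_⟩
  have hNp : (0 : ℝ) < N := by exact_mod_cast (by omega : 0 < N)
  exact cheb hNp hε (fun M q a => Dr f M q a) (X := N) (H N hN Q hQ f hf)

theorem bad_finite (Q : ℕ) (P : ℕ × ℕ → Prop) : {p : ℕ × ℕ | 1 ≤ p.1 ∧ p.1 ≤ Q ∧ p.2 < p.1 ∧ P p}.Finite := by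
  apply ((Set.finite_Icc 0 Q).prod (Set.finite_Icc 0 Q)).subset
  rintro ⟨q, a⟩ ⟨h1, h2, h3, -⟩
  simp only at h1 h2 h3
  simp only [Set.mem_prod, Set.mem_Icc]
  omega

/-- the least element in a class, on average -/
theorem least {s : ℤ} (hs : s = 1 ∨ s = -1) {S : Set ℤ} (hS : Inv 1 S) {x : ℤ} (hx : x ∈ S) (hx0 : 0 < s * x)
    {ε : ℝ} (hε : 0 < ε) : ∃ C Q0 : ℕ, ∀ Q : ℕ, Q0 ≤ Q →
      ({p : ℕ × ℕ | 1 ≤ p.1 ∧ p.1 ≤ Q ∧ p.2 < p.1 ∧ ∀ n : ℕ, 1 ≤ n → n ≤ C * Q → n % p.1 = p.2 →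
        s * (n : ℤ) ∉ S}.ncard : ℝ) ≤ ε * Q ^ 2 := by
  obtain ⟨δ, -, -, hδ⟩ := dens_side (d := 1) odd_one (by norm_num) hs hS
  have hδ0 : 0 < δ := one_pos hs hS hx hx0 hδ
  set ε' : ℝ := min ε (δ / 2) with hε'
  have hε'0 : 0 < ε' := lt_min hε (by positivity)
  obtain ⟨κ, hκ, N0, hN0, H⟩ := pairs_inv hs hε'0
  set C : ℕ := ⌈1 / κ⌉₊ + 1 with hC
  have hCκ : 1 / κ ≤ C := by
    rw [hC]
    push_cast
    have := Nat.le_ceil (1 / κ)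
    linarith
  refine ⟨C, N0, fun Q hQ => ?_⟩
  have hCQ : N0 ≤ C * Q := by
    calc N0 ≤ 1 * Q := by omega
      _ ≤ C * Q := Nat.mul_le_mul_right _ (by omega)
  have hQκ : (Q : ℝ) ≤ κ * ((C * Q : ℕ) : ℝ) := by
    rw [div_le_iff₀ hκ] at hCκ
    have : (0 : ℝ) ≤ Q := Nat.cast_nonneg _
    push_cast
    nlinarith
  have h1 := H (C * Q) hCQ Q hQκ S hS δ hδ
  have h2 : ε' * (Q : ℝ) ^ 2 ≤ ε * Q ^ 2 := mul_le_mul_of_nonneg_right (min_le_left _ _) (by positivity)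
  refine le_trans ?_ (h1.trans h2)
  norm_cast
  apply Set.ncard_le_ncard _ (bad_finite Q _)
  rintro ⟨q, a⟩ ⟨h3, h4, h5, h6⟩
  simp only at h3 h4 h5 h6
  refine ⟨h3, h4, h5, C * Q, le_rfl, ?_⟩
  have h7 : cnt s S (C * Q) q a = 0 := by
    unfold cnt
    rw [Set.ncard_eq_zero (by
      apply (Set.finite_Icc 1 (C * Q)).subset
      rintro n ⟨h7, h8, -⟩
      exact ⟨h7, h8⟩)]
    ext n
    simp only [Set.mem_ofPred_eq, Set.mem_empty_iff_false, iff_false, not_and]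
    exact fun h7 h8 h9 => h6 n h7 h8 h9
  simp only
  rw [h7]
  have hq0 : (0 : ℝ) < q := by exact_mod_cast h3
  have hNp : (0 : ℝ) < ((C * Q : ℕ) : ℝ) := by
    have : 0 < C * Q := by omega
    exact_mod_cast this
  have h8 : 0 < δ * ((C * Q : ℕ) : ℝ) / q := by positivity
  rw [Nat.cast_zero, zero_sub, abs_neg, abs_of_pos h8]
  apply div_lt_div_of_pos_right _ hq0
  apply mul_lt_mul_of_pos_right _ hNp
  calc ε' ≤ δ / 2 := min_le_right _ _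
    _ < δ := by linarith

/-- the reduction -/
theorem reduce {s : ℤ} (hs : s = 1 ∨ s = -1) {S : Set ℤ} (hS : Inv 1 S) {c : ℝ} (hc : 0 < c) {ψ : ℕ → ℝ}
    (hψ : Tendsto ψ atTop (𝓝 0))
    (h : ∃ᶠ N : ℕ in atTop, ∃ Q : ℕ, 1 ≤ Q ∧ (Q : ℝ) ≤ ψ N * N ∧
      c * Q ^ 2 ≤ ({p : ℕ × ℕ | 1 ≤ p.1 ∧ p.1 ≤ Q ∧ p.2 < p.1 ∧
        (cnt s Sᶜ N p.1 p.2 : ℝ) ≤ ψ N * N / p.1}.ncard : ℝ)) :
    ∀ x : ℤ, 0 < s * x → x ∈ S := by
  intro x hx0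
  by_contra hcon
  have hSc : Inv 1 Sᶜ := fun x => not_congr (hS x)
  obtain ⟨δ, -, -, hδ⟩ := dens_side (d := 1) odd_one (by norm_num) hs hSc
  have hδ0 : 0 < δ := one_pos hs hSc hcon hx0 hδ
  set ε : ℝ := min (c / 2) (δ / 2) with hε
  have hε0 : 0 < ε := lt_min (by positivity) (by positivity)
  obtain ⟨κ, hκ, N0, hN0, H⟩ := pairs_inv hs hε0
  have h1 : ∀ᶠ N : ℕ in atTop, ψ N < min κ (δ / 2) := (tendsto_order.1 hψ).2 _ (lt_min hκ (by positivity))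
  obtain ⟨N, ⟨Q, hQ1, hQψ, hcQ⟩, h3, h4⟩ := (h.and_eventually (h1.and (eventually_ge_atTop N0))).exists
  have hNp : (0 : ℝ) < N := by exact_mod_cast (by omega : 0 < N)
  have hQ0 : (0 : ℝ) < Q := by exact_mod_cast hQ1
  have h5 : (Q : ℝ) ≤ κ * N := by
    refine hQψ.trans ?_
    exact mul_le_mul_of_nonneg_right (h3.le.trans (min_le_left _ _)) hNp.le
  have h6 := H N h4 Q h5 Sᶜ hSc δ hδ
  have h7 : ({p : ℕ × ℕ | 1 ≤ p.1 ∧ p.1 ≤ Q ∧ p.2 < p.1 ∧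
        (cnt s Sᶜ N p.1 p.2 : ℝ) ≤ ψ N * N / p.1}.ncard : ℝ) ≤
      ({p : ℕ × ℕ | 1 ≤ p.1 ∧ p.1 ≤ Q ∧ p.2 < p.1 ∧ ∃ M : ℕ, M ≤ N ∧
        ε * N / p.1 < |(cnt s Sᶜ M p.1 p.2 : ℝ) - δ * M / p.1|}.ncard : ℝ) := by
    norm_cast
    apply Set.ncard_le_ncard _ (bad_finite Q _)
    rintro ⟨q, a⟩ ⟨g1, g2, g3, g4⟩
    simp only at g1 g2 g3 g4
    refine ⟨g1, g2, g3, N, le_rfl, ?_⟩
    simp only
    have hq0 : (0 : ℝ) < q := by exact_mod_cast g1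
    have g5 : ψ N * N / q < δ / 2 * N / q := by
      apply div_lt_div_of_pos_right _ hq0
      exact mul_lt_mul_of_pos_right (lt_of_lt_of_le h3 (min_le_right _ _)) hNp
    have g6 : ε * N / q ≤ δ / 2 * N / q := by
      apply div_le_div_of_nonneg_right _ hq0.le
      exact mul_le_mul_of_nonneg_right (min_le_right _ _) hNp.le
    have g7 : δ * N / q = δ / 2 * N / q + δ / 2 * N / q := by ring
    rw [lt_abs]
    right
    linarith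
  have h8 : c * (Q : ℝ) ^ 2 ≤ ε * Q ^ 2 := (hcQ.trans h7).trans h6
  have h9 : ε * (Q : ℝ) ^ 2 ≤ c / 2 * Q ^ 2 := mul_le_mul_of_nonneg_right (min_le_left _ _) (by positivity)
  have h10 : 0 < c * (Q : ℝ) ^ 2 := by positivity
  linarith

end Pool.Agent.U142.BDH
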