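import Pool.Agent.U142.BDH3

set_option autoImplicit false

/-! All invariant sets at once: the deviation of an invariant set in a finite set of integers is
controlled by the deviations of finitely many merging classes. -/

namespace Pool.Agent.U142.BDH

open Finset Filter Topology Pool.Agent.H499R2.ND Pool.Agent.H499R2.CO Pool.Agent.W41 Pool.Agent.W41.FU

open Classical in
/-- number of `n ∈ A` with `s n ∈ S` -/
noncomputable def cA (s : ℤ) (S : Set ℤ) (A : Finset ℕ) : ℕ := (A.filter (fun n : ℕ => s * (n : ℤ) ∈ S)).card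

open Classical in
theorem cA_compl (s : ℤ) (S : Set ℤ) (A : Finset ℕ) : cA s S A + cA s Sᶜ A = A.card := by
  unfold cA
  have := card_filter_add_card_filter_not (s := A) (fun m : ℕ => s * (m : ℤ) ∈ S)
  simpa only [Set.mem_compl_iff] using this

open Classical in
theorem cA_classes {s : ℤ} (hs : s = 1 ∨ s = -1) {S : Set ℤ} (hS : Inv 1 S)
    (F : Finset {a : ℤ // IsRp 1 s a}) (A : Finset ℕ) :
    ∑ a ∈ F.filter (fun a : {a : ℤ // IsRp 1 s a} => (a : ℤ) ∈ S), cA s (Mg (Td 1) (a : ℤ)) A ≤ cA s S A := by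
  unfold cA
  rw [← card_biUnion]
  · apply card_le_card
    intro m hm
    rw [mem_biUnion] at hm
    obtain ⟨a, ha, hm⟩ := hm
    rw [mem_filter] at ha hm ⊢
    exact ⟨hm.1, (inv_class hS hm.2).2 ha.2⟩
  · intro a ha b hb hab
    rw [Function.onFun, disjoint_left]
    intro m h1 h2
    rw [mem_filter] at h1 h2
    exact hab (Subtype.ext (rep_unique hs a.2 b.2 (Mg_trans (Mg_symm h1.2) h2.2)))

/-- finitely many classes control all invariant sets -/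
theorem principle {s : ℤ} (hs : s = 1 ∨ s = -1) {ε : ℝ} (hε : 0 < ε) :
    ∃ (δc : ℤ → ℝ) (F : Finset {a : ℤ // IsRp 1 s a}), (∀ a : ℤ, HD s (Mg (Td 1) a) (δc a)) ∧
      ∀ A : Finset ℕ, ∀ S : Set ℤ, Inv 1 S → ∀ δ : ℝ, HD s S δ →
        |(cA s S A : ℝ) - δ * A.card| ≤ ∑ a ∈ F, |(cA s (Mg (Td 1) (a : ℤ)) A : ℝ) - δc a * A.card| + ε * A.card := by
  classical
  obtain ⟨δc, h1, -, h3, h4⟩ := structure_d (d := 1) odd_one (by norm_num) hs
  obtain ⟨F, hF⟩ : ∃ F : Finset {a : ℤ // IsRp 1 s a}, 1 - ε < ∑ a ∈ F, δc a := by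
    have := (h4.eventually (lt_mem_nhds (show 1 - ε < 1 by linarith))).exists
    exact this
  refine ⟨δc, F, fun a => (h1 a).2, fun A S hS δ hδ => ?_⟩
  set E : ℝ := ∑ a ∈ F, |(cA s (Mg (Td 1) (a : ℤ)) A : ℝ) - δc a * A.card| with hE
  have hA0 : (0 : ℝ) ≤ A.card := Nat.cast_nonneg _
  have low : ∀ S : Set ℤ, Inv 1 S → ∀ δ : ℝ, HD s S δ →
      ∑ a ∈ F.filter (fun a : {a : ℤ // IsRp 1 s a} => (a : ℤ) ∈ S), δc a ≤ δ := by
    intro S hS δ hδ
    have t1 : Tendsto (fun N : ℕ => ∑ a ∈ F.filter (fun a : {a : ℤ // IsRp 1 s a} => (a : ℤ) ∈ S),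
        (cF s (Mg (Td 1) (a : ℤ)) N : ℝ) / N) atTop (𝓝 (∑ a ∈ F.filter (fun a : {a : ℤ // IsRp 1 s a} => (a : ℤ) ∈ S), δc a)) :=
      tendsto_finsetSum _ fun a _ => cF_tendsto hs (h1 a).2
    refine le_of_tendsto_of_tendsto t1 (cF_tendsto hs hδ) (Eventually.of_forall fun N => ?_)
    simp only
    rw [← sum_div]
    exact div_le_div_of_nonneg_right (cF_classes_R hs hS F N) (Nat.cast_nonneg _)
  -- lower bound for every invariant set
  have key : ∀ S : Set ℤ, Inv 1 S → ∀ δ : ℝ, HD s S δ → δ * A.card - E - ε * A.card ≤ cA s S A := by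
    intro S hS δ hδ
    have hSc : Inv 1 Sᶜ := fun x => not_congr (hS x)
    obtain ⟨δ', -, -, hδ'⟩ := dens_side (d := 1) odd_one (by norm_num) hs hSc
    have hsum := HD_compl hδ hδ'
    have l1 : ∑ a ∈ F.filter (fun a : {a : ℤ // IsRp 1 s a} => ¬ (a : ℤ) ∈ S), δc a ≤ δ' := by
      refine le_trans (le_of_eq ?_) (low _ hSc δ' hδ')
      apply sum_congr _ (fun _ _ => rfl)
      ext a
      simp only [mem_filter, Set.mem_compl_iff]
    have hsplit := sum_filter_add_sum_filter_not F (fun a : {a : ℤ // IsRp 1 s a} => (a : ℤ) ∈ S) (fun a => δc a)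
    have l2 : δ - ε ≤ ∑ a ∈ F.filter (fun a : {a : ℤ // IsRp 1 s a} => (a : ℤ) ∈ S), δc a := by linarith
    have l3 : ∑ a ∈ F.filter (fun a : {a : ℤ // IsRp 1 s a} => (a : ℤ) ∈ S),
        (δc a * A.card - |(cA s (Mg (Td 1) (a : ℤ)) A : ℝ) - δc a * A.card|) ≤
        ∑ a ∈ F.filter (fun a : {a : ℤ // IsRp 1 s a} => (a : ℤ) ∈ S), (cA s (Mg (Td 1) (a : ℤ)) A : ℝ) := by
      apply sum_le_sum
      intro a _
      have := neg_abs_le ((cA s (Mg (Td 1) (a : ℤ)) A : ℝ) - δc a * A.card)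
      linarith
    rw [sum_sub_distrib, ← sum_mul] at l3
    have l4 : ∑ a ∈ F.filter (fun a : {a : ℤ // IsRp 1 s a} => (a : ℤ) ∈ S),
        |(cA s (Mg (Td 1) (a : ℤ)) A : ℝ) - δc a * A.card| ≤ E := by
      rw [hE]
      exact sum_le_sum_of_subset_of_nonneg (filter_subset _ _) fun _ _ _ => abs_nonneg _
    have l5 : (δ - ε) * A.card ≤ (∑ a ∈ F.filter (fun a : {a : ℤ // IsRp 1 s a} => (a : ℤ) ∈ S), δc a) * A.card :=
      mul_le_mul_of_nonneg_right l2 hA0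
    have l6 : ∑ a ∈ F.filter (fun a : {a : ℤ // IsRp 1 s a} => (a : ℤ) ∈ S), (cA s (Mg (Td 1) (a : ℤ)) A : ℝ) ≤ cA s S A := by
      exact_mod_cast cA_classes hs hS F A
    linarith
  have hSc : Inv 1 Sᶜ := fun x => not_congr (hS x)
  obtain ⟨δ', -, -, hδ'⟩ := dens_side (d := 1) odd_one (by norm_num) hs hSc
  have hsum := HD_compl hδ hδ'
  have k1 := key S hS δ hδ
  have k2 := key _ hSc δ' hδ'
  have k3 : (cA s S A : ℝ) + cA s Sᶜ A = A.card := by exact_mod_cast cA_compl s S A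
  rw [abs_le]
  constructor <;> nlinarith

theorem cnt_cA (s : ℤ) (S : Set ℤ) (M q a : ℕ) : cnt s S M q a = cA s S ((Icc 1 M).filter (fun n => n % q = a)) := by
  classical
  unfold cnt cA
  rw [← Set.ncard_coe_finset]
  congr 1
  ext n
  simp only [Set.mem_ofPred_eq, coe_filter, mem_filter, mem_Icc]
  tauto

theorem card_class_abs {q : ℕ} (hq : 1 ≤ q) (M : ℕ) {a : ℕ} (ha : a < q) :
    |(((Icc 1 M).filter (fun n => n % q = a)).card : ℝ) - (M : ℝ) / q| ≤ 1 := by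
  have hq0 : (0 : ℝ) < q := by exact_mod_cast hq
  have h1 := Nat.Ioc_filter_modEq_card 0 M (r := q) (by omega) a
  have e : (Icc 1 M).filter (fun n => n % q = a) = (Ioc 0 M).filter (fun n => n ≡ a [MOD q]) := by
    ext n
    simp only [mem_filter, mem_Icc, mem_Ioc, Nat.ModEq, Nat.mod_eq_of_lt ha]
    constructor <;> rintro ⟨⟨h1, h2⟩, h3⟩ <;> exact ⟨⟨by omega, h2⟩, h3⟩
  rw [e]
  have hq0' : (0 : ℚ) < q := by exact_mod_cast hq
  have haq : (a : ℚ) / q < 1 := by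
    rw [div_lt_one hq0']
    exact_mod_cast ha
  have ha0 : (0 : ℚ) ≤ (a : ℚ) / q := by positivity
  have hM0 : (0 : ℚ) ≤ (M : ℚ) / q := by positivity
  have e2 : (((M : ℕ) : ℚ) - (a : ℕ)) / (q : ℚ) = M / q - a / q := by ring
  have e3 : (((0 : ℕ) : ℚ) - (a : ℕ)) / (q : ℚ) = - (a / q) := by push_cast; ring
  have h6 : |((((Ioc 0 M).filter (fun n => n ≡ a [MOD q])).card : ℤ) : ℚ) - (M : ℚ) / q| ≤ 1 := by
    rw [h1, e2, e3]
    have f1 := Int.floor_le ((M : ℚ) / q - a / q)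
    have f2 := Int.lt_floor_add_one ((M : ℚ) / q - a / q)
    have f3 := Int.floor_le (-((a : ℚ) / q))
    have f4 := Int.lt_floor_add_one (-((a : ℚ) / q))
    have f5 : (⌊-((a : ℚ) / q)⌋ : ℤ) = 0 ∨ (⌊-((a : ℚ) / q)⌋ : ℤ) = -1 := by
      have g1 : (-1 : ℤ) ≤ ⌊-((a : ℚ) / q)⌋ := by
        rw [Int.le_floor]
        push_cast
        linarith
      have g2 : ⌊-((a : ℚ) / q)⌋ < 1 := by
        rw [Int.floor_lt]
        push_cast
        linarith
      omega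
    push_cast
    rw [abs_le]
    rcases f5 with f5 | f5
    · rw [f5] at f3 f4 ⊢
      push_cast at f3 f4 ⊢
      have ha00 : (a : ℚ) / q = 0 := by linarith
      rw [ha00] at f1 f2 ⊢
      constructor
      · have := le_max_left ((⌊(M : ℚ) / q - 0⌋ : ℚ) - 0) 0
        linarith
      · have : max ((⌊(M : ℚ) / q - 0⌋ : ℚ) - 0) 0 ≤ (M : ℚ) / q := by
          apply max_le _ hM0
          linarith
        linarith
    · rw [f5] at f3 f4 ⊢
      push_cast at f3 f4 ⊢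
      constructor
      · have := le_max_left ((⌊(M : ℚ) / q - a / q⌋ : ℚ) - -1) 0
        linarith
      · have : max ((⌊(M : ℚ) / q - a / q⌋ : ℚ) - -1) 0 ≤ (M : ℚ) / q + 1 := by
          apply max_le _ (by linarith)
          linarith
        linarith
  have h7 : ((|((((Ioc 0 M).filter (fun n => n ≡ a [MOD q])).card : ℤ) : ℚ) - (M : ℚ) / q| : ℚ) : ℝ) ≤ ((1 : ℚ) : ℝ) := by
    exact_mod_cast h6
  push_cast at h7
  exact h7

/-- all invariant sets and all cutoffs at once -/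
theorem bdh_all {s : ℤ} (hs : s = 1 ∨ s = -1) {ε : ℝ} (hε : 0 < ε) : ∃ κ : ℝ, 0 < κ ∧ ∃ N0 : ℕ, 1 ≤ N0 ∧
    ∀ N : ℕ, N0 ≤ N → ∀ Q : ℕ, (Q : ℝ) ≤ κ * N → ∀ S : ℕ → ℕ → Set ℤ, (∀ q a, Inv 1 (S q a)) →
      ∀ δ : ℕ → ℕ → ℝ, (∀ q a, HD s (S q a) (δ q a)) → ∀ m : ℕ → ℕ → ℕ, (∀ q a, m q a ≤ N) →
      ∑ q ∈ Icc 1 Q, (q : ℝ) * ∑ a ∈ range q, ((cnt s (S q a) (m q a) q a : ℝ) - δ q a * (m q a) / q) ^ 2 ≤
        ε * Q * N ^ 2 := by
  set η : ℝ := min 1 (ε / 64) with hη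
  have hη0 : 0 < η := lt_min one_pos (by positivity)
  have hη1 : η ≤ 1 := min_le_left _ _
  have hηε : η ≤ ε / 64 := min_le_right _ _
  obtain ⟨δc, F, hδc, HP⟩ := principle hs hη0
  set k : ℝ := (F.card : ℝ) + 1 with hk
  have hk1 : 1 ≤ k := by
    have : (0 : ℝ) ≤ F.card := Nat.cast_nonneg _
    linarith
  have hk0 : 0 < k := by linarith
  obtain ⟨κ, hκ, N0, hN0, H⟩ := bdh_inv hs (show 0 < ε / (8 * k ^ 2) by positivity)
  set κ' : ℝ := min κ (η / k) with hκ'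
  have hκ'0 : 0 < κ' := lt_min hκ (by positivity)
  refine ⟨κ', hκ'0, N0, hN0, fun N hN Q hQ S hS δ hδ m hm => ?_⟩
  have hNp : (0 : ℝ) < N := by exact_mod_cast (by omega : 0 < N)
  have hQκ : (Q : ℝ) ≤ κ * N := hQ.trans (mul_le_mul_of_nonneg_right (min_le_left _ _) hNp.le)
  have hQη : (Q : ℝ) * k ≤ η * N := by
    have := hQ.trans (mul_le_mul_of_nonneg_right (min_le_right _ _) hNp.le)
    rw [div_mul_eq_mul_div, le_div_iff₀ hk0] at this
    exact this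
  -- pointwise
  have hpt : ∀ q ∈ Icc 1 Q, ∀ a ∈ range q,
      ((cnt s (S q a) (m q a) q a : ℝ) - δ q a * (m q a) / q) ^ 2 ≤
        2 * (k * ∑ c ∈ F, ((cnt s (Mg (Td 1) (c : ℤ)) (m q a) q a : ℝ) - δc c * (m q a) / q) ^ 2) +
          2 * (4 * η * N / q) ^ 2 := by
    intro q hq a ha
    rw [mem_Icc] at hq
    rw [mem_range] at ha
    have hq0 : (0 : ℝ) < q := by exact_mod_cast hq.1
    have hq1 : (1 : ℝ) ≤ q := by exact_mod_cast hq.1
    set A : Finset ℕ := (Icc 1 (m q a)).filter (fun n => n % q = a) with hA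
    have h1 := HP A (S q a) (hS q a) (δ q a) (hδ q a)
    have h2 := card_class_abs hq.1 (m q a) ha
    rw [← hA] at h2
    obtain ⟨d0, d1⟩ := HD_mem hs (hδ q a)
    -- comparison of the cardinality with `m / q`
    have h3 : ∀ δ : ℝ, 0 ≤ δ → δ ≤ 1 → |δ * (A.card : ℝ) - δ * (m q a) / q| ≤ 1 := by
      intro δ h0 h1
      have : δ * (A.card : ℝ) - δ * (m q a) / q = δ * ((A.card : ℝ) - (m q a : ℝ) / q) := by ring
      rw [this, abs_mul, abs_of_nonneg h0]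
      calc δ * |(A.card : ℝ) - (m q a : ℝ) / q| ≤ 1 * 1 := mul_le_mul h1 h2 (abs_nonneg _) zero_le_one
        _ = 1 := one_mul 1
    have h4 : |(cnt s (S q a) (m q a) q a : ℝ) - δ q a * (m q a) / q| ≤
        ∑ c ∈ F, |(cnt s (Mg (Td 1) (c : ℤ)) (m q a) q a : ℝ) - δc c * (m q a) / q| + F.card + η * A.card + 1 := by
      have g1 : |(cnt s (S q a) (m q a) q a : ℝ) - δ q a * (m q a) / q| ≤
          |(cA s (S q a) A : ℝ) - δ q a * A.card| + |δ q a * (A.card : ℝ) - δ q a * (m q a) / q| := by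
        rw [cnt_cA, ← hA]
        refine le_trans (le_of_eq ?_) (abs_add_le _ _)
        congr 1
        ring
      have g2 : ∑ c ∈ F, |(cA s (Mg (Td 1) (c : ℤ)) A : ℝ) - δc c * A.card| ≤
          ∑ c ∈ F, (|(cnt s (Mg (Td 1) (c : ℤ)) (m q a) q a : ℝ) - δc c * (m q a) / q| + 1) := by
        apply sum_le_sum
        intro c _
        obtain ⟨e0, e1⟩ := HD_mem hs (hδc c)
        have g3 := h3 (δc c) e0 e1
        rw [cnt_cA, ← hA]
        have g4 : |(cA s (Mg (Td 1) (c : ℤ)) A : ℝ) - δc c * A.card| ≤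
            |(cA s (Mg (Td 1) (c : ℤ)) A : ℝ) - δc c * (m q a) / q| + |δc c * (A.card : ℝ) - δc c * (m q a) / q| := by
          refine le_trans (le_of_eq ?_) (abs_sub _ _)
          congr 1
          ring
        linarith
      rw [sum_add_distrib, sum_const, nsmul_eq_mul, mul_one] at g2
      have g5 := h3 (δ q a) d0 d1
      linarith
    -- the small terms
    have h5 : (F.card : ℝ) + η * A.card + 1 ≤ 4 * η * N / q := by
      have g1 : (A.card : ℝ) ≤ N / q + 1 := by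
        have g2 := (abs_le.1 h2).2
        have g3 : (m q a : ℝ) / q ≤ N / q := by
          apply div_le_div_of_nonneg_right _ hq0.le
          exact_mod_cast hm q a
        linarith
      have g4 : k ≤ η * N / q := by
        rw [le_div_iff₀ hq0]
        have g5 : (q : ℝ) ≤ Q := by exact_mod_cast hq.2
        calc k * q ≤ k * Q := mul_le_mul_of_nonneg_left g5 hk0.le
          _ = Q * k := mul_comm _ _
          _ ≤ _ := hQη
      have g6 : η * A.card ≤ η * (N / q) + η := by nlinarith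
      have g7 : η * (N / (q : ℝ)) = η * N / q := by ring
      have g8 : 4 * η * N / q = 4 * (η * N / q) := by ring
      rw [g8]
      have g9 : (F.card : ℝ) + 1 = k := rfl
      nlinarith
    have h6 : |(cnt s (S q a) (m q a) q a : ℝ) - δ q a * (m q a) / q| ≤
        ∑ c ∈ F, |(cnt s (Mg (Td 1) (c : ℤ)) (m q a) q a : ℝ) - δc c * (m q a) / q| + 4 * η * N / q := by linarith
    have h7 : (∑ c ∈ F, |(cnt s (Mg (Td 1) (c : ℤ)) (m q a) q a : ℝ) - δc c * (m q a) / q|) ^ 2 ≤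
        F.card * ∑ c ∈ F, ((cnt s (Mg (Td 1) (c : ℤ)) (m q a) q a : ℝ) - δc c * (m q a) / q) ^ 2 := by
      have := sq_sum_le_card_mul_sum_sq (s := F)
        (f := fun c => |(cnt s (Mg (Td 1) (c : ℤ)) (m q a) q a : ℝ) - δc c * (m q a) / q|)
      simpa only [sq_abs] using this
    have h8 : 0 ≤ ∑ c ∈ F, ((cnt s (Mg (Td 1) (c : ℤ)) (m q a) q a : ℝ) - δc c * (m q a) / q) ^ 2 :=
      sum_nonneg fun _ _ => by positivity
    set U := ∑ c ∈ F, |(cnt s (Mg (Td 1) (c : ℤ)) (m q a) q a : ℝ) - δc c * (m q a) / q| with hU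
    have hU0 : 0 ≤ U := sum_nonneg fun _ _ => abs_nonneg _
    have h9 : ((cnt s (S q a) (m q a) q a : ℝ) - δ q a * (m q a) / q) ^ 2 ≤ (U + 4 * η * N / q) ^ 2 := by
      rw [← sq_abs]
      exact pow_le_pow_left₀ (abs_nonneg _) h6 2
    nlinarith [sq_nonneg (U - 4 * η * N / q)]
  have hsum : ∀ q ∈ Icc 1 Q, (q : ℝ) * ∑ a ∈ range q, ((cnt s (S q a) (m q a) q a : ℝ) - δ q a * (m q a) / q) ^ 2 ≤
      2 * k * ∑ c ∈ F, ((q : ℝ) * ∑ a ∈ range q, ((cnt s (Mg (Td 1) (c : ℤ)) (m q a) q a : ℝ) - δc c * (m q a) / q) ^ 2) +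
        2 * (4 * η * N) ^ 2 := by
    intro q hq
    have hq' := mem_Icc.1 hq
    have hq0 : (0 : ℝ) < q := by exact_mod_cast hq'.1
    calc (q : ℝ) * ∑ a ∈ range q, ((cnt s (S q a) (m q a) q a : ℝ) - δ q a * (m q a) / q) ^ 2
        ≤ q * ∑ a ∈ range q, (2 * (k * ∑ c ∈ F, ((cnt s (Mg (Td 1) (c : ℤ)) (m q a) q a : ℝ) - δc c * (m q a) / q) ^ 2) +
          2 * (4 * η * N / q) ^ 2) := mul_le_mul_of_nonneg_left (sum_le_sum (hpt q hq)) hq0.le
      _ = _ := by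
          rw [sum_add_distrib, ← mul_sum, ← mul_sum, sum_comm, sum_const, card_range, nsmul_eq_mul, ← mul_sum F]
          field_simp
  refine (sum_le_sum hsum).trans ?_
  rw [sum_add_distrib, ← mul_sum, sum_comm, sum_const, Nat.card_Icc, nsmul_eq_mul, Nat.add_sub_cancel]
  have h1 : ∑ c ∈ F, ∑ q ∈ Icc 1 Q, ((q : ℝ) * ∑ a ∈ range q,
      ((cnt s (Mg (Td 1) (c : ℤ)) (m q a) q a : ℝ) - δc c * (m q a) / q) ^ 2) ≤
      ∑ c ∈ F, ε / (8 * k ^ 2) * Q * N ^ 2 := by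
    apply sum_le_sum
    intro c _
    exact H N hN Q hQκ (Mg (Td 1) (c : ℤ)) (Mg_inv 1 c) (δc c) (hδc c) m hm
  rw [sum_const, nsmul_eq_mul] at h1
  have hQN : (0 : ℝ) ≤ Q * N ^ 2 := by positivity
  have h2 : 2 * k * (F.card * (ε / (8 * k ^ 2) * Q * N ^ 2)) ≤ ε / 4 * (Q * N ^ 2) := by
    have h3 : (F.card : ℝ) ≤ k := by linarith
    have h4 : 2 * k * (k * (ε / (8 * k ^ 2) * Q * N ^ 2)) = ε / 4 * (Q * N ^ 2) := by
      field_simp
      ring
    rw [← h4]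
    apply mul_le_mul_of_nonneg_left _ (by positivity)
    apply mul_le_mul_of_nonneg_right h3 (by positivity)
  have h3 : 2 * k * ∑ c ∈ F, ∑ q ∈ Icc 1 Q, ((q : ℝ) * ∑ a ∈ range q,
      ((cnt s (Mg (Td 1) (c : ℤ)) (m q a) q a : ℝ) - δc c * (m q a) / q) ^ 2) ≤ ε / 4 * (Q * N ^ 2) :=
    (mul_le_mul_of_nonneg_left h1 (by positivity)).trans h2
  have h4 : (Q : ℝ) * (2 * (4 * η * N) ^ 2) = 32 * η ^ 2 * (Q * N ^ 2) := by ring
  have h5 : 32 * η ^ 2 ≤ ε / 2 := by nlinarith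
  have h6 : 32 * η ^ 2 * (Q * N ^ 2) ≤ ε / 2 * ((Q : ℝ) * N ^ 2) := mul_le_mul_of_nonneg_right h5 hQN
  rw [h4]
  have h7 : ε * (Q : ℝ) * N ^ 2 = ε * (Q * N ^ 2) := by ring
  rw [h7]
  have h8 : 0 ≤ ε * ((Q : ℝ) * N ^ 2) := by positivity
  linarith

/-- almost all pairs of a modulus and a class, with one exceptional set for all invariant sets -/
theorem pairs_all {s : ℤ} (hs : s = 1 ∨ s = -1) {ε : ℝ} (hε : 0 < ε) : ∃ κ : ℝ, 0 < κ ∧ ∃ N0 : ℕ, 1 ≤ N0 ∧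
    ∀ N : ℕ, N0 ≤ N → ∀ Q : ℕ, (Q : ℝ) ≤ κ * N →
      ({p : ℕ × ℕ | 1 ≤ p.1 ∧ p.1 ≤ Q ∧ p.2 < p.1 ∧ ∃ (S : Set ℤ) (δ : ℝ) (M : ℕ), Inv 1 S ∧ HD s S δ ∧ M ≤ N ∧
        ε * N / p.1 < |(cnt s S M p.1 p.2 : ℝ) - δ * M / p.1|}.ncard : ℝ) ≤ ε * Q ^ 2 := by
  classical
  obtain ⟨κ, hκ, N0, hN0, H⟩ := bdh_all hs (show 0 < ε ^ 3 by positivity)
  refine ⟨κ, hκ, N0, hN0, fun N hN Q hQ => ?_⟩
  have hNp : (0 : ℝ) < N := by exact_mod_cast (by omega : 0 < N)
  -- the choice of the worst sets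
  obtain ⟨δu, hδu⟩ : ∃ l : ℝ, HD s (Set.univ : Set ℤ) l := by
    obtain ⟨l, -, -, h⟩ := dens_side (d := 1) odd_one (by norm_num) hs (S := Set.univ) (fun x => by simp)
    exact ⟨l, h⟩
  set W : ℕ → ℕ → Prop := fun q a => ∃ x : Set ℤ × ℝ × ℕ, Inv 1 x.1 ∧ HD s x.1 x.2.1 ∧ x.2.2 ≤ N ∧
    ε * N / q < |(cnt s x.1 x.2.2 q a : ℝ) - x.2.1 * x.2.2 / q| with hW
  set x : ℕ → ℕ → Set ℤ × ℝ × ℕ := fun q a => if h : W q a then h.choose else (Set.univ, δu, 0) with hx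
  have hxs : ∀ q a, Inv 1 (x q a).1 ∧ HD s (x q a).1 (x q a).2.1 ∧ (x q a).2.2 ≤ N := by
    intro q a
    by_cases h : W q a
    · have h1 : x q a = h.choose := by simp only [hx]; rw [dif_pos h]
      rw [h1]
      exact ⟨h.choose_spec.1, h.choose_spec.2.1, h.choose_spec.2.2.1⟩
    · have h1 : x q a = (Set.univ, δu, 0) := by simp only [hx]; rw [dif_neg h]
      rw [h1]
      exact ⟨fun x => by simp, hδu, Nat.zero_le _⟩
  have h1 := cheb (Q := Q) hNp hε (fun _ q a => (cnt s (x q a).1 (x q a).2.2 q a : ℝ) - (x q a).2.1 * (x q a).2.2 / q)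
    (X := N) (fun m _ => H N hN Q hQ (fun q a => (x q a).1) (fun q a => (hxs q a).1) (fun q a => (x q a).2.1)
      (fun q a => (hxs q a).2.1) (fun q a => (x q a).2.2) (fun q a => (hxs q a).2.2))
  refine le_trans ?_ h1
  norm_cast
  apply Set.ncard_le_ncard _ (bad_finite Q _)
  rintro ⟨q, a⟩ ⟨g1, g2, g3, S, δ, M, g4, g5, g6, g7⟩
  simp only at g1 g2 g3 g7
  have hWqa : W q a := ⟨(S, δ, M), g4, g5, g6, g7⟩
  refine ⟨g1, g2, g3, 0, Nat.zero_le _, ?_⟩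
  simp only
  have h2 : x q a = hWqa.choose := by simp only [hx]; rw [dif_pos hWqa]
  rw [h2]
  exact hWqa.choose_spec.2.2.2

end Pool.Agent.U142.BDH
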