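import Mathlib
import Pool.Agent.H723R2.LSWWander
import Pool.Agent.Y514.WD.Sch

/-!
# The Fatou components of `f₀` which contain integers lie in vertical strips of width two
-/

set_option autoImplicit false

open Filter Topology Metric Set

namespace Pool.Agent.U142.FD

open Pool.Agent.H384R2.Fatou Pool.Agent.H723R2.LSW

/-- the real part of `f₀` on the vertical lines through the integers -/
theorem line_re {z : ℂ} {k : ℤ} (hz : z.re = k) :
    (f₀ z).re = (k : ℝ) / 2 + ((k : ℝ) + 1 / 2) * ((1 - (-1) ^ k * Real.cosh (Real.pi * z.im)) / 2) := by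
  have hz' : z = (k : ℂ) + (z.im : ℂ) * Complex.I := by
    apply Complex.ext
    · simp [hz]
    · simp
  set y := z.im with hy
  have hk1 : Complex.cos ((Real.pi : ℂ) * k) = (-1) ^ k := by
    have h := Real.cos_int_mul_pi k
    rw [show (Real.pi : ℂ) * k = (((k : ℝ) * Real.pi : ℝ) : ℂ) by push_cast; ring, ← Complex.ofReal_cos, h]
    push_cast
    rfl
  have hk2 : Complex.sin ((Real.pi : ℂ) * k) = 0 := by
    rw [mul_comm]; exact Complex.sin_int_mul_pi k
  have hc : Complex.cos ((Real.pi : ℂ) * z) = (((-1) ^ k * Real.cosh (Real.pi * y) : ℝ) : ℂ) := by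
    rw [hz', mul_add, Complex.cos_add, hk1, hk2, zero_mul, sub_zero,
      show (Real.pi : ℂ) * ((y : ℂ) * Complex.I) = ((Real.pi * y : ℝ) : ℂ) * Complex.I by push_cast; ring,
      Complex.cos_mul_I]
    push_cast
    rfl
  have hs : Complex.sin ((Real.pi : ℂ) * z) = (((-1) ^ k * Real.sinh (Real.pi * y) : ℝ) : ℂ) * Complex.I := by
    rw [hz', mul_add, Complex.sin_add, hk1, hk2, zero_mul, zero_add,
      show (Real.pi : ℂ) * ((y : ℂ) * Complex.I) = ((Real.pi * y : ℝ) : ℂ) * Complex.I by push_cast; ring,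
      Complex.sin_mul_I]
    push_cast
    ring
  unfold f₀
  rw [hc, hs]
  set A : ℝ := (-1) ^ k * Real.cosh (Real.pi * y) with hA
  set B : ℝ := (-1) ^ k * Real.sinh (Real.pi * y) with hB
  have e : z / 2 + (z + 1 / 2) * ((1 - (A : ℂ)) / 2) + 1 / (Real.pi : ℂ) * (1 / 2 - (A : ℂ)) * ((B : ℂ) * Complex.I) =
      (((k : ℝ) / 2 + ((k : ℝ) + 1 / 2) * ((1 - A) / 2) : ℝ) : ℂ) +
        ((y / 2 + y * ((1 - A) / 2) + 1 / Real.pi * (1 / 2 - A) * B : ℝ) : ℂ) * Complex.I := by
    rw [hz']
    push_cast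
    ring
  rw [e, Complex.add_re, Complex.ofReal_re, Complex.mul_I_re, Complex.ofReal_im, neg_zero, add_zero]

/-- the trajectory of `n` does not end in the fixed point `-1` -/
def Reg (n : ℤ) : Prop := ∀ k : ℕ, T^[k] n ≠ -1

theorem Reg.iter {n : ℤ} (h : Reg n) (k : ℕ) : Reg (T^[k] n) := by
  intro j
  rw [← Function.iterate_add_apply]
  exact h _

theorem Reg.step {n : ℤ} (h : Reg n) : Reg (T n) := h.iter 1

theorem Reg.ne1 {n : ℤ} (h : Reg n) : n ≠ -1 := h 0

theorem Reg.ne2 {n : ℤ} (h : Reg n) : n ≠ -2 := by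
  intro h2
  apply h 1
  rw [h2]
  decide

theorem Reg_iff (n : ℤ) : Reg n ↔ Reg (T n) := by
  constructor
  · exact Reg.step
  · intro h k hk
    cases k with
    | zero =>
      have h1 : n = -1 := hk
      apply h 0
      rw [h1]
      decide
    | succ k => exact h k hk

/-- the lines next to `m` are mapped far away from `T m` -/
theorem line_far {m : ℤ} (h1 : m ≠ -1) (h2 : m ≠ -2) {z : ℂ} (hz : z.re = ((m + 1 : ℤ) : ℝ) ∨ z.re = ((m - 1 : ℤ) : ℝ)) :
    max 1 (|(m : ℝ)| - 2) ≤ |(f₀ z).re - T m| := by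
  have hC : (1 : ℝ) ≤ Real.cosh (Real.pi * z.im) := Real.one_le_cosh _
  set C := Real.cosh (Real.pi * z.im) with hCd
  obtain ⟨k, hk, hzk⟩ : ∃ k : ℤ, (k = m + 1 ∨ k = m - 1) ∧ z.re = (k : ℝ) := by
    rcases hz with h | h
    · exact ⟨m + 1, Or.inl rfl, h⟩
    · exact ⟨m - 1, Or.inr rfl, h⟩
  rw [line_re hzk, ← hCd]
  rcases Int.even_or_odd m with hm | hm
  · -- `m` even, `k` odd
    have hko : Odd k := by
      rcases hk with rfl | rfl
      · exact hm.add_one
      · exact hm.sub_odd odd_one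
    rw [hko.neg_one_zpow]
    obtain ⟨a, ha⟩ := hm
    have hT : T m = a := by
      rw [ha, ← two_mul]; exact T_even a
    have hTr : ((T m : ℤ) : ℝ) = a := by rw [hT]
    have hmr : (m : ℝ) = 2 * a := by rw [ha]; push_cast; ring
    rw [hTr]
    rcases le_or_gt 0 m with hm0 | hm0
    · have ha0 : (0 : ℝ) ≤ a := by exact_mod_cast (by omega : 0 ≤ a)
      rw [hmr, abs_of_nonneg (by positivity : (0 : ℝ) ≤ 2 * a)]
      rcases le_or_gt 0 k with hk0 | hk0
      · have hk0' : (0 : ℝ) ≤ k := by exact_mod_cast hk0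
        have hk1 : (2 : ℝ) * a - 1 ≤ k := by
          have : 2 * a - 1 ≤ k := by omega
          exact_mod_cast this
        have hk2 : (1 : ℝ) ≤ k := by
          have : 1 ≤ k := by
            obtain ⟨b, hb⟩ := hko
            omega
          exact_mod_cast this
        have h3 : (3 * (k : ℝ) + 1) / 2 ≤ (k : ℝ) / 2 + ((k : ℝ) + 1 / 2) * ((1 - -1 * C) / 2) := by nlinarith
        refine le_trans ?_ (le_abs_self _)
        apply max_le
        · rcases eq_or_lt_of_le ha0 with h0 | h0
          · rw [← h0]; linarith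
          · have : (1 : ℝ) ≤ a := by
              have : 0 < a := by exact_mod_cast h0
              exact_mod_cast (by omega : 1 ≤ a)
            linarith
        · linarith
      · -- `k = -1`, `m = 0`
        have hka : k = -1 ∧ a = 0 := by omega
        rw [hka.1, hka.2]
        push_cast
        rw [abs_of_neg (by linarith)]
        apply max_le <;> linarith
    · have ha0 : (a : ℝ) ≤ -2 := by
        have : a ≤ -2 := by omega
        exact_mod_cast this
      rw [hmr, abs_of_nonpos (by linarith : (2 : ℝ) * a ≤ 0)]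
      have hk1 : (k : ℝ) ≤ 2 * a + 1 := by
        have : k ≤ 2 * a + 1 := by omega
        exact_mod_cast this
      have h3 : (k : ℝ) / 2 + ((k : ℝ) + 1 / 2) * ((1 - -1 * C) / 2) ≤ (3 * (k : ℝ) + 1) / 2 := by nlinarith
      refine le_trans ?_ (neg_le_abs _)
      apply max_le <;> linarith
  · -- `m` odd, `k` even
    have hke : Even k := by
      rcases hk with rfl | rfl
      · exact hm.add_one
      · exact hm.sub_odd odd_one
    rw [hke.neg_one_zpow]
    obtain ⟨a, ha⟩ := hm
    have hT : T m = 3 * a + 2 := by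
      rw [ha]; exact T_odd a
    have hTr : ((T m : ℤ) : ℝ) = 3 * a + 2 := by rw [hT]; push_cast; ring
    have hmr : (m : ℝ) = 2 * a + 1 := by rw [ha]; push_cast; ring
    rw [hTr]
    rcases le_or_gt 0 m with hm0 | hm0
    · have ha0 : (0 : ℝ) ≤ a := by exact_mod_cast (by omega : 0 ≤ a)
      rw [hmr, abs_of_nonneg (by positivity : (0 : ℝ) ≤ 2 * a + 1)]
      have hk0' : (0 : ℝ) ≤ k := by
        have : 0 ≤ k := by
          obtain ⟨b, hb⟩ := hke
          omega
        exact_mod_cast this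
      have hk1 : (k : ℝ) ≤ 2 * a + 2 := by
        have : k ≤ 2 * a + 2 := by omega
        exact_mod_cast this
      have h3 : (k : ℝ) / 2 + ((k : ℝ) + 1 / 2) * ((1 - 1 * C) / 2) ≤ (k : ℝ) / 2 := by nlinarith
      refine le_trans ?_ (neg_le_abs _)
      apply max_le <;> linarith
    · have ha0 : (a : ℝ) ≤ -2 := by
        have : a ≤ -2 := by omega
        exact_mod_cast this
      rw [hmr, abs_of_nonpos (by linarith : (2 : ℝ) * a + 1 ≤ 0)]
      have hk1 : (2 : ℝ) * a ≤ k := by
        have : 2 * a ≤ k := by omega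
        exact_mod_cast this
      have hk2 : (k : ℝ) ≤ -2 := by
        have : k ≤ -2 := by
          obtain ⟨b, hb⟩ := hke
          omega
        exact_mod_cast this
      have h3 : (k : ℝ) / 2 ≤ (k : ℝ) / 2 + ((k : ℝ) + 1 / 2) * ((1 - 1 * C) / 2) := by nlinarith
      refine le_trans ?_ (le_abs_self _)
      apply max_le <;> linarith

/-- pulling back strips -/
theorem strip_pull {m : ℤ} (h1 : m ≠ -1) (h2 : m ≠ -2) {E : Set ℂ} (hE : IsPreconnected E) (hm : (m : ℂ) ∈ E)
    {w : ℝ} (hw : w ≤ max 1 (|(m : ℝ)| - 2)) (h : ∀ z ∈ E, |(f₀ z).re - T m| < w) : ∀ z ∈ E, |z.re - m| < 1 := by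
  intro z hz
  by_contra hcon
  push Not at hcon
  have key : ∀ k : ℤ, (k = m + 1 ∨ k = m - 1) → ∀ x ∈ E, x.re = (k : ℝ) → False := by
    intro k hk x hx hxk
    have h3 := line_far h1 h2 (z := x) (by
      rcases hk with rfl | rfl
      · left; exact hxk
      · right; exact hxk)
    have h4 := h x hx
    linarith
  have hcont : ContinuousOn Complex.re E := Complex.continuous_re.continuousOn
  rcases le_abs.1 hcon with h3 | h3
  · obtain ⟨x, hx, hxr⟩ := hE.intermediate_value hm hz hcont (a := (m : ℂ)) (show ((m : ℝ) + 1) ∈ Set.Icc (m : ℂ).re z.re by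
      rw [Complex.intCast_re]
      constructor <;> linarith)
    exact key (m + 1) (Or.inl rfl) x hx (by rw [hxr]; push_cast; ring)
  · obtain ⟨x, hx, hxr⟩ := hE.intermediate_value hz hm hcont (b := (m : ℂ)) (show ((m : ℝ) - 1) ∈ Set.Icc z.re (m : ℂ).re by
      rw [Complex.intCast_re]
      constructor <;> linarith)
    exact key (m - 1) (Or.inr rfl) x hx (by rw [hxr]; push_cast; ring)

end Pool.Agent.U142.FD
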