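import Mathlib
import Pool.Agent.U142.FD2
import Pool.Agent.Y804.WD.Loop
import Pool.Agent.R105.WR.Val

/-!
# The Fatou components of `f₀` which contain integers: bounded height, crude bound for the size
-/

set_option autoImplicit false

open Filter Topology Metric Set

namespace Pool.Agent.U142.FD

open Pool.Agent.H384R2.Fatou Pool.Agent.H723R2.LSW
open Pool.Agent.Y282.WD (bt rho S_NEAR S_LOW S_TAIL no_growth conn_sphere bt_iter_le)
open Pool.Agent.R105.WR (abs_le_bt)

/-- `f₀` is large away from the real axis -/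
theorem big {z : ℂ} {m : ℤ} (hz : |z.re - m| < 1) (hX : 3000 * (|(m : ℝ)| + 3) ≤ Real.exp (Real.pi * |z.im|)) :
    Real.exp (Real.pi * |z.im|) ^ 2 / 15 ≤ ‖f₀ z‖ := by
  have hpi := Real.pi_gt_three
  have hpi' := Real.pi_lt_d2
  have hb := Pool.Agent.Y804.WD.cos_bounds ((Real.pi : ℂ) * z)
  have him : |((Real.pi : ℂ) * z).im| = Real.pi * |z.im| := by
    rw [Complex.mul_im, Complex.ofReal_re, Complex.ofReal_im, zero_mul, add_zero, abs_mul, abs_of_pos Real.pi_pos]
  rw [him] at hb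
  set X := Real.exp (Real.pi * |z.im|) with hXd
  set c := Complex.cos ((Real.pi : ℂ) * z) with hc
  set s := Complex.sin ((Real.pi : ℂ) * z) with hs
  obtain ⟨hc1, hc2, hs1, hs2⟩ := hb
  have hm0 : 0 ≤ |(m : ℝ)| := abs_nonneg _
  have hX9 : 9000 ≤ X := by linarith
  -- size of `z`
  have hh : |z.im| ≤ X / 200 := by
    have h1 : (Real.pi * |z.im|) ^ 2 / 2 ≤ X := by
      have := Real.quadratic_le_exp_of_nonneg (x := Real.pi * |z.im|) (by positivity)
      have h2 : 0 ≤ Real.pi * |z.im| := by positivity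
      linarith
    by_contra hcon
    push Not at hcon
    have h2 : (3 * (X / 200)) ^ 2 / 2 < (Real.pi * |z.im|) ^ 2 / 2 := by
      have h3 : 3 * (X / 200) < Real.pi * |z.im| := by nlinarith
      have h4 : 0 ≤ 3 * (X / 200) := by linarith
      have : (3 * (X / 200)) ^ 2 < (Real.pi * |z.im|) ^ 2 := by gcongr
      linarith
    nlinarith
  have hz1 : ‖z‖ ≤ X / 150 - 1 := by
    have h1 := Complex.norm_le_abs_re_add_abs_im z
    have h2 : |z.re| ≤ |(m : ℝ)| + 1 := by
      have := abs_sub_abs_le_abs_sub z.re m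
      linarith
    linarith
  have hz0 := norm_nonneg z
  have hz2 : ‖z + 1 / 2‖ ≤ X / 150 := by
    have := norm_add_le z (1 / 2)
    have h3 : ‖(1 / 2 : ℂ)‖ = 1 / 2 := by norm_num
    linarith
  have e : f₀ z = z / 2 + (z + 1 / 2) * ((1 - c) / 2) + 1 / (Real.pi : ℂ) * (1 / 2) * s - 1 / (Real.pi : ℂ) * (c * s) := by
    unfold f₀
    rw [← hc, ← hs]
    ring
  have hpiC : ‖(1 / (Real.pi : ℂ))‖ = 1 / Real.pi := by
    rw [norm_div, norm_one, Complex.norm_real, Real.norm_of_nonneg Real.pi_pos.le]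
  have h1 : ‖1 / (Real.pi : ℂ) * (c * s)‖ = 1 / Real.pi * (‖c‖ * ‖s‖) := by
    rw [norm_mul, hpiC, norm_mul]
  have h2 : ‖z / 2‖ ≤ X / 300 := by
    rw [norm_div]
    have : ‖(2 : ℂ)‖ = 2 := by norm_num
    rw [this]
    linarith
  have h3 : ‖(z + 1 / 2) * ((1 - c) / 2)‖ ≤ X / 150 * (X / 3) := by
    rw [norm_mul]
    apply mul_le_mul hz2 _ (norm_nonneg _) (by linarith)
    rw [norm_div]
    have h4 : ‖(2 : ℂ)‖ = 2 := by norm_num
    rw [h4]
    have h5 := norm_sub_le (1 : ℂ) c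
    rw [norm_one] at h5
    linarith
  have hpinv : 1 / Real.pi ≤ 1 / 3 := one_div_le_one_div_of_le (by norm_num) hpi.le
  have hpinv0 : 0 < 1 / Real.pi := by positivity
  have h4 : ‖1 / (Real.pi : ℂ) * (1 / 2) * s‖ ≤ X / 10 := by
    rw [norm_mul, norm_mul, hpiC]
    have h5 : ‖(1 / 2 : ℂ)‖ = 1 / 2 := by norm_num
    rw [h5]
    have h6 : 1 / Real.pi * (1 / 2) ≤ 1 / 6 := by linarith
    calc 1 / Real.pi * (1 / 2) * ‖s‖ ≤ 1 / 6 * ((X + 1) / 2) := by
          apply mul_le_mul h6 hs2 (norm_nonneg _) (by norm_num)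
      _ ≤ X / 10 := by linarith
  have h5 : X ^ 2 / 13 ≤ 1 / Real.pi * (‖c‖ * ‖s‖) := by
    have h6 : ((X - 1) / 2) * ((X - 1) / 2) ≤ ‖c‖ * ‖s‖ := mul_le_mul hc1 hs1 (by linarith) (norm_nonneg _)
    have h7 : 1 / 3.15 ≤ 1 / Real.pi := one_div_le_one_div_of_le (by positivity) (by linarith)
    calc X ^ 2 / 13 ≤ 1 / 3.15 * (((X - 1) / 2) * ((X - 1) / 2)) := by nlinarith
      _ ≤ 1 / Real.pi * (‖c‖ * ‖s‖) := by
          apply mul_le_mul h7 h6 _ hpinv0.le
          have : 0 ≤ (X - 1) / 2 := by linarith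
          positivity
  have h6 : ‖1 / (Real.pi : ℂ) * (c * s)‖ ≤ ‖f₀ z‖ + (‖z / 2‖ + ‖(z + 1 / 2) * ((1 - c) / 2)‖ + ‖1 / (Real.pi : ℂ) * (1 / 2) * s‖) := by
    have e2 : 1 / (Real.pi : ℂ) * (c * s) = (z / 2 + (z + 1 / 2) * ((1 - c) / 2) + 1 / (Real.pi : ℂ) * (1 / 2) * s) - f₀ z := by
      rw [e]; ring
    rw [e2]
    have := norm_sub_le (z / 2 + (z + 1 / 2) * ((1 - c) / 2) + 1 / (Real.pi : ℂ) * (1 / 2) * s) (f₀ z)
    have h7 := norm_add_le (z / 2 + (z + 1 / 2) * ((1 - c) / 2)) (1 / (Real.pi : ℂ) * (1 / 2) * s)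
    have h8 := norm_add_le (z / 2) ((z + 1 / 2) * ((1 - c) / 2))
    linarith
  rw [h1] at h6
  nlinarith

theorem T_abs (m : ℤ) : |((T m : ℤ) : ℝ)| + 1 ≤ 2 * (|(m : ℝ)| + 1) := T_growth m

/-- The height of the component of an integer. -/
theorem vert {n : ℤ} (hn : Reg n) {z : ℂ} (hz : z ∈ FatouComponent f₀ (n : ℂ)) :
    Real.exp (Real.pi * |z.im|) < 3000 * (|(n : ℝ)| + 3) := by
  by_contra hcon
  push Not at hcon
  have hpi := Real.pi_gt_three
  have key : ∀ j : ℕ, 3000 * (|((T^[j] n : ℤ) : ℝ)| + 3) ≤ Real.exp (Real.pi * |(f₀^[j] z).im|) ∧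
      (2 : ℝ) ^ j ≤ |(f₀^[j] z).im| := by
    intro j
    induction j with
    | zero =>
      refine ⟨hcon, ?_⟩
      simp only [Function.iterate_zero, id, pow_zero]
      by_contra h1
      push Not at h1
      have h2 : Real.exp (Real.pi * |z.im|) ≤ Real.exp 4 := by
        apply Real.exp_le_exp.2
        have := Real.pi_lt_d2
        have h3 := abs_nonneg z.im
        nlinarith
      have h3 : Real.exp 4 ≤ 81 := by
        have h4 := Real.exp_one_lt_d9
        have h5 : Real.exp 4 = Real.exp 1 ^ 4 := by rw [← Real.exp_nat_mul]; norm_num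
        rw [h5]
        have h6 : Real.exp 1 ≤ 3 := by linarith
        calc Real.exp 1 ^ 4 ≤ 3 ^ 4 := by gcongr
          _ = 81 := by norm_num
      have h4 := abs_nonneg (n : ℝ)
      linarith
    | succ j ih =>
      obtain ⟨ih1, ih2⟩ := ih
      set w := f₀^[j] z with hw
      set m := T^[j] n with hm
      have hwU : w ∈ FatouComponent f₀ (m : ℂ) := comp_iter hz j
      have hst := strip (hn.iter j) hwU
      have h1 := big hst ih1
      set X := Real.exp (Real.pi * |w.im|) with hX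
      have hfU : f₀ w ∈ FatouComponent f₀ ((T m : ℤ) : ℂ) := comp_step hwU
      have hst2 := strip (hn.iter j).step hfU
      have hT := T_abs m
      have hre : |(f₀ w).re| ≤ 2 * |(m : ℝ)| + 2 := by
        have := abs_sub_abs_le_abs_sub (f₀ w).re ((T m : ℤ) : ℝ)
        linarith
      have hm0 := abs_nonneg (m : ℝ)
      have hX9 : 9000 ≤ X := by linarith
      have h2 := Complex.norm_le_abs_re_add_abs_im (f₀ w)
      have h3 : X ^ 2 / 20 ≤ |(f₀ w).im| := by nlinarith
      rw [Function.iterate_succ_apply', Function.iterate_succ_apply']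
      constructor
      · have h4 := Real.add_one_le_exp (Real.pi * |(f₀ w).im|)
        have h5 : 3 * (X ^ 2 / 20) ≤ Real.pi * |(f₀ w).im| := by nlinarith
        have h6 : 3000 * (|((T m : ℤ) : ℝ)| + 3) ≤ 3 * (X ^ 2 / 20) := by nlinarith
        linarith
      · have h4 : |w.im| ≤ X := by
          have h5 := Real.add_one_le_exp (Real.pi * |w.im|)
          have h6 := abs_nonneg w.im
          nlinarith
        rw [pow_succ]
        nlinarith
  obtain ⟨M, -, hM⟩ := sch_all n (K := {z}) isCompact_singleton (by simpa using hz)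
  have h2 : ∀ᶠ j : ℕ in atTop, M < (2 : ℝ) ^ j :=
    (tendsto_pow_atTop_atTop_of_one_lt (by norm_num : (1 : ℝ) < 2)).eventually_gt_atTop M
  obtain ⟨j, hj1, hj2⟩ := (hM.and h2).exists
  have h3 := hj1 z rfl
  have h4 := Complex.abs_im_le_norm (f₀^[j] z - ((T^[j] n : ℤ) : ℂ))
  rw [Complex.sub_im, Complex.intCast_im, sub_zero] at h4
  linarith [(key j).2]

/-- a first bound for the size -/
theorem size {n : ℤ} (hn : Reg n) {z : ℂ} (hz : z ∈ FatouComponent f₀ (n : ℂ)) :
    ‖z - n‖ ≤ 1 + Real.sqrt (3000 * (|(n : ℝ)| + 3)) := by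
  have h1 := strip hn hz
  have h2 := vert hn hz
  have h3 := Complex.norm_le_abs_re_add_abs_im (z - n)
  rw [Complex.sub_re, Complex.sub_im, Complex.intCast_re, Complex.intCast_im, sub_zero] at h3
  have h4 : |z.im| ≤ Real.sqrt (3000 * (|(n : ℝ)| + 3)) := by
    apply Real.le_sqrt_of_sq_le
    refine le_trans ?_ h2.le
    have h5 := Real.quadratic_le_exp_of_nonneg (x := Real.pi * |z.im|) (by positivity)
    have hpi := Real.pi_gt_three
    have h6 := abs_nonneg z.im
    have h7 : |z.im| ^ 2 ≤ (Real.pi * |z.im|) ^ 2 / 2 := by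
      have : (3 * |z.im|) ^ 2 ≤ (Real.pi * |z.im|) ^ 2 := by gcongr
      nlinarith [sq_nonneg |z.im|]
    have h8 : 0 ≤ Real.pi * |z.im| := by positivity
    linarith
  linarith

end Pool.Agent.U142.FD
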