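import Mathlib
import Pool.Agent.U142.FD3

/-!
# The Fatou components of `f₀` which contain integers: asymptotically round, with explicit radius
-/

set_option autoImplicit false

open Filter Topology Metric Set

namespace Pool.Agent.U142.FD

open Pool.Agent.H384R2.Fatou Pool.Agent.H723R2.LSW
open Pool.Agent.Y282.WD (bt rho S_NEAR S_LOW S_TAIL no_growth conn_sphere rel)
open Pool.Agent.R105.WR (abs_le_bt D D_pos ball_D main_rho main_g g V half_int abs_log_div rec_sq')

theorem bt_le (m : ℤ) : bt m ≤ 3 * (|(m : ℝ)| + 1) := by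
  unfold bt
  have hpi := Real.pi_lt_d2
  have h1 : |(m : ℝ) + 1 / 2| ≤ |(m : ℝ)| + 1 / 2 := by
    have := abs_add_le (m : ℝ) (1 / 2)
    rw [abs_of_pos (by norm_num : (0 : ℝ) < 1 / 2)] at this
    exact this
  have h2 : Real.pi ^ 2 / 4 ≤ 3 := by
    have := Real.pi_pos
    nlinarith
  have h3 : 0 ≤ |(m : ℝ) + 1 / 2| := abs_nonneg _
  have h4 := abs_nonneg (m : ℝ)
  nlinarith

/-- for large integers the component lies in the disc of radius `1/2` -/
theorem half (hL : S_LOW) : ∃ c N1 : ℝ, 0 < c ∧ 1 ≤ N1 ∧ ∀ m : ℤ, Reg m → N1 ≤ |(m : ℝ)| →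
    ∀ z ∈ FatouComponent f₀ (m : ℂ), ‖z - m‖ ≤ 1 / 2 ∧ c * bt m * ‖z - m‖ ^ 2 ≤ ‖f₀ z - (T m : ℂ)‖ := by
  obtain ⟨c, hc, N, hlow⟩ := hL
  -- `1 + √(3000 (2 |m| + 5)) < c |m| / 4` for large `|m|`
  set R : ℝ := (8 / c) * (1 + 40000 / c) with hR
  have hR0 : 0 < R := by positivity
  refine ⟨c, max (max 1 N) (max R 5), hc, (le_max_left _ _).trans (le_max_left _ _), fun m hm hN1 z hz => ?_⟩
  have hm1 : 1 ≤ |(m : ℝ)| := ((le_max_left _ _).trans (le_max_left _ _)).trans hN1
  have hmN : N ≤ |(m : ℝ)| := ((le_max_right _ _).trans (le_max_left _ _)).trans hN1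
  have hmR : R ≤ |(m : ℝ)| := ((le_max_left _ _).trans (le_max_right _ _)).trans hN1
  have hm5 : 5 ≤ |(m : ℝ)| := ((le_max_right _ _).trans (le_max_right _ _)).trans hN1
  have hne : m ≠ 0 := by
    rintro rfl
    norm_num at hm1
  have hb := abs_le_bt hne
  have hlow' := hlow m (hmN.trans hb)
  have hhalf : ‖z - m‖ ≤ 1 / 2 := by
    by_contra hcon
    push Not at hcon
    have hE : IsPreconnected (FatouComponent f₀ (m : ℂ)) := isPreconnected_connectedComponentIn
    obtain ⟨w, hw, hw2⟩ := conn_sphere hE (mem_connectedComponentIn (int_mem_fatou m)) hz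
      (s := 1 / 2) (by norm_num) hcon.le
    have h1 := (hlow' w hw2.le).1
    have h2 := size hm.step (comp_step hw)
    have h3 := T_abs m
    rw [hw2] at h1
    -- contradiction
    have h4 : c * |(m : ℝ)| / 4 ≤ 1 + Real.sqrt (3000 * (|((T m : ℤ) : ℝ)| + 3)) := by
      calc c * |(m : ℝ)| / 4 ≤ c * bt m * (1 / 2) ^ 2 := by nlinarith
        _ ≤ _ := h1.trans h2
    have h5 : Real.sqrt (3000 * (|((T m : ℤ) : ℝ)| + 3)) ≤ Real.sqrt (10000 * |(m : ℝ)|) := by
      apply Real.sqrt_le_sqrt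
      linarith
    have h6 : Real.sqrt (10000 * |(m : ℝ)|) ≤ 100 * Real.sqrt |(m : ℝ)| := by
      rw [Real.sqrt_mul (by norm_num)]
      have : Real.sqrt 10000 = 100 := by
        rw [show (10000 : ℝ) = 100 ^ 2 by norm_num]
        exact Real.sqrt_sq (by norm_num)
      rw [this]
    set q := Real.sqrt |(m : ℝ)| with hq
    have hq2 : q ^ 2 = |(m : ℝ)| := Real.sq_sqrt (abs_nonneg _)
    have hq0 : 0 ≤ q := Real.sqrt_nonneg _
    rw [← hq2] at h4 hmR hm1
    have h7 : c * q ^ 2 ≤ 4 + 400 * q := by linarith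
    have hq1 : 1 ≤ q := by nlinarith
    have h8 : c * q ^ 2 ≤ 404 * q := by linarith
    have h9 : c * q ≤ 404 := by nlinarith
    have h10 : c * R ≤ 8 * (1 + 40000 / c) := by
      rw [hR]; field_simp; exact le_rfl
    have h11 : c ^ 2 * R = 8 * (c + 40000) := by
      rw [hR]; field_simp
    have h12 : c ^ 2 * q ^ 2 ≤ 404 ^ 2 := by
      have : 0 ≤ c * q := by positivity
      nlinarith
    nlinarith [mul_le_mul_of_nonneg_left hmR (sq_nonneg c)]
  exact ⟨hhalf, (hlow' z hhalf).1⟩

/-- the crude bound -/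
theorem crude (hL : S_LOW) (hT : S_TAIL) : ∃ A : ℝ, 6 ≤ A ∧ ∀ m : ℤ, Reg m → ∀ z ∈ FatouComponent f₀ (m : ℂ),
    bt m * ‖z - m‖ ≤ A := by
  obtain ⟨c, N1, hc, hN1, hhalf⟩ := half hL
  set Y1 : ℝ := 3 * (N1 + 1) * (1 + Real.sqrt (3000 * (N1 + 3))) with hY1
  have hY10 : 0 < Y1 := by positivity
  have hsmall : ∀ m : ℤ, Reg m → |(m : ℝ)| < N1 → ∀ z ∈ FatouComponent f₀ (m : ℂ), bt m * ‖z - m‖ ≤ Y1 := by
    intro m hm hmN z hz
    have h1 := size hm hz
    have h2 := bt_le m
    have h3 : Real.sqrt (3000 * (|(m : ℝ)| + 3)) ≤ Real.sqrt (3000 * (N1 + 3)) := by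
      apply Real.sqrt_le_sqrt; linarith
    apply mul_le_mul _ _ (norm_nonneg _) (by positivity)
    · exact h2.trans (by linarith)
    · exact h1.trans (by linarith)
  set Y : ℝ := max 1 ((c / 3) * Y1) with hY
  have hYone : 1 ≤ Y := le_max_left _ _
  -- one step
  have hstep : ∀ m : ℤ, Reg m → N1 ≤ |(m : ℝ)| → ∀ z ∈ FatouComponent f₀ (m : ℂ),
      ((c / 3) * bt m * ‖z - m‖) ^ 2 ≤ (c / 3) * bt (T m) * ‖f₀ z - (T m : ℂ)‖ := by
    intro m hm hmN z hz
    obtain ⟨-, h1⟩ := hhalf m hm hmN z hz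
    have h2 := (hT.1 m).2.2
    have hb : 0 < bt m := by linarith [(hT.1 m).1]
    set u := ‖z - m‖ with hu
    have hu0 : 0 ≤ u := norm_nonneg _
    calc ((c / 3) * bt m * u) ^ 2 = c / 3 * (bt m / 3) * (c * bt m * u ^ 2) := by ring
      _ ≤ c / 3 * (bt (T m)) * (c * bt m * u ^ 2) := by
          gcongr
          linarith
      _ ≤ c / 3 * (bt (T m)) * ‖f₀ z - (T m : ℂ)‖ := by
          have : 0 < bt (T m) := by linarith [(hT.1 (T m)).1]
          gcongr
  -- trajectories that enter `|m| < N1`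
  have henter : ∀ J : ℕ, ∀ m : ℤ, Reg m → (∀ i < J, N1 ≤ |((T^[i] m : ℤ) : ℝ)|) → |((T^[J] m : ℤ) : ℝ)| < N1 →
      ∀ z ∈ FatouComponent f₀ (m : ℂ), (c / 3) * bt m * ‖z - m‖ ≤ Y := by
    intro J
    induction J with
    | zero =>
      intro m hm _ h0 z hz
      have h1 := hsmall m hm h0 z hz
      refine le_trans ?_ (le_max_right _ _)
      rw [mul_assoc]
      gcongr
    | succ J ih =>
      intro m hm hi hJ z hz
      have h1 := hstep m hm (hi 0 (Nat.succ_pos _)) z hz
      have h2 := ih (T m) hm.step (fun i hiJ => by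
        have := hi (i + 1) (by omega)
        rwa [Function.iterate_succ_apply] at this) (by rwa [Function.iterate_succ_apply] at hJ)
        (f₀ z) (comp_step hz)
      have h3 := h1.trans h2
      have hb : 0 < bt m := by linarith [(hT.1 m).1]
      have h4 : 0 ≤ (c / 3) * bt m * ‖z - m‖ := by positivity
      by_contra hcon
      push Not at hcon
      nlinarith
  refine ⟨max 6 (3 / c * Y), le_max_left _ _, fun m hm z hz => ?_⟩
  have hfin : (c / 3) * bt m * ‖z - m‖ ≤ Y := by
    by_cases hex : ∃ J : ℕ, |((T^[J] m : ℤ) : ℝ)| < N1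
    · classical
      have h1 := Nat.find_spec hex
      exact henter (Nat.find hex) m hm (fun i hi => not_lt.1 (Nat.find_min hex hi)) h1 z hz
    · push Not at hex
      refine le_trans ?_ hYone
      have hiter : ∀ j : ℕ, bt (T^[j] m) ≤ bt m * 2 ^ j := by
        intro j
        induction j with
        | zero => simp
        | succ j ih =>
          rw [Function.iterate_succ_apply', pow_succ]
          have := (hT.1 (T^[j] m)).2.1
          linarith
      have h1 := no_growth (t := fun j => (c / 3) * bt (T^[j] m) * ‖f₀^[j] z - ((T^[j] m : ℤ) : ℂ)‖)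
        (D := (c / 6) * bt m) (fun j => by
          have h2 := hstep (T^[j] m) (hm.iter j) (hex j) (f₀^[j] z) (comp_iter hz j)
          show _ ≤ (c / 3) * bt (T^[j + 1] m) * ‖f₀^[j + 1] z - ((T^[j + 1] m : ℤ) : ℂ)‖
          rw [Function.iterate_succ_apply', Function.iterate_succ_apply']
          exact h2) (fun j => by
          have h2 := (hhalf (T^[j] m) (hm.iter j) (hex j) (f₀^[j] z) (comp_iter hz j)).1
          have h3 := hiter j
          have hb : 0 < bt m := by linarith [(hT.1 m).1]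
          have hb' : 0 < bt (T^[j] m) := by linarith [(hT.1 (T^[j] m)).1]
          calc c / 3 * bt (T^[j] m) * ‖f₀^[j] z - ((T^[j] m : ℤ) : ℂ)‖
              ≤ c / 3 * (bt m * 2 ^ j) * (1 / 2) := by gcongr
            _ = c / 6 * bt m * 2 ^ j := by ring) 0
      simpa using h1
  refine le_trans ?_ (le_max_right _ _)
  have : bt m * ‖z - m‖ = 3 / c * ((c / 3) * bt m * ‖z - m‖) := by field_simp
  rw [this]
  gcongr

/-- the radius of the smallest disc about `m` which contains the component of `m` -/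
noncomputable def O (m : ℤ) : ℝ := sSup ((fun z : ℂ => ‖z - m‖) '' FatouComponent f₀ (m : ℂ))

theorem O_bdd (hL : S_LOW) (hT : S_TAIL) {m : ℤ} (hm : Reg m) :
    BddAbove ((fun z : ℂ => ‖z - m‖) '' FatouComponent f₀ (m : ℂ)) := by
  obtain ⟨A, -, h⟩ := crude hL hT
  refine ⟨A / bt m, ?_⟩
  rintro _ ⟨z, hz, rfl⟩
  have hb : 0 < bt m := by linarith [(hT.1 m).1]
  rw [le_div_iff₀ hb, mul_comm]
  exact h m hm z hz

theorem le_O (hL : S_LOW) (hT : S_TAIL) {m : ℤ} (hm : Reg m) {z : ℂ} (hz : z ∈ FatouComponent f₀ (m : ℂ)) :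
    ‖z - m‖ ≤ O m := le_csSup (O_bdd hL hT hm) ⟨z, hz, rfl⟩

theorem O_le {m : ℤ} {r : ℝ} (h : ∀ z ∈ FatouComponent f₀ (m : ℂ), ‖z - m‖ ≤ r) : O m ≤ r := by
  apply csSup_le
  · exact ⟨_, ⟨(m : ℂ), mem_connectedComponentIn (int_mem_fatou m), rfl⟩⟩
  · rintro _ ⟨z, hz, rfl⟩
    exact h z hz

theorem ball_D_comp (m : ℤ) : ball (m : ℂ) (D m) ⊆ FatouComponent f₀ (m : ℂ) := by
  apply IsPreconnected.subset_connectedComponentIn
  · exact (convex_ball _ _).isPreconnected
  · exact mem_ball_self (D_pos m)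
  · exact ball_D m

theorem D_le_O (hL : S_LOW) (hT : S_TAIL) {m : ℤ} (hm : Reg m) : D m ≤ O m := by
  by_contra hcon
  push Not at hcon
  have hD := D_pos m
  set r := (max (O m) 0 + D m) / 2 with hr
  have h1 : max (O m) 0 < D m := max_lt hcon hD
  have hr0 : 0 ≤ r := by
    have := le_max_right (O m) 0
    positivity
  have hrD : r < D m := by linarith
  have hrO : O m < r := by
    have := le_max_left (O m) 0
    linarith
  have hz : ((m : ℂ) + (r : ℂ)) ∈ FatouComponent f₀ (m : ℂ) := by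
    apply ball_D_comp
    rw [mem_ball, dist_eq_norm, add_sub_cancel_left, Complex.norm_real, Real.norm_of_nonneg hr0]
    exact hrD
  have h2 := le_O hL hT hm hz
  rw [add_sub_cancel_left, Complex.norm_real, Real.norm_of_nonneg hr0] at h2
  linarith

/-- The component is asymptotically the disc of radius `rho n`. -/
theorem outer_rho (hN : S_NEAR) (hL : S_LOW) (hT : S_TAIL) : ∃ K : ℝ, 0 ≤ K ∧ ∀ n : ℤ, n ≠ 0 → Reg n →
    |Real.log (O n / rho n)| ≤ K / |(n : ℝ)| := by
  classical
  obtain ⟨A, hA6, hA⟩ := crude hL hT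
  obtain ⟨C1, hC1, hrel⟩ := rel hN (A := A) (by linarith)
  have hOpos : ∀ m : ℤ, Reg m → 0 < O m := fun m hm => (D_pos m).trans_le (D_le_O hL hT hm)
  have hbt : ∀ m : ℤ, 0 < bt m := fun m => by linarith [(hT.1 m).1]
  have hOA : ∀ m : ℤ, Reg m → O m ≤ A / bt m := fun m hm => O_le fun z hz => by
    rw [le_div_iff₀ (hbt m), mul_comm]; exact hA m hm z hz
  set e : ℤ → ℝ := fun m => if Reg m then max 0 (Real.log (O m / rho m)) else 0 with he
  have he0 : ∀ m, 0 ≤ e m := by
    intro m
    simp only [he]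
    split_ifs
    · exact le_max_left _ _
    · exact le_rfl
  obtain ⟨K, hK0, hK⟩ := rec_sq' (e := e) (E := Real.log (2 * A)) (C := C1) (B := max A (2 * C1)) (by
      exact le_trans (by linarith) (le_max_left _ _)) (by linarith) (by
    intro m
    simp only [he]
    have hlog : 0 ≤ Real.log (2 * A) := Real.log_nonneg (by linarith)
    split_ifs with hm
    · apply max_le hlog
      obtain ⟨hr0, -, hr1, -⟩ := hT.2 m
      apply Real.log_le_log (div_pos (hOpos m hm) hr0)
      rw [div_le_iff₀ hr0]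
      refine (hOA m hm).trans ?_
      rw [div_le_iff₀ (hbt m)]
      nlinarith
    · exact hlog) (by
    intro m hmB
    simp only [he]
    by_cases hm : Reg m
    · rw [if_pos hm, if_pos hm.step]
      have hmA : A ≤ |(m : ℝ)| := (le_max_left _ _).trans hmB
      have hmC : 2 * C1 ≤ |(m : ℝ)| := (le_max_right _ _).trans hmB
      have hne : m ≠ 0 := by
        rintro rfl
        norm_num at hmA
        linarith
      have hb := abs_le_bt hne
      have hb0 := hbt m
      have hm0 : 0 < |(m : ℝ)| := by linarith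
      set δ := C1 / bt m ^ 2 with hδ
      have hδ0 : 0 < δ := by positivity
      have hδ1 : δ ≤ 1 / 2 := by
        rw [hδ, div_le_iff₀ (by positivity)]
        nlinarith
      obtain ⟨hr0, hrT, hr1, -⟩ := hT.2 m
      have hO := hOpos m hm
      have hOT := hOpos (T m) hm.step
      -- the main inequality
      have h1 : O m ≤ Real.sqrt (O (T m) / ((1 - δ) * bt m)) := by
        apply O_le
        intro z hz
        apply Real.le_sqrt_of_sq_le
        have h2 := (hrel m z (hmA.trans hb) (by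
          rw [le_div_iff₀ hb0, mul_comm]; exact hA m hm z hz)).1
        have h3 := le_O hL hT hm.step (comp_step hz)
        rw [le_div_iff₀ (by nlinarith)]
        calc ‖z - m‖ ^ 2 * ((1 - δ) * bt m) = (1 - δ) * (bt m * ‖z - m‖ ^ 2) := by ring
          _ ≤ _ := h2.trans h3
      have h2 : O m ^ 2 ≤ O (T m) / ((1 - δ) * bt m) := by
        have h3 : 0 ≤ O (T m) / ((1 - δ) * bt m) := by
          have : 0 < 1 - δ := by linarith
          positivity
        calc O m ^ 2 ≤ Real.sqrt (O (T m) / ((1 - δ) * bt m)) ^ 2 := by gcongr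
          _ = _ := Real.sq_sqrt h3
      have h3 : (O m / rho m) ^ 2 ≤ (O (T m) / rho (T m)) * (1 - δ)⁻¹ := by
        rw [div_pow, hrT]
        rw [div_le_iff₀ (by positivity)]
        refine h2.trans (le_of_eq ?_)
        have : 0 < 1 - δ := by linarith
        field_simp
      have h4 := Real.log_le_log (by positivity) h3
      have hδ' : 0 < 1 - δ := by linarith
      have hrT0 := (hT.2 (T m)).1
      rw [Real.log_pow, Real.log_mul (by positivity) (by positivity), Real.log_inv] at h4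
      have h5 : -Real.log (1 - δ) ≤ 2 * δ := by
        have := Real.one_sub_inv_le_log_of_pos hδ'
        have h6 : (1 - δ)⁻¹ ≤ 1 + 2 * δ := by
          rw [inv_le_comm₀ hδ' (by linarith), inv_le_iff_one_le_mul₀ (by linarith)]
          nlinarith
        linarith
      have h6 : δ ≤ C1 / |(m : ℝ)| ^ 2 := by
        rw [hδ]
        gcongr
      have h7 := le_max_right 0 (Real.log (O (T m) / rho (T m)))
      push_cast at h4
      apply max_le
      · have := le_max_left 0 (Real.log (O (T m) / rho (T m)))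
        linarith
      · linarith
    · rw [if_neg hm, if_neg (fun h => hm ((Reg_iff m).2 h))]
      have : 0 < |(m : ℝ)| := by
        have := (le_max_left A (2 * C1)).trans hmB
        linarith
      positivity)
  obtain ⟨K', hK'0, hK'⟩ := main_rho
  refine ⟨K + K', by linarith, fun n hn hr => ?_⟩
  have hn0 : 0 < |(n : ℝ)| := by
    rw [abs_pos]; exact_mod_cast hn
  have h1 := hK n hn
  simp only [he] at h1
  rw [if_pos hr] at h1
  have h2 := (le_max_right 0 (Real.log (O n / rho n))).trans h1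
  have h3 := (abs_le.1 (hK' n hn)).1
  obtain ⟨hr0, -, -, -⟩ := hT.2 n
  have h4 : Real.log (D n / rho n) ≤ Real.log (O n / rho n) := by
    apply Real.log_le_log (div_pos (D_pos n) hr0)
    have := D_le_O hL hT hr
    gcongr
  rw [abs_le, add_div]
  have h5 : 0 ≤ K / |(n : ℝ)| := by positivity
  have h6 : 0 ≤ K' / |(n : ℝ)| := by positivity
  constructor <;> linarith

end Pool.Agent.U142.FD
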