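import Mathlib
import Pool.Agent.U142.FD4
import Pool.Agent.R105.WR.Law

/-!
# Counting the integers by the size of a quantity asymptotic to `c 3 ^ (- V n) / |n|`
-/

set_option autoImplicit false

open Filter Topology Metric Set

namespace Pool.Agent.U142.FD

open Pool.Agent.H384R2.Fatou Pool.Agent.H723R2.LSW
open Pool.Agent.R105.WR (W mem_W W_ncard HD P P_lt P_V V dens_digits V_nonneg V_le_one)

/-- `∫ 3 ^ (-u) du` over `[0, 1]` -/
noncomputable def kap : ℝ := 2 / (3 * Real.log 3)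

theorem log3_pos : 0 < Real.log 3 := Real.log_pos (by norm_num)

/-- the Riemann sums of `3 ^ (-u)` -/
theorem riemann (J : ℕ) (hJ : 1 ≤ J) :
    (∑ b ∈ Finset.range J, (3 : ℝ) ^ (-((b : ℝ) / J))) / J ≤ kap + 1 / J ∧
    kap - 1 / J ≤ (∑ b ∈ Finset.range J, (3 : ℝ) ^ (-(((b : ℝ) + 1) / J))) / J := by
  have hJ0 : (0 : ℝ) < J := by exact_mod_cast hJ
  have hl := log3_pos
  set x : ℝ := (3 : ℝ) ^ (-(1 / (J : ℝ))) with hx
  have hx0 : 0 < x := Real.rpow_pos_of_pos (by norm_num) _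
  have hxJ : x ^ J = 1 / 3 := by
    rw [hx, ← Real.rpow_natCast, ← Real.rpow_mul (by norm_num)]
    have : -(1 / (J : ℝ)) * J = -1 := by field_simp
    rw [this, Real.rpow_neg_one]
    norm_num
  have hxe : x = Real.exp (-(Real.log 3 / J)) := by
    rw [hx, Real.rpow_def_of_pos (by norm_num)]
    congr 1; ring
  have hx1 : x < 1 := by
    rw [hxe, Real.exp_lt_one_iff]
    have : 0 < Real.log 3 / J := by positivity
    linarith
  have hpow : ∀ b : ℕ, (3 : ℝ) ^ (-((b : ℝ) / J)) = x ^ b := by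
    intro b
    rw [hx, ← Real.rpow_natCast, ← Real.rpow_mul (by norm_num)]
    congr 1; ring
  have hsum : ∑ b ∈ Finset.range J, (3 : ℝ) ^ (-((b : ℝ) / J)) = (2 / 3) / (1 - x) := by
    simp_rw [hpow]
    rw [geom_sum_eq hx1.ne, hxJ, ← neg_div_neg_eq]
    congr 1 <;> ring
  have hsum2 : ∑ b ∈ Finset.range J, (3 : ℝ) ^ (-(((b : ℝ) + 1) / J)) = x * ((2 / 3) / (1 - x)) := by
    rw [← hsum, Finset.mul_sum]
    apply Finset.sum_congr rfl
    intro b _
    have := hpow (b + 1)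
    push_cast at this
    rw [this, hpow b, pow_succ, mul_comm]
  have h1x : 0 < 1 - x := by linarith
  -- `x ≥ 1 - log 3 / J` and `1 / x ≥ 1 + log 3 / J`
  have h1 : 1 - x ≤ Real.log 3 / J := by
    have := Real.add_one_le_exp (-(Real.log 3 / J))
    rw [← hxe] at this
    linarith
  have h2 : x * (Real.log 3 / J) ≤ 1 - x := by
    have h3 := Real.add_one_le_exp (Real.log 3 / J)
    have h4 : Real.exp (Real.log 3 / J) * x = 1 := by
      rw [hxe, ← Real.exp_add]; simp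
    nlinarith
  have hS : (2 / 3) / (1 - x) / J - x * ((2 / 3) / (1 - x)) / J = (2 / 3) / J := by
    field_simp
  have hup : kap ≤ (2 / 3) / (1 - x) / J := by
    unfold kap
    rw [div_div, div_div, div_le_div_iff₀ (by positivity) (by positivity)]
    rw [le_div_iff₀ hJ0] at h1
    nlinarith
  have hlow : x * ((2 / 3) / (1 - x)) / J ≤ kap := by
    unfold kap
    have e : x * ((2 / 3) / (1 - x)) / J = (2 * x) / (3 * (1 - x) * J) := by field_simp
    rw [e, div_le_div_iff₀ (by positivity) (by positivity)]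
    rw [← mul_div_assoc, div_le_iff₀ hJ0] at h2
    nlinarith
  have h23 : (2 / 3) / (J : ℝ) ≤ 1 / J := by
    apply div_le_div_of_nonneg_right _ hJ0.le
    norm_num
  rw [hsum, hsum2]
  constructor <;> linarith

open Classical in
/-- densities of the slices -/
theorem slice {A : Set ℤ} {s : ℤ} (hs : s = 1 ∨ s = -1) {δ : ℝ}
    (h : ∀ Q : ℕ, 1 ≤ Q → ∀ a : ℤ, HD s {n | n ∈ A ∧ n ≡ a [ZMOD Q]} (δ / Q))
    {M : ℕ} (hM : Odd M) (a : ℤ) (j b : ℕ) (hb : b < 2 ^ j) :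
    HD s {n | (n ∈ A ∧ n ≡ a [ZMOD M]) ∧ P j n = b} (δ / (2 ^ j * M)) := by
  have h1 := dens_digits hs h hM a j b hb.le
  have h2 := dens_digits hs h hM a j (b + 1) hb
  have h3 := h1.sub h2
  have e : ((2 : ℝ) ^ j - (b : ℝ)) * (δ / (2 ^ j * M)) - ((2 : ℝ) ^ j - ((b + 1 : ℕ) : ℝ)) * (δ / (2 ^ j * M)) =
      δ / (2 ^ j * M) := by push_cast; ring
  rw [e] at h3
  refine h3.congr fun N => ?_
  rw [← sub_div]
  congr 1
  have hsub : W s {n | (n ∈ A ∧ n ≡ a [ZMOD M]) ∧ b + 1 ≤ P j n} N ⊆ W s {n | (n ∈ A ∧ n ≡ a [ZMOD M]) ∧ b ≤ P j n} N := by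
    intro n hn
    rw [mem_W hs] at hn ⊢
    exact ⟨hn.1, hn.2.1, hn.2.2.1, (Nat.le_succ b).trans hn.2.2.2⟩
  have he : W s {n | (n ∈ A ∧ n ≡ a [ZMOD M]) ∧ P j n = b} N =
      W s {n | (n ∈ A ∧ n ≡ a [ZMOD M]) ∧ b ≤ P j n} N \ W s {n | (n ∈ A ∧ n ≡ a [ZMOD M]) ∧ b + 1 ≤ P j n} N := by
    ext n
    rw [Finset.mem_sdiff, mem_W hs, mem_W hs, mem_W hs]
    constructor
    · rintro ⟨h4, h5, h6, h7⟩
      refine ⟨⟨h4, h5, h6, h7.ge⟩, ?_⟩
      rintro ⟨-, -, -, h8⟩
      omega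
    · rintro ⟨⟨h4, h5, h6, h7⟩, h8⟩
      refine ⟨h4, h5, h6, ?_⟩
      by_contra h9
      exact h8 ⟨h4, h5, h6, by omega⟩
  rw [he, Finset.card_sdiff_of_subset hsub, Nat.cast_sub (Finset.card_le_card hsub)]

/-- counts up to `λ X` -/
theorem HD_floor {s : ℤ} {S : Set ℤ} {q : ℝ} (h : HD s S q) {l : ℝ} (hl : 0 < l) :
    Tendsto (fun X : ℝ => ((W s S ⌊l * X⌋₊).card : ℝ) / X) atTop (𝓝 (l * q)) := by
  have h1 : Tendsto (fun X : ℝ => ⌊l * X⌋₊) atTop atTop :=
    tendsto_nat_floor_atTop.comp (tendsto_id.const_mul_atTop hl)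
  have h2 := h.comp h1
  have h3 : Tendsto (fun X : ℝ => (⌊l * X⌋₊ : ℝ) / X) atTop (𝓝 l) := tendsto_nat_floor_mul_div_atTop hl.le
  have h4 := h3.mul h2
  refine h4.congr' ?_
  have h5 := h1.eventually (eventually_ge_atTop 1)
  filter_upwards [h5, eventually_gt_atTop 0] with X hX hX0
  have h6 : (0 : ℝ) < (⌊l * X⌋₊ : ℝ) := by exact_mod_cast hX
  simp only [Function.comp_apply]
  field_simp

open Classical in
/-- The counting theorem. -/
theorem count {A : Set ℤ} {s : ℤ} (hs : s = 1 ∨ s = -1) {δ : ℝ} (hδ : 0 ≤ δ)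
    (h : ∀ Q : ℕ, 1 ≤ Q → ∀ a : ℤ, HD s {n | n ∈ A ∧ n ≡ a [ZMOD Q]} (δ / Q))
    {M : ℕ} (hM : Odd M) (a : ℤ) {r : ℤ → ℝ} {c : ℝ} (hc : 0 < c)
    (hr : ∀ η : ℝ, 0 < η → ∃ N0 : ℕ, ∀ n ∈ A, (N0 : ℤ) < |n| → |r n * |(n : ℝ)| * 3 ^ V n - c| ≤ η) :
    Tendsto (fun X : ℝ => (({n : ℤ | 0 < s * n ∧ (n ∈ A ∧ n ≡ a [ZMOD M]) ∧ 1 ≤ X * r n}.ncard : ℕ) : ℝ) / X) atTop
      (𝓝 (c * (δ / M) * kap)) := by
  have hM1 : (1 : ℝ) ≤ M := by exact_mod_cast hM.pos
  have hM0 : (0 : ℝ) < M := by linarith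
  set d : ℝ := δ / M with hd
  have hd0 : 0 ≤ d := by positivity
  rw [Metric.tendsto_atTop]
  intro ε hε
  -- parameters
  obtain ⟨j, hj⟩ := pow_unbounded_of_one_lt (8 * (c * d + 1) / ε) (by norm_num : (1 : ℝ) < 2)
  have h2j : (0 : ℝ) < 2 ^ j := by positivity
  set J : ℕ := 2 ^ j with hJ
  have hJr : (J : ℝ) = 2 ^ j := by rw [hJ]; push_cast; rfl
  have hJ1 : 1 ≤ J := Nat.one_le_two_pow
  have hJ0 : (0 : ℝ) < J := by rw [hJr]; positivity
  rw [div_lt_iff₀ hε, ← hJr] at hj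
  have hk0 : 0 ≤ kap := by unfold kap; have := log3_pos; positivity
  set η : ℝ := min (c / 2) (ε / (8 * (d * (kap + 1) + 1))) with hη
  have hη0 : 0 < η := lt_min (by positivity) (by positivity)
  have hηc : η ≤ c / 2 := min_le_left _ _
  have hηε : η * (8 * (d * (kap + 1) + 1)) ≤ ε := by
    have := min_le_right (c / 2) (ε / (8 * (d * (kap + 1) + 1)))
    rw [← hη, le_div_iff₀ (by positivity)] at this
    exact this
  obtain ⟨N0, hN0⟩ := hr η hη0
  obtain ⟨hR1, hR2⟩ := riemann J hJ1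
  -- slices
  set Sl : ℕ → Set ℤ := fun b => {n | (n ∈ A ∧ n ≡ a [ZMOD M]) ∧ P j n = b} with hSl
  set lu : ℕ → ℝ := fun b => (c + η) * (3 : ℝ) ^ (-((b : ℝ) / J)) with hlu
  set ll : ℕ → ℝ := fun b => (c - η) * (3 : ℝ) ^ (-(((b : ℝ) + 1) / J)) with hll
  have hlu0 : ∀ b, 0 < lu b := fun b => mul_pos (by linarith) (Real.rpow_pos_of_pos (by norm_num) _)
  have hll0 : ∀ b, 0 < ll b := fun b => mul_pos (by linarith) (Real.rpow_pos_of_pos (by norm_num) _)
  have hq : ∀ b ∈ Finset.range J, HD s (Sl b) (d / J) := by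
    intro b hb
    rw [Finset.mem_range] at hb
    have h1 := slice hs h hM a j b hb
    have e : δ / (2 ^ j * M) = d / J := by rw [hd, hJr]; field_simp
    rw [e] at h1
    exact h1
  have hU := tendsto_finsetSum (Finset.range J) (fun b hb => HD_floor (hq b hb) (hlu0 b))
  have hL := tendsto_finsetSum (Finset.range J) (fun b hb => HD_floor (hq b hb) (hll0 b))
  have hUs : ∑ b ∈ Finset.range J, lu b * (d / J) = (c + η) * d * ((∑ b ∈ Finset.range J, (3 : ℝ) ^ (-((b : ℝ) / J))) / J) := by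
    rw [Finset.sum_div, Finset.mul_sum]
    apply Finset.sum_congr rfl
    intro b _
    simp only [hlu]
    field_simp
  have hLs : ∑ b ∈ Finset.range J, ll b * (d / J) = (c - η) * d * ((∑ b ∈ Finset.range J, (3 : ℝ) ^ (-(((b : ℝ) + 1) / J))) / J) := by
    rw [Finset.sum_div, Finset.mul_sum]
    apply Finset.sum_congr rfl
    intro b _
    simp only [hll]
    field_simp
  have hJinv : 8 * (c * d + 1) * (1 / (J : ℝ)) ≤ ε := by
    rw [mul_one_div, div_le_iff₀ hJ0]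
    linarith
  have hJinv0 : 0 < 1 / (J : ℝ) := by positivity
  have hJle : 1 / (J : ℝ) ≤ 1 := by
    rw [div_le_one hJ0]; exact_mod_cast hJ1
  have hUb : ∑ b ∈ Finset.range J, lu b * (d / J) ≤ c * d * kap + ε / 4 := by
    rw [hUs]
    calc (c + η) * d * ((∑ b ∈ Finset.range J, (3 : ℝ) ^ (-((b : ℝ) / J))) / J) ≤ (c + η) * d * (kap + 1 / J) := by
          gcongr
      _ = c * d * kap + c * d * (1 / J) + η * (d * (kap + 1 / J)) := by ring
      _ ≤ c * d * kap + ε / 8 + ε / 8 := by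
          have h1 : c * d * (1 / J) ≤ ε / 8 := by nlinarith
          have h2 : η * (d * (kap + 1 / J)) ≤ ε / 8 := by
            have h3 : d * (kap + 1 / J) ≤ d * (kap + 1) + 1 := by nlinarith
            nlinarith
          linarith
      _ = _ := by ring
  have hLb : c * d * kap - ε / 4 ≤ ∑ b ∈ Finset.range J, ll b * (d / J) := by
    rw [hLs]
    have h0 : 0 ≤ (c - η) * d := mul_nonneg (by linarith) hd0
    calc c * d * kap - ε / 4 ≤ (c - η) * d * (kap - 1 / J) := by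
          have h1 : c * d * (1 / J) ≤ ε / 8 := by nlinarith
          have h2 : η * (d * kap) ≤ ε / 8 := by
            have h3 : d * kap ≤ d * (kap + 1) + 1 := by nlinarith
            nlinarith
          have h4 : 0 ≤ η * d * (1 / J) := by positivity
          nlinarith
      _ ≤ _ := mul_le_mul_of_nonneg_left hR2 h0
  -- the small integers
  set Z : Finset ℤ := Finset.Icc (-(N0 : ℤ)) N0 with hZ
  have hZX : ∀ᶠ X : ℝ in atTop, (Z.card : ℝ) / X ≤ ε / 4 := by
    have : Tendsto (fun X : ℝ => (Z.card : ℝ) / X) atTop (𝓝 0) := tendsto_const_nhds.div_atTop tendsto_id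
    filter_upwards [this.eventually (gt_mem_nhds (show (0 : ℝ) < ε / 4 by positivity))] with X hX
    exact hX.le
  have h1 := hU.eventually (gt_mem_nhds (show ∑ b ∈ Finset.range J, lu b * (d / J) < c * d * kap + ε / 2 by linarith))
  have h2 := hL.eventually (lt_mem_nhds (show c * d * kap - ε / 2 < ∑ b ∈ Finset.range J, ll b * (d / J) by linarith))
  obtain ⟨X0, hX0⟩ := eventually_atTop.1 (h1.and (h2.and (hZX.and (eventually_gt_atTop (0 : ℝ)))))
  refine ⟨X0, fun X hX => ?_⟩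
  obtain ⟨hA1, hA2, hA3, hXpos⟩ := hX0 X hX
  set F : Set ℤ := {n : ℤ | 0 < s * n ∧ (n ∈ A ∧ n ≡ a [ZMOD M]) ∧ 1 ≤ X * r n} with hF
  have habs : ∀ n : ℤ, 0 < s * n → |(n : ℝ)| = ((s * n : ℤ) : ℝ) ∧ 0 < |(n : ℝ)| := by
    intro n hn
    have h3 : |n| = s * n := by
      rcases hs with rfl | rfl
      · rw [one_mul] at hn ⊢; exact abs_of_pos hn
      · have : n < 0 := by linarith
        rw [abs_of_neg this]; ring
    constructor
    · rw [← h3]; push_cast; rfl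
    · have : (0 : ℤ) < |n| := by rw [h3]; exact hn
      exact_mod_cast this
  -- the slices of `V`
  have hVb : ∀ n : ℤ, (3 : ℝ) ^ (-(((P j n : ℝ) + 1) / J)) ≤ 3 ^ (-V n) ∧ (3 : ℝ) ^ (-V n) ≤ 3 ^ (-((P j n : ℝ) / J)) := by
    intro n
    obtain ⟨h3, h4⟩ := P_V j n
    rw [← hJr] at h3 h4
    constructor
    · exact Real.rpow_le_rpow_of_exponent_le (by norm_num) (by linarith)
    · exact Real.rpow_le_rpow_of_exponent_le (by norm_num) (by linarith)
  have hV3 : ∀ n : ℤ, (3 : ℝ) ^ V n * 3 ^ (-V n) = 1 := by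
    intro n
    rw [← Real.rpow_add (by norm_num)]; simp
  have hV0 : ∀ n : ℤ, (0 : ℝ) < 3 ^ (-V n) := fun n => Real.rpow_pos_of_pos (by norm_num) _
  have hV0' : ∀ n : ℤ, (0 : ℝ) < 3 ^ (V n) := fun n => Real.rpow_pos_of_pos (by norm_num) _
  -- upper inclusion
  set Up : Finset ℤ := Z ∪ (Finset.range J).biUnion (fun b => W s (Sl b) ⌊lu b * X⌋₊) with hUp
  have hFU : F ⊆ (Up : Set ℤ) := by
    rintro n ⟨hn1, hn2, hn3⟩
    rw [Finset.mem_coe, hUp, Finset.mem_union]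
    by_cases hbig : (N0 : ℤ) < |n|
    · right
      rw [Finset.mem_biUnion]
      refine ⟨P j n, Finset.mem_range.2 (P_lt j n), (mem_W hs).2 ⟨hn1, ?_, hn2, rfl⟩⟩
      obtain ⟨h3, h4⟩ := habs n hn1
      have h5 := (abs_le.1 (hN0 n hn2.1 hbig)).2
      have h6 : |(n : ℝ)| ≤ lu (P j n) * X := by
        have h7 : r n * |(n : ℝ)| ≤ (c + η) * 3 ^ (-V n) := by
          have h8 : r n * |(n : ℝ)| * 3 ^ V n ≤ c + η := by linarith
          calc r n * |(n : ℝ)| = r n * |(n : ℝ)| * (3 ^ V n * 3 ^ (-V n)) := by rw [hV3, mul_one]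
            _ = (r n * |(n : ℝ)| * 3 ^ V n) * 3 ^ (-V n) := by ring
            _ ≤ (c + η) * 3 ^ (-V n) := mul_le_mul_of_nonneg_right h8 (hV0 n).le
        calc |(n : ℝ)| = 1 * |(n : ℝ)| := by ring
          _ ≤ (X * r n) * |(n : ℝ)| := mul_le_mul_of_nonneg_right hn3 h4.le
          _ = X * (r n * |(n : ℝ)|) := by ring
          _ ≤ X * ((c + η) * 3 ^ (-V n)) := mul_le_mul_of_nonneg_left h7 hXpos.le
          _ ≤ X * ((c + η) * 3 ^ (-((P j n : ℝ) / J))) := by
              have h9 := (hVb n).2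
              have h10 : 0 ≤ c + η := by linarith
              exact mul_le_mul_of_nonneg_left (mul_le_mul_of_nonneg_left h9 h10) hXpos.le
          _ = lu (P j n) * X := by simp only [hlu]; ring
      rw [h3] at h6
      have h7 : (s * n).toNat ≤ ⌊lu (P j n) * X⌋₊ := by
        apply Nat.le_floor
        have : (((s * n).toNat : ℤ) : ℝ) = ((s * n : ℤ) : ℝ) := by rw [Int.toNat_of_nonneg hn1.le]
        rw [Int.cast_natCast] at this
        rw [this]; exact h6
      omega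
    · left
      push Not at hbig
      rw [abs_le] at hbig
      exact Finset.mem_Icc.2 hbig
  have hFfin : F.Finite := (Finset.finite_toSet Up).subset hFU
  have hcardU : (F.ncard : ℝ) ≤ Z.card + ∑ b ∈ Finset.range J, ((W s (Sl b) ⌊lu b * X⌋₊).card : ℝ) := by
    have h3 : F.ncard ≤ Up.card := by
      rw [← Set.ncard_coe_finset]
      exact Set.ncard_le_ncard hFU (Finset.finite_toSet Up)
    have h4 : Up.card ≤ Z.card + ∑ b ∈ Finset.range J, (W s (Sl b) ⌊lu b * X⌋₊).card :=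
      (Finset.card_union_le _ _).trans (Nat.add_le_add_left Finset.card_biUnion_le _)
    exact_mod_cast h3.trans h4
  -- lower inclusion
  set Lo : Finset ℤ := (Finset.range J).biUnion (fun b => W s (Sl b) ⌊ll b * X⌋₊) with hLo
  have hLF : ∀ n ∈ Lo, n ∈ hFfin.toFinset ∪ Z := by
    intro n hn
    rw [hLo, Finset.mem_biUnion] at hn
    obtain ⟨b, hb, hn⟩ := hn
    obtain ⟨hn1, hn2, hn3, hn4⟩ := (mem_W hs).1 hn
    rw [Finset.mem_union]
    by_cases hbig : (N0 : ℤ) < |n|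
    · left
      rw [Set.Finite.mem_toFinset]
      refine ⟨hn1, hn3, ?_⟩
      obtain ⟨h3, h4⟩ := habs n hn1
      have h5 := (abs_le.1 (hN0 n hn3.1 hbig)).1
      have h6 : |(n : ℝ)| ≤ ll b * X := by
        rw [h3]
        have h7 : ((s * n : ℤ) : ℝ) ≤ (⌊ll b * X⌋₊ : ℝ) := by exact_mod_cast hn2
        exact h7.trans (Nat.floor_le (by have := hll0 b; positivity))
      have h8 : (c - η) * 3 ^ (-V n) ≤ r n * |(n : ℝ)| := by
        have h9 : c - η ≤ r n * |(n : ℝ)| * 3 ^ V n := by linarith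
        calc (c - η) * 3 ^ (-V n) ≤ (r n * |(n : ℝ)| * 3 ^ V n) * 3 ^ (-V n) :=
              mul_le_mul_of_nonneg_right h9 (hV0 n).le
          _ = r n * |(n : ℝ)| * (3 ^ V n * 3 ^ (-V n)) := by ring
          _ = _ := by rw [hV3, mul_one]
      have h9 : |(n : ℝ)| ≤ (X * r n) * |(n : ℝ)| := by
        calc |(n : ℝ)| ≤ ll b * X := h6
          _ = X * ((c - η) * 3 ^ (-(((P j n : ℝ) + 1) / J))) := by simp only [hll]; rw [hn4]; ring
          _ ≤ X * ((c - η) * 3 ^ (-V n)) := by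
              have h10 := (hVb n).1
              have h11 : 0 ≤ c - η := by linarith
              exact mul_le_mul_of_nonneg_left (mul_le_mul_of_nonneg_left h10 h11) hXpos.le
          _ ≤ X * (r n * |(n : ℝ)|) := mul_le_mul_of_nonneg_left h8 hXpos.le
          _ = (X * r n) * |(n : ℝ)| := by ring
      by_contra hcon
      push Not at hcon
      nlinarith
    · right
      push Not at hbig
      rw [abs_le] at hbig
      exact Finset.mem_Icc.2 hbig
  have hcardL : ∑ b ∈ Finset.range J, ((W s (Sl b) ⌊ll b * X⌋₊).card : ℝ) ≤ F.ncard + Z.card := by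
    have hdisj : ∀ b ∈ Finset.range J, ∀ b' ∈ Finset.range J, b ≠ b' →
        Disjoint (W s (Sl b) ⌊ll b * X⌋₊) (W s (Sl b') ⌊ll b' * X⌋₊) := by
      intro b _ b' _ hbb
      rw [Finset.disjoint_left]
      intro n hn hn'
      have h3 := ((mem_W hs).1 hn).2.2.2
      have h4 := ((mem_W hs).1 hn').2.2.2
      exact hbb (h3.symm.trans h4)
    have h3 : Lo.card = ∑ b ∈ Finset.range J, (W s (Sl b) ⌊ll b * X⌋₊).card := Finset.card_biUnion hdisj
    have h4 := (Finset.card_le_card hLF).trans (Finset.card_union_le _ _)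
    rw [h3, ← Set.ncard_eq_toFinset_card F hFfin] at h4
    exact_mod_cast h4
  rw [Real.dist_eq, abs_lt]
  have e1 : ∑ b ∈ Finset.range J, ((W s (Sl b) ⌊lu b * X⌋₊).card : ℝ) / X = (∑ b ∈ Finset.range J, ((W s (Sl b) ⌊lu b * X⌋₊).card : ℝ)) / X := by
    rw [Finset.sum_div]
  have e2 : ∑ b ∈ Finset.range J, ((W s (Sl b) ⌊ll b * X⌋₊).card : ℝ) / X = (∑ b ∈ Finset.range J, ((W s (Sl b) ⌊ll b * X⌋₊).card : ℝ)) / X := by
    rw [Finset.sum_div]
  rw [e1] at hA1
  rw [e2] at hA2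
  have h3 : (F.ncard : ℝ) / X ≤ Z.card / X + (∑ b ∈ Finset.range J, ((W s (Sl b) ⌊lu b * X⌋₊).card : ℝ)) / X := by
    rw [← add_div]; gcongr
  have h4 : (∑ b ∈ Finset.range J, ((W s (Sl b) ⌊ll b * X⌋₊).card : ℝ)) / X ≤ (F.ncard : ℝ) / X + Z.card / X := by
    rw [← add_div]; gcongr
  constructor
  · linarith
  · linarith

end Pool.Agent.U142.FD
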