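import Mathlib
import Pool.Agent.U142.FD5
import Pool.Agent.Y888.WD.Near
import Pool.Agent.Y151.WD.Tail

/-!
# The Fatou components of `f₀` which contain integers: explicit radii, diameters
-/

set_option autoImplicit false

open Filter Topology Metric Set

namespace Pool.Agent.U142.FD

open Pool.Agent.H384R2.Fatou Pool.Agent.H723R2.LSW
open Pool.Agent.Y282.WD (bt rho S_NEAR S_LOW S_TAIL)
open Pool.Agent.R105.WR (D D_pos main_rho main_log V rel_of_log V_nonneg V_le_one)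

theorem hN : S_NEAR := Pool.Agent.Y888.WD.t_NEAR
theorem hL : S_LOW := Pool.Agent.Y888.WD.t_LOW
theorem hT : S_TAIL := Pool.Agent.Y151.WD.t_TAIL

theorem O_pos {n : ℤ} (hn : Reg n) : 0 < O n := (D_pos n).trans_le (D_le_O hL hT hn)

/-- the explicit form for the outer radius -/
theorem outer_log : ∃ K : ℝ, 0 ≤ K ∧ ∀ n : ℤ, n ≠ 0 → Reg n →
    |Real.log (Real.pi ^ 2 / 8 * 3 ^ V n * |(n : ℝ)| * O n)| ≤ K * (1 + Real.log |(n : ℝ)|) / |(n : ℝ)| := by
  obtain ⟨K1, h1, hK1⟩ := main_log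
  obtain ⟨K2, h2, hK2⟩ := main_rho
  obtain ⟨K3, h3, hK3⟩ := outer_rho hN hL hT
  refine ⟨K1 + K2 + K3, by linarith, fun n hn hr => ?_⟩
  have hn1 : 1 ≤ |(n : ℝ)| := by
    have : 1 ≤ |n| := Int.one_le_abs hn
    exact_mod_cast this
  have hn0 : 0 < |(n : ℝ)| := by linarith
  have hlog : 0 ≤ Real.log |(n : ℝ)| := Real.log_nonneg hn1
  have hD := D_pos n
  have hO := O_pos hr
  have hrho := (hT.2 n).1
  have h3V : (0 : ℝ) < 3 ^ V n := Real.rpow_pos_of_pos (by norm_num) _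
  have e : Real.log (Real.pi ^ 2 / 8 * 3 ^ V n * |(n : ℝ)| * O n) =
      Real.log (Real.pi ^ 2 / 8 * 3 ^ V n * |(n : ℝ)| * D n) + Real.log (O n / rho n) - Real.log (D n / rho n) := by
    rw [Real.log_mul (by positivity) hO.ne', Real.log_mul (by positivity) hD.ne', Real.log_div hO.ne' hrho.ne',
      Real.log_div hD.ne' hrho.ne']
    ring
  rw [e]
  have a1 := hK1 n hn
  have a2 := hK2 n hn
  have a3 := hK3 n hn hr
  have b2 : K2 / |(n : ℝ)| ≤ K2 * (1 + Real.log |(n : ℝ)|) / |(n : ℝ)| := by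
    apply div_le_div_of_nonneg_right _ hn0.le
    nlinarith
  have b3 : K3 / |(n : ℝ)| ≤ K3 * (1 + Real.log |(n : ℝ)|) / |(n : ℝ)| := by
    apply div_le_div_of_nonneg_right _ hn0.le
    nlinarith
  have e2 : (K1 + K2 + K3) * (1 + Real.log |(n : ℝ)|) / |(n : ℝ)| =
      K1 * (1 + Real.log |(n : ℝ)|) / |(n : ℝ)| + K2 * (1 + Real.log |(n : ℝ)|) / |(n : ℝ)| +
      K3 * (1 + Real.log |(n : ℝ)|) / |(n : ℝ)| := by ring
  rw [e2]
  have c1 := abs_sub (Real.log (Real.pi ^ 2 / 8 * 3 ^ V n * |(n : ℝ)| * D n) + Real.log (O n / rho n)) (Real.log (D n / rho n))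
  have c2 := abs_add_le (Real.log (Real.pi ^ 2 / 8 * 3 ^ V n * |(n : ℝ)| * D n)) (Real.log (O n / rho n))
  linarith

theorem y_le_one {n : ℤ} (hn : n ≠ 0) : (1 + Real.log |(n : ℝ)|) / |(n : ℝ)| ≤ 1 ∧
    0 ≤ (1 + Real.log |(n : ℝ)|) / |(n : ℝ)| := by
  have hn1 : 1 ≤ |(n : ℝ)| := by
    have : 1 ≤ |n| := Int.one_le_abs hn
    exact_mod_cast this
  have hlog : 0 ≤ Real.log |(n : ℝ)| := Real.log_nonneg hn1
  constructor
  · rw [div_le_one (by linarith)]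
    have := Real.log_le_sub_one_of_pos (show 0 < |(n : ℝ)| by linarith)
    linarith
  · positivity

/-- relative errors -/
theorem radii : ∃ K : ℝ, 0 ≤ K ∧ ∀ n : ℤ, n ≠ 0 → Reg n →
    |Real.pi ^ 2 / 8 * 3 ^ V n * |(n : ℝ)| * D n - 1| ≤ K * ((1 + Real.log |(n : ℝ)|) / |(n : ℝ)|) ∧
    |Real.pi ^ 2 / 8 * 3 ^ V n * |(n : ℝ)| * O n - 1| ≤ K * ((1 + Real.log |(n : ℝ)|) / |(n : ℝ)|) := by
  obtain ⟨K1, h1, hK1⟩ := main_log
  obtain ⟨K2, h2, hK2⟩ := outer_log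
  refine ⟨K1 * Real.exp (K1 * 1) + K2 * Real.exp (K2 * 1), by positivity, fun n hn hr => ?_⟩
  have hn0 : 0 < |(n : ℝ)| := by
    rw [abs_pos]; exact_mod_cast hn
  have hD := D_pos n
  have hO := O_pos hr
  have h3V : (0 : ℝ) < 3 ^ V n := Real.rpow_pos_of_pos (by norm_num) _
  obtain ⟨hy1, hy0⟩ := y_le_one hn
  have a1 := rel_of_log (x := Real.pi ^ 2 / 8 * 3 ^ V n * |(n : ℝ)| * D n) (by positivity) h1 (by
    have := hK1 n hn
    rwa [mul_div_assoc] at this) hy1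
  have a2 := rel_of_log (x := Real.pi ^ 2 / 8 * 3 ^ V n * |(n : ℝ)| * O n) (by positivity) h2 (by
    have := hK2 n hn hr
    rwa [mul_div_assoc] at this) hy1
  have p1 : 0 ≤ K1 * Real.exp (K1 * 1) * ((1 + Real.log |(n : ℝ)|) / |(n : ℝ)|) := by positivity
  have p2 : 0 ≤ K2 * Real.exp (K2 * 1) * ((1 + Real.log |(n : ℝ)|) / |(n : ℝ)|) := by positivity
  rw [add_mul]
  constructor <;> linarith

theorem comp_sub {n : ℤ} (hr : Reg n) : FatouComponent f₀ (n : ℂ) ⊆ closedBall (n : ℂ) (O n) := by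
  intro z hz
  rw [mem_closedBall, dist_eq_norm]
  exact le_O hL hT hr hz

theorem comp_bdd {n : ℤ} (hr : Reg n) : Bornology.IsBounded (FatouComponent f₀ (n : ℂ)) :=
  isBounded_closedBall.subset (comp_sub hr)

theorem diam_le {n : ℤ} (hr : Reg n) : diam (FatouComponent f₀ (n : ℂ)) ≤ 2 * O n :=
  (diam_mono (comp_sub hr) isBounded_closedBall).trans (diam_closedBall (O_pos hr).le)

theorem le_diam {n : ℤ} (hr : Reg n) : 2 * D n ≤ diam (FatouComponent f₀ (n : ℂ)) := by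
  by_contra hcon
  push Not at hcon
  have hD := D_pos n
  have hd0 : 0 ≤ diam (FatouComponent f₀ (n : ℂ)) := diam_nonneg
  set t := (diam (FatouComponent f₀ (n : ℂ)) / 2 + D n) / 2 with ht
  have ht0 : 0 ≤ t := by positivity
  have htD : t < D n := by linarith
  have h1 : ((n : ℂ) + (t : ℂ)) ∈ FatouComponent f₀ (n : ℂ) := by
    apply ball_D_comp
    rw [mem_ball, dist_eq_norm, add_sub_cancel_left, Complex.norm_real, Real.norm_of_nonneg ht0]
    exact htD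
  have h2 : ((n : ℂ) - (t : ℂ)) ∈ FatouComponent f₀ (n : ℂ) := by
    apply ball_D_comp
    rw [mem_ball, dist_eq_norm, show (n : ℂ) - (t : ℂ) - (n : ℂ) = -(t : ℂ) by ring, norm_neg, Complex.norm_real,
      Real.norm_of_nonneg ht0]
    exact htD
  have h3 := dist_le_diam_of_mem (comp_bdd hr) h1 h2
  rw [dist_eq_norm, show (n : ℂ) + (t : ℂ) - ((n : ℂ) - (t : ℂ)) = ((2 * t : ℝ) : ℂ) by push_cast; ring, Complex.norm_real,
    Real.norm_of_nonneg (by positivity)] at h3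
  linarith

/-- the diameter is asymptotic to `(16 / π ^ 2) 3 ^ (- V n) / |n|` -/
theorem diam_asymp {η : ℝ} (hη : 0 < η) : ∃ N0 : ℕ, ∀ n : ℤ, Reg n → (N0 : ℤ) < |n| →
    |diam (FatouComponent f₀ (n : ℂ)) * |(n : ℝ)| * 3 ^ V n - 16 / Real.pi ^ 2| ≤ η := by
  obtain ⟨K, hK0, hK⟩ := radii
  have hpi := Real.pi_gt_three
  have ht : Tendsto (fun x : ℝ => K * ((1 + Real.log x) / x)) atTop (𝓝 0) := by
    have h1 : Tendsto (fun x : ℝ => 1 / x) atTop (𝓝 0) := by simpa using tendsto_inv_atTop_zero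
    have h2 : Tendsto (fun x : ℝ => Real.log x / x) atTop (𝓝 0) :=
      Real.isLittleO_log_id_atTop.tendsto_div_nhds_zero
    have h3 := (h1.add h2).const_mul K
    simpa [add_div] using h3
  obtain ⟨x0, hx0⟩ := eventually_atTop.1 (ht.eventually (gt_mem_nhds (show (0 : ℝ) < η / 2 by positivity)))
  refine ⟨⌈max x0 1⌉₊, fun n hr hn => ?_⟩
  have hnr : max x0 1 < |(n : ℝ)| := by
    have h1 : ((⌈max x0 1⌉₊ : ℤ) : ℝ) < ((|n| : ℤ) : ℝ) := by exact_mod_cast hn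
    rw [Int.cast_natCast, Int.cast_abs] at h1
    exact (Nat.le_ceil _).trans_lt h1
  have hn1 : 1 < |(n : ℝ)| := (le_max_right _ _).trans_lt hnr
  have hne : n ≠ 0 := by
    rintro rfl
    norm_num at hn1
  obtain ⟨h1, h2⟩ := hK n hne hr
  have h3 := (hx0 |(n : ℝ)| ((le_max_left _ _).trans hnr.le)).le
  have h4 := le_diam hr
  have h5 := diam_le hr
  have h3V : (0 : ℝ) < 3 ^ V n := Real.rpow_pos_of_pos (by norm_num) _
  set q := |(n : ℝ)| * 3 ^ V n with hq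
  have hq0 : 0 < q := by positivity
  have hp0 : 0 < Real.pi ^ 2 := by positivity
  have e1 : Real.pi ^ 2 / 8 * 3 ^ V n * |(n : ℝ)| * D n = Real.pi ^ 2 / 8 * (q * D n) := by rw [hq]; ring
  have e2 : Real.pi ^ 2 / 8 * 3 ^ V n * |(n : ℝ)| * O n = Real.pi ^ 2 / 8 * (q * O n) := by rw [hq]; ring
  rw [e1] at h1
  rw [e2] at h2
  have h6 := (abs_le.1 (h1.trans h3)).1
  have h7 := (abs_le.1 (h2.trans h3)).2
  have e3 : diam (FatouComponent f₀ (n : ℂ)) * |(n : ℝ)| * 3 ^ V n = q * diam (FatouComponent f₀ (n : ℂ)) := by rw [hq]; ring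
  rw [e3]
  have h8 : q * (2 * D n) ≤ q * diam (FatouComponent f₀ (n : ℂ)) := mul_le_mul_of_nonneg_left h4 hq0.le
  have h9 : q * diam (FatouComponent f₀ (n : ℂ)) ≤ q * (2 * O n) := mul_le_mul_of_nonneg_left h5 hq0.le
  have h10 : (16 / Real.pi ^ 2) * (1 - η / 2) ≤ q * (2 * D n) := by
    rw [div_mul_eq_mul_div, div_le_iff₀ hp0]
    nlinarith
  have h11 : q * (2 * O n) ≤ (16 / Real.pi ^ 2) * (1 + η / 2) := by
    rw [div_mul_eq_mul_div, le_div_iff₀ hp0]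
    nlinarith
  have h12 : 16 / Real.pi ^ 2 ≤ 2 := by
    rw [div_le_iff₀ hp0]; nlinarith
  have h13 : (16 / Real.pi ^ 2) * (η / 2) ≤ η := by nlinarith
  rw [abs_le]
  constructor <;> linarith

end Pool.Agent.U142.FD
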