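import Mathlib
import Pool.Agent.U142.FE1

/-!
# The Fatou components of `f₀` which contain integers lie in vertical strips of width two: end
-/

set_option autoImplicit false

open Filter Topology Metric Set

namespace Pool.Agent.U142.FE

open Pool.Agent.H384R2.Fatou Pool.Agent.H723R2.LSW

section

variable {f : ℂ → ℂ} {a : ℂ} {p : ℕ}

/-- on the whole Fatou component of a point which hits a superattracting cycle the iterates converge
locally uniformly (the proof is that of `basin_of_hits`) -/
theorem basin_loc (hf : Differentiable ℂ f) (hp : 0 < p) (ha : f^[p] a = a)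
    (hd : HasDerivAt (f^[p]) 0 a) {n : ℂ} {k : ℕ} (hn : f^[k] n = a) :
    ∀ z ∈ FatouComponent f n, ∃ r : ℝ, 0 < r ∧
      TendstoUniformlyOn (fun m : ℕ => f^[k + p * m]) (fun _ => a) atTop (ball z r) := by
  have hfat := mem_fatou_of_hits hf.continuous hp ha hd hn
  set S : Set ℂ := {z | ∃ r : ℝ, 0 < r ∧
    TendstoUniformlyOn (fun m : ℕ => f^[k + p * m]) (fun _ => a) atTop (ball z r)} with hS
  have hnS : n ∈ S := by
    obtain ⟨ρ, hρ, hunif⟩ := unif_of_hits hf.continuous hp ha hd hn
    refine ⟨ρ, hρ, ?_⟩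
    simpa using hunif 0
  have hSopen : IsOpen S := by
    rw [Metric.isOpen_iff]
    rintro z ⟨r, hr, h⟩
    refine ⟨r / 2, by linarith, fun w hw => ⟨r / 2, by linarith, h.mono ?_⟩⟩
    apply ball_subset_ball'
    rw [mem_ball] at hw
    linarith
  have hclosed : ∀ z ∈ FatouSet f, z ∈ closure S → z ∈ S := by
    rintro z ⟨r, hr, hnorm⟩ hcl
    refine ⟨r / 2, by linarith, ?_⟩
    by_contra hcon
    rw [Metric.tendstoUniformlyOn_iff] at hcon
    push Not at hcon
    obtain ⟨ε, hε, hfr⟩ := hcon
    obtain ⟨φ, hφ, hbad⟩ := Filter.extraction_of_frequently_atTop hfr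
    obtain ⟨ψ, hψ, hlim⟩ := hnorm (fun j => k + p * φ j)
    obtain ⟨w, hwS, hwz⟩ : ∃ w ∈ S, w ∈ ball z r := by
      rw [Metric.mem_closure_iff] at hcl
      obtain ⟨w, hw, hd'⟩ := hcl r hr
      exact ⟨w, hw, by rw [mem_ball, dist_comm]; exact hd'⟩
    obtain ⟨s, hs, hsu⟩ := hwS
    have hpsi : Tendsto (fun j => φ (ψ j)) atTop atTop := (hφ.comp hψ).tendsto_atTop
    have hpt : ∀ w' ∈ ball w s, Tendsto (fun j => f^[k + p * φ (ψ j)] w') atTop (𝓝 a) := by
      intro w' hw'
      exact (hsu.tendsto_at hw').comp hpsi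
    rcases hlim with ⟨g, hg⟩ | hinf
    · have hgd : DifferentiableOn ℂ g (ball z r) := by
        apply hg.differentiableOn _ isOpen_ball
        exact Filter.Eventually.of_forall fun j => (hf.iterate _).differentiableOn
      have hga : ∀ w' ∈ ball w s ∩ ball z r, g w' = a := by
        rintro w' ⟨h1, h2⟩
        exact tendsto_nhds_unique (hg.tendsto_at h2) (hpt w' h1)
      have heq : EqOn g (fun _ => a) (ball z r) := by
        apply (hgd.analyticOnNhd isOpen_ball).eqOn_of_preconnected_of_eventuallyEq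
          analyticOnNhd_const (convex_ball z r).isPreconnected hwz
        have : ball w s ∩ ball z r ∈ 𝓝 w :=
          Filter.inter_mem (ball_mem_nhds w hs) (isOpen_ball.mem_nhds hwz)
        filter_upwards [this] with w' hw' using hga w' hw'
      have hgu : TendstoUniformlyOn (fun j => f^[k + p * φ (ψ j)]) (fun _ => a) atTop
          (closedBall z (r / 2)) := by
        have h1 : TendstoLocallyUniformlyOn (fun j => f^[k + p * φ (ψ j)]) g atTop
            (closedBall z (r / 2)) :=
          hg.mono (closedBall_subset_ball (by linarith))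
        have h2 := (tendstoLocallyUniformlyOn_iff_tendstoUniformlyOn_of_compact
          (isCompact_closedBall z (r / 2))).1 h1
        apply h2.congr_right
        intro w' hw'
        exact heq (closedBall_subset_ball (by linarith) hw')
      rw [Metric.tendstoUniformlyOn_iff] at hgu
      obtain ⟨j, hj⟩ := (hgu ε hε).exists
      obtain ⟨w', hw', hw''⟩ := hbad (ψ j)
      exact absurd (hj w' (ball_subset_closedBall hw')) (not_lt.2 hw'')
    · have h1 := hinf {w} (by simpa using hwz) isCompact_singleton (‖a‖ + 1)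
      have h2 := (hpt w (mem_ball_self hs)).norm
      have h3 : ∀ᶠ j in atTop, ‖f^[k + p * φ (ψ j)] w‖ < ‖a‖ + 1 :=
        h2.eventually (gt_mem_nhds (by linarith))
      obtain ⟨j, hj1, hj2⟩ := (h1.and h3).exists
      exact absurd (hj1 w rfl) (not_le.2 hj2)
  have hsub : FatouComponent f n ⊆ S := by
    have hpre : IsPreconnected (FatouComponent f n) := isPreconnected_connectedComponentIn
    have hne : (FatouComponent f n ∩ S).Nonempty := ⟨n, mem_connectedComponentIn hfat, hnS⟩
    have := hpre.subset_of_closure_inter_subset hSopen hne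
    apply this
    rintro z ⟨hz1, hz2⟩
    exact hclosed z (connectedComponentIn_subset _ _ hz2) hz1
  exact fun z hz => hsub hz

/-- uniformity on compact sets, all times -/
theorem basin_compact (hf : Differentiable ℂ f) (hp : 0 < p) (ha : f^[p] a = a)
    (hd : HasDerivAt (f^[p]) 0 a) {n : ℂ} {k : ℕ} (hn : f^[k] n = a) {K : Set ℂ} (hK : IsCompact K)
    (hKU : K ⊆ FatouComponent f n) {ε : ℝ} (hε : 0 < ε) :
    ∀ᶠ j : ℕ in atTop, ∀ z ∈ K, ‖f^[j] z - f^[j] n‖ < ε := by
  have hloc := basin_loc hf hp ha hd hn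
  have hunif : TendstoUniformlyOn (fun m : ℕ => f^[k + p * m]) (fun _ => a) atTop K := by
    rw [← tendstoLocallyUniformlyOn_iff_tendstoUniformlyOn_of_compact hK]
    intro u hu z hz
    obtain ⟨r, hr, h⟩ := hloc z (hKU hz)
    exact ⟨ball z r, mem_nhdsWithin_of_mem_nhds (ball_mem_nhds z hr), h u hu⟩
  -- a common `δ` for the first `p` iterates at `a`
  have hcont : ∀ᶠ w in 𝓝 a, ∀ i ∈ Finset.range p, ‖f^[i] w - f^[i] a‖ < ε := by
    rw [Filter.eventually_all_finset]
    intro i _
    have h1 : ContinuousAt (fun w => ‖f^[i] w - f^[i] a‖) a := by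
      have := (hf.iterate i).continuous
      fun_prop
    have h2 := h1.eventually (gt_mem_nhds (show ‖f^[i] a - f^[i] a‖ < ε by simpa using hε))
    exact h2
  obtain ⟨δ, hδ, hball⟩ := Metric.eventually_nhds_iff.1 hcont
  have h1 := (Metric.tendstoUniformlyOn_iff.1 hunif) δ hδ
  obtain ⟨m0, hm0⟩ := eventually_atTop.1 h1
  rw [eventually_atTop]
  refine ⟨k + p * m0, fun j hj z hz => ?_⟩
  obtain ⟨m, i, hi, hjm, hm⟩ : ∃ m i : ℕ, i < p ∧ j = i + (k + p * m) ∧ m0 ≤ m := by
    refine ⟨(j - k) / p, (j - k) % p, Nat.mod_lt _ hp, ?_, ?_⟩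
    · have := Nat.div_add_mod (j - k) p
      omega
    · rw [Nat.le_div_iff_mul_le hp]
      have : m0 * p = p * m0 := mul_comm _ _
      omega
  have h2 := hm0 m hm z hz
  rw [dist_comm] at h2
  have h3 := hball h2 i (Finset.mem_range.2 hi)
  have h4 : f^[k + p * m] n = a := by
    rw [add_comm, Function.iterate_add_apply, hn, Function.iterate_mul]
    exact Function.iterate_fixed ha m
  rw [hjm, Function.iterate_add_apply f i, Function.iterate_add_apply f i, h4]
  exact h3

end

/-- on compact subsets of the component of `n` the orbits stay at bounded distance of the orbit of `n` -/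
theorem sch_all (n : ℤ) {K : Set ℂ} (hK : IsCompact K) (hKU : K ⊆ FatouComponent f₀ (n : ℂ)) :
    ∃ M : ℝ, (¬ Wild n → M ≤ 1 / 2) ∧ ∀ᶠ j : ℕ in atTop, ∀ z ∈ K, ‖f₀^[j] z - ((T^[j] n : ℤ) : ℂ)‖ < M := by
  by_cases hw : Wild n
  · obtain ⟨M, hM⟩ := Pool.Agent.Y514.WD.sch n hw K hK hKU
    refine ⟨M + 1, fun h => absurd hw h, ?_⟩
    filter_upwards [hM] with j hj z hz
    linarith [hj z hz]
  · obtain ⟨k, p, a, hp, ha, hk⟩ := tame_hits hw
    refine ⟨1 / 2, fun _ => le_rfl, ?_⟩
    have h1 := basin_compact (f := f₀) (a := (a : ℂ)) (p := p) (k := k) (n := (n : ℂ)) f₀_differentiable hp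
      (by rw [f₀_iter, ha]) (f₀_iter_deriv a p hp) (by rw [f₀_iter, hk]) hK hKU (ε := 1 / 2) (by norm_num)
    filter_upwards [h1] with j hj z hz
    rw [← f₀_iter]
    exact hj z hz

/-- a path in the component from `n` to `z` -/
theorem exists_path {n : ℤ} {z : ℂ} (hz : z ∈ FatouComponent f₀ (n : ℂ)) :
    ∃ K : Set ℂ, IsCompact K ∧ IsPreconnected K ∧ (n : ℂ) ∈ K ∧ z ∈ K ∧ K ⊆ FatouComponent f₀ (n : ℂ) := by
  have hnU : (n : ℂ) ∈ FatouComponent f₀ (n : ℂ) := mem_connectedComponentIn (int_mem_fatou n)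
  have hUo : IsOpen (FatouComponent f₀ (n : ℂ)) := component_isOpen f₀ n
  have hUc : IsConnected (FatouComponent f₀ (n : ℂ)) :=
    ⟨⟨_, hnU⟩, isPreconnected_connectedComponentIn⟩
  have hUp := (hUo.isConnected_iff_isPathConnected).1 hUc
  obtain ⟨γ, hγ⟩ := hUp.joinedIn _ hnU _ hz
  refine ⟨Set.range γ, isCompact_range γ.continuous, (isConnected_range γ.continuous).isPreconnected,
    ⟨0, γ.source⟩, ⟨1, γ.target⟩, ?_⟩
  rintro _ ⟨t, rfl⟩; exact hγ t

theorem comp_iter {n : ℤ} {z : ℂ} (hz : z ∈ FatouComponent f₀ (n : ℂ)) (j : ℕ) :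
    f₀^[j] z ∈ FatouComponent f₀ ((T^[j] n : ℤ) : ℂ) := by
  have h1 := component_map f₀_differentiable.continuous f₀_open (int_mem_fatou n) j ⟨z, hz, rfl⟩
  rw [f₀_iter] at h1
  exact h1

theorem comp_step {n : ℤ} {z : ℂ} (hz : z ∈ FatouComponent f₀ (n : ℂ)) :
    f₀ z ∈ FatouComponent f₀ ((T n : ℤ) : ℂ) := comp_iter hz 1

theorem near_of_close {m : ℤ} {z : ℂ} (h : |z.re - m| < 1 / 2) : Near m z := by
  unfold Near
  rw [abs_lt] at h
  split_ifs with hm
  · rcases hm with rfl | rfl <;> (push_cast at h; constructor <;> linarith [h.1, h.2])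
  · rw [abs_lt]; constructor <;> linarith [h.1, h.2]

/-- The component of an integer lies in its strip. -/
theorem near_all {n : ℤ} {z : ℂ} (hz : z ∈ FatouComponent f₀ (n : ℂ)) : Near n z := by
  obtain ⟨K, hK, hKp, hnK, hzK, hKU⟩ := exists_path hz
  obtain ⟨M, hM1, hM⟩ := sch_all n hK hKU
  -- the image at some time is in a strip
  have hbase : ∃ J : ℕ, ∀ x ∈ K, Near (T^[J] n) (f₀^[J] x) := by
    have hre : ∀ (j : ℕ) (x : ℂ), |(f₀^[j] x).re - ((T^[j] n : ℤ) : ℝ)| ≤ ‖f₀^[j] x - ((T^[j] n : ℤ) : ℂ)‖ := by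
      intro j x
      have := Complex.abs_re_le_norm (f₀^[j] x - ((T^[j] n : ℤ) : ℂ))
      rwa [Complex.sub_re, Complex.intCast_re] at this
    by_cases hw : Wild n
    · have h1 := (wild_tendsto hw).eventually (eventually_ge_atTop (max (M + 2) 3))
      obtain ⟨j1, hj1⟩ := eventually_atTop.1 hM
      obtain ⟨j2, hj2⟩ := eventually_atTop.1 h1
      refine ⟨max j1 j2, ?_⟩
      set J := max j1 j2 with hJ
      have hJ2 := hj2 J (le_max_right _ _)
      have hne1 : T^[J] n ≠ -1 := by
        intro h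
        rw [h] at hJ2
        have := (le_max_right (M + 2) 3).trans hJ2
        norm_num at this
      have hne2 : T^[J] n ≠ -2 := by
        intro h
        rw [h] at hJ2
        have := (le_max_right (M + 2) 3).trans hJ2
        norm_num at this
      have hE : IsPreconnected (f₀^[J] '' K) :=
        hKp.image _ (f₀_differentiable.continuous.iterate _).continuousOn
      have h2 := strip_pull (m := T^[J] n) hne1 hne2 hE ⟨(n : ℂ), hnK, f₀_iter n J⟩
        (w := M) (by
          refine le_trans ?_ (le_max_right _ _)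
          linarith [(le_max_left (M + 2) 3).trans hJ2]) (by
          rintro _ ⟨x, hx, rfl⟩
          have h3 := hj1 (J + 1) ((le_max_left _ _).trans (Nat.le_succ _)) x hx
          have h4 := (hre (J + 1) x).trans_lt h3
          rw [Function.iterate_succ_apply', Function.iterate_succ_apply'] at h4
          exact h4)
      intro x hx
      unfold Near
      rw [if_neg (by tauto)]
      exact h2 _ ⟨x, hx, rfl⟩
    · obtain ⟨j, hj⟩ := hM.exists
      exact ⟨j, fun x hx => near_of_close (((hre j x).trans_lt (hj x hx)).trans_le (hM1 hw))⟩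
  obtain ⟨J, hJ⟩ := hbase
  have key : ∀ d : ℕ, d ≤ J → ∀ x ∈ K, Near (T^[J - d] n) (f₀^[J - d] x) := by
    intro d
    induction d with
    | zero => intro _ x hx; simpa using hJ x hx
    | succ d ih =>
      intro hd x hx
      have ih' := ih (by omega)
      have e : J - d = (J - (d + 1)) + 1 := by omega
      rw [e] at ih'
      have hE : IsPreconnected (f₀^[J - (d + 1)] '' K) :=
        hKp.image _ (f₀_differentiable.continuous.iterate _).continuousOn
      refine near_pull (m := T^[J - (d + 1)] n) hE ⟨(n : ℂ), hnK, f₀_iter n _⟩ ?_ _ ⟨x, hx, rfl⟩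
      rintro _ ⟨y, hy, rfl⟩
      have h1 := ih' y hy
      rw [Function.iterate_succ_apply', Function.iterate_succ_apply'] at h1
      exact h1
  have h1 := key J le_rfl z hzK
  simpa using h1

/-- the component of every integer lies in the strip of width four -/
theorem strip {n : ℤ} {z : ℂ} (hz : z ∈ FatouComponent f₀ (n : ℂ)) : |z.re - n| < 2 := (near_all hz).two

end Pool.Agent.U142.FE
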