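import Mathlib
import Pool.Agent.U142.FE6
import Pool.Agent.Y811.WD.Back

/-!
# The integers `-1` and `-2` lie in the same Fatou component of `f₀`
-/

set_option autoImplicit false

open Filter Topology Metric Set

namespace Pool.Agent.U142.FE

open Pool.Agent.H384R2.Fatou Pool.Agent.H723R2.LSW
open Pool.Agent.R105.WR (D D_pos ball_D)

/-- `F (h - 1) + 1` -/
noncomputable def G (h : ℝ) : ℝ :=
  h * (2 + Real.cos (Real.pi * h)) / 2 + (1 - Real.cos (Real.pi * h)) / 4 -
    Real.sin (Real.pi * h) * (1 + 2 * Real.cos (Real.pi * h)) / (2 * Real.pi)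

theorem F_G (h : ℝ) : F (-1 + h) = -1 + G h := by
  have e : Real.pi * (-1 + h) = Real.pi * h - Real.pi := by ring
  have hc : Real.cos (Real.pi * (-1 + h)) = -Real.cos (Real.pi * h) := by rw [e, Real.cos_sub_pi]
  have hs : Real.sin (Real.pi * (-1 + h)) = -Real.sin (Real.pi * h) := by rw [e, Real.sin_sub_pi]
  have hpi := Real.pi_pos
  unfold F G
  rw [hc, hs]
  field_simp
  ring

theorem inv_pi : 1 / 3.15 ≤ 1 / Real.pi := one_div_le_one_div_of_le Real.pi_pos Real.pi_lt_d2.le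

theorem G_right {h : ℝ} (h0 : 0 ≤ h) (h1 : h ≤ 1 / 4) : 0 ≤ G h ∧ G h ≤ 9 / 10 * h := by
  have hpi := Real.pi_gt_three
  have hpi2 := Real.pi_lt_d2
  set c := Real.cos (Real.pi * h) with hc
  set s := Real.sin (Real.pi * h) with hs
  have hc1 : c ≤ 1 := Real.cos_le_one _
  have hc2 : 1 - (Real.pi * h) ^ 2 / 2 ≤ c := Real.one_sub_sq_div_two_le_cos
  have hph : Real.pi * h ≤ 0.7875 := by nlinarith
  have hph0 : 0 ≤ Real.pi * h := by positivity
  have hc3 : 0.68 ≤ c := by nlinarith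
  have hs1 : s ≤ Real.pi * h := Real.sin_le hph0
  have hs2 : 2 * h ≤ s := by
    have := Real.mul_le_sin hph0 (by linarith)
    have e : 2 / Real.pi * (Real.pi * h) = 2 * h := by field_simp
    rwa [e] at this
  have hc4 : 0 ≤ 1 + 2 * c := by linarith
  unfold G
  rw [← hc, ← hs]
  constructor
  · have h2 : s * (1 + 2 * c) / (2 * Real.pi) ≤ h * (1 + 2 * c) / 2 := by
      rw [div_le_div_iff₀ (by positivity) (by norm_num)]
      have := mul_le_mul_of_nonneg_right hs1 hc4
      nlinarith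
    nlinarith
  · have h2 : h * (1 + 2 * c) * (1 / 3.15) ≤ s * (1 + 2 * c) / (2 * Real.pi) := by
      have h3 : h * (1 + 2 * c) * (1 / 3.15) ≤ h * (1 + 2 * c) * (1 / Real.pi) :=
        mul_le_mul_of_nonneg_left inv_pi (by positivity)
      have h4 : h * (1 + 2 * c) * (1 / Real.pi) = (2 * h) * (1 + 2 * c) / (2 * Real.pi) := by field_simp
      have h5 : (2 * h) * (1 + 2 * c) / (2 * Real.pi) ≤ s * (1 + 2 * c) / (2 * Real.pi) := by gcongr
      linarith
    have h3 : (1 - c) / 4 ≤ 0.311 * h := by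
      have h4 : (Real.pi * h) ^ 2 / 2 ≤ 1.244 * h := by
        have h5 : (Real.pi * h) ^ 2 ≤ (3.15 * h) * 0.7875 := by
          have : Real.pi * h ≤ 3.15 * h := by nlinarith
          nlinarith
        nlinarith
      linarith
    nlinarith

theorem G_left {t : ℝ} (h0 : 0 ≤ t) (h1 : t ≤ 1) : -(9 / 10 * t) ≤ G (-t) ∧ G (-t) ≤ 9 / 10 * t ∧ G (-t) ≤ 1 / 4 := by
  have hpi := Real.pi_gt_three
  have hpi2 := Real.pi_lt_d2
  have hp0 := Real.pi_pos
  have ec : Real.cos (Real.pi * -t) = Real.cos (Real.pi * t) := by rw [mul_neg, Real.cos_neg]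
  have es : Real.sin (Real.pi * -t) = -Real.sin (Real.pi * t) := by rw [mul_neg, Real.sin_neg]
  unfold G
  rw [ec, es]
  set c := Real.cos (Real.pi * t) with hc
  set s := Real.sin (Real.pi * t) with hs
  have hpt0 : 0 ≤ Real.pi * t := by positivity
  have hpt1 : Real.pi * t ≤ Real.pi := by nlinarith
  have hs0 : 0 ≤ s := Real.sin_nonneg_of_nonneg_of_le_pi hpt0 hpt1
  have hs1 : s ≤ Real.pi * t := Real.sin_le hpt0
  have hs1' : s ≤ 1 := Real.sin_le_one _
  have hc1 : c ≤ 1 := Real.cos_le_one _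
  have hc0 : -1 ≤ c := Real.neg_one_le_cos _
  have e3 : -t * (2 + c) / 2 + (1 - c) / 4 - -s * (1 + 2 * c) / (2 * Real.pi) =
      -t * (2 + c) / 2 + (1 - c) / 4 + s * (1 + 2 * c) / (2 * Real.pi) := by ring
  rw [e3]
  rcases le_total t (1 / 2) with ht | ht
  · -- `c ≥ 0`
    have hc2 : 0 ≤ c := Real.cos_nonneg_of_neg_pi_div_two_le_of_le (by linarith) (by nlinarith)
    have hs2 : 2 * t ≤ s := by
      have := Real.mul_le_sin hpt0 (by nlinarith)
      have e : 2 / Real.pi * (Real.pi * t) = 2 * t := by field_simp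
      rwa [e] at this
    have hc4 : 0 ≤ 1 + 2 * c := by linarith
    have hup : s * (1 + 2 * c) / (2 * Real.pi) ≤ t * (1 + 2 * c) / 2 := by
      rw [div_le_div_iff₀ (by positivity) (by norm_num)]
      have := mul_le_mul_of_nonneg_right hs1 hc4
      nlinarith
    have hlow : t * (1 + 2 * c) * (1 / 3.15) ≤ s * (1 + 2 * c) / (2 * Real.pi) := by
      have h3 : t * (1 + 2 * c) * (1 / 3.15) ≤ t * (1 + 2 * c) * (1 / Real.pi) :=
        mul_le_mul_of_nonneg_left inv_pi (by positivity)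
      have h4 : t * (1 + 2 * c) * (1 / Real.pi) = (2 * t) * (1 + 2 * c) / (2 * Real.pi) := by field_simp
      have h5 : (2 * t) * (1 + 2 * c) / (2 * Real.pi) ≤ s * (1 + 2 * c) / (2 * Real.pi) := by gcongr
      linarith
    have hG : -t * (2 + c) / 2 + (1 - c) / 4 + s * (1 + 2 * c) / (2 * Real.pi) ≤ (1 - c) * (1 - 2 * t) / 4 := by
      linarith
    refine ⟨?_, ?_, ?_⟩
    · nlinarith
    · refine hG.trans ?_
      have h2 : 1 - c ≤ (Real.pi * t) ^ 2 / 2 := by
        have := Real.one_sub_sq_div_two_le_cos (x := Real.pi * t)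
        linarith
      have h3 : (Real.pi * t) ^ 2 ≤ 10 * t ^ 2 := by
        rw [mul_pow]
        have : Real.pi ^ 2 ≤ 10 := by nlinarith
        nlinarith [sq_nonneg t]
      have h4 : 1 - c ≤ 5 * t ^ 2 := by linarith
      have h5 : (1 - c) * (1 - 2 * t) ≤ 5 * t ^ 2 * (1 - 2 * t) := mul_le_mul_of_nonneg_right h4 (by linarith)
      have h6 : t * (1 - 2 * t) ≤ 1 / 8 := by nlinarith [sq_nonneg (t - 1 / 4)]
      nlinarith
    · refine hG.trans ?_
      nlinarith
  · rcases le_total (-(1 / 2)) c with hcc | hcc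
    · -- `-1/2 ≤ c`, `t ≥ 1/2`
      have hc2 : c ≤ 0 := by
        have : Real.pi / 2 ≤ Real.pi * t := by nlinarith
        exact Real.cos_nonpos_of_pi_div_two_le_of_le this (by linarith)
      have hc4 : 0 ≤ 1 + 2 * c := by linarith
      have hup : s * (1 + 2 * c) / (2 * Real.pi) ≤ t * (1 + 2 * c) / 2 := by
        rw [div_le_div_iff₀ (by positivity) (by norm_num)]
        have := mul_le_mul_of_nonneg_right hs1 hc4
        nlinarith
      have hlow : 0 ≤ s * (1 + 2 * c) / (2 * Real.pi) := by positivity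
      have hG : -t * (2 + c) / 2 + (1 - c) / 4 + s * (1 + 2 * c) / (2 * Real.pi) ≤ (1 - c) * (1 - 2 * t) / 4 := by
        linarith
      have hG0 : (1 - c) * (1 - 2 * t) / 4 ≤ 0 := by nlinarith
      refine ⟨?_, by linarith, by linarith⟩
      nlinarith
    · -- `c ≤ -1/2`, `t ≥ 2/3`
      have ht3 : 2 / 3 ≤ t := by
        by_contra hcon
        push Not at hcon
        have h2 : Real.cos (2 * Real.pi / 3) < Real.cos (Real.pi * t) := by
          apply Real.cos_lt_cos_of_nonneg_of_le_pi hpt0 (by linarith)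
          nlinarith
        have h3 : Real.cos (2 * Real.pi / 3) = -(1 / 2) := by
          have : 2 * Real.pi / 3 = Real.pi - Real.pi / 3 := by ring
          rw [this, Real.cos_pi_sub, Real.cos_pi_div_three]
        rw [h3] at h2
        linarith
      have h2 : -(1 / 6) ≤ s * (1 + 2 * c) / (2 * Real.pi) ∧ s * (1 + 2 * c) / (2 * Real.pi) ≤ 0 := by
        constructor
        · rw [le_div_iff₀ (by positivity)]
          have h3 : -1 ≤ s * (1 + 2 * c) := by nlinarith
          nlinarith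
        · apply div_nonpos_of_nonpos_of_nonneg _ (by positivity)
          nlinarith
      refine ⟨?_, ?_, ?_⟩
      · nlinarith [h2.1]
      · nlinarith [h2.2]
      · nlinarith [h2.2]

theorem orbit {h : ℝ} (h0 : -1 ≤ h) (h1 : h ≤ 1 / 4) (k : ℕ) :
    ∃ g : ℝ, f₀^[k] (((-1 + h : ℝ)) : ℂ) = ((-1 + g : ℝ) : ℂ) ∧ -1 ≤ g ∧ g ≤ 1 / 4 ∧ |g| ≤ (9 / 10) ^ k * |h| := by
  induction k with
  | zero => exact ⟨h, rfl, h0, h1, by simp⟩
  | succ k ih =>
    obtain ⟨g, e, g0, g1, g2⟩ := ih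
    refine ⟨G g, ?_, ?_⟩
    · rw [Function.iterate_succ_apply', e, ← F_coe, F_G]
    · have hp : (9 / 10 : ℝ) ^ (k + 1) * |h| = 9 / 10 * ((9 / 10) ^ k * |h|) := by rw [pow_succ]; ring
      rw [hp]
      rcases le_total 0 g with hg | hg
      · obtain ⟨a1, a2⟩ := G_right hg g1
        rw [abs_of_nonneg hg] at g2
        refine ⟨by linarith, by linarith, ?_⟩
        rw [abs_of_nonneg a1]
        linarith
      · obtain ⟨a1, a2, a3⟩ := G_left (t := -g) (by linarith) (by linarith)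
        rw [neg_neg] at a1 a2 a3
        rw [abs_of_nonpos hg] at g2
        refine ⟨by linarith, a3, ?_⟩
        rw [abs_le]
        constructor <;> linarith

theorem seg_fatou {x : ℝ} (h0 : -2 ≤ x) (h1 : x ≤ -(3 / 4)) : (x : ℂ) ∈ FatouSet f₀ := by
  have hD := D_pos (-1)
  have h2 : Tendsto (fun k : ℕ => (9 / 10 : ℝ) ^ k * |x + 1|) atTop (𝓝 (0 * |x + 1|)) :=
    (tendsto_pow_atTop_nhds_zero_of_lt_one (by norm_num) (by norm_num)).mul_const _
  rw [zero_mul] at h2
  obtain ⟨k, hk⟩ := (h2.eventually (gt_mem_nhds hD)).exists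
  obtain ⟨g, e, -, -, g2⟩ := orbit (h := x + 1) (by linarith) (by linarith) k
  have e1 : ((-1 + (x + 1) : ℝ) : ℂ) = (x : ℂ) := by push_cast; ring
  rw [e1] at e
  have h3 : f₀^[k] (x : ℂ) ∈ FatouSet f₀ := by
    apply ball_D (-1)
    rw [e, mem_ball, dist_eq_norm]
    have e2 : ((-1 + g : ℝ) : ℂ) - ((-1 : ℤ) : ℂ) = (g : ℂ) := by push_cast; ring
    rw [e2, Complex.norm_real, Real.norm_eq_abs]
    exact g2.trans_lt hk
  have back : ∀ j : ℕ, ∀ z : ℂ, f₀^[j] z ∈ FatouSet f₀ → z ∈ FatouSet f₀ := by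
    intro j
    induction j with
    | zero => exact fun z hz => hz
    | succ j ih =>
      intro z hz
      rw [Function.iterate_succ_apply] at hz
      exact Pool.Agent.Y811.WD.t_BACK z (ih _ hz)
  exact back k _ h3

/-- the real segment `[-2, -3/4]` lies in the component of `-1` -/
theorem seg_comp {x : ℝ} (h0 : -2 ≤ x) (h1 : x ≤ -(3 / 4)) : (x : ℂ) ∈ FatouComponent f₀ ((-1 : ℤ) : ℂ) := by
  have hE : IsPreconnected ((fun y : ℝ => (y : ℂ)) '' Set.Icc (-2 : ℝ) (-(3 / 4))) :=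
    isPreconnected_Icc.image _ Complex.continuous_ofReal.continuousOn
  have hsub : ((fun y : ℝ => (y : ℂ)) '' Set.Icc (-2 : ℝ) (-(3 / 4))) ⊆ FatouComponent f₀ ((-1 : ℤ) : ℂ) := by
    apply hE.subset_connectedComponentIn
    · exact ⟨-1, ⟨by norm_num, by norm_num⟩, by push_cast; rfl⟩
    · rintro _ ⟨y, hy, rfl⟩
      exact seg_fatou hy.1 hy.2
  exact hsub ⟨x, ⟨h0, h1⟩, rfl⟩

theorem comp_eq : FatouComponent f₀ ((-2 : ℤ) : ℂ) = FatouComponent f₀ ((-1 : ℤ) : ℂ) := by
  have h := seg_comp (x := -2) le_rfl (by norm_num)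
  have e : ((-2 : ℝ) : ℂ) = ((-2 : ℤ) : ℂ) := by push_cast; rfl
  rw [e] at h
  exact (connectedComponentIn_eq h).symm

/-- which integers lie in the same component -/
theorem same_iff {m n : ℤ} (hmn : m ≠ n) : FatouComponent f₀ (m : ℂ) = FatouComponent f₀ (n : ℂ) ↔
    (m = -1 ∧ n = -2) ∨ (m = -2 ∧ n = -1) := by
  constructor
  · intro h
    have hm : (m : ℂ) ∈ FatouComponent f₀ (n : ℂ) := by
      rw [← h]; exact mem_connectedComponentIn (int_mem_fatou m)
    have h1 := near_all hm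
    unfold Near at h1
    rw [Complex.intCast_re] at h1
    split_ifs at h1 with hn
    · have h2 : -3 < m := by exact_mod_cast h1.1
      have h3 : m ≤ -1 := by
        by_contra hcon
        have : (0 : ℤ) ≤ m := by omega
        have : (0 : ℝ) ≤ m := by exact_mod_cast this
        linarith [h1.2]
      omega
    · exfalso
      apply hmn
      have h2 : |m - n| < 1 := by exact_mod_cast h1
      have := Int.abs_lt_one_iff.1 h2
      omega
  · rintro (⟨rfl, rfl⟩ | ⟨rfl, rfl⟩)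
    · exact comp_eq.symm
    · exact comp_eq

end Pool.Agent.U142.FE
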