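import Mathlib
import Pool.Agent.Y55.DS.Poly2
import Pool.Agent.Y55.DS.Disc2

/-!
# The Weyl inequality for functions which are constant on trajectories that coalesce early

The theorems of `Pool.Agent.Y55.DS` for functions which take the same value at two integers whose
trajectories are at the same point at the same time `j`, where now only the times `j` with
`2 ^ j ≤ N` matter.
-/

set_option autoImplicit false

namespace Pool.Agent.U142.HS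

open Finset Pool.Agent.Y965.PS Pool.Agent.Y55.DS Pool.Agent.H373R2.NB
open Pool.Agent.Helper602.MK (ee)
open Pool.Agent.Helper602.MK.N_J5b (ee_add ee_zero ee_conj norm_ee)

variable {d : ℤ}

/-- bounded functions that take the same value at `x` and `y` if the trajectories are at the same
point at the time `t` -/
def SyncAt (d : ℤ) (t : ℕ) (F : ℤ → ℝ) : Prop :=
  (∀ x, |F x| ≤ 1) ∧ ∀ (x y : ℤ), (Tz d)^[t] x = (Tz d)^[t] y → F x = F y

/-- bounded functions that take the same value at `x` and `y` if the trajectories are at the same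
point at some time `j` with `2 ^ j ≤ N` -/
def SyncN (d : ℤ) (N : ℕ) (F : ℤ → ℝ) : Prop :=
  (∀ x, |F x| ≤ 1) ∧ ∀ (j : ℕ), 2 ^ j ≤ N → ∀ (x y : ℤ), (Tz d)^[j] x = (Tz d)^[j] y → F x = F y

open Classical in
/-- THE DISPERSION INEQUALITY for a fixed number of odd steps -/
theorem dispA (hd : d = 1 ∨ d = -1) (t a : ℕ) {R : ℝ} (hR : 0 ≤ R) (N1 N : ℕ) {F : ℤ → ℝ} (hF : SyncAt d t F)
    {z : ℕ → ℂ} (hz1 : ∀ m, ‖z m‖ ≤ 1) {β : ℕ → ℝ} (hβ : ∀ h, 0 ≤ β h)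
    (hz : ∀ h : ℕ, 1 ≤ h → (h : ℝ) ≤ R * 2 ^ t / 3 ^ a → ∀ m0 J : ℕ, N1 < m0 →
      (∀ j < J, m0 + 2 ^ t * j + h ≤ N) →
      ‖∑ j ∈ range J, z (m0 + 2 ^ t * j) * (starRingEnd ℂ) (z (m0 + 2 ^ t * j + h))‖ ≤ β h) :
    ‖∑ m ∈ GA d t a R N1 N, (F m : ℂ) * z m‖ ^ 2 ≤ (N * (3 ^ a / 2 ^ t) + R) *
      (N + 2 * (2 ^ t * ∑ h ∈ Icc 1 ⌊R * 2 ^ t / 3 ^ a⌋₊, β h)) := by
  set G := GA d t a R N1 N with hG
  set κ : ℕ → ℤ := fun m => (Tz d)^[t] (m : ℤ) with hκ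
  set I := G.image κ with hI
  set A : ℤ → ℂ := fun p => ∑ m ∈ G.filter (fun m => κ m = p), z m with hA
  -- step 1
  have h1 : ‖∑ m ∈ G, (F m : ℂ) * z m‖ ≤ ∑ p ∈ I, ‖A p‖ := by
    rw [← sum_fiberwise_of_maps_to (s := G) (t := I) (g := κ) (fun m hm => mem_image_of_mem _ hm)]
    refine (norm_sum_le _ _).trans (sum_le_sum fun p hp => ?_)
    rw [hI, mem_image] at hp
    obtain ⟨m0, hm0, hp0⟩ := hp
    have e : ∑ m ∈ G.filter (fun m => κ m = p), (F m : ℂ) * z m = (F m0 : ℂ) * A p := by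
      rw [hA]
      dsimp only
      rw [mul_sum]
      apply sum_congr rfl
      intro m hm
      rw [mem_filter] at hm
      have h2 : κ m = κ m0 := by rw [hm.2, hp0]
      rw [hF.2 m m0 h2]
    rw [e, norm_mul, Complex.norm_real, Real.norm_eq_abs]
    have := hF.1 m0
    nlinarith [norm_nonneg (A p)]
  -- step 2
  have h2 : (∑ p ∈ I, ‖A p‖) ^ 2 ≤ I.card * ∑ p ∈ I, ‖A p‖ ^ 2 := sq_sum_le_card_mul_sum_sq
  -- step 3
  have h3 : ((∑ p ∈ I, ‖A p‖ ^ 2 : ℝ) : ℂ) = ∑ p ∈ PA d t a R N1 N, z p.1 * (starRingEnd ℂ) (z p.2) := by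
    have e1 : ∑ p ∈ PA d t a R N1 N, z p.1 * (starRingEnd ℂ) (z p.2)
        = ∑ m ∈ G, ∑ m' ∈ G.filter (fun m' => κ m = κ m'), z m * (starRingEnd ℂ) (z m') := by
      unfold PA
      rw [sum_filter, sum_product]
      exact sum_congr rfl fun m _ => (sum_filter _ _).symm
    rw [e1, ← sum_fiberwise_of_maps_to (s := G) (t := I) (g := κ) (fun m hm => mem_image_of_mem _ hm)]
    push_cast
    apply sum_congr rfl
    intro p _
    have e2 : ∑ m ∈ G.filter (fun m => κ m = p), ∑ m' ∈ G.filter (fun m' => κ m = κ m'), z m * (starRingEnd ℂ) (z m')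
        = ∑ m ∈ G.filter (fun m => κ m = p), ∑ m' ∈ G.filter (fun m' => κ m' = p), z m * (starRingEnd ℂ) (z m') := by
      apply sum_congr rfl
      intro m hm
      rw [mem_filter] at hm
      rw [hm.2]
      apply sum_congr _ fun _ _ => rfl
      ext m'
      rw [mem_filter, mem_filter]
      constructor
      · rintro ⟨a, b⟩; exact ⟨a, b.symm⟩
      · rintro ⟨a, b⟩; exact ⟨a, b.symm⟩
    rw [e2, ← sum_mul_sum, ← map_sum]
    rw [← Complex.ofReal_pow, ← Complex.normSq_eq_norm_sq, Complex.mul_conj]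
  -- step 4
  set D : ℂ := ∑ p ∈ (PA d t a R N1 N).filter (fun p => p.1 < p.2), z p.1 * (starRingEnd ℂ) (z p.2) with hD
  have h4 : ∑ p ∈ PA d t a R N1 N, z p.1 * (starRingEnd ℂ) (z p.2)
      = ∑ p ∈ (PA d t a R N1 N).filter (fun p => p.1 = p.2), z p.1 * (starRingEnd ℂ) (z p.2)
        + (D + (starRingEnd ℂ) D) := by
    rw [← sum_filter_add_sum_filter_not (PA d t a R N1 N) (fun p => p.1 = p.2)]
    congr 1
    rw [← sum_filter_add_sum_filter_not ((PA d t a R N1 N).filter fun p => ¬ p.1 = p.2) (fun p => p.1 < p.2)]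
    congr 1
    · rw [hD, filter_filter]
      apply sum_congr _ fun _ _ => rfl
      apply filter_congr
      intro p _
      omega
    · rw [hD, map_sum, filter_filter]
      refine sum_bij' (fun p _ => (p.2, p.1)) (fun p _ => (p.2, p.1)) ?_ ?_ ?_ ?_ ?_
      · intro p hp
        rw [mem_filter, mem_PA] at hp ⊢
        exact ⟨⟨⟨hp.1.1.2, hp.1.1.1⟩, hp.1.2.symm⟩, by dsimp only; omega⟩
      · intro p hp
        rw [mem_filter, mem_PA] at hp ⊢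
        refine ⟨⟨⟨hp.1.1.2, hp.1.1.1⟩, hp.1.2.symm⟩, ?_⟩
        dsimp only
        have := hp.2
        omega
      · intro p _; rfl
      · intro p _; rfl
      · intro p _
        dsimp only
        rw [map_mul, Complex.conj_conj, mul_comm]
  have h5 : ‖∑ p ∈ (PA d t a R N1 N).filter (fun p => p.1 = p.2), z p.1 * (starRingEnd ℂ) (z p.2)‖ ≤ N := by
    refine (norm_sum_le _ _).trans ?_
    have h6 : ∀ p ∈ (PA d t a R N1 N).filter (fun p => p.1 = p.2), ‖z p.1 * (starRingEnd ℂ) (z p.2)‖ ≤ 1 := by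
      intro p _
      rw [norm_mul, RCLike.norm_conj]
      have a := hz1 p.1
      have b := hz1 p.2
      nlinarith [norm_nonneg (z p.1), norm_nonneg (z p.2)]
    refine (sum_le_sum h6).trans ?_
    rw [sum_const, nsmul_eq_mul, mul_one]
    have h7 : ((PA d t a R N1 N).filter (fun p => p.1 = p.2)) ⊆ (Icc 1 N).image fun m => (m, m) := by
      intro p hp
      rw [mem_filter, mem_PA, mem_GA] at hp
      rw [mem_image]
      refine ⟨p.1, ?_, ?_⟩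
      · rw [mem_Icc]; have := hp.1.1.1.1; omega
      · ext
        · rfl
        · exact hp.2
    have h8 := (card_le_card h7).trans card_image_le
    rw [Nat.card_Icc, Nat.add_sub_cancel] at h8
    exact_mod_cast h8
  have h6 : ‖D‖ ≤ 2 ^ t * ∑ h ∈ Icc 1 ⌊R * 2 ^ t / 3 ^ a⌋₊, β h := by
    rw [hD, upper_pairs' hd, mul_sum]
    refine (norm_sum_le _ _).trans (sum_le_sum fun h hh => ?_)
    rw [mem_Icc] at hh
    have hh2 : (h : ℝ) ≤ R * 2 ^ t / 3 ^ a := (Nat.le_floor_iff (by positivity)).1 hh.2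
    exact pr_sum t a R N1 N h (hz h hh.1 hh2) (hβ h)
  have h7 : ∑ p ∈ I, ‖A p‖ ^ 2 ≤ N + 2 * (2 ^ t * ∑ h ∈ Icc 1 ⌊R * 2 ^ t / 3 ^ a⌋₊, β h) := by
    have h8 : ‖((∑ p ∈ I, ‖A p‖ ^ 2 : ℝ) : ℂ)‖ = ∑ p ∈ I, ‖A p‖ ^ 2 := by
      rw [Complex.norm_real, Real.norm_eq_abs, abs_of_nonneg (sum_nonneg fun _ _ => by positivity)]
    rw [← h8, h3, h4]
    refine (norm_add_le _ _).trans ?_
    have h9 := norm_add_le D ((starRingEnd ℂ) D)
    rw [RCLike.norm_conj] at h9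
    linarith
  calc _ ≤ (∑ p ∈ I, ‖A p‖) ^ 2 := pow_le_pow_left₀ (norm_nonneg _) h1 2
    _ ≤ I.card * ∑ p ∈ I, ‖A p‖ ^ 2 := h2
    _ ≤ _ := mul_le_mul (image_card' hd t a hR N1 N) h7 (sum_nonneg fun _ _ => by positivity) (by positivity)

theorem one_class (hd : d = 1 ∨ d = -1) (u a : ℕ) (ha : 2 * u ≤ a) (ha' : a ≤ 3 * u) {R η : ℝ} (hR : 0 ≤ R) (hη : 0 ≤ η)
    (N : ℕ) (hN0 : 0 < N)
    (hRN : R * (32 / 9) ^ u ≤ N) {F : ℤ → ℝ} (hF : SyncAt d (5 * u) F) {z : ℕ → ℂ} (hz1 : ∀ m, ‖z m‖ ≤ 1) {β : ℕ → ℝ}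
    (hβ : ∀ h, 0 ≤ β h)
    (hz : ∀ h : ℕ, 1 ≤ h → (h : ℝ) ≤ R * (32 / 9) ^ u → ∀ m0 J : ℕ, (∀ j < J, m0 + 2 ^ (5 * u) * j + h ≤ N) →
      ‖∑ j ∈ range J, z (m0 + 2 ^ (5 * u) * j) * (starRingEnd ℂ) (z (m0 + 2 ^ (5 * u) * j + h))‖ ≤ β h)
    (hs : 2 ^ (5 * u) * ∑ h ∈ Icc 1 ⌊R * 2 ^ (5 * u) / 3 ^ a⌋₊, β h ≤ η * N * (R * 2 ^ (5 * u) / 3 ^ a)) :
    ‖∑ m ∈ GA d (5 * u) a R 0 N, (F m : ℂ) * z m‖ ≤ N * Real.sqrt ((27 / 32) ^ u + R / N + 4 * η * R) := by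
  have h12 : (0 : ℝ) < 9 ^ u := by positivity
  have hNR : (0 : ℝ) < N := by exact_mod_cast hN0
  have h10 : (3 : ℝ) ^ (2 * u) = 9 ^ u := by rw [pow_mul]; norm_num
  have h11 : (2 : ℝ) ^ (5 * u) = 32 ^ u := by rw [pow_mul]; norm_num
  have h27 : (3 : ℝ) ^ (3 * u) = 27 ^ u := by rw [pow_mul]; norm_num
  have hw1 : (3 : ℝ) ^ a / 2 ^ (5 * u) ≤ (27 / 32) ^ u := by
    rw [div_pow, h11, ← h27]
    have : (3 : ℝ) ^ a ≤ 3 ^ (3 * u) := pow_le_pow_right₀ (by norm_num) ha'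
    gcongr
  have hw2 : R * 2 ^ (5 * u) / 3 ^ a ≤ R * (32 / 9) ^ u := by
    rw [div_pow, h11, ← mul_div_assoc, ← h10]
    have : (3 : ℝ) ^ (2 * u) ≤ 3 ^ a := pow_le_pow_right₀ (by norm_num) ha
    gcongr
  have hw0 : 0 ≤ R * 2 ^ (5 * u) / 3 ^ a := by positivity
  have key := dispA hd (5 * u) a hR 0 N hF hz1 hβ (fun h h1 h2 m0 J _ h3 => hz h h1 (h2.trans hw2) m0 J h3)
  set w : ℝ := 3 ^ a / 2 ^ (5 * u) with hw
  set v : ℝ := R * 2 ^ (5 * u) / 3 ^ a with hv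
  have hwv : w * v = R := by rw [hw, hv]; field_simp
  have hww : 0 < w := by rw [hw]; positivity
  have hvN : v ≤ N := hw2.trans hRN
  have h1 : ‖∑ m ∈ GA d (5 * u) a R 0 N, (F m : ℂ) * z m‖ ^ 2 ≤ (N : ℝ) ^ 2 * ((27 / 32) ^ u + R / N + 4 * η * R) := by
    refine key.trans ?_
    have e1 : (N * w + R) * (N + 2 * (2 ^ (5 * u) * ∑ h ∈ Icc 1 ⌊v⌋₊, β h)) ≤ (N * w + R) * (N + 2 * (η * N * v)) := by
      apply mul_le_mul_of_nonneg_left _ (by positivity)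
      linarith
    refine e1.trans ?_
    have e2 : (N * w + R) * (N + 2 * (η * N * v)) = (N : ℝ) ^ 2 * w + N * R + 2 * η * N ^ 2 * (w * v) + 2 * η * R * N * v := by ring
    rw [e2, hwv]
    have e3 : (N : ℝ) ^ 2 * ((27 / 32) ^ u + R / N + 4 * η * R) = (N : ℝ) ^ 2 * (27 / 32) ^ u + N * R + 2 * η * N ^ 2 * R
        + 2 * η * R * N * N := by
      field_simp; ring
    rw [e3]
    have e4 : (N : ℝ) ^ 2 * w ≤ (N : ℝ) ^ 2 * (27 / 32) ^ u := mul_le_mul_of_nonneg_left hw1 (by positivity)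
    have e5 : 2 * η * R * N * v ≤ 2 * η * R * N * N := mul_le_mul_of_nonneg_left hvN (by positivity)
    linarith
  have h2 : 0 ≤ (27 / 32) ^ u + R / N + 4 * η * R := by positivity
  refine le_of_sq_le_sq ?_ (by positivity)
  rw [mul_pow, Real.sq_sqrt h2]
  exact h1
where
  le_of_sq_le_sq {x y : ℝ} (h : x ^ 2 ≤ y ^ 2) (hy : 0 ≤ y) : x ≤ y := by
    exact le_of_sq_le_sq' h hy
  le_of_sq_le_sq' {x y : ℝ} (h : x ^ 2 ≤ y ^ 2) (hy : 0 ≤ y) : x ≤ y := by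
    by_contra hc
    push Not at hc
    nlinarith

open Classical in
/-- THE MASTER INEQUALITY -/
theorem master (hd : d = 1 ∨ d = -1) (u : ℕ) {R η : ℝ} (hR : 0 < R) (hη : 0 ≤ η) (N : ℕ) (hN : 2 ^ (5 * u) ≤ N)
    (hRN : R * (32 / 9) ^ u ≤ N) {F : ℤ → ℝ} (hF : SyncAt d (5 * u) F) {z : ℕ → ℂ} (hz1 : ∀ m, ‖z m‖ ≤ 1) {β : ℕ → ℝ}
    (hβ : ∀ h, 0 ≤ β h)
    (hz : ∀ h : ℕ, 1 ≤ h → (h : ℝ) ≤ R * (32 / 9) ^ u → ∀ m0 J : ℕ, (∀ j < J, m0 + 2 ^ (5 * u) * j + h ≤ N) →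
      ‖∑ j ∈ range J, z (m0 + 2 ^ (5 * u) * j) * (starRingEnd ℂ) (z (m0 + 2 ^ (5 * u) * j + h))‖ ≤ β h)
    (hs : ∀ a, 2 * u ≤ a → a ≤ 3 * u →
      2 ^ (5 * u) * ∑ h ∈ Icc 1 ⌊R * 2 ^ (5 * u) / 3 ^ a⌋₊, β h ≤ η * N * (R * 2 ^ (5 * u) / 3 ^ a)) :
    ‖∑ m ∈ Icc 1 N, (F m : ℂ) * z m‖ ≤ 2 * N * (2 * (3125 / 3456) ^ u + 5 * u / (4 * R))
      + (u + 1) * (N * Real.sqrt ((27 / 32) ^ u + R / N + 4 * η * R)) := by
  have hN0 : 0 < N := lt_of_lt_of_le (by positivity) hN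
  have hb : ∀ m : ℕ, ‖(F m : ℂ) * z m‖ ≤ 1 := by
    intro m
    rw [norm_mul, Complex.norm_real, Real.norm_eq_abs]
    have h1 := hF.1 m
    have h2 := hz1 m
    nlinarith [norm_nonneg (z m), abs_nonneg (F m)]
  rw [← sum_filter_add_sum_filter_not (Icc 1 N) (fun m : ℕ => ¬ Good d u R (m : ℤ))]
  refine (norm_add_le _ _).trans (add_le_add ?_ ?_)
  · refine (norm_sum_le _ _).trans ((sum_le_sum fun m _ => hb m).trans ?_)
    rw [sum_const, nsmul_eq_mul, mul_one]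
    exact bad_count u hR N hN
  · have h1 : ((Icc 1 N).filter fun m : ℕ => ¬ ¬ Good d u R (m : ℤ)) = (Icc (2 * u) (3 * u)).biUnion fun a => GA d (5 * u) a R 0 N := by
      ext m
      rw [mem_filter, mem_biUnion, not_not, mem_Icc]
      constructor
      · rintro ⟨⟨h1, h2⟩, h3, h4, h5⟩
        refine ⟨ac d (5 * u) m, mem_Icc.2 ⟨h3, h4⟩, ?_⟩
        rw [mem_GA]
        exact ⟨⟨by omega, h2⟩, rfl, h5⟩
      · rintro ⟨a, ha, hm⟩
        rw [mem_GA] at hm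
        rw [mem_Icc] at ha
        refine ⟨⟨by omega, hm.1.2⟩, ?_⟩
        unfold Good
        rw [hm.2.1]
        exact ⟨ha.1, ha.2, hm.2.2⟩
    rw [h1, sum_biUnion]
    · refine (norm_sum_le _ _).trans ?_
      have h2 : ∀ a ∈ Icc (2 * u) (3 * u), ‖∑ m ∈ GA d (5 * u) a R 0 N, (F m : ℂ) * z m‖ ≤
          N * Real.sqrt ((27 / 32) ^ u + R / N + 4 * η * R) := by
        intro a ha
        rw [mem_Icc] at ha
        exact one_class hd u a ha.1 ha.2 hR.le hη N hN0 hRN hF hz1 hβ hz (hs a ha.1 ha.2)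
      refine (sum_le_sum h2).trans ?_
      rw [sum_const, Nat.card_Icc, nsmul_eq_mul]
      have h3 : 3 * u + 1 - 2 * u = u + 1 := by omega
      rw [h3]
      push_cast
      exact le_rfl
    · intro a _ b _ hab
      rw [Function.onFun, Finset.disjoint_left]
      intro m hm hm'
      rw [mem_GA] at hm hm'
      exact hab (hm.2.1.symm.trans hm'.2.1)

theorem bound_K (hd : d = 1 ∨ d = -1) {E K : ℕ} {lam : ℝ} (hl0 : 0 < lam) (hl1 : lam < 1)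
    (hE1 : (3125 / 3456 : ℝ) ^ E ≤ lam ^ 4) (hE2 : (27 / 32 : ℝ) ^ E ≤ lam ^ 4) {N : ℕ}
    (hN : 2 ^ (5 * (E * K)) ≤ N) (hRN : ((32 / 9) ^ E / lam ^ 4) ^ K ≤ (N : ℝ)) (hR : (1 / lam ^ 4) ^ K / (N : ℝ) ≤ lam ^ (4 * K))
    {C1 : ℝ} (hC1 : 0 ≤ C1) {F : ℤ → ℝ} (hF : SyncAt d (5 * (E * K)) F) {z : ℕ → ℂ} (hz1 : ∀ m, ‖z m‖ ≤ 1) {β : ℕ → ℝ}
    (hβ : ∀ h, 0 ≤ β h)
    (hz : ∀ h : ℕ, 1 ≤ h → (h : ℝ) ≤ ((32 / 9) ^ E / lam ^ 4) ^ K → ∀ m0 J : ℕ,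
      (∀ j < J, m0 + 2 ^ (5 * (E * K)) * j + h ≤ N) →
      ‖∑ j ∈ range J, z (m0 + 2 ^ (5 * (E * K)) * j) * (starRingEnd ℂ) (z (m0 + 2 ^ (5 * (E * K)) * j + h))‖ ≤ β h)
    (hs : ∀ X : ℝ, (32 / 27) ^ (E * K) ≤ X → X ≤ ((32 / 9) ^ E / lam ^ 4) ^ K →
      2 ^ (5 * (E * K)) * ∑ h ∈ Icc 1 ⌊X⌋₊, β h ≤ (C1 * lam ^ (8 * K)) * N * X) :
    ‖∑ m ∈ Icc 1 N, (F m : ℂ) * z m‖ ≤
      ((4 + 5 * E / 2 + (E + 1) * Real.sqrt (2 + 4 * C1)) / (1 - lam)) * N * lam ^ K := by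
  set R : ℝ := (1 / lam ^ 4) ^ K with hRdef
  have hl4 : 0 < lam ^ 4 := by positivity
  have hR0 : 0 < R := by positivity
  have hl41 : lam ^ 4 ≤ 1 := pow_le_one₀ hl0.le hl1.le
  have hR1 : 1 ≤ R := by
    rw [hRdef]; apply one_le_pow₀
    rw [le_div_iff₀ hl4, one_mul]; exact hl41
  have hRl : R * lam ^ (4 * K) = 1 := by
    rw [hRdef, pow_mul, ← mul_pow, one_div, inv_mul_cancel₀ hl4.ne', one_pow]
  have hX : R * (32 / 9) ^ (E * K) = ((32 / 9) ^ E / lam ^ 4) ^ K := by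
    rw [hRdef, pow_mul (32 / 9 : ℝ), ← mul_pow]; congr 1; ring
  have h11 : (2 : ℝ) ^ (5 * (E * K)) = 32 ^ (E * K) := by rw [pow_mul 2 5]; norm_num
  have h27 : (3 : ℝ) ^ (3 * (E * K)) = 27 ^ (E * K) := by rw [pow_mul 3 3]; norm_num
  have h9 : (3 : ℝ) ^ (2 * (E * K)) = 9 ^ (E * K) := by rw [pow_mul 3 2]; norm_num
  have hK1 : lam ^ (8 * K) ≤ 1 := pow_le_one₀ hl0.le hl1.le
  have key := master hd (E * K) hR0 (η := C1 * lam ^ (8 * K)) (by positivity) N hN (by rw [hX]; exact hRN) hF hz1 hβ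
    (by rw [hX]; exact hz) (by
      intro a ha1 ha2
      apply hs
      · have e1 : (32 / 27 : ℝ) ^ (E * K) = 2 ^ (5 * (E * K)) / 3 ^ (3 * (E * K)) := by rw [div_pow, h11, h27]
        rw [e1]
        have e2 : (3 : ℝ) ^ a ≤ 3 ^ (3 * (E * K)) := pow_le_pow_right₀ (by norm_num) ha2
        calc (2 : ℝ) ^ (5 * (E * K)) / 3 ^ (3 * (E * K)) ≤ 2 ^ (5 * (E * K)) / 3 ^ a := by gcongr
          _ = 1 * 2 ^ (5 * (E * K)) / 3 ^ a := by rw [one_mul]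
          _ ≤ R * 2 ^ (5 * (E * K)) / 3 ^ a := by gcongr
      · rw [← hX]
        have e1 : (32 / 9 : ℝ) ^ (E * K) = 2 ^ (5 * (E * K)) / 3 ^ (2 * (E * K)) := by rw [div_pow, h11, h9]
        rw [e1, ← mul_div_assoc]
        have e2 : (3 : ℝ) ^ (2 * (E * K)) ≤ 3 ^ a := pow_le_pow_right₀ (by norm_num) ha1
        gcongr)
  refine key.trans ?_
  have hN0 : (0 : ℝ) ≤ N := Nat.cast_nonneg _
  -- the square root
  have hs1 : Real.sqrt ((27 / 32) ^ (E * K) + R / N + 4 * (C1 * lam ^ (8 * K)) * R) ≤ Real.sqrt (2 + 4 * C1) * lam ^ (2 * K) := by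
    have e0 : lam ^ (2 * K) = Real.sqrt (lam ^ (4 * K)) := by
      rw [show lam ^ (4 * K) = (lam ^ (2 * K)) ^ 2 by rw [← pow_mul]; congr 1; ring, Real.sqrt_sq (by positivity)]
    rw [e0, ← Real.sqrt_mul (by positivity)]
    apply Real.sqrt_le_sqrt
    have e1 : (27 / 32 : ℝ) ^ (E * K) ≤ lam ^ (4 * K) := by
      rw [pow_mul, pow_mul]; exact pow_le_pow_left₀ (by positivity) hE2 K
    have e2 : 4 * (C1 * lam ^ (8 * K)) * R = 4 * C1 * lam ^ (4 * K) := by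
      have : lam ^ (8 * K) = lam ^ (4 * K) * lam ^ (4 * K) := by rw [← pow_add]; congr 1; ring
      rw [this]
      calc 4 * (C1 * (lam ^ (4 * K) * lam ^ (4 * K))) * R = 4 * C1 * lam ^ (4 * K) * (R * lam ^ (4 * K)) := by ring
        _ = _ := by rw [hRl, mul_one]
    rw [e2]
    have : R / N ≤ lam ^ (4 * K) := hR
    nlinarith
  have hs2 : (3125 / 3456 : ℝ) ^ (E * K) ≤ lam ^ (2 * K) := by
    have e1 : (3125 / 3456 : ℝ) ^ (E * K) ≤ lam ^ (4 * K) := by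
      rw [pow_mul, pow_mul]; exact pow_le_pow_left₀ (by positivity) hE1 K
    exact e1.trans (pow_le_pow_of_le_one hl0.le hl1.le (by omega))
  have hs3 : 5 * ((E * K : ℕ) : ℝ) / (4 * R) ≤ 5 * E / 4 * K * lam ^ (2 * K) := by
    have e1 : 1 / R = lam ^ (4 * K) := by
      rw [div_eq_iff hR0.ne', mul_comm]; exact hRl.symm
    have e2 : 5 * ((E * K : ℕ) : ℝ) / (4 * R) = 5 * E / 4 * K * (1 / R) := by push_cast; field_simp
    rw [e2, e1]
    apply mul_le_mul_of_nonneg_left _ (by positivity)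
    exact pow_le_pow_of_le_one hl0.le hl1.le (by omega)
  have hKK : ((K : ℝ) + 1) * lam ^ (2 * K) ≤ 1 / (1 - lam) * lam ^ K := by
    have := geo hl0 hl1 K
    calc ((K : ℝ) + 1) * lam ^ (2 * K) = (((K : ℝ) + 1) * lam ^ K) * lam ^ K := by rw [two_mul, pow_add]; ring
      _ ≤ 1 / (1 - lam) * lam ^ K := mul_le_mul_of_nonneg_right this (by positivity)
  have hl2K : 0 ≤ lam ^ (2 * K) := by positivity
  calc 2 * (N : ℝ) * (2 * (3125 / 3456) ^ (E * K) + 5 * ((E * K : ℕ) : ℝ) / (4 * R))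
      + (((E * K : ℕ) : ℝ) + 1) * (N * Real.sqrt ((27 / 32) ^ (E * K) + R / N + 4 * (C1 * lam ^ (8 * K)) * R))
      ≤ 2 * (N : ℝ) * (2 * lam ^ (2 * K) + 5 * E / 4 * K * lam ^ (2 * K))
      + (((E * K : ℕ) : ℝ) + 1) * (N * (Real.sqrt (2 + 4 * C1) * lam ^ (2 * K))) := by gcongr
    _ = N * lam ^ (2 * K) * (4 + 5 * E / 2 * K + (E * K + 1) * Real.sqrt (2 + 4 * C1)) := by push_cast; ring
    _ ≤ N * lam ^ (2 * K) * ((4 + 5 * E / 2 + (E + 1) * Real.sqrt (2 + 4 * C1)) * (K + 1)) := by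
        apply mul_le_mul_of_nonneg_left _ (by positivity)
        have hk0 : (0 : ℝ) ≤ K := Nat.cast_nonneg _
        have hE0 : (0 : ℝ) ≤ E := Nat.cast_nonneg _
        have hsq : 0 ≤ Real.sqrt (2 + 4 * C1) := Real.sqrt_nonneg _
        have i1 : 0 ≤ Real.sqrt (2 + 4 * C1) * K := by positivity
        have i2 : 0 ≤ Real.sqrt (2 + 4 * C1) * E := by positivity
        nlinarith
    _ = (4 + 5 * E / 2 + (E + 1) * Real.sqrt (2 + 4 * C1)) * N * (((K : ℝ) + 1) * lam ^ (2 * K)) := by ring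
    _ ≤ (4 + 5 * E / 2 + (E + 1) * Real.sqrt (2 + 4 * C1)) * N * (1 / (1 - lam) * lam ^ K) := by
        apply mul_le_mul_of_nonneg_left hKK
        positivity
    _ = _ := by ring

theorem weyl_syncN {d : ℤ} (hd : d = 1 ∨ d = -1) {k : ℕ} (hk : 1 ≤ k) {η : ℝ} (hη : 0 < η) : ∃ C c : ℝ, 0 ≤ C ∧ 0 < c ∧
    ∀ N : ℕ, 1 ≤ N → ∀ F : ℤ → ℝ, SyncN d N F → ∀ (α : ℝ) (φ : ℕ → ℝ), Ph (k + 1) α φ →
    (∀ l : ℕ, 1 ≤ l → (l : ℝ) ≤ (N : ℝ) ^ η → ∀ a : ℤ, (N : ℝ) ^ (η - k) ≤ |l * α - a|) →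
    ‖∑ m ∈ Icc 1 N, (F m : ℂ) * ee (φ m)‖ ≤ C * (N : ℝ) ^ (1 - c) := by
  obtain ⟨c₁, m₁, hc₁, hIW⟩ := IW_all k hk
  set lam : ℝ := 1 / 2 with hlam
  have hl0 : 0 < lam := by rw [hlam]; norm_num
  have hl1 : lam < 1 := by rw [hlam]; norm_num
  have hl4 : 0 < lam ^ 4 := by positivity
  have hl41 : lam ^ 4 ≤ 1 := pow_le_one₀ hl0.le hl1.le
  obtain ⟨E1, hE1⟩ := exists_pow_lt_of_lt_one hl4 (show (3125 / 3456 : ℝ) < 1 by norm_num)
  obtain ⟨E2, hE2⟩ := exists_pow_lt_of_lt_one hl4 (show (27 / 32 : ℝ) < 1 by norm_num)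
  set E := E1 + E2 with hE
  have hEa : (3125 / 3456 : ℝ) ^ E ≤ lam ^ 4 :=
    (pow_le_pow_of_le_one (by norm_num) (by norm_num) (by omega)).trans hE1.le
  have hEb : (27 / 32 : ℝ) ^ E ≤ lam ^ 4 :=
    (pow_le_pow_of_le_one (by norm_num) (by norm_num) (by omega)).trans hE2.le
  set A : ℝ := (32 / 9) ^ E / lam ^ 4 with hA
  have hA1 : 1 ≤ A := by
    rw [hA, le_div_iff₀ hl4, one_mul]
    exact hl41.trans (one_le_pow₀ (by norm_num))
  have hA0 : 0 < A := by linarith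
  obtain ⟨v, hv⟩ : ∃ v : ℝ, v = 2 ^ 8 := ⟨_, rfl⟩
  have hv1 : 1 ≤ v := by rw [hv]; norm_num
  set G : ℝ := (c₁ + 1) * (v ^ (m₁ + k) * 2 ^ (5 * E * k) * A) with hG
  have hc₁R : (1 : ℝ) ≤ c₁ := by exact_mod_cast hc₁
  have hG1 : 1 ≤ v ^ (m₁ + k) * 2 ^ (5 * E * k) * A :=
    one_le_mul_of_one_le_of_one_le (one_le_mul_of_one_le_of_one_le (one_le_pow₀ hv1) (one_le_pow₀ (by norm_num))) hA1
  have hG2 : 2 ≤ G := by rw [hG]; nlinarith
  have hG0 : 0 < G := by linarith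
  set B2 : ℝ := 2 ^ (5 * E) * A * v with hB2
  have hB21 : 1 ≤ B2 := by
    rw [hB2]
    exact one_le_mul_of_one_le_of_one_le (one_le_mul_of_one_le_of_one_le (one_le_pow₀ (by norm_num)) hA1) hv1
  set B : ℝ := G ^ (1 / η) * B2 with hB
  have hGη : 1 < G ^ (1 / η) := Real.one_lt_rpow (by linarith) (by positivity)
  have hB1 : 1 < B := by rw [hB]; nlinarith
  set C0 : ℝ := (4 + 5 * E / 2 + (E + 1) * Real.sqrt (2 + 4 * 2)) / (1 - lam) with hC0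
  have hC01 : 1 ≤ C0 := by
    rw [hC0, le_div_iff₀ (by linarith)]
    generalize hsq : Real.sqrt (2 + 4 * 2) = sq
    have hsq0 : 0 ≤ sq := by rw [← hsq]; exact Real.sqrt_nonneg _
    have h1 : 0 ≤ ((E : ℝ) + 1) * sq := by positivity
    have h2 : (0 : ℝ) ≤ 5 * E / 2 := by positivity
    linarith
  refine ⟨C0 / lam, -Real.log lam / Real.log B, by positivity,
    div_pos (neg_pos.2 (Real.log_neg hl0 hl1)) (Real.log_pos hB1), ?_⟩
  intro N hN F hF α φ hφ hα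
  refine to_rpow hB1 hl0 hl1 (by linarith) hN fun K hK => ?_
  have hNR : (1 : ℝ) ≤ N := by exact_mod_cast hN
  have hN0 : (0 : ℝ) < N := by linarith
  rcases Nat.eq_zero_or_pos K with hK0 | hK0
  · -- the trivial case
    subst hK0
    rw [pow_zero, mul_one]
    have h1 : ‖∑ m ∈ Icc 1 N, (F m : ℂ) * ee (φ m)‖ ≤ N := by
      refine (norm_sum_le _ _).trans ?_
      have h2 : ∀ m ∈ Icc 1 N, ‖(F m : ℂ) * ee (φ m)‖ ≤ 1 := by
        intro m _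
        rw [norm_mul, Complex.norm_real, Real.norm_eq_abs, norm_ee, mul_one]
        exact hF.1 m
      refine (sum_le_sum h2).trans ?_
      simp
    exact h1.trans (le_mul_of_one_le_left hN0.le hC01)
  -- consequences of `B ^ K ≤ N`
  have hBK : (G ^ (1 / η)) ^ K * B2 ^ K ≤ N := by rw [← mul_pow]; exact hK
  have hB2K : B2 ^ K ≤ N := by
    refine le_trans ?_ hBK
    exact le_mul_of_one_le_left (by positivity) (one_le_pow₀ hGη.le)
  have hGK : G ^ K ≤ (N : ℝ) ^ η := by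
    have h1 : (G ^ (1 / η)) ^ K ≤ N := by
      refine le_trans ?_ hBK
      exact le_mul_of_one_le_right (by positivity) (one_le_pow₀ hB21)
    have h2 : ((G ^ (1 / η)) ^ K) ^ η ≤ (N : ℝ) ^ η := Real.rpow_le_rpow (by positivity) h1 hη.le
    have h3 : ((G ^ (1 / η)) ^ K) ^ η = G ^ K := by
      rw [← Real.rpow_natCast, ← Real.rpow_mul hG0.le, ← Real.rpow_mul hG0.le, ← Real.rpow_natCast]
      congr 1
      field_simp
    rw [h3] at h2
    exact h2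
  have hB2e : B2 ^ K = (2 ^ (5 * E)) ^ K * A ^ K * v ^ K := by rw [hB2, mul_pow, mul_pow]
  rw [hB2e] at hB2K
  have hv1K : 1 ≤ v ^ K := one_le_pow₀ hv1
  have h25K : (1 : ℝ) ≤ (2 ^ (5 * E)) ^ K := one_le_pow₀ (one_le_pow₀ (by norm_num))
  have hAK : 1 ≤ A ^ K := one_le_pow₀ hA1
  have n1 : ((2 : ℝ) ^ (5 * E)) ^ K ≤ N := by
    refine le_trans ?_ hB2K
    rw [mul_assoc]
    exact le_mul_of_one_le_right (by positivity) (one_le_mul_of_one_le_of_one_le hAK hv1K)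
  have n2 : A ^ K ≤ N := by
    refine le_trans ?_ hB2K
    calc A ^ K ≤ (2 ^ (5 * E)) ^ K * A ^ K := le_mul_of_one_le_left (by positivity) h25K
      _ ≤ _ := le_mul_of_one_le_right (by positivity) hv1K
  have n3 : v ^ K ≤ N := by
    refine le_trans ?_ hB2K
    exact le_mul_of_one_le_left (by positivity) (one_le_mul_of_one_le_of_one_le h25K hAK)
  have hvl : v ^ K * lam ^ (8 * K) = 1 := by
    rw [pow_mul, ← mul_pow, hv, hlam]; norm_num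
  have he5 : (2 : ℝ) ^ (5 * (E * K)) = (2 ^ (5 * E)) ^ K := by rw [← pow_mul]; congr 1; ring
  set u : ℝ := v ^ K with hu
  have hu1 : 1 ≤ u := hv1K
  have hu0 : 0 < u := by linarith
  set Jm : ℝ := N / 2 ^ (5 * (E * K)) + 1 with hJm
  have hJm0 : 0 < Jm := by rw [hJm]; positivity
  have hJm2 : 2 ^ (5 * (E * K)) * Jm ≤ 2 * N := by
    rw [hJm, mul_add, mul_one, mul_div_cancel₀ _ (by positivity), he5]
    linarith
  have hGK2 : (c₁ + 1 : ℝ) * (u ^ (m₁ + k) * (2 ^ (5 * (E * K))) ^ k * A ^ K) ≤ G ^ K := by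
    have e1 : G ^ K = (c₁ + 1) ^ K * ((v ^ (m₁ + k)) ^ K * (2 ^ (5 * E * k)) ^ K * A ^ K) := by
      rw [hG, mul_pow, mul_pow, mul_pow]
    have e2 : u ^ (m₁ + k) = (v ^ (m₁ + k)) ^ K := by rw [hu, ← pow_mul, ← pow_mul]; congr 1; ring
    have e3 : ((2 : ℝ) ^ (5 * (E * K))) ^ k = (2 ^ (5 * E * k)) ^ K := by rw [← pow_mul, ← pow_mul]; congr 1; ring
    rw [e1, e2, e3]
    apply mul_le_mul_of_nonneg_right _ (by positivity)
    calc (c₁ + 1 : ℝ) = (c₁ + 1) ^ 1 := (pow_one _).symm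
      _ ≤ (c₁ + 1) ^ K := pow_le_pow_right₀ (by linarith) hK0
  have hfin := hGK2.trans hGK
  -- the bound
  have hNN : 2 ^ (5 * (E * K)) ≤ N := by
    have : (2 : ℝ) ^ (5 * (E * K)) ≤ N := by rw [he5]; exact n1
    exact_mod_cast this
  have hFt : SyncAt d (5 * (E * K)) F := ⟨hF.1, fun x y h => hF.2 _ hNN x y h⟩
  refine bound_K hd hl0 hl1 hEa hEb (N := N) ?_ n2 ?_ (C1 := 2) (by norm_num) hFt (z := fun m => ee (φ m))
    (fun m => (norm_ee _).le) (β := fun _ => Jm / u) (fun _ => by positivity) ?_ ?_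
  · have : (2 : ℝ) ^ (5 * (E * K)) ≤ N := by rw [he5]; exact n1
    exact_mod_cast this
  · rw [div_le_iff₀ hN0, mul_comm]
    have h1 : (1 / lam ^ 4) ^ K * lam ^ (4 * K) = 1 := by
      rw [pow_mul lam, ← mul_pow, one_div, inv_mul_cancel₀ hl4.ne', one_pow]
    have h3 : lam ^ (8 * K) = lam ^ (4 * K) * lam ^ (4 * K) := by rw [← pow_add]; congr 1; ring
    have h4 : 0 < lam ^ (4 * K) := by positivity
    have h5 : (1 / lam ^ 4) ^ K = u * lam ^ (4 * K) := by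
      have : (1 / lam ^ 4) ^ K * lam ^ (4 * K) = (u * lam ^ (4 * K)) * lam ^ (4 * K) := by
        rw [h1, mul_assoc, ← h3, hu]; exact hvl.symm
      exact mul_right_cancel₀ h4.ne' this
    rw [h5]
    exact mul_le_mul_of_nonneg_right n3 h4.le
  · intro h hh1 hh2 m0 J hJ
    have hJJ : (J : ℝ) ≤ Jm := by
      rcases Nat.eq_zero_or_pos J with h0 | h0
      · rw [h0]; simpa using hJm0.le
      · have h1 := hJ (J - 1) (by omega)
        have h2 : 2 ^ (5 * (E * K)) * (J - 1) ≤ N := by omega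
        have h3 : (2 : ℝ) ^ (5 * (E * K)) * ((J - 1 : ℕ) : ℝ) ≤ N := by exact_mod_cast h2
        rw [Nat.cast_sub h0, Nat.cast_one] at h3
        have h4 : (J : ℝ) - 1 ≤ N / 2 ^ (5 * (E * K)) := by
          rw [le_div_iff₀ (by positivity)]; linarith
        rw [hJm]; linarith
    have hum : 0 < u ^ m₁ := by positivity
    have huk : 1 ≤ u ^ k := one_le_pow₀ hu1
    have hD0 : (1 : ℝ) ≤ (2 ^ (5 * (E * K))) ^ k := one_le_pow₀ (one_le_pow₀ (by norm_num))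
    refine phase_corr (k := k) (c := c₁) (m := m₁) hIW hφ (D := 2 ^ (5 * (E * K))) (Nat.one_le_two_pow) hh1 hu1 hJm0
      (Y := (N : ℝ) ^ η) (Z := (N : ℝ) ^ (η - k)) ?_ ?_ hα m0 J hJJ
    · push_cast
      refine le_trans ?_ hfin
      have e1 : (c₁ : ℝ) * u ^ m₁ * ((2 ^ (5 * (E * K))) ^ k * h) ≤ c₁ * u ^ m₁ * ((2 ^ (5 * (E * K))) ^ k * A ^ K) := by
        gcongr
      refine e1.trans ?_
      rw [pow_add]
      have e2 : (c₁ : ℝ) * u ^ m₁ * ((2 ^ (5 * (E * K))) ^ k * A ^ K) ≤ (c₁ + 1) * (u ^ m₁ * ((2 ^ (5 * (E * K))) ^ k * A ^ K)) := by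
        rw [mul_assoc]
        apply mul_le_mul_of_nonneg_right (by linarith) (by positivity)
      refine e2.trans ?_
      apply mul_le_mul_of_nonneg_left _ (by positivity)
      have e3 : u ^ m₁ * u ^ k * (2 ^ (5 * (E * K))) ^ k * A ^ K = (u ^ m₁ * ((2 ^ (5 * (E * K))) ^ k * A ^ K)) * u ^ k := by ring
      rw [e3]
      exact le_mul_of_one_le_right (by positivity) huk
    · -- the second condition
      have hNk : (N : ℝ) ^ (η - k) = (N : ℝ) ^ η / (N : ℝ) ^ k := by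
        rw [Real.rpow_sub hN0, Real.rpow_natCast]
      rw [hNk, div_pow, div_div_eq_mul_div]
      have hJN : (N : ℝ) / 2 ^ (5 * (E * K)) ≤ Jm := by rw [hJm]; linarith
      have e1 : (c₁ : ℝ) * u ^ m₁ * u ^ k / Jm ^ k ≤ c₁ * u ^ m₁ * u ^ k / (N / 2 ^ (5 * (E * K))) ^ k := by
        gcongr
      refine e1.trans_lt ?_
      rw [div_pow, div_div_eq_mul_div]
      apply div_lt_div_of_pos_right _ (by positivity)
      refine lt_of_lt_of_le ?_ hfin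
      have e2 : (c₁ : ℝ) * u ^ m₁ * u ^ k * (2 ^ (5 * (E * K))) ^ k < (c₁ + 1) * (u ^ (m₁ + k) * (2 ^ (5 * (E * K))) ^ k * 1) := by
        rw [pow_add]
        have : 0 < u ^ m₁ * u ^ k * (2 ^ (5 * (E * K))) ^ k := by positivity
        linarith
      refine e2.trans_le ?_
      gcongr
  · intro X hX1 hX2
    have hX0 : 0 ≤ X := le_trans (by positivity) hX1
    have hcard : ((Icc 1 ⌊X⌋₊).card : ℝ) ≤ X := by
      rw [Nat.card_Icc, Nat.add_sub_cancel]; exact Nat.floor_le hX0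
    rw [sum_const, nsmul_eq_mul]
    have h1 : Jm / u = Jm * lam ^ (8 * K) := by
      rw [div_eq_iff hu0.ne', mul_assoc, mul_comm (lam ^ (8 * K)), hvl, mul_one]
    rw [h1]
    calc (2 : ℝ) ^ (5 * (E * K)) * (((Icc 1 ⌊X⌋₊).card : ℝ) * (Jm * lam ^ (8 * K)))
        = (2 ^ (5 * (E * K)) * Jm) * lam ^ (8 * K) * ((Icc 1 ⌊X⌋₊).card : ℝ) := by ring
      _ ≤ (2 * N) * lam ^ (8 * K) * X := by gcongr
      _ = _ := by ring


end Pool.Agent.U142.HS
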