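import Mathlib
import Pool.Agent.Helper602.MK.J5b

/-!
# A large exponential sum from a set of points without small fractional parts
-/

set_option autoImplicit false

namespace Pool.Agent.U142.HS

open Finset
open Pool.Agent.Helper602.MK (ee)
open Pool.Agent.Helper602.MK.N_J5b (ee_add ee_zero ee_conj norm_ee KD KD_nonneg KD_le KD_far normsq_sum)

/-- number of pairs with equal values -/
theorem card_pairs {α β : Type*} [Fintype α] [DecidableEq α] [DecidableEq β] (f : α → β) (T : Finset β)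
    (hT : ∀ a, f a ∈ T) :
    ((Fintype.card α : ℝ)) ^ 2 ≤ T.card * ((univ : Finset (α × α)).filter (fun q => f q.1 = f q.2)).card := by
  have h1 : (∑ v ∈ T, (((univ : Finset α).filter (fun a => f a = v)).card : ℝ)) = Fintype.card α := by
    rw [← Nat.cast_sum, ← card_eq_sum_card_fiberwise (f := f) (s := (univ : Finset α)) (t := T)
      (fun a _ => hT a), card_univ]
  have h2 : (((univ : Finset (α × α)).filter (fun q => f q.1 = f q.2)).card : ℝ) =
      ∑ v ∈ T, (((univ : Finset α).filter (fun a => f a = v)).card : ℝ) ^ 2 := by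
    rw [card_eq_sum_card_fiberwise (f := fun q : α × α => f q.1) (t := T) (fun a _ => hT _)]
    push_cast
    apply sum_congr rfl
    intro v _
    rw [sq, ← Nat.cast_mul, ← card_product]
    congr 2
    ext q
    simp only [mem_filter, mem_univ, true_and, mem_product]
    constructor
    · rintro ⟨h1, h2⟩
      exact ⟨h2, by rw [← h1, h2]⟩
    · rintro ⟨h1, h2⟩
      exact ⟨by rw [h1, h2], h1⟩
  rw [← h1, h2]
  exact sq_sum_le_card_mul_sum_sq

theorem exists_freq {M H p : ℕ} (hH : 1 ≤ H) (hp : 1 ≤ p) {S : Finset ℕ} (hS : S.Nonempty) (x : Fin M → ℕ → ℝ) {ε : ℝ}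
    (hε : 0 < ε) (hfar : ∀ n ∈ S, ∃ m, ∀ z : ℤ, ε ≤ |x m n - z|)
    (hcond : (1 / (4 * ε ^ 2)) ^ p * (((H : ℝ) ^ 2) ^ p) ^ (M - 1) < ((H : ℝ) ^ (M * p)) ^ 2 / (2 * (p * H) ^ M)) :
    ∃ h : Fin M → ℤ, h ≠ 0 ∧ (∀ m, |h m| ≤ p * H) ∧
      (S.card : ℝ) / (2 * (p * H) ^ M) ≤ ‖∑ n ∈ S, ee (∑ m, h m * x m n)‖ := by
  classical
  by_contra hcon
  push Not at hcon
  set B : ℝ := (S.card : ℝ) / (2 * (p * H) ^ M) with hB
  have hHR : (1 : ℝ) ≤ H := by exact_mod_cast hH
  have hpR : (1 : ℝ) ≤ p := by exact_mod_cast hp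
  have hcard : (0 : ℝ) < S.card := by exact_mod_cast hS.card_pos
  have hB0 : 0 < B := by rw [hB]; positivity
  set hs : (Fin M × Fin p → Fin H) → Fin M → ℤ := fun a m => ∑ i, ((a (m, i) : ℕ) : ℤ) with hhs
  have hs0 : ∀ a m, 0 ≤ hs a m := fun a m => sum_nonneg fun i _ => by positivity
  have hs1 : ∀ a m, hs a m ≤ p * H - 1 := by
    intro a m
    have h1 : hs a m ≤ ∑ i : Fin p, ((H : ℤ) - 1) := by
      apply sum_le_sum
      intro i _
      have := (a (m, i)).2
      omega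
    rw [sum_const, card_univ, Fintype.card_fin, nsmul_eq_mul] at h1
    have hp' : (1 : ℤ) ≤ p := by exact_mod_cast hp
    nlinarith
  set W : ℕ → ℂ := fun n => ∑ a : (Fin M × Fin p → Fin H), ee (∑ m, hs a m * x m n) with hW
  -- the product formula
  have hprod : ∀ n, ‖W n‖ ^ 2 = ∏ m : Fin M, (KD H (x m n)) ^ p := by
    intro n
    have e1 : W n = ∏ q : Fin M × Fin p, ∑ j : Fin H, ee (((j : ℕ) : ℝ) * x q.1 n) := by
      rw [prod_univ_sum, Fintype.piFinset_univ, hW]
      apply sum_congr rfl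
      intro a _
      rw [← map_prod_ee]
      congr 1
      rw [Fintype.sum_prod_type]
      apply sum_congr rfl
      intro m _
      rw [hhs]
      push_cast
      rw [sum_mul]
    rw [e1, norm_prod, ← prod_pow, Fintype.prod_prod_type]
    apply prod_congr rfl
    intro m _
    simp only
    rw [prod_const, card_univ, Fintype.card_fin]
    congr 1
    unfold KD
    rw [Fin.sum_univ_eq_sum_range (fun j : ℕ => ee ((j : ℝ) * x m n)) H]
  -- upper bound
  have hup : ∑ n ∈ S, ‖W n‖ ^ 2 ≤ S.card * ((1 / (4 * ε ^ 2)) ^ p * (((H : ℝ) ^ 2) ^ p) ^ (M - 1)) := by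
    have h1 : ∀ n ∈ S, ‖W n‖ ^ 2 ≤ (1 / (4 * ε ^ 2)) ^ p * (((H : ℝ) ^ 2) ^ p) ^ (M - 1) := by
      intro n hn
      obtain ⟨m, hm⟩ := hfar n hn
      rw [hprod, ← mul_prod_erase univ _ (mem_univ m)]
      apply mul_le_mul
      · exact pow_le_pow_left₀ (KD_nonneg _ _) (KD_far H (x m n) ε hε hm) p
      · have h2 : ∏ m' ∈ univ.erase m, (KD H (x m' n)) ^ p ≤ ∏ m' ∈ univ.erase m, ((H : ℝ) ^ 2) ^ p := by
          apply prod_le_prod
          · intro i _; exact pow_nonneg (KD_nonneg _ _) _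
          · intro i _; exact pow_le_pow_left₀ (KD_nonneg _ _) (KD_le _ _) p
        rw [prod_const, card_erase_of_mem (mem_univ m), card_univ, Fintype.card_fin] at h2
        exact h2
      · exact prod_nonneg fun i _ => pow_nonneg (KD_nonneg _ _) _
      · positivity
    have h2 := sum_le_sum h1
    rw [sum_const, nsmul_eq_mul] at h2
    exact h2
  -- lower bound
  have hexp : ((∑ n ∈ S, ‖W n‖ ^ 2 : ℝ) : ℂ) = ∑ q : (Fin M × Fin p → Fin H) × (Fin M × Fin p → Fin H),
      ∑ n ∈ S, ee (∑ m, ((hs q.1 m - hs q.2 m : ℤ) : ℝ) * x m n) := by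
    rw [sum_comm]
    push_cast
    apply sum_congr rfl
    intro n _
    have h1 := normsq_sum (univ : Finset (Fin M × Fin p → Fin H)) (fun a => ee (∑ m, hs a m * x m n))
    have h2 : ((‖W n‖ ^ 2 : ℝ) : ℂ) = ∑ a, ∑ b, ee (∑ m, hs a m * x m n) * (starRingEnd ℂ) (ee (∑ m, hs b m * x m n)) := h1
    rw [Complex.ofReal_pow] at h2
    rw [h2, Fintype.sum_prod_type]
    apply sum_congr rfl; intro a _
    apply sum_congr rfl; intro b _
    rw [ee_conj, ← ee_add, ← sum_neg_distrib, ← sum_add_distrib]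
    congr 1
    apply sum_congr rfl; intro m _
    push_cast
    ring
  set Dg := (univ : Finset ((Fin M × Fin p → Fin H) × (Fin M × Fin p → Fin H))).filter (fun q => hs q.1 = hs q.2) with hDg
  have hTc : ∀ a, hs a ∈ Fintype.piFinset (fun _ : Fin M => Icc (0 : ℤ) (p * H - 1)) := by
    intro a
    rw [Fintype.mem_piFinset]
    intro m
    rw [mem_Icc]
    exact ⟨hs0 a m, hs1 a m⟩
  have hcp := card_pairs hs _ hTc
  have hI : (Fintype.card (Fin M × Fin p → Fin H) : ℝ) = (H : ℝ) ^ (M * p) := by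
    rw [Fintype.card_fun, Fintype.card_prod, Fintype.card_fin, Fintype.card_fin, Fintype.card_fin]
    push_cast
    rfl
  have hT : ((Fintype.piFinset (fun _ : Fin M => Icc (0 : ℤ) (p * H - 1))).card : ℝ) = ((p : ℝ) * H) ^ M := by
    rw [Fintype.card_piFinset, prod_const, card_univ, Fintype.card_fin, Int.card_Icc]
    have : (p * H - 1 + 1 - 0 : ℤ) = ((p * H : ℕ) : ℤ) := by push_cast; ring
    rw [this, Int.toNat_natCast]
    push_cast
    rfl
  rw [hI, hT] at hcp
  have hlow : ((H : ℝ) ^ (M * p)) ^ 2 * B ≤ ∑ n ∈ S, ‖W n‖ ^ 2 := by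
    have h1 : ((∑ n ∈ S, ‖W n‖ ^ 2 : ℝ) : ℂ) - (Dg.card : ℂ) * S.card = ∑ q ∈ Dgᶜ,
      ∑ n ∈ S, ee (∑ m, ((hs q.1 m - hs q.2 m : ℤ) : ℝ) * x m n) := by
      rw [hexp, ← sum_add_sum_compl Dg]
      have : ∑ q ∈ Dg, ∑ n ∈ S, ee (∑ m, ((hs q.1 m - hs q.2 m : ℤ) : ℝ) * x m n) = (Dg.card : ℂ) * S.card := by
        have h2 : ∀ q ∈ Dg, ∑ n ∈ S, ee (∑ m, ((hs q.1 m - hs q.2 m : ℤ) : ℝ) * x m n) = (S.card : ℂ) := by
          intro q hq
          rw [hDg, mem_filter] at hq
          have : ∀ n ∈ S, ee (∑ m, ((hs q.1 m - hs q.2 m : ℤ) : ℝ) * x m n) = 1 := by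
            intro n _
            have e0 : ∑ m, ((hs q.1 m - hs q.2 m : ℤ) : ℝ) * x m n = 0 := by
              apply sum_eq_zero
              intro m _
              rw [hq.2, sub_self, Int.cast_zero, zero_mul]
            rw [e0, ee_zero]
          rw [sum_congr rfl this, sum_const, nsmul_eq_mul, mul_one]
        rw [sum_congr rfl h2, sum_const, nsmul_eq_mul]
      rw [this]
      ring
    have h2 : ‖((∑ n ∈ S, ‖W n‖ ^ 2 : ℝ) : ℂ) - (Dg.card : ℂ) * S.card‖ ≤ ((H : ℝ) ^ (M * p)) ^ 2 * B := by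
      rw [h1]
      refine (norm_sum_le _ _).trans ?_
      have h3 : ∀ q ∈ Dgᶜ, ‖∑ n ∈ S, ee (∑ m, ((hs q.1 m - hs q.2 m : ℤ) : ℝ) * x m n)‖ ≤ B := by
        intro q hq
        have hq' : hs q.1 ≠ hs q.2 := by
          rw [hDg, mem_compl, mem_filter] at hq
          intro h
          exact hq ⟨mem_univ _, h⟩
        refine (hcon (fun m => hs q.1 m - hs q.2 m) ?_ ?_).le
        · intro h
          apply hq'
          funext m
          have := congrFun h m
          simp only [Pi.zero_apply] at this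
          omega
        · intro m
          have a1 := hs0 q.1 m
          have a2 := hs1 q.1 m
          have a3 := hs0 q.2 m
          have a4 := hs1 q.2 m
          rw [abs_le]
          constructor <;> linarith
      refine (sum_le_sum h3).trans ?_
      rw [sum_const, nsmul_eq_mul]
      apply mul_le_mul_of_nonneg_right _ hB0.le
      have h4 : (Dgᶜ.card : ℝ) ≤ Fintype.card ((Fin M × Fin p → Fin H) × (Fin M × Fin p → Fin H)) := by
        exact_mod_cast card_le_univ _
      rw [Fintype.card_prod, Nat.cast_mul, hI] at h4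
      rw [sq]
      exact h4
    have h3 : ((∑ n ∈ S, ‖W n‖ ^ 2 : ℝ) : ℂ) - (Dg.card : ℂ) * S.card = ((∑ n ∈ S, ‖W n‖ ^ 2 - Dg.card * S.card : ℝ) : ℂ) := by
      push_cast
      ring
    rw [h3, Complex.norm_real, Real.norm_eq_abs] at h2
    have h4 := (abs_le.1 h2).1
    have h5 : 2 * (((H : ℝ) ^ (M * p)) ^ 2 * B) ≤ Dg.card * S.card := by
      rw [hB]
      have h6 : 2 * (((H : ℝ) ^ (M * p)) ^ 2 * ((S.card : ℝ) / (2 * (p * H) ^ M))) =
        ((H : ℝ) ^ (M * p)) ^ 2 / (p * H) ^ M * S.card := by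
        have : (0 : ℝ) < (p * H) ^ M := by positivity
        field_simp
      rw [h6]
      apply mul_le_mul_of_nonneg_right _ hcard.le
      rw [div_le_iff₀ (by positivity), mul_comm (Dg.card : ℝ)]
      exact hcp
    linarith
  have h1 := hlow.trans hup
  have h2 : (S.card : ℝ) * ((1 / (4 * ε ^ 2)) ^ p * (((H : ℝ) ^ 2) ^ p) ^ (M - 1)) <
      S.card * (((H : ℝ) ^ (M * p)) ^ 2 / (2 * (p * H) ^ M)) := mul_lt_mul_of_pos_left hcond hcard
  have h3 : (S.card : ℝ) * (((H : ℝ) ^ (M * p)) ^ 2 / (2 * (p * H) ^ M)) = ((H : ℝ) ^ (M * p)) ^ 2 * B := by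
    rw [hB]; ring
  rw [h3] at h2
  linarith
where
  map_prod_ee {ι : Type _} {s : Finset ι} {g : ι → ℝ} : ee (∑ i ∈ s, g i) = ∏ i ∈ s, ee (g i) := by
    classical
    induction s using Finset.induction_on with
    | empty => simp [ee_zero]
    | insert a s ha ih => rw [sum_insert ha, prod_insert ha, ee_add, ih]

end Pool.Agent.U142.HS
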