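import Mathlib
import Pool.Agent.U142.HS1
import Pool.Agent.U142.HS2

/-!
# Small fractional parts of monomials on sets with a Weyl inequality
-/

set_option autoImplicit false

namespace Pool.Agent.U142.HS

open Finset Filter Topology
open Pool.Agent.Y965.PS Pool.Agent.Y55.DS
open Pool.Agent.Helper602.MK (ee)
open Pool.Agent.Helper602.MK.N_J5b (ee_add ee_zero ee_conj norm_ee ee_int ee_nat_mul ee_eq_one_iff)

/-- the Weyl inequality for polynomials -/
theorem weylP {d : ℤ} (hd : d = 1 ∨ d = -1) {k : ℕ} (hk : 2 ≤ k) {η : ℝ} (hη : 0 < η) : ∃ K c : ℝ, 0 ≤ K ∧ 0 < c ∧ c ≤ 1 ∧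
    ∀ N : ℕ, 1 ≤ N → ∀ F : ℤ → ℝ, SyncN d N F → ∀ P : Polynomial ℝ, P.natDegree ≤ k →
      (∀ l : ℕ, 1 ≤ l → (l : ℝ) ≤ (N : ℝ) ^ η → ∀ a : ℤ, (N : ℝ) ^ (η + 1 - k) ≤ |l * P.coeff k - a|) →
      ‖∑ n ∈ Finset.Icc 1 N, (F n : ℂ) * ee (P.eval (n : ℝ))‖ ≤ K * (N : ℝ) ^ (1 - c) := by
  obtain ⟨k, rfl⟩ : ∃ k', k = k' + 1 := ⟨k - 1, by omega⟩
  obtain ⟨C1, c1, hC1, hc1, H⟩ := weyl_syncN hd (k := k) (by omega) (show 0 < η / 2 by positivity)
  set D : ℝ := ((k + 1).factorial : ℝ) with hD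
  have hD1 : 1 ≤ D := by
    rw [hD]; exact_mod_cast Nat.one_le_iff_ne_zero.2 (Nat.factorial_ne_zero _)
  have hD0 : 0 < D := by linarith
  refine ⟨C1 + D ^ (2 / η), min c1 1, by positivity, lt_min hc1 one_pos, min_le_right _ _, ?_⟩
  intro N hN F hF P hP hmin
  have hNR : (1 : ℝ) ≤ N := by exact_mod_cast hN
  have hN0 : (0 : ℝ) < N := by linarith
  have hexp : (N : ℝ) ^ (1 - c1) ≤ (N : ℝ) ^ (1 - min c1 1) :=
    Real.rpow_le_rpow_of_exponent_le hNR (by have := min_le_left c1 1; linarith)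
  rcases le_or_gt D ((N : ℝ) ^ (η / 2)) with hbig | hsm
  · have h1 := Ph_real (k + 1) P hP
    have h2 := H N hN F hF _ _ h1 (by
      intro l hl hl2 a
      have h3 : 1 ≤ l * (k + 1).factorial := Nat.mul_pos hl (Nat.factorial_pos _)
      have h4 : ((l * (k + 1).factorial : ℕ) : ℝ) ≤ (N : ℝ) ^ η := by
        push_cast
        have e1 : (N : ℝ) ^ η = (N : ℝ) ^ (η / 2) * (N : ℝ) ^ (η / 2) := by
          rw [← Real.rpow_add hN0]; congr 1; ring
        rw [e1]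
        exact mul_le_mul hl2 hbig (by positivity) (by positivity)
      have h5 := hmin _ h3 h4 a
      have h6 : ((l * (k + 1).factorial : ℕ) : ℝ) * P.coeff (k + 1) - a = l * (((k + 1).factorial : ℝ) * P.coeff (k + 1)) - a := by
        push_cast; ring
      rw [h6] at h5
      refine le_trans ?_ h5
      apply Real.rpow_le_rpow_of_exponent_le hNR
      push_cast
      linarith)
    refine h2.trans ?_
    have : 0 ≤ D ^ (2 / η) := by positivity
    exact mul_le_mul (by linarith) hexp (by positivity) (by positivity)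
  · have h1 : ‖∑ n ∈ Finset.Icc 1 N, (F n : ℂ) * ee (P.eval (n : ℝ))‖ ≤ N := by
      refine (norm_sum_le _ _).trans ?_
      have h2 : ∀ n ∈ Finset.Icc 1 N, ‖(F n : ℂ) * ee (P.eval (n : ℝ))‖ ≤ 1 := by
        intro n _
        rw [norm_mul, Complex.norm_real, Real.norm_eq_abs, norm_ee, mul_one]
        exact hF.1 _
      refine (sum_le_sum h2).trans ?_
      simp
    have h2 : (N : ℝ) ≤ D ^ (2 / η) := by
      have h3 : ((N : ℝ) ^ (η / 2)) ^ (2 / η) ≤ D ^ (2 / η) := Real.rpow_le_rpow (by positivity) hsm.le (by positivity)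
      rw [← Real.rpow_mul hN0.le] at h3
      have h4 : η / 2 * (2 / η) = 1 := by field_simp
      rwa [h4, Real.rpow_one] at h3
    have h3 : (1 : ℝ) ≤ (N : ℝ) ^ (1 - min c1 1) :=
      Real.one_le_rpow hNR (by have := min_le_right c1 1; linarith)
    calc _ ≤ (N : ℝ) := h1
      _ ≤ C1 + D ^ (2 / η) := by linarith
      _ ≤ _ := le_mul_of_one_le_right (by positivity) h3

/-- comparison of powers -/
theorem ev_le (C : ℝ) {a b : ℝ} (hab : a < b) : ∃ N₀ : ℕ, 1 ≤ N₀ ∧ ∀ N : ℕ, N₀ ≤ N → C * (N : ℝ) ^ a ≤ (N : ℝ) ^ b := by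
  have h1 := (tendsto_rpow_atTop (show 0 < b - a by linarith)).comp tendsto_natCast_atTop_atTop
  obtain ⟨N₁, h2⟩ := (h1.eventually (eventually_ge_atTop C)).exists_forall_of_atTop
  refine ⟨N₁ + 1, by omega, fun N hN => ?_⟩
  have h3 : C ≤ (N : ℝ) ^ (b - a) := h2 N (by omega)
  have hN0 : (0 : ℝ) < N := by exact_mod_cast (by omega : 0 < N)
  have h4 : (N : ℝ) ^ b = (N : ℝ) ^ (b - a) * (N : ℝ) ^ a := by
    rw [← Real.rpow_add hN0]; congr 1; ring
  rw [h4]
  exact mul_le_mul_of_nonneg_right h3 (by positivity)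

/-- orthogonality of the additive characters modulo `L` -/
theorem char_sum {L : ℕ} (hL : 1 ≤ L) (n : ℕ) :
    ∑ b ∈ range L, ee ((b : ℝ) / L * n) = if L ∣ n then (L : ℂ) else 0 := by
  have hL0 : (L : ℝ) ≠ 0 := by
    have : (0 : ℝ) < L := by exact_mod_cast hL
    exact this.ne'
  split_ifs with h
  · obtain ⟨q, rfl⟩ := h
    have : ∀ b ∈ range L, ee ((b : ℝ) / L * ((L * q : ℕ) : ℝ)) = 1 := by
      intro b _
      have e : (b : ℝ) / L * ((L * q : ℕ) : ℝ) = ((b * q : ℤ) : ℝ) := by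
        push_cast; field_simp
      rw [e, ee_int]
    rw [sum_congr rfl this, sum_const, card_range, nsmul_eq_mul, mul_one]
  · have e : ∀ b ∈ range L, ee ((b : ℝ) / L * n) = ee ((n : ℝ) / L) ^ b := by
      intro b _
      rw [← ee_nat_mul]
      congr 1; ring
    rw [sum_congr rfl e]
    have hne : ee ((n : ℝ) / L) ≠ 1 := by
      intro h1
      rw [ee_eq_one_iff] at h1
      obtain ⟨z, hz⟩ := h1
      apply h
      rw [div_eq_iff hL0] at hz
      have h2 : (n : ℤ) = z * L := by exact_mod_cast hz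
      have h3 : (L : ℤ) ∣ (n : ℤ) := ⟨z, by rw [h2]; ring⟩
      exact_mod_cast h3
    rw [geom_sum_eq hne]
    have : ee ((n : ℝ) / L) ^ L = 1 := by
      rw [← ee_nat_mul]
      have e2 : (L : ℝ) * ((n : ℝ) / L) = ((n : ℤ) : ℝ) := by
        push_cast; field_simp
      rw [e2, ee_int]
    rw [this, sub_self, zero_div]

/-- removing a divisibility condition from an exponential sum -/
theorem remove_div {L : ℕ} (hL : 1 ≤ L) (A : Finset ℕ) (φ : ℕ → ℝ) :
    ∃ b : ℕ, ‖∑ n ∈ A.filter (fun n => L ∣ n), ee (φ n)‖ ≤ ‖∑ n ∈ A, ee (φ n + (b : ℝ) / L * n)‖ := by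
  by_contra hcon
  push Not at hcon
  have hL0 : (0 : ℝ) < L := by exact_mod_cast hL
  have h1 : (L : ℂ) * ∑ n ∈ A.filter (fun n => L ∣ n), ee (φ n) = ∑ b ∈ range L, ∑ n ∈ A, ee (φ n + (b : ℝ) / L * n) := by
    rw [sum_comm, sum_filter, mul_sum]
    apply sum_congr rfl
    intro n _
    have h2 : ∑ b ∈ range L, ee (φ n + (b : ℝ) / L * n) = ee (φ n) * ∑ b ∈ range L, ee ((b : ℝ) / L * n) := by
      rw [mul_sum]
      apply sum_congr rfl; intro b _
      rw [ee_add]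
    rw [h2, char_sum hL]
    split_ifs
    · ring
    · simp
  have h2 : (L : ℝ) * ‖∑ n ∈ A.filter (fun n => L ∣ n), ee (φ n)‖ < L * ‖∑ n ∈ A.filter (fun n => L ∣ n), ee (φ n)‖ := by
    calc (L : ℝ) * ‖∑ n ∈ A.filter (fun n => L ∣ n), ee (φ n)‖
        = ‖(L : ℂ) * ∑ n ∈ A.filter (fun n => L ∣ n), ee (φ n)‖ := by
          rw [norm_mul, Complex.norm_natCast]
      _ ≤ ∑ b ∈ range L, ‖∑ n ∈ A, ee (φ n + (b : ℝ) / L * n)‖ := by rw [h1]; exact norm_sum_le _ _
      _ < ∑ b ∈ range L, ‖∑ n ∈ A.filter (fun n => L ∣ n), ee (φ n)‖ :=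
          sum_lt_sum_of_nonempty ⟨0, mem_range.2 (by omega)⟩ fun b _ => hcon b
      _ = _ := by rw [sum_const, card_range, nsmul_eq_mul]
  exact lt_irrefl _ h2

end Pool.Agent.U142.HS
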