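import Mathlib
import Pool.Agent.U142.HS3

/-!
# Small fractional parts of monomials on sets with a Weyl inequality: the induction
-/

set_option autoImplicit false

namespace Pool.Agent.U142.HS

open Finset Filter Topology
open Pool.Agent.Helper602.MK (ee)
open Pool.Agent.Helper602.MK.N_J5b (ee_add ee_zero ee_conj norm_ee ee_int ee_nat_mul ee_eq_one_iff)

/-- Finite sets which have the expected number of elements in the multiples of all small integers, and for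
which a Weyl inequality holds -/
structure Sys {ι : Type*} (A : ι → ℕ → Finset ℕ) (k : ℕ) : Prop where
  mem : ∀ i N n, n ∈ A i N → 1 ≤ n ∧ n ≤ N
  count : ∃ θ κ : ℝ, 0 < θ ∧ 0 < κ ∧ ∃ N₀ : ℕ, ∀ i, ∀ N : ℕ, N₀ ≤ N → ∀ L : ℕ, 1 ≤ L → (L : ℝ) ≤ (N : ℝ) ^ θ →
    κ * ((N : ℝ) / L) ≤ (((A i N).filter (fun n => L ∣ n)).card : ℝ)
  weyl : ∀ D : ℕ, 2 ≤ D → D ≤ k → ∀ η : ℝ, 0 < η → ∃ K c : ℝ, 0 ≤ K ∧ 0 < c ∧ ∀ i, ∀ N : ℕ, 1 ≤ N →
    ∀ P : Polynomial ℝ, P.natDegree ≤ D →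
    (∀ l : ℕ, 1 ≤ l → (l : ℝ) ≤ (N : ℝ) ^ η → ∀ a : ℤ, (N : ℝ) ^ (η + 1 - D) ≤ |l * P.coeff D - a|) →
    ‖∑ n ∈ A i N, ee (P.eval (n : ℝ))‖ ≤ K * (N : ℝ) ^ (1 - c)

theorem Sys.weyl_all {ι : Type*} {A : ι → ℕ → Finset ℕ} {k : ℕ} (H : Sys A k) {η : ℝ} (hη : 0 < η) :
    ∃ K c : ℝ, 0 ≤ K ∧ 0 < c ∧ ∀ D : ℕ, 2 ≤ D → D ≤ k → ∀ i, ∀ N : ℕ, 1 ≤ N →
    ∀ P : Polynomial ℝ, P.natDegree ≤ D →
    (∀ l : ℕ, 1 ≤ l → (l : ℝ) ≤ (N : ℝ) ^ η → ∀ a : ℤ, (N : ℝ) ^ (η + 1 - D) ≤ |l * P.coeff D - a|) →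
    ‖∑ n ∈ A i N, ee (P.eval (n : ℝ))‖ ≤ K * (N : ℝ) ^ (1 - c) := by
  have key : ∀ k' : ℕ, k' ≤ k → ∃ K c : ℝ, 0 ≤ K ∧ 0 < c ∧ ∀ D : ℕ, 2 ≤ D → D ≤ k' → ∀ i, ∀ N : ℕ, 1 ≤ N →
    ∀ P : Polynomial ℝ, P.natDegree ≤ D →
    (∀ l : ℕ, 1 ≤ l → (l : ℝ) ≤ (N : ℝ) ^ η → ∀ a : ℤ, (N : ℝ) ^ (η + 1 - D) ≤ |l * P.coeff D - a|) →
    ‖∑ n ∈ A i N, ee (P.eval (n : ℝ))‖ ≤ K * (N : ℝ) ^ (1 - c) := by
    intro k'
    induction k' with
    | zero => exact fun _ => ⟨0, 1, le_rfl, one_pos, fun D h1 h2 => by omega⟩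
    | succ k' ih =>
      intro hk'
      obtain ⟨K1, c1, hK1, hc1, h1⟩ := ih (by omega)
      rcases Nat.lt_or_ge (k' + 1) 2 with h2 | h2
      · exact ⟨K1, c1, hK1, hc1, fun D h3 h4 => by omega⟩
      obtain ⟨K2, c2, hK2, hc2, h3⟩ := H.weyl (k' + 1) h2 hk' η hη
      refine ⟨max K1 K2, min c1 c2, le_max_of_le_left hK1, lt_min hc1 hc2, fun D h4 h5 i N hN P hP hmin => ?_⟩
      have hNR : (1 : ℝ) ≤ N := by exact_mod_cast hN
      have e1 : (N : ℝ) ^ (1 - c1) ≤ (N : ℝ) ^ (1 - min c1 c2) :=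
        Real.rpow_le_rpow_of_exponent_le hNR (by have := min_le_left c1 c2; linarith)
      have e2 : (N : ℝ) ^ (1 - c2) ≤ (N : ℝ) ^ (1 - min c1 c2) :=
        Real.rpow_le_rpow_of_exponent_le hNR (by have := min_le_right c1 c2; linarith)
      rcases Nat.lt_or_ge k' D with h6 | h6
      · obtain rfl : D = k' + 1 := by omega
        exact (h3 i N hN P hP hmin).trans (mul_le_mul (le_max_right _ _) e2 (by positivity) (le_max_of_le_left hK1))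
      · exact (h1 D h4 h6 i N hN P hP hmin).trans (mul_le_mul (le_max_left _ _) e1 (by positivity) (le_max_of_le_left hK1))
  exact key k le_rfl

/-- the elimination of one frequency -/
theorem eliminate {M : ℕ} (α : Fin (M + 1) → ℝ) (j : Fin (M + 1) → ℕ) (h : Fin (M + 1) → ℤ) (m₀ : Fin (M + 1))
    {l L D : ℕ} (hL : 1 ≤ L) (hD : j m₀ = D) (hD1 : 1 ≤ D) {a : ℤ} {E : ℝ}
    (hmaj : |l * (∑ m, if j m = D then h m * α m / (L : ℝ) ^ D else 0) - a| ≤ E) (n : ℕ) {δ B : ℝ}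
    (z : Fin M → ℤ) (hz : ∀ m, |α (m₀.succAbove m) * (n : ℝ) ^ (j (m₀.succAbove m)) - z m| ≤ δ)
    (hB : ∀ m, |(h m : ℝ)| ≤ B) (hδ : 0 ≤ δ) :
    ∃ z₀ : ℤ, |α m₀ * ((l * (h m₀).natAbs * n : ℕ) : ℝ) ^ D - z₀| ≤
      ((l * (h m₀).natAbs : ℕ) : ℝ) ^ (D - 1) * ((n : ℝ) ^ D * ((L : ℝ) ^ D * E) + l * (M * (B * δ))) := by
  have hL0 : (0 : ℝ) < L := by exact_mod_cast hL
  obtain ⟨s, hs1, hs2⟩ : ∃ s : ℤ, |(s : ℝ)| ≤ 1 ∧ ((h m₀).natAbs : ℝ) = s * h m₀ := by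
    rcases le_total 0 (h m₀) with h1 | h1
    · refine ⟨1, by simp, ?_⟩
      rw [Nat.cast_natAbs, abs_of_nonneg h1]
      push_cast; ring
    · refine ⟨-1, by simp, ?_⟩
      rw [Nat.cast_natAbs, abs_of_nonpos h1]
      push_cast; ring
  set Q : ℕ := l * (h m₀).natAbs with hQ
  set R : ℝ := l * ∑ m, (if j m = D then h m * α m else 0) with hR
  have hR1 : R = (L : ℝ) ^ D * (l * (∑ m, if j m = D then h m * α m / (L : ℝ) ^ D else 0)) := by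
    rw [hR, mul_left_comm]
    congr 1
    rw [mul_sum]
    apply sum_congr rfl
    intro m _
    split_ifs
    · field_simp
    · simp
  have hR2 : |R - (L : ℝ) ^ D * a| ≤ (L : ℝ) ^ D * E := by
    rw [hR1, ← mul_sub, abs_mul, abs_of_nonneg (by positivity : (0 : ℝ) ≤ (L : ℝ) ^ D)]
    exact mul_le_mul_of_nonneg_left hmaj (by positivity)
  have hR3 : R = l * (h m₀ * α m₀) + l * ∑ m : Fin M, (if j (m₀.succAbove m) = D then h (m₀.succAbove m) * α (m₀.succAbove m) else 0) := by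
    rw [hR, Fin.sum_univ_succAbove _ m₀, if_pos hD]
    ring
  set Z : ℤ := ∑ m : Fin M, (if j (m₀.succAbove m) = D then h (m₀.succAbove m) * z m else 0) with hZ
  set U : ℝ := ∑ m : Fin M, (if j (m₀.succAbove m) = D then (h (m₀.succAbove m) : ℝ) * α (m₀.succAbove m) else 0) with hU
  have hUZ : |(n : ℝ) ^ D * U - Z| ≤ M * (B * δ) := by
    have e1 : (n : ℝ) ^ D * U - Z = ∑ m : Fin M, (if j (m₀.succAbove m) = D then
        (h (m₀.succAbove m) : ℝ) * (α (m₀.succAbove m) * (n : ℝ) ^ (j (m₀.succAbove m)) - z m) else 0) := by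
      rw [hU, hZ, mul_sum]
      push_cast
      rw [← sum_sub_distrib]
      apply sum_congr rfl
      intro m _
      by_cases h1 : j (m₀.succAbove m) = D
      · simp only [h1, if_true]
        ring
      · simp only [h1, if_false]
        ring
    rw [e1]
    refine (abs_sum_le_sum_abs _ _).trans ?_
    have e2 : ∀ m ∈ (univ : Finset (Fin M)), |(if j (m₀.succAbove m) = D then
        (h (m₀.succAbove m) : ℝ) * (α (m₀.succAbove m) * (n : ℝ) ^ (j (m₀.succAbove m)) - z m) else 0)| ≤ B * δ := by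
      intro m _
      have hB0 : 0 ≤ B := (abs_nonneg _).trans (hB m₀)
      split_ifs
      · rw [abs_mul]
        exact mul_le_mul (hB _) (hz m) (abs_nonneg _) hB0
      · rw [abs_zero]; positivity
    refine (sum_le_sum e2).trans ?_
    rw [sum_const, card_univ, Fintype.card_fin, nsmul_eq_mul]
  refine ⟨s * (Q : ℤ) ^ (D - 1) * ((n : ℤ) ^ D * (L : ℤ) ^ D * a - l * Z), ?_⟩
  have hQR : (Q : ℝ) = l * (s * h m₀) := by rw [hQ]; push_cast; rw [← hs2]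
  have e1 : α m₀ * ((Q * n : ℕ) : ℝ) ^ D = s * (Q : ℝ) ^ (D - 1) * ((n : ℝ) ^ D * (l * (h m₀ * α m₀))) := by
    push_cast
    rw [mul_pow]
    have e2 : (Q : ℝ) ^ D = (Q : ℝ) ^ (D - 1) * Q := by
      rw [← pow_succ]; congr 1; omega
    rw [e2]
    conv_lhs => rw [show α m₀ * ((Q : ℝ) ^ (D - 1) * Q * (n : ℝ) ^ D) = (Q : ℝ) ^ (D - 1) * (n : ℝ) ^ D * (α m₀ * Q) by ring]
    rw [hQR]
    ring
  have e3 : α m₀ * ((Q * n : ℕ) : ℝ) ^ D - ((s * (Q : ℤ) ^ (D - 1) * ((n : ℤ) ^ D * (L : ℤ) ^ D * a - l * Z) : ℤ) : ℝ) =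
      s * ((Q : ℝ) ^ (D - 1) * ((n : ℝ) ^ D * (R - (L : ℝ) ^ D * a) - l * ((n : ℝ) ^ D * U - Z))) := by
    rw [e1, hR3]
    push_cast
    ring
  rw [e3, abs_mul, abs_mul]
  have hQ0 : (0 : ℝ) ≤ (Q : ℝ) ^ (D - 1) := by positivity
  rw [abs_of_nonneg hQ0]
  have e4 : |(n : ℝ) ^ D * (R - (L : ℝ) ^ D * a) - l * ((n : ℝ) ^ D * U - Z)| ≤ (n : ℝ) ^ D * ((L : ℝ) ^ D * E) + l * (M * (B * δ)) := by
    refine (abs_sub _ _).trans ?_
    rw [abs_mul, abs_mul, abs_of_nonneg (by positivity : (0 : ℝ) ≤ (n : ℝ) ^ D), abs_of_nonneg (by positivity : (0 : ℝ) ≤ l)]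
    exact add_le_add (mul_le_mul_of_nonneg_left hR2 (by positivity)) (mul_le_mul_of_nonneg_left hUZ (by positivity))
  calc |(s : ℝ)| * ((Q : ℝ) ^ (D - 1) * |(n : ℝ) ^ D * (R - (L : ℝ) ^ D * a) - l * ((n : ℝ) ^ D * U - Z)|)
      ≤ 1 * ((Q : ℝ) ^ (D - 1) * |(n : ℝ) ^ D * (R - (L : ℝ) ^ D * a) - l * ((n : ℝ) ^ D * U - Z)|) :=
        mul_le_mul_of_nonneg_right hs1 (by positivity)
    _ ≤ _ := by rw [one_mul]; exact mul_le_mul_of_nonneg_left e4 hQ0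

end Pool.Agent.U142.HS
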