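import Mathlib
import Pool.Agent.U142.HS4

/-!
# Small fractional parts of monomials on sets with a Weyl inequality: end of the induction
-/

set_option autoImplicit false

namespace Pool.Agent.U142.HS

open Finset Filter Topology
open Pool.Agent.Helper602.MK (ee)
open Pool.Agent.Helper602.MK.N_J5b (ee_add ee_zero ee_conj norm_ee ee_int ee_nat_mul ee_eq_one_iff)

/-- The statement for `M` frequencies. -/
def Stmt {ι : Type*} (A : ι → ℕ → Finset ℕ) (k M : ℕ) : Prop :=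
  ∃ ρ c : ℝ, 0 < ρ ∧ 0 < c ∧ c ≤ 1 ∧ ∃ N₀ : ℕ, 1 ≤ N₀ ∧ ∀ i, ∀ N : ℕ, N₀ ≤ N → ∀ L : ℕ, 1 ≤ L → (L : ℝ) ≤ (N : ℝ) ^ ρ →
    ∀ (α : Fin M → ℝ) (j : Fin M → ℕ), (∀ m, 2 ≤ j m ∧ j m ≤ k) →
    ∃ N' n : ℕ, N' ≤ N ∧ (N : ℝ) ^ c ≤ N' ∧ 1 ≤ n ∧ L * n ∈ A i N' ∧
      ∀ m, ∃ z : ℤ, |α m * (n : ℝ) ^ j m - z| ≤ (N : ℝ) ^ (-c)

variable {ι : Type*} {A : ι → ℕ → Finset ℕ} {k : ℕ}

theorem stmt_zero (H : Sys A k) : Stmt A k 0 := by
  classical
  obtain ⟨θ, κ, hθ, hκ, N₂, hcount⟩ := H.count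
  refine ⟨θ, 1, hθ, one_pos, le_rfl, N₂ + 1, by omega, fun i N hN L hL hLN α j _ => ?_⟩
  have h1 := hcount i N (by omega) L hL hLN
  have hN0 : (0 : ℝ) < N := by exact_mod_cast (by omega : 0 < N)
  have hL0 : (0 : ℝ) < L := by exact_mod_cast hL
  have h2 : (0 : ℝ) < (((A i N).filter (fun n => L ∣ n)).card : ℝ) := lt_of_lt_of_le (by positivity) h1
  have h3 : 0 < ((A i N).filter (fun n => L ∣ n)).card := by exact_mod_cast h2
  obtain ⟨n, hn⟩ := card_pos.1 h3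
  rw [mem_filter] at hn
  obtain ⟨hn, q, rfl⟩ := hn
  refine ⟨N, q, le_rfl, by rw [Real.rpow_one], ?_, hn, fun m => m.elim0⟩
  have := (H.mem i N _ hn).1
  rcases Nat.eq_zero_or_pos q with h | h
  · rw [h] at this; omega
  · exact h

/-- the polynomial to which the Weyl inequality is applied -/
noncomputable def pol {M : ℕ} (L b : ℕ) (α : Fin M → ℝ) (j : Fin M → ℕ) (h : Fin M → ℤ) : Polynomial ℝ :=
  ∑ m, Polynomial.monomial (j m) (h m * α m / (L : ℝ) ^ j m) + Polynomial.monomial 1 ((b : ℝ) / L)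

theorem pol_eval {M : ℕ} (L b : ℕ) (α : Fin M → ℝ) (j : Fin M → ℕ) (h : Fin M → ℤ) (n : ℕ) :
    (pol L b α j h).eval (n : ℝ) = ∑ m, h m * (α m * ((n : ℝ) / L) ^ j m) + (b : ℝ) / L * n := by
  unfold pol
  rw [Polynomial.eval_add, Polynomial.eval_finsetSum, Polynomial.eval_monomial, pow_one]
  congr 1
  apply sum_congr rfl
  intro m _
  rw [Polynomial.eval_monomial, div_pow]
  ring

theorem pol_deg {M : ℕ} (L b : ℕ) (α : Fin M → ℝ) (j : Fin M → ℕ) (h : Fin M → ℤ) {D : ℕ} (hD : 1 ≤ D)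
    (hj : ∀ m, h m ≠ 0 → j m ≤ D) : (pol L b α j h).natDegree ≤ D := by
  unfold pol
  apply Polynomial.natDegree_add_le_of_degree_le
  · apply Polynomial.natDegree_sum_le_of_forall_le
    intro m _
    by_cases h1 : h m = 0
    · rw [h1]; simp
    · exact (Polynomial.natDegree_monomial_le _).trans (hj m h1)
  · exact (Polynomial.natDegree_monomial_le _).trans hD

theorem pol_coeff {M : ℕ} (L b : ℕ) (α : Fin M → ℝ) (j : Fin M → ℕ) (h : Fin M → ℤ) {D : ℕ} (hD : 2 ≤ D) :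
    (pol L b α j h).coeff D = ∑ m, if j m = D then h m * α m / (L : ℝ) ^ D else 0 := by
  unfold pol
  rw [Polynomial.coeff_add, Polynomial.finsetSum_coeff, Polynomial.coeff_monomial, if_neg (by omega), add_zero]
  apply sum_congr rfl
  intro m _
  rw [Polynomial.coeff_monomial]
  by_cases h1 : j m = D
  · rw [if_pos h1, if_pos h1, h1]
  · rw [if_neg h1, if_neg h1]

/-- the condition of the lemma on frequencies -/
theorem cond_ok {M : ℕ} {X c' : ℝ} (hX : 1 ≤ X) {H : ℕ} (hH : X ^ (2 * c') ≤ H)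
    (hbig : 2 * ((M + 2 : ℕ) : ℝ) ^ (M + 1) * X ^ (0 : ℝ) ≤ X ^ (2 * c')) :
    (1 / (4 * (X ^ (-c')) ^ 2)) ^ (M + 2) * (((H : ℝ) ^ 2) ^ (M + 2)) ^ (M + 1 - 1) <
      ((H : ℝ) ^ ((M + 1) * (M + 2))) ^ 2 / (2 * (((M + 2 : ℕ) : ℝ) * H) ^ (M + 1)) := by
  have hX0 : 0 < X := by linarith
  have hU : 0 < X ^ (2 * c') := by positivity
  have hH0 : (0 : ℝ) < H := lt_of_lt_of_le hU hH
  have e1 : (X ^ (-c')) ^ 2 = (X ^ (2 * c'))⁻¹ := by
    rw [← Real.rpow_natCast, ← Real.rpow_mul hX0.le, ← Real.rpow_neg hX0.le]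
    congr 1; push_cast; ring
  rw [e1]
  set U : ℝ := X ^ (2 * c') with hUdef
  set P : ℝ := ((M + 2 : ℕ) : ℝ) ^ (M + 1) with hP
  have hP0 : 0 < P := by rw [hP]; positivity
  rw [Real.rpow_zero, mul_one] at hbig
  have e2 : 1 / (4 * U⁻¹) = U / 4 := by field_simp
  rw [e2, Nat.add_sub_cancel, mul_pow, ← hP, lt_div_iff₀ (by positivity)]
  have e3 : ((H : ℝ) ^ ((M + 1) * (M + 2))) ^ 2 = (((H : ℝ) ^ 2) ^ (M + 2)) ^ M * (H : ℝ) ^ (M + 1) * (H : ℝ) ^ (M + 3) := by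
    rw [← pow_mul, ← pow_mul, ← pow_mul, ← pow_add, ← pow_add]
    congr 1
    ring
  rw [e3]
  have h1 : (U / 4) ^ (M + 2) * (2 * P) < (H : ℝ) ^ (M + 3) := by
    have h2 : (U / 4) ^ (M + 2) * (2 * P) < U ^ (M + 2) * U := by
      have h3 : (U / 4) ^ (M + 2) < U ^ (M + 2) := pow_lt_pow_left₀ (by linarith) (by positivity) (by omega)
      exact mul_lt_mul h3 hbig (by positivity) (by positivity)
    rw [← pow_succ] at h2
    exact h2.trans_le (pow_le_pow_left₀ hU.le hH _)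
  have h2 : 0 < (((H : ℝ) ^ 2) ^ (M + 2)) ^ M * (H : ℝ) ^ (M + 1) := by positivity
  have h3 := mul_lt_mul_of_pos_left h1 h2
  calc _ = (((H : ℝ) ^ 2) ^ (M + 2)) ^ M * (H : ℝ) ^ (M + 1) * ((U / 4) ^ (M + 2) * (2 * P)) := by ring
    _ < _ := h3


theorem stmt_succ {M : ℕ} (H : Sys A k) (ih : Stmt A k M) : Stmt A k (M + 1) := by
  classical
  obtain ⟨ρ₀, c₀, hρ₀, hc₀, hc₀1, N₁, hN₁, ih⟩ := ih
  obtain ⟨θ, κ, hθ, hκ, N₂, hcount⟩ := H.count
  have hk0 : (0 : ℝ) ≤ k := Nat.cast_nonneg k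
  set τ : ℝ := min (min ρ₀ c₀) 1 / (64 * (k + 1)) with hτ
  have hm0 : 0 < min (min ρ₀ c₀) 1 := lt_min (lt_min hρ₀ hc₀) one_pos
  have hτ0 : 0 < τ := by rw [hτ]; positivity
  have hτm : 64 * (k + 1) * τ = min (min ρ₀ c₀) 1 := by rw [hτ]; field_simp
  have hτρ : 64 * (k + 1) * τ ≤ ρ₀ := by rw [hτm]; exact (min_le_left _ _).trans (min_le_left _ _)
  have hτc : 64 * (k + 1) * τ ≤ c₀ := by rw [hτm]; exact (min_le_left _ _).trans (min_le_right _ _)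
  have hτ1 : 64 * (k + 1) * τ ≤ 1 := by rw [hτm]; exact min_le_right _ _
  have hkτ : 0 ≤ k * τ := by positivity
  obtain ⟨K, cw, hK, hcw, hW⟩ := H.weyl_all hτ0
  set c' : ℝ := min τ (cw / (8 * (M + 2))) with hc'
  have hc'0 : 0 < c' := lt_min hτ0 (by positivity)
  have hc'τ : c' ≤ τ := min_le_left _ _
  have hc'w : 8 * (M + 2) * c' ≤ cw := by
    have h1 : c' ≤ cw / (8 * (M + 2)) := min_le_right _ _
    rwa [le_div_iff₀' (by positivity)] at h1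
  set ρ : ℝ := min (min τ θ) (cw / 8) with hρ
  have hρ0 : 0 < ρ := lt_min (lt_min hτ0 hθ) (by positivity)
  have hρτ : ρ ≤ τ := (min_le_left _ _).trans (min_le_left _ _)
  have hρθ : ρ ≤ θ := (min_le_left _ _).trans (min_le_right _ _)
  have hρw : ρ ≤ cw / 8 := min_le_right _ _
  set c : ℝ := min c' (c₀ / 32) with hc
  have hc0 : 0 < c := lt_min hc'0 (by positivity)
  have hcc' : c ≤ c' := min_le_left _ _
  have hcc₀ : c ≤ c₀ / 32 := min_le_right _ _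
  have hMR : (0 : ℝ) ≤ M := Nat.cast_nonneg M
  set p : ℕ := M + 2 with hp
  have hp1 : (1 : ℝ) ≤ p := by rw [hp]; push_cast; linarith
  -- large `N`
  obtain ⟨n1, hn1, E1⟩ := ev_le (2 * ((M + 2 : ℕ) : ℝ) ^ (M + 1)) (show (0 : ℝ) < 2 * c' by positivity)
  obtain ⟨n2, hn2, E2⟩ := ev_le ((K + 1) * (2 * (2 * p) ^ (M + 1)) / κ) (show 1 - 5 * cw / 8 < 1 - cw / 2 by linarith)
  obtain ⟨n3, hn3, E3⟩ := ev_le 2 (show (1 / 8 : ℝ) < 1 / 4 by norm_num)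
  obtain ⟨n4, hn4, E4⟩ := ev_le N₁ (show (0 : ℝ) < 1 / 8 by norm_num)
  obtain ⟨n5, hn5, E5⟩ := ev_le (2 * p) (show 4 * τ < ρ₀ / 8 by nlinarith)
  obtain ⟨n6, hn6, E6⟩ := ev_le ((2 * p) ^ k) (show 3 * k * τ - c₀ / 8 < -c by nlinarith)
  obtain ⟨n7, hn7, E7⟩ := ev_le (2 * (2 * p) ^ k) (show 4 * k * τ + τ - 1 / 2 < -c by nlinarith)
  obtain ⟨n8, hn8, E8⟩ := ev_le (2 * ((2 * p) ^ k * M * (2 * p))) (show 3 * k * τ + 3 * τ - c₀ / 8 < -c by nlinarith)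
  refine ⟨ρ, c, hρ0, hc0, by linarith, n1 + n2 + n3 + n4 + n5 + n6 + n7 + n8 + N₂, by omega,
    fun i N hN L hL hLN α j hj => ?_⟩
  have E1 := E1 N (by omega)
  have E2 := E2 N (by omega)
  have E3 := E3 N (by omega)
  have E4 := E4 N (by omega)
  have E5 := E5 N (by omega)
  have E6 := E6 N (by omega)
  have E7 := E7 N (by omega)
  have E8 := E8 N (by omega)
  have hNN : 1 ≤ N := by omega
  have hNR : (1 : ℝ) ≤ N := by exact_mod_cast hNN
  have hN0 : (0 : ℝ) < N := by linarith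
  have hL0 : (0 : ℝ) < L := by exact_mod_cast hL
  have hL1 : (1 : ℝ) ≤ L := by exact_mod_cast hL
  set S := (A i N).filter (fun n => L ∣ n) with hS
  have hScard := hcount i N (by omega) L hL (hLN.trans (Real.rpow_le_rpow_of_exponent_le hNR hρθ))
  rw [← hS] at hScard
  have hSpos : (0 : ℝ) < S.card := lt_of_lt_of_le (by positivity) hScard
  have hSne : S.Nonempty := card_pos.1 (by exact_mod_cast hSpos)
  -- the trivial case
  by_cases hgood : ∃ n ∈ S, ∀ m, ∃ z : ℤ, |α m * ((n : ℝ) / L) ^ j m - z| ≤ (N : ℝ) ^ (-c')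
  · obtain ⟨n, hn, hz⟩ := hgood
    rw [hS, mem_filter] at hn
    obtain ⟨hn, q, rfl⟩ := hn
    refine ⟨N, q, le_rfl, ?_, ?_, hn, fun m => ?_⟩
    · calc (N : ℝ) ^ c ≤ (N : ℝ) ^ (1 : ℝ) := Real.rpow_le_rpow_of_exponent_le hNR (by linarith)
        _ = N := Real.rpow_one _
    · have := (H.mem i N _ hn).1
      rcases Nat.eq_zero_or_pos q with h | h
      · rw [h] at this; omega
      · exact h
    · obtain ⟨z, hz⟩ := hz m
      refine ⟨z, ?_⟩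
      have e1 : ((L * q : ℕ) : ℝ) / L = q := by push_cast; field_simp
      rw [e1] at hz
      exact hz.trans (Real.rpow_le_rpow_of_exponent_le hNR (by linarith))
  push Not at hgood
  -- the large exponential sum
  set Hn : ℕ := ⌈(N : ℝ) ^ (2 * c')⌉₊ with hHn
  have hHl : (N : ℝ) ^ (2 * c') ≤ Hn := Nat.le_ceil _
  have hN2c : (1 : ℝ) ≤ (N : ℝ) ^ (2 * c') := Real.one_le_rpow hNR (by positivity)
  have hHu : (Hn : ℝ) ≤ 2 * (N : ℝ) ^ (2 * c') := by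
    have := Nat.ceil_lt_add_one (show (0 : ℝ) ≤ (N : ℝ) ^ (2 * c') by positivity)
    rw [← hHn] at this
    linarith
  have hH1 : 1 ≤ Hn := by
    have : (1 : ℝ) ≤ Hn := hN2c.trans hHl
    exact_mod_cast this
  have hH1R : (1 : ℝ) ≤ Hn := by exact_mod_cast hH1
  obtain ⟨h, hh0, hhb, hsum⟩ := exists_freq (M := M + 1) (H := Hn) (p := M + 2) hH1 (by omega) hSne
    (fun m n => α m * ((n : ℝ) / L) ^ j m) (show 0 < (N : ℝ) ^ (-c') by positivity) (by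
      intro n hn
      obtain ⟨m, hm⟩ := hgood n hn
      exact ⟨m, fun z => (hm z).le⟩) (cond_ok hNR hHl E1)
  rw [← hp] at hhb hsum
  obtain ⟨b, hb⟩ := remove_div hL (A i N) (fun n => ∑ m, h m * (α m * ((n : ℝ) / L) ^ j m))
  rw [← hS] at hb
  -- the top degree
  have hne : (univ.filter (fun m => h m ≠ 0)).Nonempty := by
    obtain ⟨m, hm⟩ := Function.ne_iff.1 hh0
    exact ⟨m, by rw [mem_filter]; exact ⟨mem_univ _, hm⟩⟩
  obtain ⟨m₀, hm₀, hmax⟩ := exists_max_image _ j hne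
  rw [mem_filter] at hm₀
  have hhm₀ := hm₀.2
  set D := j m₀ with hD
  have hD2 : 2 ≤ D := (hj m₀).1
  have hDk : D ≤ k := (hj m₀).2
  have hDkR : (D : ℝ) ≤ k := by exact_mod_cast hDk
  have hD2R : (2 : ℝ) ≤ D := by exact_mod_cast hD2
  have hmaj : ∃ l : ℕ, 1 ≤ l ∧ (l : ℝ) ≤ (N : ℝ) ^ τ ∧ ∃ a : ℤ,
      |l * (∑ m, if j m = D then h m * α m / (L : ℝ) ^ D else 0) - a| ≤ (N : ℝ) ^ (τ + 1 - D) := by
    by_contra hcon
    push Not at hcon
    have h1 := hW D hD2 hDk i N hNN (pol L b α j h) (pol_deg L b α j h (by omega) (fun m hm =>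
      hmax m (by rw [mem_filter]; exact ⟨mem_univ _, hm⟩))) (by
        intro l hl hl2 a
        rw [pol_coeff L b α j h hD2]
        exact (hcon l hl hl2 a).le)
    have h2 : ∑ n ∈ A i N, ee ((pol L b α j h).eval (n : ℝ)) =
        ∑ n ∈ A i N, ee (∑ m, h m * (α m * ((n : ℝ) / L) ^ j m) + (b : ℝ) / L * n) := by
      apply sum_congr rfl
      intro n _
      rw [pol_eval]
    rw [h2] at h1
    have h3 : (S.card : ℝ) / (2 * (p * Hn) ^ (M + 1)) ≤ K * (N : ℝ) ^ (1 - cw) := hsum.trans (hb.trans h1)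
    -- lower bound for the left side
    have h4 : κ * (N : ℝ) ^ (1 - ρ) / (2 * (2 * p) ^ (M + 1) * (N : ℝ) ^ (2 * c' * (M + 1))) ≤ (S.card : ℝ) / (2 * (p * Hn) ^ (M + 1)) := by
      apply div_le_div₀ (by positivity)
      · refine le_trans ?_ hScard
        apply mul_le_mul_of_nonneg_left _ hκ.le
        rw [Real.rpow_sub hN0, Real.rpow_one]
        exact div_le_div_of_nonneg_left hN0.le hL0 hLN
      · positivity
      · have e1 : (N : ℝ) ^ (2 * c' * (M + 1)) = ((N : ℝ) ^ (2 * c')) ^ (M + 1) := by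
          rw [← Real.rpow_natCast, ← Real.rpow_mul hN0.le]; push_cast; rfl
        rw [e1, mul_assoc, ← mul_pow]
        apply mul_le_mul_of_nonneg_left _ (by norm_num)
        apply pow_le_pow_left₀ (by positivity)
        calc (p : ℝ) * Hn ≤ p * (2 * (N : ℝ) ^ (2 * c')) := mul_le_mul_of_nonneg_left hHu (by positivity)
          _ = _ := by ring
    have h5 := h4.trans h3
    rw [div_le_iff₀ (by positivity)] at h5
    -- compare
    have h6 : K * (N : ℝ) ^ (1 - cw) * (2 * (2 * p) ^ (M + 1) * (N : ℝ) ^ (2 * c' * (M + 1))) <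
        (K + 1) * (2 * (2 * p) ^ (M + 1)) * (N : ℝ) ^ (1 - cw + 2 * c' * (M + 1)) := by
      have e1 : (N : ℝ) ^ (1 - cw + 2 * c' * (M + 1)) = (N : ℝ) ^ (1 - cw) * (N : ℝ) ^ (2 * c' * (M + 1)) :=
        Real.rpow_add hN0 _ _
      rw [e1]
      have e2 : 0 < (N : ℝ) ^ (1 - cw) * (N : ℝ) ^ (2 * c' * (M + 1)) * (2 * (2 * (p : ℝ)) ^ (M + 1)) := by positivity
      nlinarith
    have h7 : κ * (N : ℝ) ^ (1 - ρ) < (K + 1) * (2 * (2 * p) ^ (M + 1)) * (N : ℝ) ^ (1 - cw + 2 * c' * (M + 1)) := h5.trans_lt h6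
    have h8 : κ * (N : ℝ) ^ (1 - ρ) * (N : ℝ) ^ (ρ - cw / 2) < (K + 1) * (2 * (2 * p) ^ (M + 1)) * (N : ℝ) ^ (1 - cw + 2 * c' * (M + 1)) * (N : ℝ) ^ (ρ - cw / 2) :=
      mul_lt_mul_of_pos_right h7 (by positivity)
    have h9 : κ * (N : ℝ) ^ (1 - ρ) * (N : ℝ) ^ (ρ - cw / 2) = κ * (N : ℝ) ^ (1 - cw / 2) := by
      rw [mul_assoc, ← Real.rpow_add hN0]; congr 2; ring
    have h10 : (K + 1) * (2 * (2 * p) ^ (M + 1)) * (N : ℝ) ^ (1 - cw + 2 * c' * (M + 1)) * (N : ℝ) ^ (ρ - cw / 2) ≤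
        (K + 1) * (2 * (2 * p) ^ (M + 1)) * (N : ℝ) ^ (1 - 5 * cw / 8 - cw / 2) := by
      rw [mul_assoc, ← Real.rpow_add hN0]
      apply mul_le_mul_of_nonneg_left _ (by positivity)
      apply Real.rpow_le_rpow_of_exponent_le hNR
      nlinarith
    have h11 : (K + 1) * (2 * (2 * p) ^ (M + 1)) * (N : ℝ) ^ (1 - 5 * cw / 8 - cw / 2) ≤
        (K + 1) * (2 * (2 * p) ^ (M + 1)) * (N : ℝ) ^ (1 - 5 * cw / 8) := by
      apply mul_le_mul_of_nonneg_left _ (by positivity)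
      apply Real.rpow_le_rpow_of_exponent_le hNR
      linarith
    have h12 : (K + 1) * (2 * (2 * p) ^ (M + 1)) * (N : ℝ) ^ (1 - 5 * cw / 8) ≤ κ * (N : ℝ) ^ (1 - cw / 2) := by
      have := mul_le_mul_of_nonneg_left E2 hκ.le
      calc (K + 1) * (2 * (2 * p) ^ (M + 1)) * (N : ℝ) ^ (1 - 5 * cw / 8)
          = κ * ((K + 1) * (2 * (2 * p) ^ (M + 1)) / κ * (N : ℝ) ^ (1 - 5 * cw / 8)) := by field_simp
        _ ≤ _ := this
    linarith
  obtain ⟨l, hl1, hl2, a, hla⟩ := hmaj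
  have hl0 : (0 : ℝ) ≤ l := Nat.cast_nonneg l
  set Q : ℕ := l * (h m₀).natAbs with hQ
  have hQ1 : 1 ≤ Q := Nat.mul_pos hl1 (Int.natAbs_pos.2 hhm₀)
  have hQ1R : (1 : ℝ) ≤ Q := by exact_mod_cast hQ1
  have hB : ∀ m, |(h m : ℝ)| ≤ 2 * p * (N : ℝ) ^ (2 * c') := by
    intro m
    have h1 : (|h m| : ℤ) ≤ ((p * Hn : ℕ) : ℤ) := by push_cast; exact hhb m
    have h2 : ((|h m| : ℤ) : ℝ) ≤ ((p * Hn : ℕ) : ℝ) := by exact_mod_cast h1
    rw [Int.cast_abs] at h2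
    refine h2.trans ?_
    push_cast
    calc (p : ℝ) * Hn ≤ p * (2 * (N : ℝ) ^ (2 * c')) := mul_le_mul_of_nonneg_left hHu (by positivity)
      _ = _ := by ring
  have hQu : (Q : ℝ) ≤ 2 * p * (N : ℝ) ^ (3 * τ) := by
    rw [hQ]; push_cast
    rw [Nat.cast_natAbs, Int.cast_abs]
    calc (l : ℝ) * |(h m₀ : ℝ)| ≤ (N : ℝ) ^ τ * (2 * p * (N : ℝ) ^ (2 * c')) := mul_le_mul hl2 (hB m₀) (abs_nonneg _) (by positivity)
      _ = 2 * p * (N : ℝ) ^ (τ + 2 * c') := by rw [Real.rpow_add hN0]; ring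
      _ ≤ _ := by
        apply mul_le_mul_of_nonneg_left _ (by positivity)
        exact Real.rpow_le_rpow_of_exponent_le hNR (by linarith)
  have hQLu : (L : ℝ) * Q ≤ 2 * p * (N : ℝ) ^ (4 * τ) := by
    calc (L : ℝ) * Q ≤ (N : ℝ) ^ τ * (2 * p * (N : ℝ) ^ (3 * τ)) :=
          mul_le_mul (hLN.trans (Real.rpow_le_rpow_of_exponent_le hNR hρτ)) hQu (by positivity) (by positivity)
      _ = 2 * p * (N : ℝ) ^ (4 * τ) := by
          rw [show 4 * τ = τ + 3 * τ by ring, Real.rpow_add hN0]; ring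
  -- the smaller scale
  set Y : ℕ := ⌊(N : ℝ) ^ (1 / 4 : ℝ)⌋₊ with hY
  have hYu : (Y : ℝ) ≤ (N : ℝ) ^ (1 / 4 : ℝ) := Nat.floor_le (by positivity)
  have h18 : (1 : ℝ) ≤ (N : ℝ) ^ (1 / 8 : ℝ) := Real.one_le_rpow hNR (by norm_num)
  have hYl : (N : ℝ) ^ (1 / 8 : ℝ) ≤ Y := by
    have h1 := Nat.lt_floor_add_one ((N : ℝ) ^ (1 / 4 : ℝ))
    rw [← hY] at h1
    linarith
  have hY0 : (0 : ℝ) < Y := by linarith
  have hYN₁ : N₁ ≤ Y := by
    have h1 : (N₁ : ℝ) ≤ Y := by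
      rw [Real.rpow_zero, mul_one] at E4
      exact E4.trans hYl
    exact_mod_cast h1
  have hLQ : ((L * Q : ℕ) : ℝ) ≤ (Y : ℝ) ^ ρ₀ := by
    push_cast
    refine hQLu.trans (E5.trans ?_)
    have h1 : ((N : ℝ) ^ (1 / 8 : ℝ)) ^ ρ₀ ≤ (Y : ℝ) ^ ρ₀ := Real.rpow_le_rpow (by positivity) hYl hρ₀.le
    rw [← Real.rpow_mul hN0.le] at h1
    refine le_trans (le_of_eq ?_) h1
    congr 1; ring
  obtain ⟨N', n, hN'Y, hN'l, hn1, hnA, hnz⟩ := ih i Y hYN₁ (L * Q) (Nat.mul_pos hL hQ1) hLQ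
    (fun m => α (m₀.succAbove m)) (fun m => j (m₀.succAbove m)) (fun m => hj _)
  choose z hz using hnz
  set δ : ℝ := (Y : ℝ) ^ (-c₀) with hδ
  have hδ0 : 0 ≤ δ := by positivity
  have hδu : δ ≤ (N : ℝ) ^ (-(c₀ / 8)) := by
    have h1 : (Y : ℝ) ^ (-c₀) ≤ ((N : ℝ) ^ (1 / 8 : ℝ)) ^ (-c₀) :=
      Real.rpow_le_rpow_of_nonpos (by positivity) hYl (by linarith)
    rw [← Real.rpow_mul hN0.le] at h1
    refine h1.trans (le_of_eq ?_)
    congr 1; ring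
  have hnY : (n : ℝ) ≤ (N : ℝ) ^ (1 / 4 : ℝ) := by
    have h1 := (H.mem i N' _ hnA).2
    have h2 : n ≤ L * Q * n := Nat.le_mul_of_pos_left n (Nat.mul_pos hL hQ1)
    have h3 : n ≤ Y := by omega
    exact (by exact_mod_cast h3 : (n : ℝ) ≤ Y).trans hYu
  have hpow : ∀ e : ℕ, e ≤ k → (Q : ℝ) ^ e ≤ (2 * p) ^ k * (N : ℝ) ^ (3 * k * τ) := by
    intro e he
    have h1 : (Q : ℝ) ^ e ≤ (Q : ℝ) ^ k := pow_le_pow_right₀ hQ1R he
    refine h1.trans ((pow_le_pow_left₀ (by linarith) hQu k).trans (le_of_eq ?_))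
    rw [mul_pow, ← Real.rpow_natCast ((N : ℝ) ^ (3 * τ)), ← Real.rpow_mul hN0.le]
    congr 2; ring
  refine ⟨N', Q * n, ?_, ?_, Nat.mul_pos hQ1 hn1, ?_, ?_⟩
  · have h1 : (Y : ℝ) ≤ N := by
      refine hYu.trans ?_
      calc (N : ℝ) ^ (1 / 4 : ℝ) ≤ (N : ℝ) ^ (1 : ℝ) := Real.rpow_le_rpow_of_exponent_le hNR (by norm_num)
        _ = N := Real.rpow_one _
    have h2 : Y ≤ N := by exact_mod_cast h1
    omega
  · refine le_trans ?_ hN'l
    have h1 : ((N : ℝ) ^ (1 / 8 : ℝ)) ^ c₀ ≤ (Y : ℝ) ^ c₀ := Real.rpow_le_rpow (by positivity) hYl hc₀.le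
    rw [← Real.rpow_mul hN0.le] at h1
    refine le_trans (Real.rpow_le_rpow_of_exponent_le hNR ?_) h1
    linarith
  · rw [← mul_assoc]; exact hnA
  · intro m
    by_cases hm : m = m₀
    · subst hm
      obtain ⟨z₀, hz₀⟩ := eliminate α j h m hL hD.symm (by omega) hla n z hz hB hδ0
      refine ⟨z₀, hz₀.trans ?_⟩
      rw [← hQ]
      -- first part
      have f1 : (Q : ℝ) ^ (D - 1) * ((n : ℝ) ^ D * ((L : ℝ) ^ D * (N : ℝ) ^ (τ + 1 - D))) ≤ (2 * p) ^ k * (N : ℝ) ^ (4 * k * τ + τ - 1 / 2) := by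
        have g1 : (Q : ℝ) ^ (D - 1) * (L : ℝ) ^ D ≤ (2 * p) ^ k * (N : ℝ) ^ (4 * k * τ) := by
          have g2 : (Q : ℝ) ^ (D - 1) ≤ (Q : ℝ) ^ k := pow_le_pow_right₀ hQ1R (by omega)
          have g3 : (L : ℝ) ^ D ≤ (L : ℝ) ^ k := pow_le_pow_right₀ hL1 hDk
          calc (Q : ℝ) ^ (D - 1) * (L : ℝ) ^ D ≤ (Q : ℝ) ^ k * (L : ℝ) ^ k := mul_le_mul g2 g3 (by positivity) (by positivity)
            _ = (L * Q) ^ k := by rw [mul_pow]; ring
            _ ≤ (2 * p * (N : ℝ) ^ (4 * τ)) ^ k := pow_le_pow_left₀ (by positivity) hQLu k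
            _ = _ := by
              rw [mul_pow, ← Real.rpow_natCast ((N : ℝ) ^ (4 * τ)), ← Real.rpow_mul hN0.le]
              congr 2; ring
        have g4 : (n : ℝ) ^ D ≤ (N : ℝ) ^ ((D : ℝ) / 4) := by
          refine (pow_le_pow_left₀ (by positivity) hnY D).trans (le_of_eq ?_)
          rw [← Real.rpow_natCast, ← Real.rpow_mul hN0.le]
          congr 1; ring
        calc (Q : ℝ) ^ (D - 1) * ((n : ℝ) ^ D * ((L : ℝ) ^ D * (N : ℝ) ^ (τ + 1 - D)))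
            = ((Q : ℝ) ^ (D - 1) * (L : ℝ) ^ D) * ((n : ℝ) ^ D * (N : ℝ) ^ (τ + 1 - D)) := by ring
          _ ≤ ((2 * p) ^ k * (N : ℝ) ^ (4 * k * τ)) * ((N : ℝ) ^ ((D : ℝ) / 4) * (N : ℝ) ^ (τ + 1 - D)) := by
              apply mul_le_mul g1 _ (by positivity) (by positivity)
              exact mul_le_mul_of_nonneg_right g4 (by positivity)
          _ = (2 * p) ^ k * (N : ℝ) ^ (4 * k * τ + (D / 4 + (τ + 1 - D))) := by
              rw [Real.rpow_add hN0, Real.rpow_add hN0 ((D : ℝ) / 4)]; ring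
          _ ≤ _ := by
              apply mul_le_mul_of_nonneg_left _ (by positivity)
              apply Real.rpow_le_rpow_of_exponent_le hNR
              linarith
      have f2 : (Q : ℝ) ^ (D - 1) * (l * (M * (2 * p * (N : ℝ) ^ (2 * c') * δ))) ≤
          (2 * p) ^ k * M * (2 * p) * (N : ℝ) ^ (3 * k * τ + 3 * τ - c₀ / 8) := by
        calc (Q : ℝ) ^ (D - 1) * (l * (M * (2 * p * (N : ℝ) ^ (2 * c') * δ)))
            ≤ ((2 * p) ^ k * (N : ℝ) ^ (3 * k * τ)) * ((N : ℝ) ^ τ * (M * (2 * p * (N : ℝ) ^ (2 * τ) * (N : ℝ) ^ (-(c₀ / 8))))) := by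
              apply mul_le_mul (hpow _ (by omega)) _ (by positivity) (by positivity)
              apply mul_le_mul hl2 _ (by positivity) (by positivity)
              apply mul_le_mul_of_nonneg_left _ hMR
              apply mul_le_mul _ hδu hδ0 (by positivity)
              apply mul_le_mul_of_nonneg_left _ (by positivity)
              exact Real.rpow_le_rpow_of_exponent_le hNR (by linarith)
          _ = (2 * p) ^ k * M * (2 * p) * (N : ℝ) ^ (3 * k * τ + (τ + (2 * τ + -(c₀ / 8)))) := by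
              rw [Real.rpow_add hN0, Real.rpow_add hN0 τ, Real.rpow_add hN0 (2 * τ)]; ring
          _ = _ := by congr 2; ring
      have f3 : (2 * (2 * (p : ℝ)) ^ k) * (N : ℝ) ^ (4 * k * τ + τ - 1 / 2) = 2 * ((2 * p) ^ k * (N : ℝ) ^ (4 * k * τ + τ - 1 / 2)) := by ring
      have f4 : 2 * ((2 * (p : ℝ)) ^ k * M * (2 * p)) * (N : ℝ) ^ (3 * k * τ + 3 * τ - c₀ / 8) =
        2 * ((2 * p) ^ k * M * (2 * p) * (N : ℝ) ^ (3 * k * τ + 3 * τ - c₀ / 8)) := by ring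
      rw [f3] at E7
      rw [f4] at E8
      rw [mul_add]
      linarith
    · obtain ⟨m', rfl⟩ := Fin.exists_succAbove_eq hm
      refine ⟨(Q : ℤ) ^ (j (m₀.succAbove m')) * z m', ?_⟩
      have e1 : α (m₀.succAbove m') * ((Q * n : ℕ) : ℝ) ^ j (m₀.succAbove m') - (((Q : ℤ) ^ (j (m₀.succAbove m')) * z m' : ℤ) : ℝ) =
          (Q : ℝ) ^ (j (m₀.succAbove m')) * (α (m₀.succAbove m') * (n : ℝ) ^ j (m₀.succAbove m') - z m') := by
        push_cast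
        rw [mul_pow]; ring
      rw [e1, abs_mul, abs_of_nonneg (by positivity : (0 : ℝ) ≤ (Q : ℝ) ^ (j (m₀.succAbove m')))]
      calc (Q : ℝ) ^ (j (m₀.succAbove m')) * |α (m₀.succAbove m') * (n : ℝ) ^ j (m₀.succAbove m') - z m'|
          ≤ ((2 * p) ^ k * (N : ℝ) ^ (3 * k * τ)) * (N : ℝ) ^ (-(c₀ / 8)) :=
            mul_le_mul (hpow _ (hj _).2) ((hz m').trans hδu) (abs_nonneg _) (by positivity)
        _ = (2 * p) ^ k * (N : ℝ) ^ (3 * k * τ - c₀ / 8) := by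
            rw [sub_eq_add_neg, Real.rpow_add hN0]; ring
        _ ≤ _ := E6

/-- the theorem for all numbers of frequencies -/
theorem stmt_all (H : Sys A k) (M : ℕ) : Stmt A k M := by
  induction M with
  | zero => exact stmt_zero H
  | succ M ih => exact stmt_succ H ih

end Pool.Agent.U142.HS
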