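import Mathlib
import Pool.Agent.U142.HS5
import Pool.Agent.Results.MP_a1568a_nt.JointLaw

/-!
# The integers with short total stopping times satisfy the hypotheses
-/

set_option autoImplicit false

namespace Pool.Agent.U142.HS

open Finset Filter Topology
open Pool.Agent.Y965.PS (Tz)
open Pool.Agent.Helper602.MK (ee)
open Pool.Agent.Helper602.MK.N_J5b (ee_add ee_zero ee_conj norm_ee ee_int ee_nat_mul ee_eq_one_iff)
open Pool.Agent.Results.MP_a1568a_nt.JointLaw (T IsTotalStoppingTime bound Level Sieve Points Phi)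

/-- `2 / log (4 / 3)` -/
noncomputable def C₁ : ℝ := 2 / Real.log (4 / 3)

theorem log43 : 0 < Real.log (4 / 3) := Real.log_pos (by norm_num)

theorem C₁_pos : 0 < C₁ := div_pos two_pos log43

theorem log43_le : Real.log (4 / 3) ≤ 1 / 3 := by
  have := Real.log_le_sub_one_of_pos (show (0 : ℝ) < 4 / 3 by norm_num)
  linarith

theorem C₁_ge : 6 ≤ C₁ := by
  unfold C₁
  rw [le_div_iff₀ log43]
  have := log43_le
  linarith

/-- the number of steps -/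
noncomputable def mm (N : ℕ) : ℕ := ⌊C₁ * Real.log N⌋₊

theorem Tz_cast (n : ℕ) : Tz 1 (n : ℤ) = ((T n : ℕ) : ℤ) := by
  unfold Tz T
  split_ifs <;> omega

theorem Tz_iter (t : ℕ) : ∀ n : ℕ, (Tz 1)^[t] (n : ℤ) = ((T^[t] n : ℕ) : ℤ) := by
  induction t with
  | zero => intro n; rfl
  | succ t ih => intro n; rw [Function.iterate_succ_apply, Function.iterate_succ_apply, Tz_cast, ih]

open Classical in
/-- indicator function of the integers which reach `1` in at most `m` steps -/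
noncomputable def FB (m : ℕ) (x : ℤ) : ℝ := if ∃ t, t ≤ m ∧ (Tz 1)^[t] x = 1 then 1 else 0

theorem one_orbit (i : ℕ) : (Tz 1)^[i] 1 = 1 ∨ (Tz 1)^[i] 1 = 2 := by
  induction i with
  | zero => left; rfl
  | succ i ih =>
    rw [Function.iterate_succ_apply']
    rcases ih with h | h <;> rw [h]
    · right; rfl
    · left; rfl

theorem sync_FB {N m : ℕ} (hm : ∀ j : ℕ, 1 ≤ j → 2 ^ j ≤ N → j + 1 ≤ m) : SyncN 1 N (FB m) := by
  refine ⟨fun x => by unfold FB; split_ifs <;> simp, fun j hj x y hxy => ?_⟩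
  have key : ∀ x y : ℤ, (Tz 1)^[j] x = (Tz 1)^[j] y → (∃ t, t ≤ m ∧ (Tz 1)^[t] x = 1) →
      ∃ t, t ≤ m ∧ (Tz 1)^[t] y = 1 := by
    rintro x y hxy ⟨t, ht, h1⟩
    rcases Nat.lt_or_ge t j with h2 | h2
    · -- the trajectory of `x` is in the cycle at the time `j`
      have hj1 : 1 ≤ j := by omega
      have h3 : (Tz 1)^[j] x = (Tz 1)^[j - t] ((Tz 1)^[t] x) := by
        rw [← Function.iterate_add_apply, Nat.sub_add_cancel h2.le]
      rw [h1] at h3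
      have hjm : j + 1 ≤ m := hm j hj1 hj
      rcases one_orbit (j - t) with h4 | h4
      · exact ⟨j, by omega, by rw [← hxy, h3, h4]⟩
      · refine ⟨j + 1, hjm, ?_⟩
        rw [Function.iterate_succ_apply', ← hxy, h3, h4]
        rfl
    · refine ⟨t, ht, ?_⟩
      have h3 : t = (t - j) + j := by omega
      rw [h3, Function.iterate_add_apply] at h1 ⊢
      rw [← hxy]; exact h1
  have : (∃ t, t ≤ m ∧ (Tz 1)^[t] x = 1) ↔ ∃ t, t ≤ m ∧ (Tz 1)^[t] y = 1 :=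
    ⟨key x y hxy, key y x hxy.symm⟩
  unfold FB
  simp only [this]

theorem steps_le {N j : ℕ} (hN : 1 ≤ N) (hj1 : 1 ≤ j) (hj : 2 ^ j ≤ N) : ((j + 1 : ℕ) : ℝ) ≤ 3 * Real.log N := by
  have hlog : (j : ℝ) * Real.log 2 ≤ Real.log N := by
    have h4 : (2 : ℝ) ^ j ≤ N := by exact_mod_cast hj
    have h5 := Real.log_le_log (by positivity) h4
    rwa [Real.log_pow] at h5
  have h6 : (0.69 : ℝ) < Real.log 2 := by have := Real.log_two_gt_d9; linarith
  have hj1R : (1 : ℝ) ≤ j := by exact_mod_cast hj1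
  push_cast
  nlinarith

/-- indicator function of the integers which reach `1` in at most `mm N` steps -/
noncomputable def FN (N : ℕ) (x : ℤ) : ℝ := FB (mm N) x

theorem sync_FN {N : ℕ} (hN : 1 ≤ N) : SyncN 1 N (FN N) := by
  apply sync_FB
  intro j hj1 hj
  unfold mm
  apply Nat.le_floor
  have h1 := steps_le hN hj1 hj
  have h7 := C₁_ge
  have h8 : 0 ≤ Real.log N := Real.log_nonneg (by exact_mod_cast hN)
  nlinarith

open Classical in
/-- the integers near `N` on a logarithmic scale which reach `1` in at most `mm N` steps -/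
noncomputable def AN (η : ℝ) (_ : Unit) (N : ℕ) : Finset ℕ :=
  (Icc 1 N).filter (fun n => (N : ℝ) ^ (1 - η) < n ∧ ∃ t, t ≤ mm N ∧ (Tz 1)^[t] (n : ℤ) = 1)

theorem AN_weyl {η₀ : ℝ} (hη₀ : 0 < η₀) {D : ℕ} (hD : 2 ≤ D) {η : ℝ} (hη : 0 < η) :
    ∃ K c : ℝ, 0 ≤ K ∧ 0 < c ∧ ∀ i, ∀ N : ℕ, 1 ≤ N → ∀ P : Polynomial ℝ, P.natDegree ≤ D →
    (∀ l : ℕ, 1 ≤ l → (l : ℝ) ≤ (N : ℝ) ^ η → ∀ a : ℤ, (N : ℝ) ^ (η + 1 - D) ≤ |l * P.coeff D - a|) →
    ‖∑ n ∈ AN η₀ i N, ee (P.eval (n : ℝ))‖ ≤ K * (N : ℝ) ^ (1 - c) := by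
  classical
  obtain ⟨K, c, hK, hc, hc1, H⟩ := weylP (d := 1) (Or.inl rfl) hD hη
  refine ⟨K + 1, min c η₀, by positivity, lt_min hc hη₀, fun i N hN P hP hmin => ?_⟩
  have hNR : (1 : ℝ) ≤ N := by exact_mod_cast hN
  have h1 := H N hN (FN N) (sync_FN hN) P hP hmin
  have e1 : ∑ n ∈ Icc 1 N, (FN N n : ℂ) * ee (P.eval (n : ℝ)) =
      ∑ n ∈ AN η₀ i N, ee (P.eval (n : ℝ)) +
      ∑ n ∈ (Icc 1 N).filter (fun n : ℕ => (n : ℝ) ≤ (N : ℝ) ^ (1 - η₀) ∧ ∃ t, t ≤ mm N ∧ (Tz 1)^[t] (n : ℤ) = 1), ee (P.eval (n : ℝ)) := by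
    unfold AN
    rw [sum_filter, sum_filter, ← sum_add_distrib]
    apply sum_congr rfl
    intro n _
    unfold FN FB
    by_cases h2 : ∃ t, t ≤ mm N ∧ (Tz 1)^[t] (n : ℤ) = 1
    · by_cases h3 : (N : ℝ) ^ (1 - η₀) < n
      · rw [if_pos h2, if_pos ⟨h3, h2⟩, if_neg (fun h => by linarith [h.1])]; simp
      · rw [if_pos h2, if_neg (fun h => h3 h.1), if_pos ⟨not_lt.1 h3, h2⟩]; simp
    · rw [if_neg h2, if_neg (fun h => h2 h.2), if_neg (fun h => h2 h.2)]; simp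
  have h2 : ‖∑ n ∈ (Icc 1 N).filter (fun n : ℕ => (n : ℝ) ≤ (N : ℝ) ^ (1 - η₀) ∧ ∃ t, t ≤ mm N ∧ (Tz 1)^[t] (n : ℤ) = 1),
      ee (P.eval (n : ℝ))‖ ≤ (N : ℝ) ^ (1 - η₀) := by
    refine (norm_sum_le _ _).trans ?_
    have h3 : ∑ n ∈ (Icc 1 N).filter (fun n : ℕ => (n : ℝ) ≤ (N : ℝ) ^ (1 - η₀) ∧ ∃ t, t ≤ mm N ∧ (Tz 1)^[t] (n : ℤ) = 1),
      ‖ee (P.eval (n : ℝ))‖ = (((Icc 1 N).filter (fun n : ℕ => (n : ℝ) ≤ (N : ℝ) ^ (1 - η₀) ∧ ∃ t, t ≤ mm N ∧ (Tz 1)^[t] (n : ℤ) = 1)).card : ℝ) := by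
      simp [norm_ee]
    rw [h3]
    have h4 : ((Icc 1 N).filter (fun n : ℕ => (n : ℝ) ≤ (N : ℝ) ^ (1 - η₀) ∧ ∃ t, t ≤ mm N ∧ (Tz 1)^[t] (n : ℤ) = 1)) ⊆
        Icc 1 ⌊(N : ℝ) ^ (1 - η₀)⌋₊ := by
      intro n hn
      rw [mem_filter, mem_Icc] at hn
      rw [mem_Icc]
      exact ⟨hn.1.1, Nat.le_floor hn.2.1⟩
    have h5 := card_le_card h4
    rw [Nat.card_Icc, Nat.add_sub_cancel] at h5
    exact (by exact_mod_cast h5 : _ ≤ ((⌊(N : ℝ) ^ (1 - η₀)⌋₊ : ℕ) : ℝ)).trans (Nat.floor_le (by positivity))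
  have h3 : ‖∑ n ∈ AN η₀ i N, ee (P.eval (n : ℝ))‖ ≤ K * (N : ℝ) ^ (1 - c) + (N : ℝ) ^ (1 - η₀) := by
    have h4 : ∑ n ∈ AN η₀ i N, ee (P.eval (n : ℝ)) = ∑ n ∈ Icc 1 N, (FN N n : ℂ) * ee (P.eval (n : ℝ)) -
      ∑ n ∈ (Icc 1 N).filter (fun n : ℕ => (n : ℝ) ≤ (N : ℝ) ^ (1 - η₀) ∧ ∃ t, t ≤ mm N ∧ (Tz 1)^[t] (n : ℤ) = 1), ee (P.eval (n : ℝ)) := by
      rw [e1]; ring
    rw [h4]
    exact (norm_sub_le _ _).trans (add_le_add h1 h2)
  have e2 : (N : ℝ) ^ (1 - c) ≤ (N : ℝ) ^ (1 - min c η₀) :=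
    Real.rpow_le_rpow_of_exponent_le hNR (by have := min_le_left c η₀; linarith)
  have e3 : (N : ℝ) ^ (1 - η₀) ≤ (N : ℝ) ^ (1 - min c η₀) :=
    Real.rpow_le_rpow_of_exponent_le hNR (by have := min_le_right c η₀; linarith)
  have e4 := mul_le_mul_of_nonneg_left e2 hK
  linarith


/-- the positive integers with total stopping time at most `C₁ log n` -/
def Sh (n : ℕ) : Prop := ∃ t : ℕ, (t : ℝ) ≤ C₁ * Real.log n ∧ T^[t] n = 1

theorem phi0 : 0 < Phi 0 := by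
  have h1 : Pool.Agent.H499R2.ND.Phi (-1) < Pool.Agent.H499R2.ND.Phi 0 := Pool.Agent.W36.JL.Phi_lt (by norm_num)
  have h2 : 0 ≤ Pool.Agent.H499R2.ND.Phi (-1) := Pool.Agent.W36.JL.Phi_nonneg _
  have h3 : Pool.Agent.H499R2.ND.Phi 0 = Phi 0 := Pool.Agent.H499R2.ND.phi_cdf 0
  rw [← h3]; linarith

open Classical in
/-- the count in the multiples of an odd integer -/
theorem count_odd : ∃ δ θ : ℝ, 0 < δ ∧ 0 < θ ∧ ∃ N₀ : ℕ, ∀ N : ℕ, N₀ ≤ N → ∀ q : ℕ, q % 2 = 1 → (q : ℝ) ≤ (N : ℝ) ^ θ →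
    ∀ M : ℕ, M ≤ N → δ * (((N : ℝ) - M) / q - 1) - δ / 8 * ((N : ℝ) / q) ≤
      (((Ioc M N).filter (fun n => q ∣ n ∧ Sh n)).card : ℝ) := by
  obtain ⟨δ, hδ, -, -, -, H, -⟩ := Pool.Agent.Results.MP_a1568a_nt.JointLaw.result
  have hp := phi0
  obtain ⟨θ, hθ, X₀, H⟩ := H 0 1 0 1 le_rfl (fun _ _ => 1) (fun i h => by
      have := congrFun h 0
      simp at this) (fun i j hij => absurd (Subsingleton.elim i j) hij) (fun _ => 0) (fun _ => 0) (δ * Phi 0 / 8) (by positivity)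
  refine ⟨δ * Phi 0, θ, by positivity, hθ, X₀, fun N hN q hq hqN M hMN => ?_⟩
  set w : Sieve (0 + 1) := ⟨∅, fun _ => ∅, q, fun _ => 0⟩ with hw
  have h1 := H N hN w ⟨fun p hp => absurd hp (by simp [hw]), hq, hqN⟩ (fun _ => 0) (fun _ => M) (fun _ => N)
    (fun _ => hMN) (fun _ => le_rfl) (fun _ => 0) (fun _ => N) (fun _ => by simp)
  have hdens : w.dens = 1 / q := by
    unfold Sieve.dens
    simp [hw]
  have hpts : ∀ S : Set ℤ, Points (fun (_ : Fin 1) (_ : Fin (0 + 1)) => (1 : ℤ)) (fun _ => 0) (fun _ => M) (fun _ => N) (fun _ => 0) (fun _ => N) w (fun _ => S) =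
      ((Ioc M N).filter (fun n : ℕ => q ∣ n ∧ (n : ℤ) ∈ S)).card := by
    intro S
    unfold Points
    rw [← Set.ncard_coe_finset]
    symm
    refine Set.ncard_congr (fun n _ => fun _ => (n : ℤ)) ?_ ?_ ?_
    · intro n hn
      rw [coe_filter, Set.mem_ofPred_eq, mem_Ioc] at hn
      refine ⟨fun j => ⟨by have := hn.1.1; simp only; omega, by have := hn.1.2; simp only; omega⟩, ⟨fun p hp => absurd hp (by simp [hw]), fun j => ?_⟩, fun i => ?_⟩
      · simp only [hw, sub_zero]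
        exact_mod_cast hn.2.1
      · simp only [Fin.sum_univ_succ, Fin.sum_univ_zero, one_mul, add_zero]
        refine ⟨hn.2.2, ?_, ?_⟩
        · exact_mod_cast hn.1.1
        · exact_mod_cast hn.1.2
    · intro a b _ _ hab
      have := congrFun hab 0
      exact_mod_cast this
    · intro v hv
      obtain ⟨hv1, ⟨-, hv2⟩, hv3⟩ := hv
      have h2 := hv1 0
      have h3 := hv2 0
      have h4 := hv3 0
      simp only [Fin.sum_univ_succ, Fin.sum_univ_zero, one_mul, add_zero, hw, sub_zero] at h2 h3 h4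
      refine ⟨(v 0).toNat, ?_, ?_⟩
      · rw [coe_filter, Set.mem_ofPred_eq, mem_Ioc]
        have h5 : (((v 0).toNat : ℕ) : ℤ) = v 0 := Int.toNat_of_nonneg (by omega)
        refine ⟨⟨by omega, by omega⟩, ?_, by rw [h5]; exact h4.1⟩
        have h6 : (q : ℤ) ∣ (((v 0).toNat : ℕ) : ℤ) := by rw [h5]; exact h3
        exact_mod_cast h6
      · funext i
        have : i = 0 := by fin_cases i; rfl
        rw [this]
        exact Int.toNat_of_nonneg (by omega)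
  have hptsU : Points (fun (_ : Fin 1) (_ : Fin (0 + 1)) => (1 : ℤ)) (fun _ => 0) (fun _ => M) (fun _ => N) (fun _ => 0) (fun _ => N) w (fun _ => Set.univ) =
      ((Ioc M N).filter (fun n : ℕ => q ∣ n)).card := by
    rw [hpts]; congr 1; ext n; simp
  have hptsL : Points (fun (_ : Fin 1) (_ : Fin (0 + 1)) => (1 : ℤ)) (fun _ => 0) (fun _ => M) (fun _ => N) (fun _ => 0) (fun _ => N) w (fun _ => Level 1 0 0) =
      ((Ioc M N).filter (fun n : ℕ => q ∣ n ∧ Sh n)).card := by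
    rw [hpts]; congr 1; ext n
    rw [mem_filter, mem_filter]
    apply and_congr_right
    intro hn
    rw [mem_Ioc] at hn
    apply and_congr_right
    intro _
    unfold Level Sh
    rw [Set.mem_ofPred_eq, Int.toNat_natCast]
    have hb : bound 0 n = C₁ * Real.log n := by unfold bound C₁; ring
    rw [hb]
    constructor
    · rintro ⟨-, t, h1, h2, -⟩
      exact ⟨t, h1, h2.1⟩
    · rintro ⟨t, h1, h2⟩
      have hex : ∃ t, T^[t] n = 1 := ⟨t, h2⟩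
      refine ⟨by omega, Nat.find hex, ?_, ⟨Nat.find_spec hex, fun j hj => Nat.find_min hex hj⟩, by simp [Int.modEq_one]⟩
      have h3 : Nat.find hex ≤ t := Nat.find_min' _ h2
      exact (by exact_mod_cast h3 : ((Nat.find hex : ℕ) : ℝ) ≤ t).trans h1
  rw [hptsU, hptsL, hdens] at h1
  have hq0 : (0 : ℝ) < q := by
    have : 0 < q := by omega
    exact_mod_cast this
  -- all multiples
  have hall : ((N : ℝ) - M) / q - 1 ≤ (((Ioc M N).filter (fun n : ℕ => q ∣ n)).card : ℝ) := by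
    have h3 := Nat.Ioc_filter_dvd_card_eq_div N q
    have h4 := Nat.Ioc_filter_dvd_card_eq_div M q
    have h5 : ((Ioc 0 N).filter (fun n => q ∣ n)).card = ((Ioc 0 M).filter (fun n => q ∣ n)).card + ((Ioc M N).filter (fun n => q ∣ n)).card := by
      rw [← card_union_of_disjoint, ← filter_union, Ioc_union_Ioc_eq_Ioc (Nat.zero_le _) hMN]
      apply disjoint_filter_filter
      rw [Finset.disjoint_left]
      intro a ha hb
      rw [mem_Ioc] at ha hb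
      omega
    have h6 : (((Ioc M N).filter (fun n => q ∣ n)).card : ℝ) = (N / q : ℕ) - (M / q : ℕ) := by
      rw [h3, h4] at h5
      have : ((N / q : ℕ) : ℝ) = (M / q : ℕ) + (((Ioc M N).filter (fun n => q ∣ n)).card : ℝ) := by exact_mod_cast h5
      linarith
    rw [h6]
    have h7 : ((M / q : ℕ) : ℝ) ≤ M / q := Nat.cast_div_le
    have h8 : (N : ℝ) / q - 1 ≤ (N / q : ℕ) := by
      have h9 : N < q * (N / q + 1) := by
        have := Nat.lt_mul_div_succ N (show 0 < q by omega)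
        exact this
      have h10 : (N : ℝ) < q * ((N / q : ℕ) + 1) := by exact_mod_cast h9
      have h11 : (N : ℝ) / q < (N / q : ℕ) + 1 := by
        rw [div_lt_iff₀ hq0]; linarith
      linarith
    rw [sub_div]
    linarith
  simp only [univ_unique, Fin.default_eq_zero, Fin.isValue, prod_const, card_singleton, pow_one, Nat.cast_one, div_one, zero_add] at h1
  have h2 := (abs_le.1 h1).1
  have h3 := mul_le_mul_of_nonneg_left hall (show 0 ≤ δ * Phi 0 by positivity)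
  have e1 : δ * Phi 0 / 8 * (1 / q) * N = δ * Phi 0 / 8 * ((N : ℝ) / q) := by ring
  rw [e1] at h2
  linarith


theorem T_two_pow (e : ℕ) : ∀ n : ℕ, T^[e] (2 ^ e * n) = n := by
  induction e with
  | zero => intro n; simp
  | succ e ih =>
    intro n
    rw [Function.iterate_succ_apply]
    have : T (2 ^ (e + 1) * n) = 2 ^ e * n := by
      unfold T
      have h1 : 2 ^ (e + 1) * n = 2 * (2 ^ e * n) := by ring
      rw [h1, if_pos (by omega)]
      omega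
    rw [this, ih]

open Classical in
theorem AN_count {η₀ : ℝ} (hη₀ : 0 < η₀) : ∃ θ κ : ℝ, 0 < θ ∧ 0 < κ ∧ ∃ N₀ : ℕ, ∀ i, ∀ N : ℕ, N₀ ≤ N → ∀ L : ℕ, 1 ≤ L →
    (L : ℝ) ≤ (N : ℝ) ^ θ → κ * ((N : ℝ) / L) ≤ (((AN η₀ i N).filter (fun n => L ∣ n)).card : ℝ) := by
  obtain ⟨δ, θ₁, hδ, hθ₁, N₁, H⟩ := count_odd
  set θ : ℝ := min (θ₁ / 4) (1 / 8) with hθ
  have hθ0 : 0 < θ := lt_min (by positivity) (by norm_num)
  have hθ4 : θ ≤ θ₁ / 4 := min_le_left _ _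
  have hθ8 : θ ≤ 1 / 8 := min_le_right _ _
  obtain ⟨n1, hn1, E1⟩ := ev_le N₁ (show (0 : ℝ) < 1 / 2 by norm_num)
  obtain ⟨n2, hn2, E2⟩ := ev_le 2 (show (1 / 2 : ℝ) < 7 / 8 by norm_num)
  obtain ⟨n3, hn3, E3⟩ := ev_le 8 (show (1 / 8 : ℝ) < 1 / 2 by norm_num)
  obtain ⟨n4, hn4, E4⟩ := ev_le 2 (show 1 - η₀ < 1 by linarith)
  refine ⟨θ, δ / 8, hθ0, by positivity, n1 + n2 + n3 + n4, fun i N hN L hL hLN => ?_⟩
  have E1 := E1 N (by omega)
  have E2 := E2 N (by omega)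
  have E3 := E3 N (by omega)
  have E4 := E4 N (by omega)
  have hNR : (1 : ℝ) ≤ N := by exact_mod_cast (by omega : 1 ≤ N)
  have hN0 : (0 : ℝ) < N := by linarith
  rw [Real.rpow_zero, mul_one] at E1
  rw [Real.rpow_one] at E4
  obtain ⟨e, q, hq, rfl⟩ := Nat.exists_eq_two_pow_mul_odd (n := L) (by omega)
  have hq0 : 0 < q := hq.pos
  have hq0R : (0 : ℝ) < q := by exact_mod_cast hq0
  have hq1R : (1 : ℝ) ≤ q := by exact_mod_cast hq0
  have h2e : (1 : ℝ) ≤ 2 ^ e := one_le_pow₀ (by norm_num)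
  have hL' : (2 : ℝ) ^ e * q ≤ (N : ℝ) ^ θ := by
    have := hLN; push_cast at this; exact this
  have h2eN : (2 : ℝ) ^ e ≤ (N : ℝ) ^ (1 / 8 : ℝ) := by
    calc (2 : ℝ) ^ e ≤ 2 ^ e * q := le_mul_of_one_le_right (by positivity) hq1R
      _ ≤ (N : ℝ) ^ θ := hL'
      _ ≤ _ := Real.rpow_le_rpow_of_exponent_le hNR hθ8
  have hqN : (q : ℝ) ≤ (N : ℝ) ^ θ := le_trans (le_mul_of_one_le_left hq0R.le h2e) hL'
  set N' : ℕ := N / 2 ^ e with hN'
  have hN'1 : (N : ℝ) / 2 ^ e < N' + 1 := by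
    have h1 := Nat.lt_mul_div_succ N (show 0 < 2 ^ e by positivity)
    have h2 : (N : ℝ) < 2 ^ e * ((N / 2 ^ e : ℕ) + 1) := by exact_mod_cast h1
    rw [div_lt_iff₀ (by positivity)]
    linarith
  have hN'2 : 2 ^ e * N' ≤ N := Nat.mul_div_le N (2 ^ e)
  have hN78 : (N : ℝ) ^ (7 / 8 : ℝ) ≤ (N : ℝ) / 2 ^ e := by
    rw [le_div_iff₀ (by positivity)]
    calc (N : ℝ) ^ (7 / 8 : ℝ) * 2 ^ e ≤ (N : ℝ) ^ (7 / 8 : ℝ) * (N : ℝ) ^ (1 / 8 : ℝ) :=
          mul_le_mul_of_nonneg_left h2eN (by positivity)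
      _ = N := by rw [← Real.rpow_add hN0]; norm_num
  have hN12 : (1 : ℝ) ≤ (N : ℝ) ^ (1 / 2 : ℝ) := Real.one_le_rpow hNR (by norm_num)
  have hN'3 : (N : ℝ) ^ (1 / 2 : ℝ) ≤ N' := by linarith
  have hN'4 : (N : ℝ) / 2 ^ e ≤ 2 * N' := by linarith
  have hN'0 : (0 : ℝ) < N' := by linarith
  have hN'N₁ : N₁ ≤ N' := by
    have : (N₁ : ℝ) ≤ N' := by linarith
    exact_mod_cast this
  have hqN' : (q : ℝ) ≤ (N' : ℝ) ^ θ₁ := by
    calc (q : ℝ) ≤ (N : ℝ) ^ θ := hqN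
      _ ≤ (N : ℝ) ^ (θ₁ / 2) := Real.rpow_le_rpow_of_exponent_le hNR (by linarith)
      _ = ((N : ℝ) ^ (1 / 2 : ℝ)) ^ θ₁ := by rw [← Real.rpow_mul hN0.le]; congr 1; ring
      _ ≤ _ := Real.rpow_le_rpow (by positivity) hN'3 hθ₁.le
  have h1 := H N' hN'N₁ q (Nat.odd_iff.1 hq) hqN' (N' / 2) (Nat.div_le_self _ _)
  -- the injection
  have hinj : (((Ioc (N' / 2) N').filter (fun n => q ∣ n ∧ Sh n)).image (fun n => 2 ^ e * n)) ⊆
      (AN η₀ i N).filter (fun n => 2 ^ e * q ∣ n) := by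
    intro m hm
    rw [mem_image] at hm
    obtain ⟨n, hn, rfl⟩ := hm
    rw [mem_filter, mem_Ioc] at hn
    obtain ⟨⟨hn1, hn2⟩, hqn, t, ht1, ht2⟩ := hn
    have hn0 : 1 ≤ n := by omega
    have hn0R : (1 : ℝ) ≤ n := by exact_mod_cast hn0
    rw [mem_filter]
    refine ⟨?_, Nat.mul_dvd_mul_left _ hqn⟩
    unfold AN
    rw [mem_filter, mem_Icc]
    have hle : 2 ^ e * n ≤ N := (Nat.mul_le_mul_left _ hn2).trans hN'2
    have hleR : (2 : ℝ) ^ e * n ≤ N := by exact_mod_cast hle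
    refine ⟨⟨Nat.mul_pos (by positivity) hn0, hle⟩, ?_, e + t, ?_, ?_⟩
    · have h2 : N' + 1 ≤ 2 * n := by omega
      have h3 : (N' : ℝ) + 1 ≤ 2 * n := by exact_mod_cast h2
      have h4 : (N : ℝ) < 2 ^ e * (2 * n) := by
        have h5 : (N : ℝ) / 2 ^ e < 2 * n := lt_of_lt_of_le hN'1 h3
        rw [div_lt_iff₀ (by positivity)] at h5
        linarith
      push_cast
      have h6 : 2 * (N : ℝ) ^ (1 - η₀) < 2 * (2 ^ e * n) := by
        calc 2 * (N : ℝ) ^ (1 - η₀) ≤ N := E4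
          _ < _ := by linarith
      linarith
    · unfold mm
      apply Nat.le_floor
      have h2 : Real.log ((2 : ℝ) ^ e * n) ≤ Real.log N := Real.log_le_log (by positivity) hleR
      rw [Real.log_mul (by positivity) (by positivity), Real.log_pow] at h2
      have h3 := C₁_ge
      have h6 : (0.69 : ℝ) < Real.log 2 := by have := Real.log_two_gt_d9; linarith
      have h7 : (0 : ℝ) ≤ e := Nat.cast_nonneg e
      have h8 : (e : ℝ) ≤ C₁ * (e * Real.log 2) := by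
        have : (e : ℝ) * 1 ≤ e * (C₁ * Real.log 2) := mul_le_mul_of_nonneg_left (by nlinarith) h7
        nlinarith
      push_cast
      calc (e : ℝ) + t ≤ C₁ * (e * Real.log 2) + C₁ * Real.log n := add_le_add h8 ht1
        _ = C₁ * (e * Real.log 2 + Real.log n) := by ring
        _ ≤ C₁ * Real.log N := mul_le_mul_of_nonneg_left h2 C₁_pos.le
    · rw [Tz_iter, Nat.add_comm e t, Function.iterate_add_apply, T_two_pow, ht2]
      rfl
  have h2 := card_le_card hinj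
  rw [card_image_of_injective _ (fun a b hab => by
    have : 0 < 2 ^ e := by positivity
    exact Nat.eq_of_mul_eq_mul_left this hab)] at h2
  have h3 : (((Ioc (N' / 2) N').filter (fun n => q ∣ n ∧ Sh n)).card : ℝ) ≤
      (((AN η₀ i N).filter (fun n => 2 ^ e * q ∣ n)).card : ℝ) := by exact_mod_cast h2
  refine le_trans ?_ h3
  refine le_trans ?_ h1
  have h4 : ((N' / 2 : ℕ) : ℝ) ≤ N' / 2 := by
    have := @Nat.cast_div_le ℝ _ _ _ N' 2
    exact_mod_cast this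
  have h5 : (N' : ℝ) / q / 2 ≤ ((N' : ℝ) - (N' / 2 : ℕ)) / q := by
    rw [div_div, mul_comm (q : ℝ) 2, ← div_div]
    apply div_le_div_of_nonneg_right _ hq0R.le
    linarith
  have h6 : (8 : ℝ) ≤ N' / q := by
    rw [le_div_iff₀ hq0R]
    calc 8 * (q : ℝ) ≤ 8 * (N : ℝ) ^ (1 / 8 : ℝ) := by
          apply mul_le_mul_of_nonneg_left _ (by norm_num)
          exact hqN.trans (Real.rpow_le_rpow_of_exponent_le hNR hθ8)
      _ ≤ (N : ℝ) ^ (1 / 2 : ℝ) := E3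
      _ ≤ N' := hN'3
  have h7 : (N : ℝ) / ((2 ^ e * q : ℕ) : ℝ) ≤ 2 * (N' / q) := by
    push_cast
    rw [← div_div, ← mul_div_assoc]
    exact div_le_div_of_nonneg_right hN'4 hq0R.le
  have h8 : δ / 8 * ((N : ℝ) / ((2 ^ e * q : ℕ) : ℝ)) ≤ δ / 8 * (2 * (N' / q)) := mul_le_mul_of_nonneg_left h7 (by positivity)
  have h9 := mul_le_mul_of_nonneg_left h5 hδ.le
  have h10 := mul_le_mul_of_nonneg_left h6 hδ.le
  nlinarith

/-- the hypotheses hold for the integers with short total stopping times -/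
theorem AN_sys {η₀ : ℝ} (hη₀ : 0 < η₀) (k : ℕ) : Sys (AN η₀) k where
  mem := by
    classical
    intro i N n hn
    unfold AN at hn
    rw [mem_filter, mem_Icc] at hn
    exact hn.1
  count := by
    classical
    obtain ⟨θ, κ, hθ, hκ, N₀, H⟩ := AN_count hη₀
    refine ⟨θ, κ, hθ, hκ, N₀, fun i N hN L hL hLN => ?_⟩
    convert H i N hN L hL hLN
  weyl := fun D hD _ η hη => AN_weyl hη₀ hD hη

end Pool.Agent.U142.HS
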