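import Mathlib
import Pool.Agent.U142.HS6

/-!
# Small fractional parts of systems of polynomials without constant and linear terms
-/

set_option autoImplicit false

namespace Pool.Agent.U142.HS

open Finset Filter Topology
open Pool.Agent.Y965.PS (Tz)
open Pool.Agent.Results.MP_a1568a_nt.JointLaw (T IsTotalStoppingTime)

theorem poly_parts {ι : Type*} {A : ι → ℕ → Finset ℕ} {k : ℕ} (H : Sys A (k + 2)) (r : ℕ) :
    ∃ ρ c : ℝ, 0 < ρ ∧ 0 < c ∧ c ≤ 1 ∧ ∃ N₀ : ℕ, 1 ≤ N₀ ∧ ∀ i, ∀ N : ℕ, N₀ ≤ N → ∀ L : ℕ, 1 ≤ L → (L : ℝ) ≤ (N : ℝ) ^ ρ →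
    ∀ f : Fin r → Polynomial ℝ, (∀ u, (f u).natDegree ≤ k ∧ (f u).coeff 0 = 0 ∧ (f u).coeff 1 = 0) →
    ∃ N' n : ℕ, N' ≤ N ∧ (N : ℝ) ^ c ≤ N' ∧ 1 ≤ n ∧ L * n ∈ A i N' ∧
      ∀ u, ∃ z : ℤ, |(f u).eval ((L * n : ℕ) : ℝ) - z| ≤ (N : ℝ) ^ (-c) := by
  obtain ⟨ρ, c₁, hρ, hc₁, hc₁1, N₁, hN₁, h⟩ := stmt_all H (r * (k + 3))
  obtain ⟨n1, hn1, E1⟩ := ev_le ((k : ℝ) + 3) (show -c₁ < -(c₁ / 2) by linarith)
  refine ⟨ρ, c₁ / 2, hρ, by positivity, by linarith, N₁ + n1, by omega, fun i N hN L hL hLN f hf => ?_⟩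
  have hNR : (1 : ℝ) ≤ N := by exact_mod_cast (by omega : 1 ≤ N)
  set e : Fin r × Fin (k + 3) ≃ Fin (r * (k + 3)) := finProdFinEquiv with he
  obtain ⟨N', n, h1, h2, h3, h4, h5⟩ := h i N (by omega) L hL hLN
    (fun m => if 2 ≤ ((e.symm m).2 : ℕ) then (f (e.symm m).1).coeff (e.symm m).2 * (L : ℝ) ^ ((e.symm m).2 : ℕ) else 0)
    (fun m => if 2 ≤ ((e.symm m).2 : ℕ) then ((e.symm m).2 : ℕ) else 2)
    (fun m => by
      have := (e.symm m).2.2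
      split_ifs with h6 <;> omega)
  refine ⟨N', n, h1, ?_, h3, h4, fun u => ?_⟩
  · exact (Real.rpow_le_rpow_of_exponent_le hNR (by linarith)).trans h2
  · choose z hz using h5
    refine ⟨∑ j : Fin (k + 3), z (e (u, j)), ?_⟩
    have e1 : (f u).eval ((L * n : ℕ) : ℝ) = ∑ j : Fin (k + 3),
        (if 2 ≤ (j : ℕ) then (f u).coeff j * (L : ℝ) ^ (j : ℕ) else 0) * (n : ℝ) ^ (if 2 ≤ (j : ℕ) then (j : ℕ) else 2) := by
      have hdeg : (f u).natDegree < k + 3 := by have := (hf u).1; omega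
      rw [Polynomial.eval_eq_sum_range' hdeg, Finset.sum_range]
      apply sum_congr rfl
      intro j _
      by_cases h6 : 2 ≤ (j : ℕ)
      · rw [if_pos h6, if_pos h6]
        push_cast
        rw [mul_pow]; ring
      · rw [if_neg h6, if_neg h6, zero_mul]
        have h7 : (j : ℕ) = 0 ∨ (j : ℕ) = 1 := by omega
        rcases h7 with h7 | h7 <;> rw [h7]
        · rw [(hf u).2.1, zero_mul]
        · rw [(hf u).2.2, zero_mul]
    rw [e1]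
    push_cast
    rw [← sum_sub_distrib]
    refine (abs_sum_le_sum_abs _ _).trans ?_
    have e2 : ∀ j ∈ (univ : Finset (Fin (k + 3))), |(if 2 ≤ (j : ℕ) then (f u).coeff j * (L : ℝ) ^ (j : ℕ) else 0) * (n : ℝ) ^ (if 2 ≤ (j : ℕ) then (j : ℕ) else 2) -
        (z (e (u, j)) : ℝ)| ≤ (N : ℝ) ^ (-c₁) := by
      intro j _
      have := hz (e (u, j))
      simp only [Equiv.symm_apply_apply] at this
      exact this
    refine (sum_le_sum e2).trans ?_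
    rw [sum_const, card_univ, Fintype.card_fin, nsmul_eq_mul]
    push_cast
    exact E1 N (by omega)

/-- `n` has a total stopping time at most `C log n` -/
theorem short_parts {C : ℝ} (hC : 2 / Real.log (4 / 3) < C) (k r : ℕ) : ∃ c : ℝ, 0 < c ∧ ∃ X₀ : ℕ, 1 ≤ X₀ ∧ ∀ X : ℕ, X₀ ≤ X →
    ∀ q : ℕ, 1 ≤ q → (q : ℝ) ≤ (X : ℝ) ^ c →
    ∀ f : Fin r → Polynomial ℝ, (∀ u, (f u).natDegree ≤ k ∧ (f u).coeff 0 = 0 ∧ (f u).coeff 1 = 0) →
    ∃ n : ℕ, 1 ≤ n ∧ (X : ℝ) ^ c ≤ n ∧ n ≤ X ∧ q ∣ n ∧ (∃ t : ℕ, IsTotalStoppingTime n t ∧ (t : ℝ) ≤ C * Real.log n) ∧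
      ∀ u, |(f u).eval (n : ℝ) - round ((f u).eval (n : ℝ))| ≤ (X : ℝ) ^ (-c) := by
  have hC' : C₁ < C := hC
  have hC₁ := C₁_pos
  have hC0 : 0 < C := hC₁.trans hC'
  set η₀ : ℝ := min (1 / 2) (1 - C₁ / C) with hη₀
  have hη0 : 0 < η₀ := by
    apply lt_min (by norm_num)
    have : C₁ / C < 1 := by rw [div_lt_one hC0]; exact hC'
    linarith
  have hη1 : η₀ ≤ 1 / 2 := min_le_left _ _
  have hη2 : C₁ ≤ C * (1 - η₀) := by
    have h1 : η₀ ≤ 1 - C₁ / C := min_le_right _ _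
    have h2 : C₁ / C ≤ 1 - η₀ := by linarith
    rw [div_le_iff₀ hC0] at h2
    linarith
  obtain ⟨ρ, c, hρ, hc, hc1, N₀, hN₀, H⟩ := poly_parts (AN_sys hη0 (k + 2)) r
  refine ⟨min ρ (c / 2), lt_min hρ (by positivity), N₀, hN₀, fun X hX q hq hqX f hf => ?_⟩
  have hXR : (1 : ℝ) ≤ X := by exact_mod_cast (by omega : 1 ≤ X)
  have hX0 : (0 : ℝ) < X := by linarith
  have hm1 : min ρ (c / 2) ≤ ρ := min_le_left _ _
  have hm2 : min ρ (c / 2) ≤ c / 2 := min_le_right _ _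
  obtain ⟨N', n, h1, h2, h3, h4, h5⟩ := H () X hX q hq (hqX.trans (Real.rpow_le_rpow_of_exponent_le hXR hm1)) f hf
  classical
  unfold AN at h4
  rw [mem_filter, mem_Icc] at h4
  obtain ⟨⟨h6, h7⟩, h8, t, ht1, ht2⟩ := h4
  have hN'1 : (1 : ℝ) ≤ N' := le_trans (Real.one_le_rpow hXR hc.le) h2
  have hN'0 : (0 : ℝ) < N' := by linarith
  refine ⟨q * n, h6, ?_, h7.trans h1, Dvd.intro _ rfl, ?_, fun u => ?_⟩
  · have h9 : ((X : ℝ) ^ c) ^ (1 / 2 : ℝ) ≤ (N' : ℝ) ^ (1 - η₀) := by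
      calc ((X : ℝ) ^ c) ^ (1 / 2 : ℝ) ≤ (N' : ℝ) ^ (1 / 2 : ℝ) := Real.rpow_le_rpow (by positivity) h2 (by norm_num)
        _ ≤ _ := Real.rpow_le_rpow_of_exponent_le hN'1 (by linarith)
    rw [← Real.rpow_mul hX0.le] at h9
    refine le_trans ?_ (h9.trans h8.le)
    exact Real.rpow_le_rpow_of_exponent_le hXR (by linarith)
  · rw [Tz_iter] at ht2
    have ht3 : T^[t] (q * n) = 1 := by exact_mod_cast ht2
    have hex : ∃ t, T^[t] (q * n) = 1 := ⟨t, ht3⟩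
    refine ⟨Nat.find hex, ⟨Nat.find_spec hex, fun j hj => Nat.find_min hex hj⟩, ?_⟩
    have h9 : Nat.find hex ≤ t := Nat.find_min' _ ht3
    have h10 : ((Nat.find hex : ℕ) : ℝ) ≤ (mm N' : ℝ) := by exact_mod_cast h9.trans ht1
    have hlog0 : 0 ≤ Real.log N' := Real.log_nonneg hN'1
    have h11 : (mm N' : ℝ) ≤ C₁ * Real.log N' := by
      unfold mm
      exact Nat.floor_le (by positivity)
    have h12 : (1 - η₀) * Real.log N' ≤ Real.log ((q * n : ℕ) : ℝ) := by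
      have := Real.log_le_log (by positivity) h8.le
      rwa [Real.log_rpow hN'0] at this
    calc ((Nat.find hex : ℕ) : ℝ) ≤ C₁ * Real.log N' := h10.trans h11
      _ ≤ (C * (1 - η₀)) * Real.log N' := mul_le_mul_of_nonneg_right hη2 hlog0
      _ = C * ((1 - η₀) * Real.log N') := by ring
      _ ≤ _ := mul_le_mul_of_nonneg_left h12 hC0.le
  · obtain ⟨z, hz⟩ := h5 u
    refine (round_le _ z).trans (hz.trans ?_)
    exact Real.rpow_le_rpow_of_exponent_le hXR (by linarith)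

end Pool.Agent.U142.HS
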