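import Mathlib
import Pool.Agent.Y834.CD.Poly

/-!
# Weighted numbers of solutions of `∑ c i (x i) = m`

`Rw f c m` is the sum of `∏ f i (x i)` over the solutions. It changes by little if the weights `f i`
are replaced by weights `g i` for which the exponential sums are close (circle method with the
energy as the mean value estimate).
-/

set_option autoImplicit false

namespace Pool.Agent.U142.WG

open Finset Polynomial
open Pool.Agent.H373R2.NB (sum_chi norm_chi chi_conj)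
open Pool.Agent.Y834.CD (chi_sum en chi_ee)
open Pool.Agent.Helper602.MK (ee)

variable {M : ℕ} [NeZero M]

/-- weighted exponential sum -/
noncomputable def W {L : ℕ} (f : Fin L → ℝ) (c : Fin L → ZMod M) (ξ : ZMod M) : ℂ :=
  ∑ i, (f i : ℂ) * (ZMod.stdAddChar (ξ * c i) : ℂ)

theorem W_norm {L : ℕ} {f : Fin L → ℝ} (hf : ∀ i, |f i| ≤ 1) (c : Fin L → ZMod M) (ξ : ZMod M) :
    ‖W f c ξ‖ ≤ L := by
  unfold W
  refine (norm_sum_le _ _).trans ?_
  calc ∑ i, ‖(f i : ℂ) * (ZMod.stdAddChar (ξ * c i) : ℂ)‖ ≤ ∑ _i : Fin L, (1 : ℝ) := by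
        apply sum_le_sum; intro i _
        rw [norm_mul, norm_chi, mul_one, Complex.norm_real, Real.norm_eq_abs]
        exact hf i
    _ = L := by simp

/-- the weighted energy -/
theorem moment_le {L : ℕ} {f : Fin L → ℝ} (hf : ∀ i, |f i| ≤ 1) (c : Fin L → ZMod M) (t : ℕ) :
    ∑ ξ, ‖W f c ξ‖ ^ (2 * t) ≤ M * (((univ : Finset ((Fin t → Fin L) × (Fin t → Fin L))).filter
      (fun p => ∑ i, c (p.1 i) = ∑ i, c (p.2 i))).card : ℝ) := by
  classical
  have h1 : ∀ ξ : ZMod M, W f c ξ ^ t = ∑ p : Fin t → Fin L,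
      ((∏ i, f (p i) : ℝ) : ℂ) * (ZMod.stdAddChar (ξ * ∑ i, c (p i)) : ℂ) := by
    intro ξ
    unfold W
    rw [Fintype.sum_pow]
    apply sum_congr rfl; intro p _
    rw [mul_sum, chi_sum, prod_mul_distrib]
    push_cast
    rfl
  have h2 : ∀ ξ : ZMod M, ((‖W f c ξ‖ ^ (2 * t) : ℝ) : ℂ) =
      ∑ p : Fin t → Fin L, ∑ q : Fin t → Fin L,
        (((∏ i, f (p i)) * ∏ i, f (q i) : ℝ) : ℂ) *
        (ZMod.stdAddChar (ξ * (∑ i, c (p i) - ∑ i, c (q i))) : ℂ) := by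
    intro ξ
    have h3 : ((‖W f c ξ‖ ^ (2 * t) : ℝ) : ℂ) = W f c ξ ^ t * (starRingEnd ℂ) (W f c ξ ^ t) := by
      rw [Complex.mul_conj, Complex.normSq_eq_norm_sq, norm_pow]
      push_cast; ring
    rw [h3, h1, map_sum, sum_mul_sum]
    apply sum_congr rfl; intro p _
    apply sum_congr rfl; intro q _
    rw [map_mul (starRingEnd ℂ), chi_conj, Complex.conj_ofReal]
    have h4 : (ZMod.stdAddChar (ξ * (∑ i, c (p i) - ∑ i, c (q i))) : ℂ) =
        ZMod.stdAddChar (ξ * ∑ i, c (p i)) * ZMod.stdAddChar (-(ξ * ∑ i, c (q i))) := by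
      rw [← AddChar.map_add_eq_mul]
      congr 1; ring
    rw [h4]
    push_cast
    ring
  have h4 : ((∑ ξ, ‖W f c ξ‖ ^ (2 * t) : ℝ) : ℂ) =
      ((M * ∑ p : Fin t → Fin L, ∑ q : Fin t → Fin L,
        (if ∑ i, c (p i) = ∑ i, c (q i) then (∏ i, f (p i)) * ∏ i, f (q i) else 0) : ℝ) : ℂ) := by
    rw [Complex.ofReal_sum]
    simp_rw [h2]
    rw [sum_comm]
    push_cast
    rw [mul_sum]
    apply sum_congr rfl; intro p _
    rw [sum_comm, mul_sum]
    apply sum_congr rfl; intro q _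
    rw [← mul_sum, sum_chi]
    simp only [sub_eq_zero]
    split_ifs <;> push_cast <;> ring
  have h5 : ∑ ξ, ‖W f c ξ‖ ^ (2 * t) = M * ∑ p : Fin t → Fin L, ∑ q : Fin t → Fin L,
        (if ∑ i, c (p i) = ∑ i, c (q i) then (∏ i, f (p i)) * ∏ i, f (q i) else 0) := by
    exact_mod_cast h4
  rw [h5]
  apply mul_le_mul_of_nonneg_left _ (Nat.cast_nonneg _)
  rw [card_filter]
  push_cast
  rw [Fintype.sum_prod_type]
  apply sum_le_sum; intro p _
  apply sum_le_sum; intro q _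
  split_ifs
  · refine (le_abs_self _).trans ?_
    rw [abs_mul, abs_prod, abs_prod]
    exact mul_le_one₀ (prod_le_one (fun i _ => abs_nonneg _) fun i _ => hf _)
      (prod_nonneg fun i _ => abs_nonneg _) (prod_le_one (fun i _ => abs_nonneg _) fun i _ => hf _)
  · exact le_rfl

/-- the weighted number of solutions -/
noncomputable def Rw {s L : ℕ} (f : Fin s → Fin L → ℝ) (c : Fin s → Fin L → ℤ) (m : ℤ) : ℝ :=
  ∑ x : Fin s → Fin L, if ∑ i, c i (x i) = m then ∏ i, f i (x i) else 0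

/-- the Fourier formula -/
theorem fourier {s L : ℕ} (f : Fin s → Fin L → ℝ) (c : Fin s → Fin L → ℤ) (m : ℤ)
    (hM : ∀ x : Fin s → Fin L, |∑ i, c i (x i) - m| < M) :
    (M : ℂ) * (Rw f c m : ℝ) = ∑ ξ : ZMod M, (ZMod.stdAddChar (ξ * ((-m : ℤ) : ZMod M)) : ℂ) *
      ∏ i, W (f i) (fun y => ((c i y : ℤ) : ZMod M)) ξ := by
  classical
  have h1 : ∀ ξ : ZMod M, (ZMod.stdAddChar (ξ * ((-m : ℤ) : ZMod M)) : ℂ) *
      ∏ i, W (f i) (fun y => ((c i y : ℤ) : ZMod M)) ξ =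
      ∑ x : Fin s → Fin L, ((∏ i, f i (x i) : ℝ) : ℂ) *
        (ZMod.stdAddChar (ξ * (((∑ i, c i (x i) - m : ℤ)) : ZMod M)) : ℂ) := by
    intro ξ
    unfold W
    rw [Finset.prod_univ_sum, Fintype.piFinset_univ, mul_sum]
    apply sum_congr rfl; intro x _
    rw [prod_mul_distrib]
    have h2 : (((∑ i, c i (x i) - m : ℤ)) : ZMod M) = ((-m : ℤ) : ZMod M) + ∑ i, ((c i (x i) : ℤ) : ZMod M) := by
      push_cast; ring
    rw [h2, mul_add, AddChar.map_add_eq_mul, mul_sum, chi_sum]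
    push_cast
    ring
  rw [sum_congr rfl fun ξ _ => h1 ξ, sum_comm]
  unfold Rw
  rw [Complex.ofReal_sum, mul_sum]
  apply sum_congr rfl; intro x _
  rw [← mul_sum, sum_chi]
  have h3 : (((∑ i, c i (x i) - m : ℤ)) : ZMod M) = 0 ↔ ∑ i, c i (x i) = m := by
    rw [ZMod.intCast_zmod_eq_zero_iff_dvd]
    constructor
    · intro h
      have := Int.eq_zero_of_abs_lt_dvd h (hM x)
      omega
    · intro h
      rw [h, sub_self]
      exact dvd_zero _
  by_cases h4 : ∑ i, c i (x i) = m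
  · rw [if_pos (h3.2 h4), if_pos h4]; push_cast; ring
  · rw [if_neg (fun h => h4 (h3.1 h)), if_neg h4]; simp

theorem prod_diff {ι : Type*} [DecidableEq ι] (S : Finset ι) (G D : ι → ℂ) (H : ι → ℝ)
    (hG : ∀ i, ‖G i‖ ≤ H i) (hD : ∀ i, ‖D i‖ ≤ H i) :
    ‖∏ i ∈ S, G i - ∏ i ∈ S, D i‖ ≤ ∑ j ∈ S, ‖G j - D j‖ * ∏ i ∈ S.erase j, H i := by
  have hH : ∀ i, 0 ≤ H i := fun i => (norm_nonneg _).trans (hG i)
  induction S using Finset.induction_on with
  | empty => simp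
  | insert a S ha ih =>
    rw [prod_insert ha, prod_insert ha, sum_insert ha, erase_insert ha]
    have e : G a * ∏ i ∈ S, G i - D a * ∏ i ∈ S, D i =
        (G a - D a) * ∏ i ∈ S, G i + D a * (∏ i ∈ S, G i - ∏ i ∈ S, D i) := by ring
    rw [e]
    refine (norm_add_le _ _).trans ?_
    apply add_le_add
    · rw [norm_mul]
      apply mul_le_mul_of_nonneg_left _ (norm_nonneg _)
      rw [norm_prod]
      exact prod_le_prod (fun i _ => norm_nonneg _) fun i _ => hG i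
    · rw [norm_mul]
      calc ‖D a‖ * ‖∏ i ∈ S, G i - ∏ i ∈ S, D i‖ ≤ H a * ∑ j ∈ S, ‖G j - D j‖ * ∏ i ∈ S.erase j, H i :=
            mul_le_mul (hD a) ih (norm_nonneg _) (hH a)
        _ = ∑ j ∈ S, ‖G j - D j‖ * ∏ i ∈ (insert a S).erase j, H i := by
            rw [mul_sum]
            apply sum_congr rfl; intro j hj
            have hja : a ≠ j := fun h => ha (h ▸ hj)
            rw [erase_insert_of_ne hja, prod_insert (fun h => ha (mem_of_mem_erase h))]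
            ring

theorem prod_max {ι : Type*} {I : Finset ι} (hI : I.Nonempty) {t : ℕ} (ht : 2 * t ≤ #I) {H : ι → ℝ} {L : ℝ}
    (h0 : ∀ i ∈ I, 0 ≤ H i) (hL : ∀ i ∈ I, H i ≤ L) :
    ∏ i ∈ I, H i ≤ L ^ (#I - 2 * t) * ∑ i ∈ I, H i ^ (2 * t) := by
  obtain ⟨i₀, hi₀, hm⟩ := exists_max_image I H hI
  have hL0 : 0 ≤ L := (h0 i₀ hi₀).trans (hL i₀ hi₀)
  calc ∏ i ∈ I, H i ≤ ∏ _i ∈ I, H i₀ := prod_le_prod h0 hm
    _ = H i₀ ^ (#I - 2 * t) * H i₀ ^ (2 * t) := by rw [prod_const, ← pow_add]; congr 1; omega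
    _ ≤ L ^ (#I - 2 * t) * ∑ i ∈ I, H i ^ (2 * t) := by
        apply mul_le_mul (pow_le_pow_left₀ (h0 i₀ hi₀) (hL i₀ hi₀) _) _ (pow_nonneg (h0 i₀ hi₀) _) (pow_nonneg hL0 _)
        exact single_le_sum (f := fun i => H i ^ (2 * t)) (fun i hi => pow_nonneg (h0 i hi) _) hi₀

/-- comparison of the weighted numbers of solutions -/
theorem compare {s L t : ℕ} (hs : 2 * t + 1 ≤ s) (hs2 : 2 ≤ s) (f g : Fin s → Fin L → ℝ) (hf : ∀ i y, |f i y| ≤ 1)
    (hg : ∀ i y, |g i y| ≤ 1) (c : Fin s → Fin L → ℤ) (m : ℤ)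
    (hM : ∀ x : Fin s → Fin L, |∑ i, c i (x i) - m| < M) {E η : ℝ} (hη : 0 ≤ η)
    (hE : ∀ i, (((univ : Finset ((Fin t → Fin L) × (Fin t → Fin L))).filter
      (fun p => ∑ j, ((c i (p.1 j) : ℤ) : ZMod M) = ∑ j, ((c i (p.2 j) : ℤ) : ZMod M))).card : ℝ) ≤ E)
    (hd : ∀ i, ∀ ξ : ZMod M, ‖W (f i) (fun y => ((c i y : ℤ) : ZMod M)) ξ -
      W (g i) (fun y => ((c i y : ℤ) : ZMod M)) ξ‖ ≤ η * L) :
    |Rw f c m - Rw g c m| ≤ 2 * s ^ 2 * η * E * (L : ℝ) ^ (s - 2 * t) := by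
  classical
  have hM0 : (0 : ℝ) < M := by exact_mod_cast Nat.pos_of_ne_zero (NeZero.ne M)
  have hL0 : (0 : ℝ) ≤ L := Nat.cast_nonneg _
  have hs0 : (0 : ℝ) < s := by exact_mod_cast (by omega : 0 < s)
  have hE0 : 0 ≤ E := (Nat.cast_nonneg _).trans (hE ⟨0, by omega⟩)
  set G : ZMod M → Fin s → ℂ := fun ξ i => W (f i) (fun y => ((c i y : ℤ) : ZMod M)) ξ with hG
  set D : ZMod M → Fin s → ℂ := fun ξ i => W (g i) (fun y => ((c i y : ℤ) : ZMod M)) ξ with hD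
  set H : ZMod M → Fin s → ℝ := fun ξ i => max ‖G ξ i‖ ‖D ξ i‖ with hH
  have hH0 : ∀ ξ i, 0 ≤ H ξ i := fun ξ i => (norm_nonneg _).trans (le_max_left _ _)
  have hHL : ∀ ξ i, H ξ i ≤ L := fun ξ i => max_le (W_norm (hf i) _ _) (W_norm (hg i) _ _)
  have h1 : (M : ℂ) * ((Rw f c m - Rw g c m : ℝ) : ℂ) =
      ∑ ξ : ZMod M, (ZMod.stdAddChar (ξ * ((-m : ℤ) : ZMod M)) : ℂ) * (∏ i, G ξ i - ∏ i, D ξ i) := by
    rw [Complex.ofReal_sub, mul_sub, fourier f c m hM, fourier g c m hM, ← sum_sub_distrib]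
    apply sum_congr rfl; intro ξ _
    simp only [hG, hD]
    rw [mul_sub]
  have h2 : (M : ℝ) * |Rw f c m - Rw g c m| ≤ ∑ ξ : ZMod M, ‖∏ i, G ξ i - ∏ i, D ξ i‖ := by
    have h3 : ‖(M : ℂ) * ((Rw f c m - Rw g c m : ℝ) : ℂ)‖ = (M : ℝ) * |Rw f c m - Rw g c m| := by
      rw [norm_mul, Complex.norm_real, Real.norm_eq_abs, Complex.norm_natCast]
    rw [← h3, h1]
    refine (norm_sum_le _ _).trans (sum_le_sum fun ξ _ => ?_)
    rw [norm_mul, norm_chi, one_mul]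
  have h3 : ∀ ξ : ZMod M, ‖∏ i, G ξ i - ∏ i, D ξ i‖ ≤
      ∑ _j : Fin s, (η * L) * ((L : ℝ) ^ (s - 1 - 2 * t) * ∑ i, (‖G ξ i‖ ^ (2 * t) + ‖D ξ i‖ ^ (2 * t))) := by
    intro ξ
    refine (prod_diff univ (G ξ) (D ξ) (H ξ) (fun i => le_max_left _ _) (fun i => le_max_right _ _)).trans ?_
    apply sum_le_sum; intro j _
    have hcard : #((univ : Finset (Fin s)).erase j) = s - 1 := by
      rw [card_erase_of_mem (mem_univ j), card_univ, Fintype.card_fin]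
    have hne : ((univ : Finset (Fin s)).erase j).Nonempty := by
      rw [← card_pos, hcard]; omega
    have h4 := prod_max hne (t := t) (by rw [hcard]; omega) (H := H ξ) (L := L) (fun i _ => hH0 ξ i) (fun i _ => hHL ξ i)
    rw [hcard] at h4
    apply mul_le_mul (hd j ξ) _ (prod_nonneg fun i _ => hH0 ξ i) (by positivity)
    refine h4.trans ?_
    apply mul_le_mul_of_nonneg_left _ (by positivity)
    refine (sum_le_sum_of_subset_of_nonneg (erase_subset j univ) fun i _ _ => pow_nonneg (hH0 ξ i) _).trans ?_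
    apply sum_le_sum; intro i _
    rcases le_total ‖G ξ i‖ ‖D ξ i‖ with h | h
    · simp only [hH, max_eq_right h]
      have : 0 ≤ ‖G ξ i‖ ^ (2 * t) := by positivity
      linarith
    · simp only [hH, max_eq_left h]
      have : 0 ≤ ‖D ξ i‖ ^ (2 * t) := by positivity
      linarith
  have h4 : ∀ i, ∑ ξ : ZMod M, (‖G ξ i‖ ^ (2 * t) + ‖D ξ i‖ ^ (2 * t)) ≤ 2 * M * E := by
    intro i
    rw [sum_add_distrib]
    have a1 := (moment_le (M := M) (hf i) (fun y => ((c i y : ℤ) : ZMod M)) t).trans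
      (mul_le_mul_of_nonneg_left (hE i) hM0.le)
    have a2 := (moment_le (M := M) (hg i) (fun y => ((c i y : ℤ) : ZMod M)) t).trans
      (mul_le_mul_of_nonneg_left (hE i) hM0.le)
    linarith
  have h5 : ∑ ξ : ZMod M, ‖∏ i, G ξ i - ∏ i, D ξ i‖ ≤
      s * ((η * L) * ((L : ℝ) ^ (s - 1 - 2 * t) * (s * (2 * M * E)))) := by
    refine (sum_le_sum fun ξ _ => h3 ξ).trans ?_
    simp only [sum_const, card_univ, Fintype.card_fin, nsmul_eq_mul]
    rw [← mul_sum, ← mul_sum, ← mul_sum, sum_comm]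
    apply mul_le_mul_of_nonneg_left _ hs0.le
    apply mul_le_mul_of_nonneg_left _ (by positivity)
    apply mul_le_mul_of_nonneg_left _ (by positivity)
    refine (sum_le_sum fun i _ => h4 i).trans ?_
    rw [sum_const, card_univ, Fintype.card_fin, nsmul_eq_mul]
  have h6 : (L : ℝ) * (L : ℝ) ^ (s - 1 - 2 * t) = (L : ℝ) ^ (s - 2 * t) := by
    rw [← pow_succ']; congr 1; omega
  have h7 : (M : ℝ) * |Rw f c m - Rw g c m| ≤ M * (2 * s ^ 2 * η * E * (L : ℝ) ^ (s - 2 * t)) := by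
    refine h2.trans (h5.trans (le_of_eq ?_))
    rw [← h6]; ring
  exact le_of_mul_le_mul_left h7 hM0

end Pool.Agent.U142.WG
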