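import Mathlib
import Pool.Agent.U142.WG1

/-!
# Diagonal equations `∑ a i * P (x i) = m`
-/

set_option autoImplicit false

namespace Pool.Agent.U142.WG

open Finset Polynomial
open Pool.Agent.H373R2.NB (sum_chi norm_chi chi_conj)
open Pool.Agent.Y834.CD (chi_sum en chi_ee poly_energy)
open Pool.Agent.Helper602.MK (ee)

/-- the values of the polynomial -/
def pv (P : ℤ[X]) (a : ℤ) {L : ℕ} (y : Fin L) : ℤ := a * P.eval (((y : ℕ) + 1 : ℕ) : ℤ)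

theorem exists_modulus {s L : ℕ} (t : ℕ) (c : Fin s → Fin L → ℤ) (m : ℤ) : ∃ M : ℕ, 1 ≤ M ∧
    (∀ x : Fin s → Fin L, |∑ i, c i (x i) - m| < M) ∧
    ∀ i, ∀ p q : Fin t → Fin L, |∑ j, c i (p j) - ∑ j, c i (q j)| < M := by
  obtain ⟨B, hB⟩ : ∃ B : ℤ, B = ∑ i, ∑ y, |c i y| := ⟨_, rfl⟩
  have hB0 : 0 ≤ B := by rw [hB]; exact sum_nonneg fun i _ => sum_nonneg fun y _ => abs_nonneg _
  have h1 : ∀ i y, |c i y| ≤ B := by
    intro i y
    rw [hB]
    calc |c i y| ≤ ∑ y, |c i y| := single_le_sum (f := fun y => |c i y|) (fun y _ => abs_nonneg _) (mem_univ y)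
      _ ≤ ∑ i, ∑ y, |c i y| := single_le_sum (f := fun i => ∑ y, |c i y|)
          (fun i _ => sum_nonneg fun y _ => abs_nonneg _) (mem_univ i)
  have h2 : ∀ (r : ℕ) (v : Fin r → ℤ), (∀ j, |v j| ≤ B) → |∑ j, v j| ≤ r * B := by
    intro r v hv
    refine (abs_sum_le_sum_abs _ _).trans ?_
    refine (sum_le_sum fun j _ => hv j).trans ?_
    simp
  refine ⟨((s + 2 * t) * B + |m| + 1).toNat, ?_, ?_, ?_⟩
  · have : 0 ≤ ((s : ℤ) + 2 * t) * B := by positivity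
    have := abs_nonneg m
    omega
  · intro x
    have h3 := h2 s (fun i => c i (x i)) (fun i => h1 i _)
    have h4 := abs_sub (∑ i, c i (x i)) m
    have h5 : 0 ≤ ((s : ℤ) + 2 * t) * B := by positivity
    have h6 := abs_nonneg m
    rw [Int.toNat_of_nonneg (by omega)]
    have h7 : 0 ≤ (2 * t : ℤ) * B := by positivity
    nlinarith
  · intro i p q
    have h3 := h2 t (fun j => c i (p j)) (fun j => h1 i _)
    have h4 := h2 t (fun j => c i (q j)) (fun j => h1 i _)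
    have h4' := abs_sub (∑ j, c i (p j)) (∑ j, c i (q j))
    have h5 : 0 ≤ ((s : ℤ) + 2 * t) * B := by positivity
    have h6 := abs_nonneg m
    rw [Int.toNat_of_nonneg (by omega)]
    have h7 : 0 ≤ (s : ℤ) * B := by positivity
    nlinarith

theorem energy_le {s L t M : ℕ} (P : ℤ[X]) (a : Fin s → ℤ) (ha : ∀ i, a i ≠ 0) (i : Fin s)
    (hM : ∀ p q : Fin t → Fin L, |∑ j, pv P (a i) (p j) - ∑ j, pv P (a i) (q j)| < M) :
    (((univ : Finset ((Fin t → Fin L) × (Fin t → Fin L))).filter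
      (fun p => ∑ j, ((pv P (a i) (p.1 j) : ℤ) : ZMod M) = ∑ j, ((pv P (a i) (p.2 j) : ℤ) : ZMod M))).card : ℝ) ≤
    (en t (fun y : Fin L => P.eval (((y : ℕ) + 1 : ℕ) : ℤ)) : ℝ) := by
  classical
  unfold en
  rw [Nat.cast_le]
  apply card_le_card
  intro p hp
  rw [mem_filter] at hp ⊢
  refine ⟨mem_univ _, ?_⟩
  have h1 : (((∑ j, pv P (a i) (p.1 j) - ∑ j, pv P (a i) (p.2 j) : ℤ)) : ZMod M) = 0 := by
    push_cast
    rw [hp.2, sub_self]
  rw [ZMod.intCast_zmod_eq_zero_iff_dvd] at h1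
  have h2 := Int.eq_zero_of_abs_lt_dvd h1 (hM p.1 p.2)
  unfold pv at h2
  rw [← mul_sum, ← mul_sum, ← mul_sub] at h2
  have h3 := (mul_eq_zero.1 h2).resolve_left (ha i)
  linarith

/-- comparison for diagonal equations -/
theorem diag (P : ℤ[X]) (hP : 1 ≤ P.natDegree) : ∃ s₀ : ℕ, ∀ s : ℕ, s₀ ≤ s → ∃ C : ℝ, 0 < C ∧
    ∀ (a : Fin s → ℤ), (∀ i, a i ≠ 0) → ∀ L : ℕ, 1 ≤ L → ∀ η : ℝ, 0 ≤ η →
    ∀ f g : Fin s → Fin L → ℝ, (∀ i y, |f i y| ≤ 1) → (∀ i y, |g i y| ≤ 1) →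
    (∀ i, ∀ α : ℝ, ‖∑ y : Fin L, ((f i y - g i y : ℝ) : ℂ) *
      ee (α * ((P.eval (((y : ℕ) + 1 : ℕ) : ℤ) : ℤ) : ℝ))‖ ≤ η * L) →
    ∀ m : ℤ, |Rw f (fun i y => pv P (a i) y) m - Rw g (fun i y => pv P (a i) y) m| * (L : ℝ) ^ P.natDegree ≤
      C * η * (L : ℝ) ^ s := by
  obtain ⟨t, C₀, hC₀, hen⟩ := poly_energy P hP 1 le_rfl
  refine ⟨2 * t + 2, fun s hs => ⟨2 * s ^ 2 * C₀, ?_, ?_⟩⟩
  · have : (0 : ℝ) < s := by exact_mod_cast (by omega : 0 < s)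
    positivity
  intro a ha L hL η hη f g hf hg hd m
  obtain ⟨M, hM1, hM, hMt⟩ := exists_modulus t (fun i (y : Fin L) => pv P (a i) y) m
  have : NeZero M := ⟨by omega⟩
  have hM0 : (0 : ℝ) < M := by exact_mod_cast hM1
  have hL0 : (0 : ℝ) < L := by exact_mod_cast hL
  have h1 := compare (M := M) (t := t) (by omega) (by omega) f g hf hg (fun i y => pv P (a i) y) m hM hη
    (fun i => energy_le P a ha i (hMt i)) (by
      intro i ξ
      have h2 := hd i (((ξ.val : ℕ) : ℝ) * a i / M)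
      refine le_trans (le_of_eq ?_) h2
      unfold W
      rw [← sum_sub_distrib]
      congr 1
      apply sum_congr rfl; intro y _
      rw [chi_ee, Complex.ofReal_sub, sub_mul]
      have e : ((ξ.val : ℕ) : ℝ) * ((pv P (a i) y : ℤ) : ℝ) / M =
          ((ξ.val : ℕ) : ℝ) * a i / M * ((P.eval (((y : ℕ) + 1 : ℕ) : ℤ) : ℤ) : ℝ) := by
        unfold pv; push_cast; ring
      rw [e])
  have h3 := hen t le_rfl L (L ^ P.natDegree) hL (Nat.one_le_pow _ _ (by omega)) (by omega)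
  calc |Rw f (fun i y => pv P (a i) y) m - Rw g (fun i y => pv P (a i) y) m| * (L : ℝ) ^ P.natDegree
      ≤ (2 * s ^ 2 * η * (en t (fun y : Fin L => P.eval (((y : ℕ) + 1 : ℕ) : ℤ)) : ℝ) * (L : ℝ) ^ (s - 2 * t)) *
        (L : ℝ) ^ P.natDegree := mul_le_mul_of_nonneg_right h1 (by positivity)
    _ = 2 * s ^ 2 * η * (L : ℝ) ^ (s - 2 * t) * ((en t (fun y : Fin L => P.eval (((y : ℕ) + 1 : ℕ) : ℤ)) : ℝ) *
        ((L ^ P.natDegree : ℕ) : ℝ)) := by push_cast; ring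
    _ ≤ 2 * s ^ 2 * η * (L : ℝ) ^ (s - 2 * t) * (C₀ * (L : ℝ) ^ (2 * t)) :=
        mul_le_mul_of_nonneg_left h3 (by positivity)
    _ = 2 * s ^ 2 * C₀ * η * ((L : ℝ) ^ (s - 2 * t) * (L : ℝ) ^ (2 * t)) := by ring
    _ = _ := by rw [← pow_add, show s - 2 * t + 2 * t = s by omega]

end Pool.Agent.U142.WG
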