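import Mathlib
import Pool.Agent.U142.WG2
import Pool.Agent.U142.BDH4
import Pool.Agent.W36.GV.GV5
import Pool.Agent.W36.GK.K21

/-!
# Diagonal equations in variables from invariant sets
-/

set_option autoImplicit false

namespace Pool.Agent.U142.WG

open Finset Polynomial
open Pool.Agent.H499R2.ND Pool.Agent.H499R2.CO Pool.Agent.W41
open Pool.Agent.W41.FU hiding ee
open Pool.Agent.W36.GU (Bal Bal_hyp)
open Pool.Agent.W36.GK (GN_all)
open Pool.Agent.W36.GV (ex poly_orth)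
open Pool.Agent.Helper602.MK (ee)

/-- number of the solutions of `∑ a i * P (x i) = m` with `1 ≤ x i ≤ l i` and `x i` in `T i` -/
noncomputable def sol (P : ℤ[X]) {s : ℕ} (a : Fin s → ℤ) (l : Fin s → ℕ) (T : Fin s → Set ℕ) (m : ℤ) : ℕ :=
  {x : Fin s → ℕ | (∀ i, 1 ≤ x i ∧ x i ≤ l i ∧ x i ∈ T i) ∧ ∑ i, a i * P.eval ((x i : ℕ) : ℤ) = m}.ncard

open Classical in
/-- indicator function, with the argument shifted by `1` -/
noncomputable def Ix (l : ℕ) (T : Set ℕ) (y : ℕ) : ℝ := if y + 1 ≤ l ∧ y + 1 ∈ T then 1 else 0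

theorem Ix_abs (l : ℕ) (T : Set ℕ) (y : ℕ) : |Ix l T y| ≤ 1 := by unfold Ix; split_ifs <;> simp

open Classical in
theorem sol_eq (P : ℤ[X]) {s : ℕ} (a : Fin s → ℤ) {L : ℕ} (l : Fin s → ℕ) (hl : ∀ i, l i ≤ L) (T : Fin s → Set ℕ)
    (m : ℤ) : (sol P a l T m : ℝ) =
      Rw (fun i (y : Fin L) => Ix (l i) (T i) y) (fun i y => pv P (a i) y) m := by
  have h1 : {x : Fin s → ℕ | (∀ i, 1 ≤ x i ∧ x i ≤ l i ∧ x i ∈ T i) ∧ ∑ i, a i * P.eval ((x i : ℕ) : ℤ) = m} =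
      (((univ : Finset (Fin s → Fin L)).filter (fun x => ∑ i, pv P (a i) (x i) = m ∧
        ∀ i, ((x i : ℕ) + 1 ≤ l i ∧ (x i : ℕ) + 1 ∈ T i))).image (fun x i => (x i : ℕ) + 1) : Finset (Fin s → ℕ)) := by
    ext x
    simp only [Set.mem_setOf_eq, coe_image, coe_filter, mem_univ, true_and, Set.mem_image]
    constructor
    · rintro ⟨h1, h2⟩
      refine ⟨fun i => ⟨x i - 1, by have := h1 i; have := hl i; omega⟩, ⟨?_, ?_⟩, ?_⟩
      · rw [← h2]
        apply sum_congr rfl; intro i _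
        unfold pv
        have := h1 i
        simp only
        rw [show x i - 1 + 1 = x i by omega]
      · intro i
        have := h1 i
        simp only
        rw [show x i - 1 + 1 = x i by omega]
        exact ⟨this.2.1, this.2.2⟩
      · funext i
        have := h1 i
        simp only
        omega
    · rintro ⟨y, ⟨h1, h2⟩, rfl⟩
      refine ⟨fun i => ⟨Nat.le_add_left 1 _, (h2 i).1, (h2 i).2⟩, ?_⟩
      rw [← h1]
      apply sum_congr rfl; intro i _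
      rfl
  unfold sol
  rw [h1, Set.ncard_coe_finset, card_image_of_injective]
  · unfold Rw
    rw [card_filter]
    push_cast
    apply sum_congr rfl; intro x _
    by_cases h2 : ∑ i, pv P (a i) (x i) = m
    · rw [if_pos h2]
      by_cases h3 : ∀ i, ((x i : ℕ) + 1 ≤ l i ∧ (x i : ℕ) + 1 ∈ T i)
      · rw [if_pos ⟨h2, h3⟩, prod_eq_one (fun i _ => by unfold Ix; exact if_pos (h3 i))]
      · rw [if_neg (fun h => h3 h.2)]
        push Not at h3
        obtain ⟨i, hi⟩ := h3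
        rw [prod_eq_zero (mem_univ i)]
        unfold Ix
        rw [if_neg]
        rintro ⟨b1, b2⟩
        exact hi b1 b2
    · rw [if_neg h2, if_neg (fun h => h2 h.1)]
  · intro x y hxy
    funext i
    have := congrFun hxy i
    simp only at this
    ext
    omega

theorem Rw_smul {s L : ℕ} (δ : Fin s → ℝ) (h : Fin s → Fin L → ℝ) (c : Fin s → Fin L → ℤ) (m : ℤ) :
    Rw (fun i y => δ i * h i y) c m = (∏ i, δ i) * Rw h c m := by
  unfold Rw
  rw [mul_sum]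
  apply sum_congr rfl; intro x _
  split_ifs
  · rw [prod_mul_distrib]
  · rw [mul_zero]

open Classical in
/-- the exponential sums of the balanced functions at the values of a polynomial -/
theorem orth {P : ℤ[X]} {η : ℝ} (hη : 0 < η) : ∃ X0 : ℕ, ∀ X : ℕ, X0 ≤ X → ∀ s : ℤ, (s = 1 ∨ s = -1) →
    ∀ S : Set ℤ, Inv 1 S → ∀ δ : ℝ, HD s S δ → ∀ l : ℕ, l ≤ X → ∀ α : ℝ,
    ‖∑ y : Fin X, ((Ix l {n : ℕ | s * (n : ℤ) ∈ S} y - δ * Ix l Set.univ y : ℝ) : ℂ) *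
      ee (α * ((P.eval (((y : ℕ) + 1 : ℕ) : ℤ) : ℤ) : ℝ))‖ ≤ η * X := by
  obtain ⟨X1, h1⟩ := poly_orth (k := P.natDegree) (s := 1) (GN_all (Bal_hyp (Or.inl rfl)) P.natDegree) (Or.inl rfl) hη
  obtain ⟨X2, h2⟩ := poly_orth (k := P.natDegree) (s := -1) (GN_all (Bal_hyp (Or.inr rfl)) P.natDegree) (Or.inr rfl) hη
  refine ⟨X1 + X2, fun X hX s hs S hS δ hδ l hl α => ?_⟩
  have hb : bal s S δ ∈ Bal s := ⟨S, hS, δ, hδ, rfl⟩
  set Q : ℝ[X] := C α * P.map (Int.castRingHom ℝ) with hQ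
  have hQd : Q.natDegree ≤ P.natDegree := by
    rw [hQ]
    exact (natDegree_C_mul_le _ _).trans natDegree_map_le
  have h3 : ‖∑ n ∈ Ioc 0 l, (bal s S δ (n : ℕ) : ℂ) * ex (Q.eval (n : ℝ))‖ ≤ η * X := by
    rcases hs with rfl | rfl
    · exact h1 X (by omega) _ hb 0 l (Nat.zero_le _) hl Q hQd
    · exact h2 X (by omega) _ hb 0 l (Nat.zero_le _) hl Q hQd
  refine le_trans (le_of_eq ?_) h3
  congr 1
  have e1 : ∀ n : ℕ, ee (α * ((P.eval ((n : ℕ) : ℤ) : ℤ) : ℝ)) = ex (Q.eval (n : ℝ)) := by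
    intro n
    have : Q.eval (n : ℝ) = α * ((P.eval ((n : ℕ) : ℤ) : ℤ) : ℝ) := by
      rw [hQ, eval_mul, eval_C]
      congr 1
      have := Polynomial.eval_intCast_map (Int.castRingHom ℝ) P (n : ℤ)
      simpa using this
    rw [this]
    rfl
  rw [Fin.sum_univ_eq_sum_range (fun y : ℕ => ((Ix l {n : ℕ | s * (n : ℤ) ∈ S} y - δ * Ix l Set.univ y : ℝ) : ℂ) *
      ee (α * ((P.eval ((y + 1 : ℕ) : ℤ) : ℤ) : ℝ))) X]
  have e2 : Ioc 0 l = (range l).image (fun y => y + 1) := by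
    ext n
    rw [mem_Ioc, mem_image]
    constructor
    · intro h
      exact ⟨n - 1, by rw [mem_range]; omega, by omega⟩
    · rintro ⟨y, hy, rfl⟩
      rw [mem_range] at hy
      omega
  rw [e2, sum_image (by intro a _ b _ hab; simpa using hab)]
  symm
  apply sum_subset_zero_on_sdiff (range_subset_range.2 hl)
  · intro y hy
    rw [mem_sdiff, mem_range, mem_range] at hy
    unfold Ix
    rw [if_neg (by omega), if_neg (by omega)]
    simp
  · intro y hy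
    rw [mem_range] at hy
    rw [e1]
    congr 2
    unfold bal ind Ix
    have a1 : (y + 1 ≤ l ∧ y + 1 ∈ (Set.univ : Set ℕ)) := ⟨by omega, Set.mem_univ _⟩
    rw [if_pos a1]
    have a2 : (y + 1 ≤ l ∧ y + 1 ∈ {n : ℕ | s * (n : ℤ) ∈ S}) ↔ s * ((y + 1 : ℕ) : ℤ) ∈ S := by
      constructor
      · rintro ⟨_, h⟩; exact h
      · intro h; exact ⟨by omega, h⟩
    by_cases h : s * ((y + 1 : ℕ) : ℤ) ∈ S
    · rw [if_pos (a2.2 h), if_pos h, mul_one]
    · rw [if_neg (fun h' => h (a2.1 h')), if_neg h, mul_one]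

/-- Diagonal equations in variables from invariant sets. -/
theorem inv_diag (P : ℤ[X]) (hP : 1 ≤ P.natDegree) : ∃ s₀ : ℕ, ∀ s : ℕ, s₀ ≤ s → ∀ ε : ℝ, 0 < ε →
    ∃ L₀ : ℕ, ∀ L : ℕ, L₀ ≤ L → ∀ l : Fin s → ℕ, (∀ i, l i ≤ L) →
    ∀ σ : Fin s → ℤ, (∀ i, σ i = 1 ∨ σ i = -1) → ∀ S : Fin s → Set ℤ, (∀ i, Inv 1 (S i)) →
    ∀ δ : Fin s → ℝ, (∀ i, HD (σ i) (S i) (δ i)) → ∀ a : Fin s → ℤ, (∀ i, a i ≠ 0) → ∀ m : ℤ,
    |(sol P a l (fun i => {n | σ i * (n : ℤ) ∈ S i}) m : ℝ) - (∏ i, δ i) * sol P a l (fun _ => Set.univ) m| *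
      (L : ℝ) ^ P.natDegree ≤ ε * (L : ℝ) ^ s := by
  classical
  obtain ⟨s₀, H⟩ := diag P hP
  refine ⟨s₀, fun s hs ε hε => ?_⟩
  obtain ⟨C, hC, H⟩ := H s hs
  obtain ⟨X0, hX0⟩ := orth (P := P) (η := ε / C) (by positivity)
  refine ⟨X0 + 1, fun L hL l hl σ hσ S hS δ hδ a ha m => ?_⟩
  have h1 := H a ha L (by omega) (ε / C) (by positivity)
    (fun i (y : Fin L) => Ix (l i) {n : ℕ | σ i * (n : ℤ) ∈ S i} y)
    (fun i (y : Fin L) => δ i * Ix (l i) Set.univ y)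
    (fun i y => Ix_abs _ _ _)
    (by
      intro i y
      obtain ⟨d0, d1⟩ := HD_mem (hσ i) (hδ i)
      rw [abs_mul, abs_of_nonneg d0]
      exact mul_le_one₀ d1 (abs_nonneg _) (Ix_abs _ _ _))
    (fun i α => hX0 L (by omega) (σ i) (hσ i) (S i) (hS i) (δ i) (hδ i) (l i) (hl i) α) m
  rw [Rw_smul, ← sol_eq P a l hl (fun i => {n : ℕ | σ i * (n : ℤ) ∈ S i}), ← sol_eq P a l hl (fun _ => Set.univ),
    mul_div_cancel₀ _ hC.ne'] at h1
  exact h1

end Pool.Agent.U142.WG
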