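import Mathlib
import Pool.Agent.U142.WG2

/-!
# The number of representations as a sum of `k`-th powers changes slowly along a progression
-/

set_option autoImplicit false

namespace Pool.Agent.U142.WG

open Finset Polynomial
open Pool.Agent.H373R2.NB (sum_chi norm_chi chi_conj IW_all Ph_poly Ph_succ Ph)
open Pool.Agent.Y834.CD (chi_sum en chi_ee poly_energy)
open Pool.Agent.Helper602.MK (ee)

/-- the number of `x` in `[1, L] ^ s` with `∑ x i ^ k = n` -/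
noncomputable def R (k s L : ℕ) (n : ℤ) : ℝ :=
  Rw (fun (_ : Fin s) (_ : Fin L) => (1 : ℝ)) (fun _ y => pv (X ^ k) 1 y) n

theorem pv_pow (k : ℕ) {L : ℕ} (y : Fin L) : pv (X ^ k) 1 y = (((y : ℕ) + 1 : ℕ) : ℤ) ^ k := by
  unfold pv; simp

theorem exists_modulus' {s L : ℕ} (t B' : ℕ) (c : Fin s → Fin L → ℤ) : ∃ M : ℕ, 1 ≤ M ∧
    (∀ x : Fin s → Fin L, ∀ m : ℤ, |m| ≤ B' → |∑ i, c i (x i) - m| < M) ∧
    ∀ i, ∀ p q : Fin t → Fin L, |∑ j, c i (p j) - ∑ j, c i (q j)| < M := by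
  obtain ⟨M, h1, h2, h3⟩ := exists_modulus t c 0
  refine ⟨M + B', by omega, ?_, ?_⟩
  · intro x m hm
    have h4 := h2 x
    rw [sub_zero] at h4
    have h5 := abs_sub (∑ i, c i (x i)) m
    push_cast
    linarith
  · intro i p q
    have := h3 i p q
    push_cast
    have h0 : (0 : ℤ) ≤ B' := by positivity
    linarith

theorem ee_sub_one (θ : ℝ) : ‖1 - ee θ‖ ≤ 2 * Real.pi * |θ| := by
  unfold ee
  have h1 := Real.norm_exp_I_mul_ofReal_sub_one_le (x := 2 * Real.pi * θ)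
  have h2 : Complex.exp (2 * Real.pi * θ * Complex.I) = Complex.exp (Complex.I * ((2 * Real.pi * θ : ℝ) : ℂ)) := by
    congr 1; push_cast; ring
  rw [h2, norm_sub_rev]
  refine h1.trans (le_of_eq ?_)
  rw [Real.norm_eq_abs, abs_mul, abs_of_pos (by positivity : (0:ℝ) < 2 * Real.pi)]

theorem ee_int_shift (θ : ℝ) (a : ℤ) : ee (θ - a) = ee θ := by
  have h : ee θ = ee ((θ - a) + a) := by congr 1; ring
  rw [h, Pool.Agent.Helper602.MK.N_J5b.ee_add, Pool.Agent.Helper602.MK.N_J5b.ee_int, mul_one]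

theorem smooth (k : ℕ) (hk : 1 ≤ k) : ∃ t D : ℕ, 2 ≤ D ∧ ∃ C T : ℝ, 0 < C ∧ 0 < T ∧ ∀ s : ℕ, 2 * t + 1 ≤ s →
    ∀ L J : ℕ, 1 ≤ L → 1 ≤ J → ∀ n : ℕ,
    |R k s L n - (∑ j ∈ range J, R k s L ((n + j * D : ℕ) : ℤ)) / J| * (L : ℝ) ^ k ≤
      C * (2 ^ (2 * t + 1) / 2 ^ s + T * J / (L : ℝ) ^ k) * (L : ℝ) ^ s := by
  classical
  obtain ⟨t, C₀, hC₀, hen⟩ := poly_energy (X ^ k) (by simpa using hk) 1 le_rfl
  obtain ⟨c, m, hc, hI⟩ := IW_all k hk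
  set Q₀ : ℕ := c * 2 ^ m with hQ₀
  set D : ℕ := 2 * (k.factorial * Q₀.factorial) with hD
  have hD2 : 2 ≤ D := by
    have := Nat.mul_pos k.factorial_pos Q₀.factorial_pos
    omega
  set T : ℝ := 2 * Real.pi * D * Q₀ with hT
  have hQ1 : 1 ≤ Q₀ := Nat.mul_pos hc (by positivity)
  have hQr : (0 : ℝ) < Q₀ := by exact_mod_cast hQ1
  have hDr : (0 : ℝ) < D := by exact_mod_cast (by omega : 0 < D)
  have hT0 : 0 < T := by have := Real.pi_pos; positivity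
  refine ⟨t, D, hD2, C₀, T, hC₀, hT0, fun s hs L J hL hJ n => ?_⟩
  have hL0 : (0 : ℝ) < L := by exact_mod_cast hL
  have hJ0 : (0 : ℝ) < J := by exact_mod_cast hJ
  obtain ⟨M, hM1, hM, hMt⟩ := exists_modulus' t (n + J * D) (fun (_ : Fin s) (y : Fin L) => pv (X ^ k) 1 y)
  have : NeZero M := ⟨by omega⟩
  have hM0 : (0 : ℝ) < M := by exact_mod_cast hM1
  obtain ⟨S, hSd⟩ : ∃ S : ZMod M → ℂ, S = fun ξ => W (fun _ : Fin L => (1 : ℝ)) (fun y => ((pv (X ^ k) 1 y : ℤ) : ZMod M)) ξ := ⟨_, rfl⟩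
  have hSn : ∀ ξ, ‖S ξ‖ ≤ L := fun ξ => by rw [hSd]; exact W_norm (by intro i; simp) _ _
  have hSee : ∀ ξ : ZMod M, S ξ = ∑ y ∈ range L, ee (((ξ.val : ℝ) / M) * (((y + 1 : ℕ) : ℝ) ^ k)) := by
    intro ξ
    rw [hSd]
    unfold W
    rw [← Fin.sum_univ_eq_sum_range (fun y => ee (((ξ.val : ℝ) / M) * (((y + 1 : ℕ) : ℝ) ^ k))) L]
    apply sum_congr rfl; intro y _
    rw [chi_ee, pv_pow, Complex.ofReal_one, one_mul]
    congr 1
    push_cast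
    ring
  have hF : ∀ m : ℤ, |m| ≤ (n + J * D : ℕ) → (M : ℂ) * ((R k s L m : ℝ) : ℂ) =
      ∑ ξ : ZMod M, (ZMod.stdAddChar (ξ * ((-m : ℤ) : ZMod M)) : ℂ) * S ξ ^ s := by
    intro m hm
    unfold R
    rw [fourier _ _ m (fun x => hM x m hm)]
    apply sum_congr rfl; intro ξ _
    rw [hSd, prod_const, card_univ, Fintype.card_fin]
  have hJD : ∀ j ∈ range J, |((n + j * D : ℕ) : ℤ)| ≤ (n + J * D : ℕ) := by
    intro j hj
    rw [mem_range] at hj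
    rw [abs_of_nonneg (by positivity)]
    have : n + j * D ≤ n + J * D := by nlinarith
    exact_mod_cast this
  have hn0 : |((n : ℕ) : ℤ)| ≤ (n + J * D : ℕ) := by
    rw [abs_of_nonneg (by positivity)]
    exact_mod_cast Nat.le_add_right _ _
  -- the kernel
  obtain ⟨Kn, hKn⟩ : ∃ Kn : ZMod M → ℂ, Kn = fun ξ => 1 - (∑ j ∈ range J, (ZMod.stdAddChar (ξ * ((-(j * D : ℕ) : ℤ) : ZMod M)) : ℂ)) / J := ⟨_, rfl⟩
  have hdiff : (M : ℂ) * ((R k s L n - (∑ j ∈ range J, R k s L ((n + j * D : ℕ) : ℤ)) / J : ℝ) : ℂ) =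
      ∑ ξ : ZMod M, (ZMod.stdAddChar (ξ * ((-(n : ℤ) : ℤ) : ZMod M)) : ℂ) * S ξ ^ s * Kn ξ := by
    rw [Complex.ofReal_sub, mul_sub, hF _ hn0, Complex.ofReal_div, Complex.ofReal_sum, mul_div_assoc', mul_sum,
      sum_congr rfl fun j hj => hF _ (hJD j hj), sum_comm, Complex.ofReal_natCast, sum_div, ← sum_sub_distrib]
    apply sum_congr rfl; intro ξ _
    rw [hKn]
    have h1 : ∀ j ∈ range J, (ZMod.stdAddChar (ξ * ((-(((n + j * D : ℕ) : ℤ)) : ℤ) : ZMod M)) : ℂ) * S ξ ^ s =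
        (ZMod.stdAddChar (ξ * ((-(n : ℤ) : ℤ) : ZMod M)) : ℂ) * S ξ ^ s *
          (ZMod.stdAddChar (ξ * ((-(j * D : ℕ) : ℤ) : ZMod M)) : ℂ) := by
      intro j _
      have e : ξ * ((-(((n + j * D : ℕ) : ℤ)) : ℤ) : ZMod M) =
          ξ * ((-(n : ℤ) : ℤ) : ZMod M) + ξ * ((-(j * D : ℕ) : ℤ) : ZMod M) := by
        push_cast; ring
      rw [e, AddChar.map_add_eq_mul]
      ring
    rw [sum_congr rfl h1, ← mul_sum]
    ring
  have hK2 : ∀ ξ, ‖Kn ξ‖ ≤ 2 := by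
    intro ξ
    rw [hKn]
    refine (norm_sub_le _ _).trans ?_
    rw [norm_one, norm_div, Complex.norm_natCast]
    have h1 : ‖∑ j ∈ range J, (ZMod.stdAddChar (ξ * ((-(j * D : ℕ) : ℤ) : ZMod M)) : ℂ)‖ ≤ J := by
      refine (norm_sum_le _ _).trans ?_
      rw [sum_congr rfl fun j _ => norm_chi _]
      simp
    have h2 := div_le_one_of_le₀ h1 hJ0.le
    linarith
  have hKL : ∀ ξ, (L : ℝ) / 2 ≤ ‖S ξ‖ → ‖Kn ξ‖ ≤ T * J / (L : ℝ) ^ k := by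
    intro ξ hξ
    obtain ⟨γ, hγ⟩ : ∃ γ : ℝ, γ = (ξ.val : ℝ) / M := ⟨_, rfl⟩
    have hph := Ph_succ _ _ _ (Ph_poly k (X ^ k) (by simp) γ)
    have h1 := hI L 2 _ _ hL (by norm_num) hph (by
      rw [hSee, ← hγ] at hξ
      have e : ∑ y ∈ range L, ee ((fun n : ℕ => (fun n : ℕ => γ * (((X ^ k : ℤ[X]).eval (n : ℤ) : ℤ) : ℝ)) (n + 1)) y) =
          ∑ y ∈ range L, ee (γ * (((y + 1 : ℕ) : ℝ) ^ k)) := by
        apply sum_congr rfl; intro y _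
        simp
      rw [e]
      linarith)
    obtain ⟨q, hq1, hq, a, ha⟩ := h1
    have hqQ : q ≤ Q₀ := by
      have : (q : ℝ) ≤ Q₀ := by rw [hQ₀]; push_cast; exact hq
      exact_mod_cast this
    obtain ⟨e, he⟩ : q ∣ Q₀.factorial := Nat.dvd_factorial hq1 hqQ
    have hDe : (D : ℝ) = 2 * e * (q * k.factorial) := by
      rw [hD, he]; push_cast; ring
    have h2 : |(D : ℝ) * γ - ((2 * e * a : ℤ) : ℝ)| ≤ D * (Q₀ / (L : ℝ) ^ k) := by
      have h3 : (D : ℝ) * γ - ((2 * e * a : ℤ) : ℝ) = 2 * e * (q * (γ * ((k.factorial : ℝ) * ((X ^ k : ℤ[X]).coeff k : ℤ))) - a) := by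
        rw [hDe, coeff_X_pow, if_pos rfl]; push_cast; ring
      rw [h3, abs_mul, abs_of_nonneg (by positivity)]
      have h4 : (2 * e : ℝ) ≤ D := by
        rw [hDe]
        have h5 : (1 : ℝ) ≤ q * k.factorial := by
          exact_mod_cast Nat.mul_pos hq1 k.factorial_pos
        have h6 : (0 : ℝ) ≤ 2 * e := by positivity
        nlinarith
      apply mul_le_mul h4 _ (abs_nonneg _) hDr.le
      refine ha.trans (le_of_eq ?_)
      rw [hQ₀]; push_cast; ring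
    have h3 : ∀ j ∈ range J, ‖1 - (ZMod.stdAddChar (ξ * ((-(j * D : ℕ) : ℤ) : ZMod M)) : ℂ)‖ ≤ T * J / (L : ℝ) ^ k := by
      intro j hj
      rw [mem_range] at hj
      have e1 : (ZMod.stdAddChar (ξ * ((-(j * D : ℕ) : ℤ) : ZMod M)) : ℂ) =
          ee (-(j : ℝ) * ((D : ℝ) * γ - ((2 * e * a : ℤ) : ℝ))) := by
        rw [chi_ee]
        have e2 : -(j : ℝ) * ((D : ℝ) * γ - ((2 * e * a : ℤ) : ℝ)) = -(j : ℝ) * (D * γ) - ((-(j : ℤ) * (2 * e * a) : ℤ) : ℝ) := by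
          push_cast; ring
        rw [e2, ee_int_shift]
        congr 1
        rw [hγ]; push_cast; ring
      rw [e1]
      refine (ee_sub_one _).trans ?_
      rw [abs_mul, abs_neg, Nat.abs_cast]
      have hj' : (j : ℝ) ≤ J := by exact_mod_cast hj.le
      calc 2 * Real.pi * ((j : ℝ) * |(D : ℝ) * γ - ((2 * e * a : ℤ) : ℝ)|) ≤
          2 * Real.pi * ((J : ℝ) * (D * (Q₀ / (L : ℝ) ^ k))) := by
            apply mul_le_mul_of_nonneg_left _ (by positivity)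
            exact mul_le_mul hj' h2 (abs_nonneg _) hJ0.le
        _ = _ := by rw [hT]; ring
    have h4 : Kn ξ = (∑ j ∈ range J, (1 - (ZMod.stdAddChar (ξ * ((-(j * D : ℕ) : ℤ) : ZMod M)) : ℂ))) / J := by
      rw [hKn, sum_sub_distrib]
      simp only [sum_const, card_range, nsmul_eq_mul, mul_one]
      have : (J : ℂ) ≠ 0 := by exact_mod_cast (by omega : J ≠ 0)
      field_simp
    rw [h4, norm_div, Complex.norm_natCast, div_le_iff₀ hJ0]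
    refine (norm_sum_le _ _).trans ((sum_le_sum h3).trans (le_of_eq ?_))
    rw [sum_const, card_range, nsmul_eq_mul]; ring
  -- conclusion
  have hpt : ∀ ξ, ‖S ξ‖ ^ s * ‖Kn ξ‖ ≤ ‖S ξ‖ ^ (2 * t) * ((L : ℝ) ^ (s - 2 * t) * (2 ^ (2 * t + 1) / 2 ^ s + T * J / (L : ℝ) ^ k)) := by
    intro ξ
    have e0 : ‖S ξ‖ ^ s = ‖S ξ‖ ^ (2 * t) * ‖S ξ‖ ^ (s - 2 * t) := by rw [← pow_add]; congr 1; omega
    rw [e0, mul_assoc]
    apply mul_le_mul_of_nonneg_left _ (by positivity)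
    have b1 : 0 ≤ (L : ℝ) ^ (s - 2 * t) * (2 ^ (2 * t + 1) / 2 ^ s) := by positivity
    have b2 : 0 ≤ (L : ℝ) ^ (s - 2 * t) * (T * J / (L : ℝ) ^ k) := by positivity
    rcases le_or_gt ((L : ℝ) / 2) ‖S ξ‖ with h | h
    · calc ‖S ξ‖ ^ (s - 2 * t) * ‖Kn ξ‖ ≤ (L : ℝ) ^ (s - 2 * t) * (T * J / (L : ℝ) ^ k) :=
            mul_le_mul (pow_le_pow_left₀ (norm_nonneg _) (hSn ξ) _) (hKL ξ h) (norm_nonneg _) (by positivity)
        _ ≤ _ := by rw [mul_add]; linarith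
    · calc ‖S ξ‖ ^ (s - 2 * t) * ‖Kn ξ‖ ≤ ((L : ℝ) / 2) ^ (s - 2 * t) * 2 :=
            mul_le_mul (pow_le_pow_left₀ (norm_nonneg _) h.le _) (hK2 ξ) (norm_nonneg _) (by positivity)
        _ = (L : ℝ) ^ (s - 2 * t) * (2 ^ (2 * t + 1) / 2 ^ s) := by
            rw [div_pow]
            have : (2 : ℝ) ^ s = 2 ^ (s - 2 * t) * 2 ^ (2 * t) := by rw [← pow_add]; congr 1; omega
            rw [this, pow_succ]
            field_simp
        _ ≤ _ := by rw [mul_add]; linarith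
  have hmom := moment_le (M := M) (f := fun _ : Fin L => (1 : ℝ)) (by intro i; simp)
    (fun y => ((pv (X ^ k) 1 y : ℤ) : ZMod M)) t
  have hen2 := energy_le (s := s) (L := L) (t := t) (M := M) (X ^ k) (fun _ => 1) (fun _ => one_ne_zero) ⟨0, by omega⟩
    (fun p q => hMt ⟨0, by omega⟩ p q)
  have hen3 := hen t le_rfl L (L ^ k) hL (Nat.one_le_pow _ _ (by omega)) (by simp)
  obtain ⟨A, hA⟩ : ∃ A : ℝ, A = 2 ^ (2 * t + 1) / 2 ^ s + T * J / (L : ℝ) ^ k := ⟨_, rfl⟩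
  have hA0 : 0 ≤ A := by rw [hA]; positivity
  rw [← hA] at hpt ⊢
  have h1 : (M : ℝ) * |R k s L n - (∑ j ∈ range J, R k s L ((n + j * D : ℕ) : ℤ)) / J| ≤
      (L : ℝ) ^ (s - 2 * t) * A * (M * (en t (fun y : Fin L => (X ^ k : ℤ[X]).eval (((y : ℕ) + 1 : ℕ) : ℤ)) : ℝ)) := by
    have h3 : ‖(M : ℂ) * ((R k s L n - (∑ j ∈ range J, R k s L ((n + j * D : ℕ) : ℤ)) / J : ℝ) : ℂ)‖ =
        (M : ℝ) * |R k s L n - (∑ j ∈ range J, R k s L ((n + j * D : ℕ) : ℤ)) / J| := by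
      rw [norm_mul, Complex.norm_real, Real.norm_eq_abs, Complex.norm_natCast]
    rw [← h3, hdiff]
    refine (norm_sum_le _ _).trans ?_
    calc ∑ ξ : ZMod M, ‖(ZMod.stdAddChar (ξ * ((-(n : ℤ) : ℤ) : ZMod M)) : ℂ) * S ξ ^ s * Kn ξ‖
        ≤ ∑ ξ : ZMod M, ‖S ξ‖ ^ (2 * t) * ((L : ℝ) ^ (s - 2 * t) * A) := by
          apply sum_le_sum; intro ξ _
          rw [norm_mul, norm_mul, norm_chi, one_mul, norm_pow]
          exact hpt ξ
      _ = (L : ℝ) ^ (s - 2 * t) * A * ∑ ξ : ZMod M, ‖S ξ‖ ^ (2 * t) := by rw [← sum_mul]; ring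
      _ ≤ _ := by
          apply mul_le_mul_of_nonneg_left _ (by positivity)
          rw [hSd]
          refine hmom.trans ?_
          exact mul_le_mul_of_nonneg_left hen2 hM0.le
  have h2 : |R k s L n - (∑ j ∈ range J, R k s L ((n + j * D : ℕ) : ℤ)) / J| ≤
      (L : ℝ) ^ (s - 2 * t) * A * (en t (fun y : Fin L => (X ^ k : ℤ[X]).eval (((y : ℕ) + 1 : ℕ) : ℤ)) : ℝ) := by
    refine le_of_mul_le_mul_left (h1.trans (le_of_eq ?_)) hM0
    ring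
  calc |R k s L n - (∑ j ∈ range J, R k s L ((n + j * D : ℕ) : ℤ)) / J| * (L : ℝ) ^ k
      ≤ ((L : ℝ) ^ (s - 2 * t) * A * (en t (fun y : Fin L => (X ^ k : ℤ[X]).eval (((y : ℕ) + 1 : ℕ) : ℤ)) : ℝ)) * (L : ℝ) ^ k :=
        mul_le_mul_of_nonneg_right h2 (by positivity)
    _ = (L : ℝ) ^ (s - 2 * t) * A * ((en t (fun y : Fin L => (X ^ k : ℤ[X]).eval (((y : ℕ) + 1 : ℕ) : ℤ)) : ℝ) * ((L ^ k : ℕ) : ℝ)) := by
        push_cast; ring
    _ ≤ (L : ℝ) ^ (s - 2 * t) * A * (C₀ * (L : ℝ) ^ (2 * t)) := mul_le_mul_of_nonneg_left hen3 (by positivity)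
    _ = C₀ * A * ((L : ℝ) ^ (s - 2 * t) * (L : ℝ) ^ (2 * t)) := by ring
    _ = _ := by rw [← pow_add, show s - 2 * t + 2 * t = s by omega]

end Pool.Agent.U142.WG
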