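import Mathlib
import Pool.Agent.U142.WG4

/-!
# Counting sums of powers in a window and a residue class
-/

set_option autoImplicit false

namespace Pool.Agent.U142.WG

open Finset Polynomial

theorem R_eq (k s L : ℕ) (n : ℤ) : R k s L n =
    (((univ : Finset (Fin s → Fin L)).filter (fun x => ∑ i, (((x i : ℕ) + 1 : ℕ) : ℤ) ^ k = n)).card : ℝ) := by
  classical
  unfold R Rw
  rw [card_filter]
  push_cast
  apply sum_congr rfl; intro x _
  simp only [pv_pow, prod_const_one]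
  push_cast
  rfl

theorem pow_step (x k : ℕ) : (x + 1) ^ k ≤ x ^ k + k * (x + 1) ^ (k - 1) := by
  induction k with
  | zero => simp
  | succ k ih =>
    rcases Nat.eq_zero_or_pos k with rfl | hk
    · simp
    · rw [Nat.add_sub_cancel]
      have h1 : (x + 1) ^ (k - 1) * x ≤ (x + 1) ^ k := by
        calc (x + 1) ^ (k - 1) * x ≤ (x + 1) ^ (k - 1) * (x + 1) := Nat.mul_le_mul_left _ (by omega)
          _ = (x + 1) ^ k := by rw [← pow_succ]; congr 1; omega
      calc (x + 1) ^ (k + 1) = (x + 1) ^ k * x + (x + 1) ^ k := by ring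
        _ ≤ (x ^ k + k * (x + 1) ^ (k - 1)) * x + (x + 1) ^ k := by
            apply Nat.add_le_add_right
            exact Nat.mul_le_mul_right _ ih
        _ = x ^ (k + 1) + k * ((x + 1) ^ (k - 1) * x) + (x + 1) ^ k := by ring
        _ ≤ x ^ (k + 1) + k * (x + 1) ^ k + (x + 1) ^ k := by
            have := Nat.mul_le_mul_left k h1
            omega
        _ = _ := by ring

/-- the width of the windows -/
def wd (k s K : ℕ) : ℕ := s * k * (K + 1) ^ (k - 1)

theorem wd_pos {k s K : ℕ} (hk : 1 ≤ k) (hs : 1 ≤ s) : 1 ≤ wd k s K := by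
  unfold wd
  have : 0 < s * k * (K + 1) ^ (k - 1) := by positivity
  exact this

/-- a window with many block vectors -/
theorem blocks {k s K : ℕ} (hk : 1 ≤ k) (hs : 1 ≤ s) (hK : 1 ≤ K) : ∃ w : ℕ, 1 ≤ w ∧ w ≤ 1 + K * wd k s K ∧
    K ^ (s - 1) ≤ ((univ : Finset (Fin s → Fin K)).filter (fun b => w ≤ ∑ i, ((b i : ℕ) + 1) ^ k ∧
      ∑ i, ((b i : ℕ) + 1) ^ k < w + wd k s K)).card := by
  classical
  have hW := wd_pos (K := K) hk hs
  have hV1 : ∀ b : Fin s → Fin K, 1 ≤ ∑ i, ((b i : ℕ) + 1) ^ k := by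
    intro b
    have : ∀ i ∈ (univ : Finset (Fin s)), 1 ≤ ((b i : ℕ) + 1) ^ k := fun i _ => Nat.one_le_pow _ _ (by omega)
    have h2 := sum_le_sum this
    simp only [sum_const, card_univ, Fintype.card_fin, smul_eq_mul, mul_one] at h2
    omega
  have hV2 : ∀ b : Fin s → Fin K, ∑ i, ((b i : ℕ) + 1) ^ k ≤ s * K ^ k := by
    intro b
    have : ∀ i ∈ (univ : Finset (Fin s)), ((b i : ℕ) + 1) ^ k ≤ K ^ k := fun i _ => Nat.pow_le_pow_left (by omega) _
    have h2 := sum_le_sum this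
    simpa only [sum_const, card_univ, Fintype.card_fin, smul_eq_mul] using h2
  have hKW : s * K ^ k ≤ K * wd k s K := by
    unfold wd
    calc s * K ^ k = K * (s * 1 * K ^ (k - 1)) := by
          obtain ⟨j, rfl⟩ : ∃ j, k = j + 1 := ⟨k - 1, by omega⟩
          rw [Nat.add_sub_cancel]; ring
      _ ≤ K * (s * k * (K + 1) ^ (k - 1)) := by
          apply Nat.mul_le_mul_left
          exact Nat.mul_le_mul (Nat.mul_le_mul_left _ hk) (Nat.pow_le_pow_left (by omega) _)
  obtain ⟨u, hu, hcard⟩ := exists_le_card_fiber_of_mul_le_card_of_maps_to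
    (s := (univ : Finset (Fin s → Fin K))) (t := range K) (n := K ^ (s - 1))
    (f := fun b => (∑ i, ((b i : ℕ) + 1) ^ k - 1) / wd k s K)
    (by
      intro b _
      rw [mem_range, Nat.div_lt_iff_lt_mul (by omega)]
      have := hV1 b
      have := hV2 b
      omega)
    ⟨0, by rw [mem_range]; omega⟩
    (by
      rw [card_range, card_univ, Fintype.card_fun, Fintype.card_fin, Fintype.card_fin, ← pow_succ']
      exact (Nat.pow_le_pow_right (by omega) (by omega)))
  rw [mem_range] at hu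
  refine ⟨1 + u * wd k s K, by omega, ?_, hcard.trans ?_⟩
  · have := Nat.mul_le_mul_right (wd k s K) hu.le
    omega
  · apply card_le_card
    intro b hb
    rw [mem_filter] at hb ⊢
    refine ⟨mem_univ _, ?_⟩
    have h1 := hV1 b
    have h2 := hb.2
    have h3 := Nat.div_add_mod (∑ i, ((b i : ℕ) + 1) ^ k - 1) (wd k s K)
    have h4 := Nat.mod_lt (∑ i, ((b i : ℕ) + 1) ^ k - 1) (show 0 < wd k s K by omega)
    rw [h2, Nat.mul_comm] at h3
    omega

/-- many vectors of residues with a given sum of powers -/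
theorem residues {k D s : ℕ} (hk : 1 ≤ k) (hD : 2 ≤ D) (hs : D ≤ s) (n : ℕ) :
    D ^ (s - (D - 1)) ≤ ((univ : Finset (Fin s → Fin D)).filter (fun ρ => (∑ i, (ρ i : ℕ) ^ k) % D = n % D)).card := by
  classical
  obtain ⟨r, rfl⟩ : ∃ r, s = r + (D - 1) := ⟨s - (D - 1), by omega⟩
  rw [Nat.add_sub_cancel]
  set e : (Fin r → Fin D) → ℕ := fun a => (n + D * (∑ i, (a i : ℕ) ^ k) - ∑ i, (a i : ℕ) ^ k) % D with he
  have he1 : ∀ a, e a < D := fun a => Nat.mod_lt _ (by omega)
  set b : (Fin r → Fin D) → Fin (D - 1) → Fin D := fun a j => if (j : ℕ) < e a then ⟨1, by omega⟩ else ⟨0, by omega⟩ with hb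
  have hsum : ∀ a, ∑ j, (b a j : ℕ) ^ k = e a := by
    intro a
    have h1 : ∀ j : Fin (D - 1), (b a j : ℕ) ^ k = if (j : ℕ) < e a then 1 else 0 := by
      intro j
      simp only [hb]
      split_ifs
      · simp
      · simp only [zero_pow (by omega : k ≠ 0)]
    rw [sum_congr rfl fun j _ => h1 j]
    rw [Fin.sum_univ_eq_sum_range (fun j => if j < e a then 1 else 0) (D - 1), ← sum_filter]
    have h2 : (range (D - 1)).filter (fun j => j < e a) = range (e a) := by
      ext j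
      rw [mem_filter, mem_range, mem_range]
      have := he1 a
      omega
    rw [h2]; simp
  have hcard : D ^ r = (univ : Finset (Fin r → Fin D)).card := by
    rw [card_univ, Fintype.card_fun, Fintype.card_fin, Fintype.card_fin]
  rw [hcard]
  apply card_le_card_of_injOn (fun a => Fin.append a (b a))
  · intro a _
    rw [mem_coe, mem_filter]
    refine ⟨mem_univ _, ?_⟩
    rw [Fin.sum_univ_add]
    simp only [Fin.append_left, Fin.append_right]
    rw [hsum]
    simp only [he]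
    rw [Nat.add_mod_mod]
    have h1 : ∑ i, (a i : ℕ) ^ k ≤ D * (∑ i, (a i : ℕ) ^ k) := Nat.le_mul_of_pos_left _ (by omega)
    rw [show ∑ i, (a i : ℕ) ^ k + (n + D * ∑ i, (a i : ℕ) ^ k - ∑ i, (a i : ℕ) ^ k) =
      n + D * ∑ i, (a i : ℕ) ^ k by omega, Nat.add_mul_mod_self_left]
  · intro a _ a' _ h
    funext i
    have := congrFun h (Fin.castAdd (D - 1) i)
    simpa only [Fin.append_left] using this

theorem mix {A b r b' r' : ℕ} (hr : r < A) (hr' : r' < A) (h : A * b + r = A * b' + r') : b = b' ∧ r = r' := by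
  have hA : 0 < A := by omega
  have h1 : b = b' := by
    have := congrArg (· / A) h
    simp only [Nat.mul_add_div hA, Nat.div_eq_of_lt hr, Nat.div_eq_of_lt hr', add_zero] at this
    exact this
  subst h1
  exact ⟨rfl, by omega⟩

/-- many tuples with a sum of powers in a window of a progression -/
theorem window {k D s K l n w : ℕ} (hk : 1 ≤ k) (hD : 2 ≤ D) (hs : D ≤ s) (hl : 1 ≤ l)
    (hw : K ^ (s - 1) ≤ ((univ : Finset (Fin s → Fin K)).filter (fun b => w ≤ ∑ i, ((b i : ℕ) + 1) ^ k ∧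
      ∑ i, ((b i : ℕ) + 1) ^ k < w + wd k s K)).card)
    (h1 : n ≤ w * (D * l) ^ k) (h2 : w * (D * l) ^ k ≤ n + wd k s K * (D * l) ^ k) :
    (K : ℝ) ^ (s - 1) * (D : ℝ) ^ (s - (D - 1)) * (l : ℝ) ^ s ≤
      ∑ j ∈ range (3 * wd k s K * D ^ (k - 1) * l ^ k), R k s ((K + 1) * (D * l)) ((n + j * D : ℕ) : ℤ) := by
  classical
  set J := 3 * wd k s K * D ^ (k - 1) * l ^ k with hJ
  set L := (K + 1) * (D * l) with hL
  have hDl : 0 < D * l := Nat.mul_pos (by omega) hl
  have hJD : J * D = 3 * wd k s K * (D * l) ^ k := by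
    rw [hJ, mul_pow]
    obtain ⟨i, rfl⟩ : ∃ i, k = i + 1 := ⟨k - 1, by omega⟩
    rw [Nat.add_sub_cancel]; ring
  set B := ((univ : Finset (Fin s → Fin K)).filter (fun b => w ≤ ∑ i, ((b i : ℕ) + 1) ^ k ∧
      ∑ i, ((b i : ℕ) + 1) ^ k < w + wd k s K)) with hB
  set P := ((univ : Finset (Fin s → Fin D)).filter (fun ρ => (∑ i, (ρ i : ℕ) ^ k) % D = n % D)) with hP
  have hPc := residues hk hD hs n
  have hlow : ∀ (v : Fin l) (ρ : Fin D), (v : ℕ) * D + ρ < D * l := by
    intro v ρ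
    calc (v : ℕ) * D + ρ < v * D + D := by omega
      _ = (v + 1) * D := by ring
      _ ≤ l * D := Nat.mul_le_mul_right _ (by omega)
      _ = D * l := Nat.mul_comm _ _
  have hyL : ∀ (b : Fin K) (v : Fin l) (ρ : Fin D), (D * l) * ((b : ℕ) + 1) + ((v : ℕ) * D + ρ) - 1 < L := by
    intro b v ρ
    have a1 := hlow v ρ
    have a2 : (D * l) * ((b : ℕ) + 1) ≤ (D * l) * K := Nat.mul_le_mul_left _ (by omega)
    have a3 : L = (D * l) * K + D * l := by rw [hL]; ring
    omega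
  set y : (Fin s → Fin K) × (Fin s → Fin l) × (Fin s → Fin D) → (Fin s → Fin L) :=
    fun p i => ⟨(D * l) * ((p.1 i : ℕ) + 1) + ((p.2.1 i : ℕ) * D + p.2.2 i) - 1, hyL _ _ _⟩ with hy
  have hy1 : ∀ p i, ((y p i : ℕ) + 1) = (D * l) * ((p.1 i : ℕ) + 1) + ((p.2.1 i : ℕ) * D + p.2.2 i) := by
    intro p i
    have : 0 < (D * l) * ((p.1 i : ℕ) + 1) := Nat.mul_pos hDl (by omega)
    simp only [hy]
    omega
  have hinj : Function.Injective y := by
    rintro ⟨b, v, ρ⟩ ⟨b', v', ρ'⟩ h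
    have key : ∀ i, b i = b' i ∧ v i = v' i ∧ ρ i = ρ' i := by
      intro i
      have e1 := hy1 ⟨b, v, ρ⟩ i
      have e2 := hy1 ⟨b', v', ρ'⟩ i
      rw [h, e2] at e1
      simp only at e1
      obtain ⟨c1, c2⟩ := mix (hlow _ _) (hlow _ _) e1
      rw [Nat.mul_comm, Nat.mul_comm (v i : ℕ)] at c2
      obtain ⟨c3, c4⟩ := mix (ρ' i).2 (ρ i).2 c2
      refine ⟨Fin.ext (by omega), Fin.ext c3.symm, Fin.ext c4.symm⟩
    refine Prod.ext (funext fun i => (key i).1) (Prod.ext (funext fun i => (key i).2.1) (funext fun i => (key i).2.2))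
  have hval : ∀ p ∈ B ×ˢ ((univ : Finset (Fin s → Fin l)) ×ˢ P), ∃ j ∈ range J,
      ∑ i, (((y p i : ℕ) + 1 : ℕ) : ℤ) ^ k = ((n + j * D : ℕ) : ℤ) := by
    intro p hp
    rw [mem_product, mem_product] at hp
    obtain ⟨hp1, -, hp3⟩ := hp
    rw [hB, mem_filter] at hp1
    rw [hP, mem_filter] at hp3
    obtain ⟨Yy, hYy⟩ : ∃ Yy : ℕ, Yy = ∑ i, ((y p i : ℕ) + 1) ^ k := ⟨_, rfl⟩
    have g1 : (∑ i, ((p.1 i : ℕ) + 1) ^ k) * (D * l) ^ k ≤ Yy := by
      rw [hYy, sum_mul]
      apply sum_le_sum; intro i _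
      rw [hy1, ← mul_pow]
      apply Nat.pow_le_pow_left
      rw [Nat.mul_comm]
      exact Nat.le_add_right _ _
    have g2 : Yy ≤ (∑ i, ((p.1 i : ℕ) + 1) ^ k + wd k s K) * (D * l) ^ k := by
      have e1 : wd k s K = ∑ _i : Fin s, k * (K + 1) ^ (k - 1) := by
        rw [sum_const, card_univ, Fintype.card_fin, smul_eq_mul]; unfold wd; ring
      rw [hYy, e1, ← sum_add_distrib, sum_mul]
      apply sum_le_sum; intro i _
      rw [hy1]
      calc ((D * l) * ((p.1 i : ℕ) + 1) + ((p.2.1 i : ℕ) * D + p.2.2 i)) ^ k ≤ (((p.1 i : ℕ) + 1 + 1) * (D * l)) ^ k := by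
            apply Nat.pow_le_pow_left
            have := hlow (p.2.1 i) (p.2.2 i)
            have e2 : ((p.1 i : ℕ) + 1 + 1) * (D * l) = (D * l) * ((p.1 i : ℕ) + 1) + D * l := by ring
            rw [e2]
            omega
        _ = ((p.1 i : ℕ) + 1 + 1) ^ k * (D * l) ^ k := by rw [mul_pow]
        _ ≤ _ := by
            apply Nat.mul_le_mul_right
            refine (pow_step _ _).trans ?_
            apply Nat.add_le_add_left
            apply Nat.mul_le_mul_left
            exact Nat.pow_le_pow_left (by omega) _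
    have hpow : 0 < (D * l) ^ k := by positivity
    have g3 : n ≤ Yy := h1.trans ((Nat.mul_le_mul_right _ hp1.2.1).trans g1)
    have g4 : Yy < n + J * D := by
      have a1 : ∑ i, ((p.1 i : ℕ) + 1) ^ k + wd k s K < w + 2 * wd k s K := by omega
      have a2 := Nat.mul_lt_mul_of_pos_right a1 hpow
      have a3 : (w + 2 * wd k s K) * (D * l) ^ k = w * (D * l) ^ k + 2 * (wd k s K * (D * l) ^ k) := by ring
      have a4 : J * D = 3 * (wd k s K * (D * l) ^ k) := by rw [hJD]; ring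
      omega
    have g5 : Yy % D = n % D := by
      rw [← hp3.2, hYy, sum_nat_mod, sum_nat_mod (s := univ) (f := fun i => (p.2.2 i : ℕ) ^ k)]
      congr 1
      apply sum_congr rfl; intro i _
      rw [hy1, Nat.pow_mod, Nat.pow_mod (p.2.2 i : ℕ)]
      congr 2
      have e3 : (D * l) * ((p.1 i : ℕ) + 1) + ((p.2.1 i : ℕ) * D + p.2.2 i) =
          (p.2.2 i : ℕ) + D * (l * ((p.1 i : ℕ) + 1) + p.2.1 i) := by ring
      rw [e3, Nat.add_mul_mod_self_left]
    have g6 : D ∣ Yy - n := (Nat.modEq_iff_dvd' g3).1 g5.symm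
    obtain ⟨j, hj⟩ := g6
    refine ⟨j, ?_, ?_⟩
    · rw [mem_range]
      have : D * j < D * J := by rw [Nat.mul_comm D J]; omega
      exact lt_of_mul_lt_mul_left this (Nat.zero_le _)
    · have e4 : n + j * D = Yy := by rw [Nat.mul_comm]; omega
      rw [e4, hYy]; push_cast; rfl
  set Z := (B ×ˢ ((univ : Finset (Fin s → Fin l)) ×ˢ P)).image y with hZ
  have hZc : Z.card = B.card * (l ^ s * P.card) := by
    rw [hZ, card_image_of_injective _ hinj, card_product, card_product, card_univ, Fintype.card_fun, Fintype.card_fin,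
      Fintype.card_fin]
  have hZs : Z ⊆ (range J).biUnion (fun j => (univ : Finset (Fin s → Fin L)).filter
      (fun x => ∑ i, (((x i : ℕ) + 1 : ℕ) : ℤ) ^ k = ((n + j * D : ℕ) : ℤ))) := by
    intro x hx
    rw [hZ, mem_image] at hx
    obtain ⟨p, hp, rfl⟩ := hx
    obtain ⟨j, hj, hj2⟩ := hval p hp
    rw [mem_biUnion]
    exact ⟨j, hj, mem_filter.2 ⟨mem_univ _, hj2⟩⟩
  have hfin : (Z.card : ℝ) ≤ ∑ j ∈ range J, R k s L ((n + j * D : ℕ) : ℤ) := by
    rw [sum_congr rfl fun j _ => R_eq k s L ((n + j * D : ℕ) : ℤ)]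
    exact_mod_cast (card_le_card hZs).trans card_biUnion_le
  refine le_trans ?_ hfin
  rw [hZc]
  push_cast
  have a1 : ((K ^ (s - 1) : ℕ) : ℝ) ≤ B.card := by exact_mod_cast hw
  have a2 : ((D ^ (s - (D - 1)) : ℕ) : ℝ) ≤ P.card := by exact_mod_cast hPc
  push_cast at a1 a2
  calc (K : ℝ) ^ (s - 1) * (D : ℝ) ^ (s - (D - 1)) * (l : ℝ) ^ s = (K : ℝ) ^ (s - 1) * ((l : ℝ) ^ s * (D : ℝ) ^ (s - (D - 1))) := by ring
    _ ≤ B.card * ((l : ℝ) ^ s * P.card) :=
        mul_le_mul a1 (mul_le_mul_of_nonneg_left a2 (by positivity)) (by positivity) (Nat.cast_nonneg _)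

end Pool.Agent.U142.WG
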