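import Mathlib
import Pool.Agent.U142.WG5

/-!
# Waring's problem: a lower bound of the right order for the number of representations
-/

set_option autoImplicit false

namespace Pool.Agent.U142.WG

open Finset Filter

theorem R_nonneg (k s L : ℕ) (n : ℤ) : 0 ≤ R k s L n := by
  rw [R_eq]; exact Nat.cast_nonneg _

theorem half_pow {K s : ℕ} (hK : 2 * s ≤ K) (hK1 : 1 ≤ K) : ((K : ℝ) + 1) ^ (s - 1) ≤ 2 * (K : ℝ) ^ (s - 1) := by
  have hK0 : (0 : ℝ) < K := by exact_mod_cast hK1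
  have h1 := one_add_mul_le_pow (a := -(1 / ((K : ℝ) + 1))) (by
    have : 1 / ((K : ℝ) + 1) ≤ 1 := by rw [div_le_one (by positivity)]; linarith
    linarith) (s - 1)
  have h2 : ((s - 1 : ℕ) : ℝ) * (1 / ((K : ℝ) + 1)) ≤ 1 / 2 := by
    rw [mul_one_div, div_le_iff₀ (by positivity)]
    have h3 : ((s - 1 : ℕ) : ℝ) ≤ s := by exact_mod_cast Nat.sub_le _ _
    have h4 : (2 : ℝ) * s ≤ K := by exact_mod_cast hK
    linarith
  have h3 : (1 : ℝ) / 2 ≤ (K / ((K : ℝ) + 1)) ^ (s - 1) := by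
    have e : (K : ℝ) / ((K : ℝ) + 1) = 1 + -(1 / ((K : ℝ) + 1)) := by field_simp; ring
    rw [e]
    linarith
  rw [div_pow, le_div_iff₀ (by positivity)] at h3
  linarith

theorem choose_l {k D n w W : ℕ} (hk : 1 ≤ k) (hD : 1 ≤ D) (hw : 1 ≤ w) (hW : 1 ≤ W) (hn : w * (D * (w * k)) ^ k < n) :
    ∃ l : ℕ, 1 ≤ l ∧ n ≤ w * (D * l) ^ k ∧ w * (D * l) ^ k ≤ n + W * (D * l) ^ k := by
  classical
  have hex : ∃ l : ℕ, n ≤ w * (D * l) ^ k := by
    refine ⟨n, ?_⟩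
    calc n ≤ D * n := Nat.le_mul_of_pos_left _ (by omega)
      _ ≤ (D * n) ^ k := Nat.le_self_pow (by omega) _
      _ ≤ w * (D * n) ^ k := Nat.le_mul_of_pos_left _ (by omega)
  set l := Nat.find hex with hl
  have hl1 : n ≤ w * (D * l) ^ k := Nat.find_spec hex
  have hwk : w * k ≤ l := by
    by_contra h
    push Not at h
    have : w * (D * l) ^ k ≤ w * (D * (w * k)) ^ k :=
      Nat.mul_le_mul_left _ (Nat.pow_le_pow_left (Nat.mul_le_mul_left _ h.le) _)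
    omega
  have hwk1 : 1 ≤ w * k := Nat.mul_pos hw hk
  obtain ⟨l', hl'⟩ : ∃ l', l = l' + 1 := ⟨l - 1, by omega⟩
  have hl2 : w * (D * l') ^ k < n := by
    by_contra h
    push Not at h
    have := Nat.find_min' hex h
    omega
  refine ⟨l, by omega, hl1, ?_⟩
  have h1 : (D * l) ^ k ≤ (D * l') ^ k + D ^ k * (k * l ^ (k - 1)) := by
    rw [mul_pow, mul_pow, ← Nat.mul_add, hl']
    exact Nat.mul_le_mul_left _ (pow_step l' k)
  have h2 : w * (D ^ k * (k * l ^ (k - 1))) ≤ (D * l) ^ k := by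
    calc w * (D ^ k * (k * l ^ (k - 1))) = D ^ k * ((w * k) * l ^ (k - 1)) := by ring
      _ ≤ D ^ k * (l * l ^ (k - 1)) := Nat.mul_le_mul_left _ (Nat.mul_le_mul_right _ hwk)
      _ = (D * l) ^ k := by rw [mul_pow, ← pow_succ']; congr 2; omega
  calc w * (D * l) ^ k ≤ w * ((D * l') ^ k + D ^ k * (k * l ^ (k - 1))) := Nat.mul_le_mul_left _ h1
    _ = w * (D * l') ^ k + w * (D ^ k * (k * l ^ (k - 1))) := by ring
    _ ≤ n + W * (D * l) ^ k := by
        apply Nat.add_le_add hl2.le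
        exact h2.trans (Nat.le_mul_of_pos_left _ (by omega))

theorem lower (k : ℕ) (hk : 1 ≤ k) : ∃ s₁ : ℕ, ∀ s : ℕ, s₁ ≤ s → ∃ c : ℝ, 0 < c ∧ ∃ n₀ : ℕ, ∀ n : ℕ, n₀ ≤ n →
    ∃ L : ℕ, c * (n : ℝ) ^ ((s : ℝ) / k - 1) ≤ R k s L n := by
  obtain ⟨t, D, hD, C, T, hC, hT, H⟩ := smooth k hk
  have hk0 : (0 : ℝ) < k := by exact_mod_cast hk
  have hD0 : (0 : ℝ) < D := by exact_mod_cast (by omega : 0 < D)
  have hlim := tendsto_pow_const_div_const_pow_of_one_lt 1 (one_lt_two (α := ℝ))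
  have hev := (hlim.eventually (gt_mem_nhds (show (0 : ℝ) < 1 / (C * 2 ^ (2 * t + 1) * (24 * k * D ^ D)) by positivity)))
  obtain ⟨s₂, hs₂⟩ := eventually_atTop.1 hev
  refine ⟨s₂ + (2 * t + 1) + D + k, fun s hs => ?_⟩
  have hs0 : (0 : ℝ) < s := by exact_mod_cast (by omega : 0 < s)
  have he1 : C * (2 ^ (2 * t + 1) / 2 ^ s) ≤ 1 / (24 * s * k * D ^ D) := by
    have h1 := (hs₂ s (by omega)).le
    rw [pow_one, div_le_div_iff₀ (by positivity) (by positivity)] at h1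
    rw [mul_div_assoc', div_le_div_iff₀ (by positivity) (by positivity)]
    linarith
  obtain ⟨K₁, hK₁⟩ := exists_nat_ge (C * T * (3 * s * k) * (24 * s * k * D ^ D) / D)
  set K : ℕ := K₁ + 2 * s with hKdef
  have hK1 : 1 ≤ K := by omega
  have hK0 : (0 : ℝ) < K := by exact_mod_cast hK1
  have he2 : C * (T * (3 * s * k / ((K + 1) * D))) ≤ 1 / (24 * s * k * D ^ D) := by
    rw [div_le_iff₀ hD0] at hK₁
    have h1 : (K₁ : ℝ) ≤ K + 1 := by
      have : K₁ ≤ K + 1 := by omega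
      exact_mod_cast this
    have h2 : (K₁ : ℝ) * D ≤ (K + 1) * D := mul_le_mul_of_nonneg_right h1 hD0.le
    rw [mul_div_assoc', mul_div_assoc', div_le_div_iff₀ (by positivity) (by positivity)]
    linarith
  obtain ⟨w, hw1, -, hwc⟩ := blocks (k := k) (s := s) (K := K) hk (by omega) hK1
  have hW1 := wd_pos (K := K) hk (show 1 ≤ s by omega)
  have hw0 : (0 : ℝ) < w := by exact_mod_cast hw1
  refine ⟨1 / (12 * s * k * D ^ D) * (1 / w) ^ ((s : ℝ) / k - 1), by positivity, w * (D * (w * k)) ^ k + 1,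
    fun n hn => ?_⟩
  obtain ⟨l, hl1, hl2, hl3⟩ := choose_l (D := D) (n := n) (w := w) (W := wd k s K) hk (by omega) hw1 hW1 (by omega)
  set L : ℕ := (K + 1) * (D * l) with hL
  set J : ℕ := 3 * wd k s K * D ^ (k - 1) * l ^ k with hJ
  have hl0 : (0 : ℝ) < l := by exact_mod_cast hl1
  have hL1 : 1 ≤ L := Nat.mul_pos (by omega) (Nat.mul_pos (by omega) hl1)
  have hL0 : (0 : ℝ) < L := by exact_mod_cast hL1
  have hJ1 : 1 ≤ J := by
    have : 0 < 3 * wd k s K * D ^ (k - 1) * l ^ k := by positivity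
    exact this
  have hJ0 : (0 : ℝ) < J := by exact_mod_cast hJ1
  have hJL : (J : ℝ) * ((K + 1) * D) = 3 * s * k * (L : ℝ) ^ k := by
    have a1 : (L : ℝ) ^ k = ((K : ℝ) + 1) ^ k * (D ^ k * l ^ k) := by
      rw [hL]; push_cast; rw [mul_pow, mul_pow]
    have a2 : ((K : ℝ) + 1) ^ k = (K + 1) ^ (k - 1) * (K + 1) := by rw [← pow_succ]; congr 1; omega
    have a3 : (D : ℝ) ^ k = D ^ (k - 1) * D := by rw [← pow_succ]; congr 1; omega
    rw [a1, a2, a3, hJ]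
    unfold wd
    push_cast
    ring
  have hJL2 : (J : ℝ) / (L : ℝ) ^ k = 3 * s * k / ((K + 1) * D) := by
    rw [div_eq_div_iff (by positivity) (by positivity), hJL]
  have hwin := window hk hD (show D ≤ s by omega) hl1 hwc hl2 hl3
  rw [← hL, ← hJ] at hwin
  have hsm := H s (by omega) L J hL1 hJ1 n
  set Av : ℝ := (∑ j ∈ range J, R k s L ((n + j * D : ℕ) : ℤ)) / J with hAv
  have hAvL : 1 / (6 * s * k * D ^ D) * (L : ℝ) ^ s ≤ Av * (L : ℝ) ^ k := by
    have h1 : (K : ℝ) ^ (s - 1) * (D : ℝ) ^ (s - (D - 1)) * (l : ℝ) ^ s / J ≤ Av := by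
      rw [hAv]; exact div_le_div_of_nonneg_right hwin hJ0.le
    have h2 : 1 / (6 * s * k * D ^ D) * (L : ℝ) ^ s ≤
        (K : ℝ) ^ (s - 1) * (D : ℝ) ^ (s - (D - 1)) * (l : ℝ) ^ s / J * (L : ℝ) ^ k := by
      have e1 : (K : ℝ) ^ (s - 1) * (D : ℝ) ^ (s - (D - 1)) * (l : ℝ) ^ s / J * (L : ℝ) ^ k =
          (K : ℝ) ^ (s - 1) * (D : ℝ) ^ (s - (D - 1)) * (l : ℝ) ^ s / (J / (L : ℝ) ^ k) := by field_simp
      rw [e1, hJL2]
      have e2 : (L : ℝ) ^ s = ((K : ℝ) + 1) ^ (s - 1) * ((K + 1) * (D ^ (s - (D - 1)) * D ^ (D - 1) * (l : ℝ) ^ s)) := by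
        have a1 : (L : ℝ) = (K + 1) * (D * l) := by rw [hL]; push_cast; ring
        have a2 : ((K : ℝ) + 1) ^ s = (K + 1) ^ (s - 1) * (K + 1) := by rw [← pow_succ]; congr 1; omega
        have a3 : (D : ℝ) ^ (s - (D - 1)) * D ^ (D - 1) = D ^ s := by rw [← pow_add]; congr 1; omega
        rw [a1, a3, mul_pow, a2, mul_pow]; ring
      have e3 := half_pow (K := K) (s := s) (by omega) hK1
      have e4 : (D : ℝ) ^ D = D ^ (D - 1) * D := by rw [← pow_succ]; congr 1; omega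
      rw [e2, e4, div_mul_eq_mul_div, one_mul, div_le_div_iff₀ (by positivity) (by positivity)]
      have hD1 : (1 : ℝ) ≤ D := by exact_mod_cast (by omega : 1 ≤ D)
      have e6 : 1 / (D : ℝ) ≤ D := by
        rw [div_le_iff₀ hD0]; nlinarith
      calc ((K : ℝ) + 1) ^ (s - 1) * ((K + 1) * (D ^ (s - (D - 1)) * D ^ (D - 1) * (l : ℝ) ^ s)) * (3 * s * k / ((K + 1) * D))
          = ((K : ℝ) + 1) ^ (s - 1) * ((D ^ (s - (D - 1)) * D ^ (D - 1) * (l : ℝ) ^ s) * (3 * s * k)) * (1 / D) := by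
            field_simp
        _ ≤ (2 * (K : ℝ) ^ (s - 1)) * ((D ^ (s - (D - 1)) * D ^ (D - 1) * (l : ℝ) ^ s) * (3 * s * k)) * D := by
            apply mul_le_mul _ e6 (by positivity) (by positivity)
            exact mul_le_mul_of_nonneg_right e3 (by positivity)
        _ = _ := by ring
    exact h2.trans (mul_le_mul_of_nonneg_right h1 (by positivity))
  have hRL : 1 / (12 * s * k * D ^ D) * (L : ℝ) ^ s ≤ R k s L n * (L : ℝ) ^ k := by
    have h1 : |R k s L n - Av| * (L : ℝ) ^ k ≤ (1 / (24 * s * k * D ^ D) + 1 / (24 * s * k * D ^ D)) * (L : ℝ) ^ s := by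
      refine hsm.trans ?_
      apply mul_le_mul_of_nonneg_right _ (by positivity)
      rw [mul_add]
      apply add_le_add he1
      rw [mul_div_assoc T, hJL2]
      exact he2
    have h2 : (Av - R k s L n) * (L : ℝ) ^ k ≤ |R k s L n - Av| * (L : ℝ) ^ k := by
      apply mul_le_mul_of_nonneg_right _ (by positivity)
      rw [abs_sub_comm]; exact le_abs_self _
    have h3 : 1 / (6 * s * k * D ^ D) * (L : ℝ) ^ s = 1 / (12 * s * k * D ^ D) * (L : ℝ) ^ s +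
        (1 / (24 * s * k * D ^ D) + 1 / (24 * s * k * D ^ D)) * (L : ℝ) ^ s := by
      field_simp; ring
    linarith
  refine ⟨L, ?_⟩
  have hnL : (n : ℝ) * (1 / w) ≤ (L : ℝ) ^ k := by
    rw [mul_one_div, div_le_iff₀ hw0]
    have h1 : w * (D * l) ^ k ≤ L ^ k * w := by
      rw [Nat.mul_comm]
      apply Nat.mul_le_mul_right
      apply Nat.pow_le_pow_left
      rw [hL]
      exact Nat.le_mul_of_pos_left _ (by omega)
    exact_mod_cast hl2.trans h1
  have hexp : (0 : ℝ) ≤ (s : ℝ) / k - 1 := by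
    rw [sub_nonneg, le_div_iff₀ hk0, one_mul]
    exact_mod_cast (by omega : k ≤ s)
  have h1 : (L : ℝ) ^ s = ((L : ℝ) ^ k) ^ ((s : ℝ) / k - 1) * (L : ℝ) ^ k := by
    have e1 : ((L : ℝ) ^ k) ^ ((s : ℝ) / k - 1) = (L : ℝ) ^ (s - k) := by
      rw [← Real.rpow_natCast, ← Real.rpow_mul hL0.le, ← Real.rpow_natCast]
      congr 1
      rw [Nat.cast_sub (by omega)]
      field_simp
    rw [e1, ← pow_add]
    congr 1; omega
  rw [h1, ← mul_assoc] at hRL
  have h2 := le_of_mul_le_mul_right hRL (by positivity)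
  calc 1 / (12 * s * k * D ^ D) * (1 / w) ^ ((s : ℝ) / k - 1) * (n : ℝ) ^ ((s : ℝ) / k - 1)
      = 1 / (12 * s * k * D ^ D) * ((n : ℝ) * (1 / w)) ^ ((s : ℝ) / k - 1) := by
        rw [Real.mul_rpow (Nat.cast_nonneg _) (by positivity)]; ring
    _ ≤ 1 / (12 * s * k * D ^ D) * ((L : ℝ) ^ k) ^ ((s : ℝ) / k - 1) := by
        apply mul_le_mul_of_nonneg_left _ (by positivity)
        exact Real.rpow_le_rpow (by positivity) hnL hexp
    _ ≤ R k s L n := h2

end Pool.Agent.U142.WG
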