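import Mathlib
import Pool.Agent.U142.WG3
import Pool.Agent.U142.WG6

/-!
# Waring's problem with variables in invariant sets
-/

set_option autoImplicit false

namespace Pool.Agent.U142.WG

open Finset Filter Polynomial
open Pool.Agent.H499R2.ND Pool.Agent.H499R2.CO Pool.Agent.W41

/-- the number of representations of `n` as a sum of `s` `k`-th powers of positive integers `x i` in `A i` -/
noncomputable def reps (k s n : ℕ) (A : Fin s → Set ℕ) : ℕ :=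
  {x : Fin s → ℕ | (∀ i, 1 ≤ x i ∧ x i ∈ A i) ∧ ∑ i, x i ^ k = n}.ncard

theorem le_of_sum {k s n L : ℕ} (h : n < (L + 1) ^ k) {x : Fin s → ℕ} (hx : ∑ i, x i ^ k = n) (i : Fin s) :
    x i ≤ L := by
  by_contra h1
  push Not at h1
  have h2 : x i ^ k ≤ ∑ i, x i ^ k := single_le_sum (f := fun i => x i ^ k) (fun _ _ => Nat.zero_le _) (mem_univ i)
  have h3 : (L + 1) ^ k ≤ x i ^ k := Nat.pow_le_pow_left h1 k
  omega

theorem reps_sol {k s n L : ℕ} (h : n < (L + 1) ^ k) (A : Fin s → Set ℕ) :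
    reps k s n A = sol (X ^ k) (fun _ => 1) (fun _ => L) A n := by
  unfold reps sol
  congr 1
  ext x
  constructor
  · rintro ⟨h1, h2⟩
    refine ⟨fun i => ⟨(h1 i).1, le_of_sum h h2 i, (h1 i).2⟩, ?_⟩
    rw [← h2]; simp
  · rintro ⟨h1, h2⟩
    refine ⟨fun i => ⟨(h1 i).1, (h1 i).2.2⟩, ?_⟩
    simp only [eval_pow, eval_X, one_mul] at h2
    exact_mod_cast h2

theorem sol_finite (P : ℤ[X]) {s : ℕ} (a : Fin s → ℤ) (l : Fin s → ℕ) (A : Fin s → Set ℕ) (m : ℤ) :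
    {x : Fin s → ℕ | (∀ i, 1 ≤ x i ∧ x i ≤ l i ∧ x i ∈ A i) ∧ ∑ i, a i * P.eval ((x i : ℕ) : ℤ) = m}.Finite := by
  apply (Set.Finite.pi' (fun i => Set.finite_Iic (l i))).subset
  rintro x ⟨h1, -⟩ i
  exact (h1 i).2.1

theorem exists_root (k n : ℕ) (hk : 1 ≤ k) : ∃ L : ℕ, L ^ k ≤ n ∧ n < (L + 1) ^ k := by
  classical
  have hex : ∃ L, n < (L + 1) ^ k := ⟨n, by
    calc n < n + 1 := Nat.lt_succ_self n
      _ ≤ (n + 1) ^ k := Nat.le_self_pow (by omega) _⟩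
  refine ⟨Nat.find hex, ?_, Nat.find_spec hex⟩
  by_contra h
  push Not at h
  rcases Nat.eq_zero_or_pos (Nat.find hex) with h0 | h0
  · rw [h0, zero_pow (by omega)] at h
    omega
  · have := Nat.find_min' hex (m := Nat.find hex - 1) (by rw [Nat.sub_add_cancel h0]; exact h)
    omega

theorem R_le_reps {k s L n : ℕ} (hk : 1 ≤ k) : R k s L n ≤ reps k s n (fun _ => Set.univ) := by
  obtain ⟨L', -, h'⟩ := exists_root k n hk
  rw [R_eq, Nat.cast_le, reps_sol h']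
  unfold sol
  rw [← Set.ncard_coe_finset]
  have hfin := sol_finite (X ^ k) (fun _ : Fin s => (1 : ℤ)) (fun _ => L') (fun _ => Set.univ) n
  refine Set.ncard_le_ncard_of_injOn (fun (x : Fin s → Fin L) i => (x i : ℕ) + 1) ?_ ?_ hfin
  · intro x hx
    rw [mem_coe, mem_filter] at hx
    have hsum : ∑ i, ((x i : ℕ) + 1) ^ k = n := by exact_mod_cast hx.2
    refine ⟨fun i => ⟨Nat.le_add_left 1 _, le_of_sum h' hsum i, Set.mem_univ _⟩, ?_⟩
    rw [← hsum]; simp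
  · intro x _ y _ hxy
    funext i
    have := congrFun hxy i
    simp only at this
    ext
    omega

theorem waring_lower (k : ℕ) (hk : 1 ≤ k) : ∃ s₁ : ℕ, ∀ s : ℕ, s₁ ≤ s → ∃ c : ℝ, 0 < c ∧ ∃ n₀ : ℕ, ∀ n : ℕ, n₀ ≤ n →
    c * (n : ℝ) ^ ((s : ℝ) / k - 1) ≤ reps k s n (fun _ => Set.univ) := by
  obtain ⟨s₁, H⟩ := lower k hk
  refine ⟨s₁, fun s hs => ?_⟩
  obtain ⟨c, hc, n₀, h⟩ := H s hs
  refine ⟨c, hc, n₀, fun n hn => ?_⟩
  obtain ⟨L, hL⟩ := h n hn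
  exact hL.trans (R_le_reps hk)

/-- Waring's problem in invariant sets -/
theorem waring (k : ℕ) (hk : 1 ≤ k) : ∃ s₀ : ℕ, ∀ s : ℕ, s₀ ≤ s →
    (∃ c : ℝ, 0 < c ∧ ∃ n₀ : ℕ, ∀ n : ℕ, n₀ ≤ n → c * (n : ℝ) ^ ((s : ℝ) / k - 1) ≤ reps k s n (fun _ => Set.univ)) ∧
    ∀ ε : ℝ, 0 < ε → ∃ n₀ : ℕ, ∀ n : ℕ, n₀ ≤ n → 1 ≤ reps k s n (fun _ => Set.univ) ∧
    ∀ σ : Fin s → ℤ, (∀ i, σ i = 1 ∨ σ i = -1) → ∀ S : Fin s → Set ℤ, (∀ i, Inv 1 (S i)) →
    ∀ δ : Fin s → ℝ, (∀ i, HD (σ i) (S i) (δ i)) →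
    |(reps k s n (fun i => {m | σ i * (m : ℤ) ∈ S i}) : ℝ) - (∏ i, δ i) * reps k s n (fun _ => Set.univ)| ≤
      ε * reps k s n (fun _ => Set.univ) := by
  obtain ⟨s₁, H1⟩ := waring_lower k hk
  obtain ⟨s₂, H2⟩ := inv_diag (X ^ k) (by simpa using hk)
  have hk0 : (0 : ℝ) < k := by exact_mod_cast hk
  refine ⟨s₁ + s₂ + k, fun s hs => ⟨H1 s (by omega), fun ε hε => ?_⟩⟩
  obtain ⟨c, hc, n₁, h1⟩ := H1 s (by omega)
  obtain ⟨L₀, h2⟩ := H2 s (by omega) (ε * c) (by positivity)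
  refine ⟨n₁ + (L₀ + 1) ^ k + 1, fun n hn => ?_⟩
  obtain ⟨L, hL1, hL2⟩ := exists_root k n hk
  have hL : L₀ + 1 ≤ L := by
    by_contra h
    push Not at h
    have : (L + 1) ^ k ≤ (L₀ + 1) ^ k := Nat.pow_le_pow_left (by omega) _
    omega
  have hL0 : (0 : ℝ) < L := by exact_mod_cast (by omega : 0 < L)
  have hn1 : (0 : ℝ) < n := by exact_mod_cast (by omega : 0 < n)
  have h3 := h1 n (by omega)
  refine ⟨?_, fun σ hσ S hS δ hδ => ?_⟩
  · have : (0 : ℝ) < reps k s n (fun _ => Set.univ) := lt_of_lt_of_le (by positivity) h3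
    exact_mod_cast this
  have h4 := h2 L (by omega) (fun _ => L) (fun _ => le_rfl) σ hσ S hS δ hδ (fun _ => 1) (fun _ => one_ne_zero) n
  rw [← reps_sol hL2, ← reps_sol hL2, natDegree_X_pow] at h4
  have hexp : (0 : ℝ) ≤ (s : ℝ) / k - 1 := by
    rw [sub_nonneg, le_div_iff₀ hk0, one_mul]
    exact_mod_cast (by omega : k ≤ s)
  have h5 : (L : ℝ) ^ s = ((L : ℝ) ^ k) ^ ((s : ℝ) / k - 1) * (L : ℝ) ^ k := by
    have e1 : ((L : ℝ) ^ k) ^ ((s : ℝ) / k - 1) = (L : ℝ) ^ (s - k) := by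
      rw [← Real.rpow_natCast, ← Real.rpow_mul hL0.le, ← Real.rpow_natCast]
      congr 1
      rw [Nat.cast_sub (by omega)]
      field_simp
    rw [e1, ← pow_add]
    congr 1; omega
  rw [h5, ← mul_assoc] at h4
  have h6 := le_of_mul_le_mul_right h4 (by positivity)
  refine h6.trans ?_
  have hLn : (L : ℝ) ^ k ≤ n := by exact_mod_cast hL1
  calc ε * c * ((L : ℝ) ^ k) ^ ((s : ℝ) / k - 1) ≤ ε * c * (n : ℝ) ^ ((s : ℝ) / k - 1) := by
        apply mul_le_mul_of_nonneg_left _ (by positivity)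
        exact Real.rpow_le_rpow (by positivity) hLn hexp
    _ = ε * (c * (n : ℝ) ^ ((s : ℝ) / k - 1)) := by ring
    _ ≤ _ := mul_le_mul_of_nonneg_left h3 hε.le

end Pool.Agent.U142.WG
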