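import Mathlib
import Pool.Agent.U142.WG7
import Pool.Agent.W36.JL.J9

/-!
# Diagonal equations and Waring's problem in variables from sets orthogonal to polynomial phases
-/

set_option autoImplicit false

namespace Pool.Agent.U142.WG

open Finset Polynomial Filter Topology
open Pool.Agent.W41
open Pool.Agent.W41.FU hiding ee
open Pool.Agent.W36.GU (win)
open Pool.Agent.W36.GK (Sm GN_all)
open Pool.Agent.W36.GV (ex ph_poly phases)
open Pool.Agent.Helper602.MK (ee)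

/-- orthogonality to polynomial phases for a class with small Gowers norms -/
theorem poly_orthG {F : Set (ℤ → ℝ)} (hF : ∀ f ∈ F, ∀ n, |f n| ≤ 1) {k : ℕ} (H : Sm (k + 1) F) {ε : ℝ} (hε : 0 < ε) :
    ∃ X0 : ℕ, ∀ X : ℕ, X0 ≤ X → ∀ f ∈ F, ∀ M N : ℕ, M ≤ N → N ≤ X → ∀ P : ℝ[X], P.natDegree ≤ k →
      ‖∑ n ∈ Ioc M N, (f (n : ℕ) : ℂ) * ex (P.eval (n : ℝ))‖ ≤ ε * X := by
  obtain ⟨δ, hδ, h⟩ := phases k ε hε
  obtain ⟨X0, h0⟩ := H δ hδ
  refine ⟨X0 + 1, fun X hX f hf M N hMN hN P hP => ?_⟩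
  have h1 := h X (by omega) (win M N f) (Pool.Agent.W36.GU.win_abs (fun n => hF f hf n) _ _) (Pool.Agent.W36.GU.win_sup _ _ hN)
    (h0 X (by omega) f hf M N hMN hN) _ (ph_poly k P hP)
  have e : ∑ n ∈ Icc (1 : ℤ) X, (win M N f n : ℂ) * ex (P.eval (n : ℝ)) = ∑ n ∈ Ioc M N, (f (n : ℕ) : ℂ) * ex (P.eval (n : ℝ)) := by
    rw [Pool.Agent.W36.GU.sum_cast]
    symm
    have e1 : ∀ n ∈ Ioc M N, (f (n : ℕ) : ℂ) * ex (P.eval (n : ℝ)) = (win M N f (n : ℕ) : ℂ) * ex (P.eval (((n : ℕ) : ℤ) : ℝ)) := by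
      intro n hn
      rw [mem_Ioc] at hn
      unfold win
      rw [if_pos (by omega)]
      push_cast
      rfl
    rw [sum_congr rfl e1]
    apply sum_subset
    · intro n hn
      rw [mem_Ioc] at hn
      rw [mem_Icc]
      omega
    · intro n _ hn
      rw [mem_Ioc] at hn
      unfold win
      rw [if_neg (by omega)]
      simp
  rw [e] at h1
  exact h1

/-- the set `T` of natural numbers has density `δ` and its balanced indicator function is orthogonal to the phases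
`α P (n)`, uniformly in `α` and in the interval `[1, l]` -/
def Orth (P : ℤ[X]) (T : Set ℕ) (δ : ℝ) : Prop :=
  0 ≤ δ ∧ δ ≤ 1 ∧ ∀ η : ℝ, 0 < η → ∃ X0 : ℕ, ∀ X : ℕ, X0 ≤ X → ∀ l : ℕ, l ≤ X → ∀ α : ℝ,
    ‖∑ y : Fin X, ((Ix l T y - δ * Ix l Set.univ y : ℝ) : ℂ) * ee (α * ((P.eval (((y : ℕ) + 1 : ℕ) : ℤ) : ℤ) : ℝ))‖ ≤ η * X

open Classical in
theorem orth_of {F : Set (ℤ → ℝ)} (hF : ∀ f ∈ F, ∀ n, |f n| ≤ 1) {P : ℤ[X]} (H : Sm (P.natDegree + 1) F) {T : Set ℕ} {δ : ℝ}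
    (h0 : 0 ≤ δ) (h1 : δ ≤ 1) {f : ℤ → ℝ} (hf : f ∈ F) (hfT : ∀ n : ℕ, 1 ≤ n → f n = (if n ∈ T then 1 else 0) - δ) :
    Orth P T δ := by
  refine ⟨h0, h1, fun η hη => ?_⟩
  obtain ⟨X0, h⟩ := poly_orthG hF H hη
  refine ⟨X0, fun X hX l hl α => ?_⟩
  set Q : ℝ[X] := C α * P.map (Int.castRingHom ℝ) with hQ
  have hQd : Q.natDegree ≤ P.natDegree := by
    rw [hQ]
    exact (natDegree_C_mul_le _ _).trans natDegree_map_le
  have h3 := h X hX f hf 0 l (Nat.zero_le _) hl Q hQd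
  refine le_trans (le_of_eq ?_) h3
  congr 1
  have e1 : ∀ n : ℕ, ee (α * ((P.eval ((n : ℕ) : ℤ) : ℤ) : ℝ)) = ex (Q.eval (n : ℝ)) := by
    intro n
    have : Q.eval (n : ℝ) = α * ((P.eval ((n : ℕ) : ℤ) : ℤ) : ℝ) := by
      rw [hQ, eval_mul, eval_C]
      congr 1
      have := Polynomial.eval_intCast_map (Int.castRingHom ℝ) P (n : ℤ)
      simpa using this
    rw [this]
    rfl
  rw [Fin.sum_univ_eq_sum_range (fun y : ℕ => ((Ix l T y - δ * Ix l Set.univ y : ℝ) : ℂ) *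
      ee (α * ((P.eval ((y + 1 : ℕ) : ℤ) : ℤ) : ℝ))) X]
  have e2 : Ioc 0 l = (range l).image (fun y => y + 1) := by
    ext n
    rw [mem_Ioc, mem_image]
    constructor
    · intro h
      exact ⟨n - 1, by rw [mem_range]; omega, by omega⟩
    · rintro ⟨y, hy, rfl⟩
      rw [mem_range] at hy
      omega
  rw [e2, sum_image (by intro a _ b _ hab; simpa using hab)]
  symm
  apply sum_subset_zero_on_sdiff (range_subset_range.2 hl)
  · intro y hy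
    have hy' : y < X ∧ l ≤ y := by simpa using hy
    unfold Ix
    rw [if_neg (by omega), if_neg (by omega)]
    simp
  · intro y hy
    rw [mem_range] at hy
    rw [e1, hfT (y + 1) (by omega)]
    congr 2
    unfold Ix
    have a1 : (y + 1 ≤ l ∧ y + 1 ∈ (Set.univ : Set ℕ)) := ⟨by omega, Set.mem_univ _⟩
    rw [if_pos a1, mul_one]
    congr 1
    by_cases h : y + 1 ∈ T
    · rw [if_pos h, if_pos ⟨by omega, h⟩]
    · rw [if_neg h, if_neg (fun h' => h h'.2)]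

open Classical in
/-- changing the set on a set of density zero -/
theorem Orth.perturb {P : ℤ[X]} {T T' : Set ℕ} {δ : ℝ} (h : Orth P T δ)
    (hT : ∀ η : ℝ, 0 < η → ∃ X0 : ℕ, ∀ X : ℕ, X0 ≤ X → Pool.Agent.H499R2.ND.cnt (fun n => ¬ (n ∈ T ↔ n ∈ T')) X ≤ η * X) :
    Orth P T' δ := by
  refine ⟨h.1, h.2.1, fun η hη => ?_⟩
  obtain ⟨X1, h1⟩ := h.2.2 (η / 2) (by positivity)
  obtain ⟨X2, h2⟩ := hT (η / 2) (by positivity)
  refine ⟨X1 + X2, fun X hX l hl α => ?_⟩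
  have h3 := h1 X (by omega) l hl α
  have h4 := h2 X (by omega)
  rw [Pool.Agent.H499R2.ND.cnt_eq] at h4
  have e1 : ∑ y : Fin X, ((Ix l T' y - δ * Ix l Set.univ y : ℝ) : ℂ) * ee (α * ((P.eval (((y : ℕ) + 1 : ℕ) : ℤ) : ℤ) : ℝ)) =
      ∑ y : Fin X, ((Ix l T y - δ * Ix l Set.univ y : ℝ) : ℂ) * ee (α * ((P.eval (((y : ℕ) + 1 : ℕ) : ℤ) : ℤ) : ℝ)) +
      ∑ y : Fin X, ((Ix l T' y - Ix l T y : ℝ) : ℂ) * ee (α * ((P.eval (((y : ℕ) + 1 : ℕ) : ℤ) : ℤ) : ℝ)) := by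
    rw [← sum_add_distrib]
    apply sum_congr rfl; intro y _
    push_cast; ring
  rw [e1]
  refine (norm_add_le _ _).trans ?_
  have h5 : ‖∑ y : Fin X, ((Ix l T' y - Ix l T y : ℝ) : ℂ) * ee (α * ((P.eval (((y : ℕ) + 1 : ℕ) : ℤ) : ℤ) : ℝ))‖ ≤ η / 2 * X := by
    refine (norm_sum_le _ _).trans (le_trans ?_ h4)
    have h6 : ∀ y ∈ (univ : Finset (Fin X)), ‖((Ix l T' y - Ix l T y : ℝ) : ℂ) * ee (α * ((P.eval (((y : ℕ) + 1 : ℕ) : ℤ) : ℤ) : ℝ))‖ ≤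
        if ¬ ((y : ℕ) + 1 ∈ T ↔ (y : ℕ) + 1 ∈ T') then 1 else 0 := by
      intro y _
      rw [norm_mul, Pool.Agent.Helper602.MK.N_J5b.norm_ee, mul_one, Complex.norm_real, Real.norm_eq_abs]
      by_cases h7 : ((y : ℕ) + 1 ∈ T ↔ (y : ℕ) + 1 ∈ T')
      · rw [if_neg (not_not.2 h7)]
        have : Ix l T' y = Ix l T y := by unfold Ix; simp only [h7]
        rw [this, sub_self, abs_zero]
      · rw [if_pos h7]
        unfold Ix
        split_ifs <;> simp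
    refine (sum_le_sum h6).trans ?_
    rw [sum_boole]
    have h8 : ((univ : Finset (Fin X)).filter (fun y : Fin X => ¬ ((y : ℕ) + 1 ∈ T ↔ (y : ℕ) + 1 ∈ T'))).card ≤
        ((Icc 1 X).filter (fun n => ¬ (n ∈ T ↔ n ∈ T'))).card := by
      apply card_le_card_of_injOn (fun y : Fin X => (y : ℕ) + 1)
      · intro y hy
        rw [mem_coe, mem_filter] at hy
        rw [mem_coe, mem_filter, mem_Icc]
        exact ⟨⟨Nat.succ_le_succ (Nat.zero_le _), y.2⟩, hy.2⟩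
      · intro y _ y' _ hyy
        simp only at hyy
        ext; omega
    exact_mod_cast h8
  linarith

/-- Diagonal equations. -/
theorem orth_diag (P : ℤ[X]) (hP : 1 ≤ P.natDegree) : ∃ s₀ : ℕ, ∀ s : ℕ, s₀ ≤ s → ∀ T : Fin s → Set ℕ, ∀ δ : Fin s → ℝ,
    (∀ i, Orth P (T i) (δ i)) → ∀ ε : ℝ, 0 < ε →
    ∃ L₀ : ℕ, ∀ L : ℕ, L₀ ≤ L → ∀ l : Fin s → ℕ, (∀ i, l i ≤ L) → ∀ a : Fin s → ℤ, (∀ i, a i ≠ 0) → ∀ m : ℤ,
    |(sol P a l T m : ℝ) - (∏ i, δ i) * sol P a l (fun _ => Set.univ) m| * (L : ℝ) ^ P.natDegree ≤ ε * (L : ℝ) ^ s := by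
  classical
  obtain ⟨s₀, H⟩ := diag P hP
  refine ⟨s₀, fun s hs T δ hT ε hε => ?_⟩
  obtain ⟨C, hC, H⟩ := H s hs
  choose X0 hX0 using fun i => (hT i).2.2 (ε / C) (by positivity)
  refine ⟨∑ i, X0 i + 1, fun L hL l hl a ha m => ?_⟩
  have hXi : ∀ i, X0 i ≤ L := fun i => (single_le_sum (f := X0) (fun _ _ => Nat.zero_le _) (mem_univ i)).trans (by omega)
  have h1 := H a ha L (by omega) (ε / C) (by positivity)
    (fun i (y : Fin L) => Ix (l i) (T i) y)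
    (fun i (y : Fin L) => δ i * Ix (l i) Set.univ y)
    (fun i y => Ix_abs _ _ _)
    (by
      intro i y
      rw [abs_mul, abs_of_nonneg (hT i).1]
      exact mul_le_one₀ (hT i).2.1 (abs_nonneg _) (Ix_abs _ _ _))
    (fun i α => hX0 i L (hXi i) (l i) (hl i) α) m
  rw [Rw_smul, ← sol_eq P a l hl T, ← sol_eq P a l hl (fun _ => Set.univ),
    mul_div_cancel₀ _ hC.ne'] at h1
  exact h1

/-- Waring's problem. -/
theorem orth_waring (k : ℕ) (hk : 1 ≤ k) : ∃ s₀ : ℕ, ∀ s : ℕ, s₀ ≤ s → ∀ T : Fin s → Set ℕ, ∀ δ : Fin s → ℝ,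
    (∀ i, Orth (X ^ k) (T i) (δ i)) → ∀ ε : ℝ, 0 < ε → ∃ n₀ : ℕ, ∀ n : ℕ, n₀ ≤ n →
    |(reps k s n T : ℝ) - (∏ i, δ i) * reps k s n (fun _ => Set.univ)| ≤ ε * reps k s n (fun _ => Set.univ) := by
  obtain ⟨s₁, H1⟩ := waring_lower k hk
  obtain ⟨s₂, H2⟩ := orth_diag (X ^ k) (by simpa using hk)
  have hk0 : (0 : ℝ) < k := by exact_mod_cast hk
  refine ⟨s₁ + s₂ + k, fun s hs T δ hT ε hε => ?_⟩
  obtain ⟨c, hc, n₁, h1⟩ := H1 s (by omega)
  obtain ⟨L₀, h2⟩ := H2 s (by omega) T δ hT (ε * c) (by positivity)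
  refine ⟨n₁ + (L₀ + 1) ^ k + 1, fun n hn => ?_⟩
  obtain ⟨L, hL1, hL2⟩ := exists_root k n hk
  have hL : L₀ + 1 ≤ L := by
    by_contra h
    push Not at h
    have : (L + 1) ^ k ≤ (L₀ + 1) ^ k := Nat.pow_le_pow_left (by omega) _
    omega
  have hL0 : (0 : ℝ) < L := by exact_mod_cast (by omega : 0 < L)
  have hn1 : (0 : ℝ) < n := by exact_mod_cast (by omega : 0 < n)
  have h3 := h1 n (by omega)
  have h4 := h2 L (by omega) (fun _ => L) (fun _ => le_rfl) (fun _ => 1) (fun _ => one_ne_zero) n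
  rw [← reps_sol hL2, ← reps_sol hL2, natDegree_X_pow] at h4
  have hexp : (0 : ℝ) ≤ (s : ℝ) / k - 1 := by
    rw [sub_nonneg, le_div_iff₀ hk0, one_mul]
    exact_mod_cast (by omega : k ≤ s)
  have h5 : (L : ℝ) ^ s = ((L : ℝ) ^ k) ^ ((s : ℝ) / k - 1) * (L : ℝ) ^ k := by
    have e1 : ((L : ℝ) ^ k) ^ ((s : ℝ) / k - 1) = (L : ℝ) ^ (s - k) := by
      rw [← Real.rpow_natCast, ← Real.rpow_mul hL0.le, ← Real.rpow_natCast]
      congr 1
      rw [Nat.cast_sub (by omega)]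
      field_simp
    rw [e1, ← pow_add]
    congr 1; omega
  rw [h5, ← mul_assoc] at h4
  have h6 := le_of_mul_le_mul_right h4 (by positivity)
  refine h6.trans ?_
  have hLn : (L : ℝ) ^ k ≤ n := by exact_mod_cast hL1
  calc ε * c * ((L : ℝ) ^ k) ^ ((s : ℝ) / k - 1) ≤ ε * c * (n : ℝ) ^ ((s : ℝ) / k - 1) := by
        apply mul_le_mul_of_nonneg_left _ (by positivity)
        exact Real.rpow_le_rpow (by positivity) hLn hexp
    _ = ε * (c * (n : ℝ) ^ ((s : ℝ) / k - 1)) := by ring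
    _ ≤ _ := mul_le_mul_of_nonneg_left h3 hε.le

end Pool.Agent.U142.WG
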