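import Mathlib
import Pool.Agent.U142.WG8
import Pool.Agent.H499R2.NDLln3

/-!
# Sets of natural numbers orthogonal to polynomial phases: closure properties and examples
-/

set_option autoImplicit false

namespace Pool.Agent.U142.WG

open Finset Polynomial Filter Topology
open Pool.Agent.W41
open Pool.Agent.W41.FU hiding ee
open Pool.Agent.W36.GK (Sm GN_all)
open Pool.Agent.W36.JL (FF FF_hyp EB bd SX bal_nat dens_mem)
open Pool.Agent.H499R2.ND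
open Pool.Agent.Helper602.MK (ee)

theorem Orth.compl {P : ℤ[X]} {T : Set ℕ} {δ : ℝ} (h : Orth P T δ) : Orth P Tᶜ (1 - δ) := by
  classical
  refine ⟨by linarith [h.2.1], by linarith [h.1], fun η hη => ?_⟩
  obtain ⟨X0, h1⟩ := h.2.2 η hη
  refine ⟨X0, fun X hX l hl α => ?_⟩
  have h2 := h1 X hX l hl α
  rw [← norm_neg, ← sum_neg_distrib] at h2
  refine le_trans (le_of_eq ?_) h2
  congr 1
  apply sum_congr rfl
  intro y _
  rw [← neg_mul]
  congr 1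
  rw [← Complex.ofReal_neg]
  congr 1
  have : Ix l Tᶜ y + Ix l T y = Ix l Set.univ y := by
    unfold Ix
    by_cases h3 : (y : ℕ) + 1 ≤ l
    · by_cases h4 : (y : ℕ) + 1 ∈ T
      · rw [if_neg (fun h5 => h5.2 h4), if_pos ⟨h3, h4⟩, if_pos ⟨h3, Set.mem_univ _⟩]; simp
      · rw [if_pos ⟨h3, h4⟩, if_neg (fun h5 => h4 h5.2), if_pos ⟨h3, Set.mem_univ _⟩]; simp
    · rw [if_neg (fun h5 => h3 h5.1), if_neg (fun h5 => h3 h5.1), if_neg (fun h5 => h3 h5.1)]; simp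
  linarith

theorem Orth.diff {P : ℤ[X]} {T T' : Set ℕ} {δ δ' : ℝ} (h : Orth P T δ) (h' : Orth P T' δ') (hsub : T' ⊆ T)
    (hd : δ' ≤ δ) : Orth P (T \ T') (δ - δ') := by
  classical
  refine ⟨by linarith, by linarith [h.2.1, h'.1], fun η hη => ?_⟩
  obtain ⟨X0, h1⟩ := h.2.2 (η / 2) (by positivity)
  obtain ⟨X1, h2⟩ := h'.2.2 (η / 2) (by positivity)
  refine ⟨X0 + X1, fun X hX l hl α => ?_⟩
  have h3 := h1 X (by omega) l hl α
  have h4 := h2 X (by omega) l hl α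
  have e1 : ∑ y : Fin X, ((Ix l (T \ T') y - (δ - δ') * Ix l Set.univ y : ℝ) : ℂ) * ee (α * ((P.eval (((y : ℕ) + 1 : ℕ) : ℤ) : ℤ) : ℝ)) =
      ∑ y : Fin X, ((Ix l T y - δ * Ix l Set.univ y : ℝ) : ℂ) * ee (α * ((P.eval (((y : ℕ) + 1 : ℕ) : ℤ) : ℤ) : ℝ)) -
      ∑ y : Fin X, ((Ix l T' y - δ' * Ix l Set.univ y : ℝ) : ℂ) * ee (α * ((P.eval (((y : ℕ) + 1 : ℕ) : ℤ) : ℤ) : ℝ)) := by
    rw [← sum_sub_distrib]
    apply sum_congr rfl; intro y _
    have : Ix l (T \ T') y = Ix l T y - Ix l T' y := by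
      unfold Ix
      by_cases h5 : (y : ℕ) + 1 ≤ l
      · by_cases h6 : (y : ℕ) + 1 ∈ T'
        · rw [if_neg (fun h7 => h7.2.2 h6), if_pos ⟨h5, hsub h6⟩, if_pos ⟨h5, h6⟩]; simp
        · by_cases h7 : (y : ℕ) + 1 ∈ T
          · rw [if_pos ⟨h5, h7, h6⟩, if_pos ⟨h5, h7⟩, if_neg (fun h8 => h6 h8.2)]; simp
          · rw [if_neg (fun h8 => h7 h8.2.1), if_neg (fun h8 => h7 h8.2), if_neg (fun h8 => h6 h8.2)]; simp
      · rw [if_neg (fun h8 => h5 h8.1), if_neg (fun h8 => h5 h8.1), if_neg (fun h8 => h5 h8.1)]; simp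
    rw [this]
    push_cast; ring
  rw [e1]
  refine (norm_sub_le _ _).trans ?_
  linarith

/-- a property which holds on the set up to a set of density zero -/
theorem Orth.inter {P : ℤ[X]} {T : Set ℕ} {δ : ℝ} (h : Orth P T δ) {Q : ℕ → Prop}
    (hQ : Dn (fun n => n ∈ T ∧ ¬ Q n) 0) : Orth P {n | n ∈ T ∧ Q n} δ := by
  classical
  refine h.perturb fun η hη => ?_
  obtain ⟨X0, h1⟩ := (zd_iff.1 hQ η hη).exists_forall_of_atTop
  refine ⟨X0, fun X hX => ?_⟩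
  refine (cnt_mono X fun n _ _ hn => ?_).trans (h1 X hX)
  simp only [Set.mem_ofPred_eq] at hn
  tauto

/-- a property of the positive integers invariant under the map -/
theorem orth_inv (P : ℤ[X]) {R : ℕ → Prop} (hR : ∀ n : ℕ, 1 ≤ n → (R n ↔ R (Tn n))) {δ : ℝ} (hδ : Dn R δ) :
    Orth P {n | R n} δ := by
  classical
  obtain ⟨l, hl0, hl1, hl⟩ := dens_side odd_one isCoprime_one_left (Or.inl rfl : (1 : ℤ) = 1 ∨ _) (NS_inv hR)
  have hlδ : l = δ := by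
    have h1 := HD_ncard (Or.inl rfl) hl
    simp only [NS_ncard] at h1
    exact tendsto_nhds_unique h1 hδ
  rw [← hlδ]
  have hF : ∀ f ∈ Pool.Agent.W36.GU.Bal 1, ∀ n, |f n| ≤ 1 := fun f hf n => Pool.Agent.W36.GU.Bal_abs (Or.inl rfl) hf n
  have hmem : bal 1 (NS R) l ∈ Pool.Agent.W36.GU.Bal 1 := ⟨_, NS_inv hR, l, hl, rfl⟩
  refine orth_of hF (GN_all (Pool.Agent.W36.GU.Bal_hyp (Or.inl rfl)) P.natDegree) hl0 hl1 hmem fun n hn => ?_
  unfold bal ind NS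
  have h1 : (1 : ℤ) ≤ n := by exact_mod_cast hn
  simp only [one_mul, Set.mem_ofPred_eq, h1, true_and, Int.toNat_natCast]

/-- the level sets of the total stopping time -/
theorem orth_level (P : ℤ[X]) {δ : ℝ} (hδ0 : 0 < δ) (hδ1 : δ ≤ 1) {m : ℕ} (hm : 1 ≤ m)
    (hlaw : ∀ a : ℤ, ∀ x : ℝ, Dn (fun n => EB m a (bd x n) n) (δ * Phi x / m)) (a : ℤ) (x : ℝ) :
    Orth P {n | EB m a (bd x n) n} (δ * Phi x / m) := by
  classical
  have hd := dens_mem hδ0 hδ1 hm x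
  have hF : ∀ f ∈ FF (r := 1) δ m (fun _ => a) (fun _ => x), ∀ n, |f n| ≤ 1 :=
    (FF_hyp hδ0 hδ1 hm (fun _ : Fin 1 => a) (fun _ => x) hlaw).abs
  refine orth_of hF (GN_all (FF_hyp hδ0 hδ1 hm (fun _ : Fin 1 => a) (fun _ => x) hlaw) P.natDegree) hd.1 hd.2
    (f := bal 1 (SX m a x) (δ * Phi x / m)) ⟨0, rfl⟩ fun n hn => ?_
  rw [bal_nat m a x _ hn]
  rfl

end Pool.Agent.U142.WG
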